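import Pool.Agent.Lib.MP_e426f4_ag.M.Defs

/-!
# Cyclic covers `w ^ k = f(x)`: definitions

`f = F A` is a form of degree `d = k * m` in `n + 1` variables (later: a multihomogeneous form of
multidegree `k * m i`).
-/

namespace CovHP

open GenHP Finset Filter Topology

/-- The cyclic cover `w ^ k = F A x` has a rational point. -/
def KSol (k : ℕ) {n d : ℕ} (A : Idx n d → ℤ) : Prop :=
  ∃ x : Fin (n + 1) → ℚ, x ≠ 0 ∧ ∃ w : ℚ, w ^ k = F (fun t => (A t : ℚ)) x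

section single

/-- Data of a local class: a real point and congruence conditions. -/
structure KPar (n d : ℕ) where
  /-- centre of the cube of forms -/
  AC : Idx n d → ℝ
  /-- real point where the form `AC` is positive -/
  xi : Fin (n + 1) → ℝ
  /-- half side of the box of points -/
  kap : ℝ
  /-- half side of the cube of forms -/
  rho : ℝ
  /-- product of the small primes -/
  W : ℕ
  /-- modulus for the last coordinate `w` -/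
  P : ℕ
  /-- modulus for the forms and the points -/
  Q : ℕ
  /-- residue class of the forms -/
  A0 : Idx n d → ℤ
  /-- residue class of the points -/
  x0 : Fin (n + 1) → ℤ
  /-- residue class of the last coordinate -/
  w0 : ℤ

variable {n d : ℕ}

/-- the value of the central form at the real point -/
def KPar.vi (p : KPar n d) : ℝ := F p.AC p.xi

/-- Forms of the class in the cube with centre `H * AC` and half side `r * H`. -/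
def KPar.Cl (p : KPar n d) (r H : ℝ) : Set (Idx n d → ℤ) :=
  {A | (∀ t, |(A t : ℝ) - H * p.AC t| ≤ r * H) ∧ ∀ t, (p.Q : ℤ) ∣ A t - p.A0 t}

/-- Points of the class. -/
def KPar.XX (p : KPar n d) (B : ℕ) : Set (Fin (n + 1) → ℤ) :=
  {x | (∀ i, |(x i : ℝ) - B * p.xi i| ≤ p.kap * B) ∧ ∀ i, (p.Q : ℤ) ∣ x i - p.x0 i}

/-- Primitive well-rounded points of the class. -/
def KPar.GG (p : KPar n d) (K : ℝ) (B : ℕ) : Set (Fin (n + 1) → ℤ) :=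
  {x | x ∈ p.XX B ∧ Prim x ∧ Good K B x}

/-- Last coordinates of the class. -/
def KPar.WW (p : KPar n d) : Set ℤ := {w | 0 < w ∧ (p.P : ℤ) ∣ w - p.w0}

/-- The exponent of the height function. -/
noncomputable def kc (n k m : ℕ) : ℝ :=
  (8 * (k : ℝ) - 7) / (8 * (k : ℝ)) / ((n : ℝ) + 1 - (m : ℝ) * ((k : ℝ) - 1))

/-- The height of the points. -/
noncomputable def Bk (n k m : ℕ) (H : ℝ) : ℕ := ⌊H ^ kc n k m⌋₊

/-- Hensel data for `w ↦ w ^ k` on the class `w ≡ w0 (P)`: `w ^ k` runs with unit speed through the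
multiples of `Q` (up to a translation). -/
def HensK (P Q W k : ℕ) (w0 : ℤ) : Prop :=
  P ∣ Q ∧ W ∣ Q ∧ (∃ s : ℕ, Q = W ^ s) ∧
  ∀ t c : ℤ, ∃ e : ℤ, IsCoprime e (W : ℤ) ∧
    (w0 + P * (t + c)) ^ k - (w0 + P * t) ^ k = Q * c * e

/-- Validity of the data of a class. -/
structure KPar.Valid (p : KPar n d) (k m : ℕ) (eps bet : ℝ) (w : ℕ) : Prop where
  n_ge : 2 ≤ n
  k_ge : 2 ≤ k
  m_ge : 1 ≤ m
  d_eq : d = k * m
  fano : m * (k - 1) ≤ n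
  eps_pos : 0 < eps
  eps_le : eps ≤ 1 / 10
  bet_pos : 0 < bet
  bet_le : bet ≤ 1
  w_two : 2 ≤ w
  kap_pos : 0 < p.kap
  kap_le : p.kap ≤ 1 / 10
  rho_pos : 0 < p.rho
  rho_le : p.rho ≤ 1
  AC_le : ∀ t, |p.AC t| ≤ 1
  xi_le : ∀ i, |p.xi i| ≤ 1
  xi_eq : ∃ i, |p.xi i| = 1
  vi_ge : bet ≤ p.vi
  rk : ∀ H : ℝ, 0 < H → ∀ B : ℕ, 1 ≤ B → ∀ A : Idx n d → ℤ,
    (∀ t, |(A t : ℝ) - H * p.AC t| ≤ 2 * p.rho * H) → ∀ x ∈ p.XX B,
    |((F A x : ℤ) : ℝ) - H * (B : ℝ) ^ d * p.vi| ≤ eps / 8 * (H * (B : ℝ) ^ d * p.vi)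
  W_pos : 0 < p.W
  W_primes : ∀ q : ℕ, q.Prime → (q ∣ p.W ↔ q ≤ w)
  Q_pos : 0 < p.Q
  P_pos : 0 < p.P
  hens : HensK p.P p.Q p.W k p.w0
  A0x0 : (p.Q : ℤ) ∣ F p.A0 p.x0 - p.w0 ^ k
  x0_unimod : ∃ c : Fin (n + 1) → ℤ, IsCoprime (∑ i, c i * p.x0 i) (p.W : ℤ)

/-- The size of the values `F A x`. -/
noncomputable def KPar.VV (p : KPar n d) (k m : ℕ) (H : ℝ) : ℝ :=
  H * (Bk n k m H : ℝ) ^ d * p.vi

/-- Expected number of `w` over one point. -/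
noncomputable def KPar.lam (p : KPar n d) (k m : ℕ) (H : ℝ) : ℝ :=
  p.Q / (p.P * k) * (p.VV k m H ^ (1 / (k : ℝ)) / p.VV k m H)

/-- Expected number of points of the class in a box of height `B`. -/
noncomputable def KPar.NX (p : KPar n d) (B : ℕ) : ℝ := (2 * p.kap * B / p.Q) ^ (n + 1)

/-- Expected number of solutions. -/
noncomputable def KPar.TT (p : KPar n d) (k m : ℕ) (H : ℝ) : ℝ :=
  p.NX (Bk n k m H) * p.lam k m H

/-- Expected number of forms in the class with radius `r`. -/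
noncomputable def KPar.XR (p : KPar n d) (r H : ℝ) : ℝ := (2 * r * H / p.Q) ^ NN n d

/-- Solutions `(A, w)` over one point. -/
def KPar.P1 (p : KPar n d) (k : ℕ) (r H : ℝ) (x : Fin (n + 1) → ℤ) : Set ((Idx n d → ℤ) × ℤ) :=
  {q | q.1 ∈ p.Cl r H ∧ q.2 ∈ p.WW ∧ F q.1 x = q.2 ^ k}

/-- Solutions `(A, w, w')` over two points. -/
def KPar.P2 (p : KPar n d) (k : ℕ) (r H : ℝ) (x y : Fin (n + 1) → ℤ) :
    Set ((Idx n d → ℤ) × ℤ × ℤ) :=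
  {q | q.1 ∈ p.Cl r H ∧ q.2.1 ∈ p.WW ∧ q.2.2 ∈ p.WW ∧ F q.1 x = q.2.1 ^ k ∧ F q.1 y = q.2.2 ^ k}

/-- Bad pairs of points. -/
def BadPr (G : ℕ) (tau : ℝ) (B : ℕ) (x y : Fin (n + 1) → ℤ) : Prop :=
  G < mg x y ∨ (dl x y : ℝ) < tau * (B : ℝ) ^ 2

/-- constant of the translation over one point -/
noncomputable def KPar.cT (p : KPar n d) : ℝ := 2 ^ d * p.vi + 1

/-- constant of the translation over two points -/
noncomputable def KPar.cP (p : KPar n d) : ℝ := 2 ^ (d + 3) * p.vi + 1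

/-- Number of solutions `(x, w)` for one form. -/
noncomputable def KPar.NA (p : KPar n d) (k : ℕ) (K : ℝ) (B : ℕ) (A : Idx n d → ℤ) : ℕ :=
  Set.ncard {z : (Fin (n + 1) → ℤ) × ℤ | z.1 ∈ p.GG K B ∧ z.2 ∈ p.WW ∧ F A z.1 = z.2 ^ k}

/-- `psi q` bounds the number of solutions of `b ^ k ≡ v (mod q)`. -/
def PsiBound (k : ℕ) (psi : ℕ → ℝ) : Prop :=
  (∀ q, 0 ≤ psi q) ∧ psi 1 ≤ 1 ∧ ∀ q : ℕ, 1 ≤ q → ∀ v : ℤ,
    (Set.ncard {b : ℤ | 0 ≤ b ∧ b < q ∧ (q : ℤ) ∣ b ^ k - v} : ℝ) ≤ psi q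

/-- The function `psi` used for `P ^ n`. -/
def PsiOK (n : ℕ) (psi : ℕ → ℝ) : Prop :=
  (3 ≤ n ∧ ∀ q : ℕ, psi q = q) ∨
    (n = 2 ∧ ∃ C : ℝ, 1 ≤ C ∧ ∀ q : ℕ, psi q = if q = 1 then 1 else C * (q : ℝ) ^ (7 / 10 : ℝ))

end single

/-! ### Several blocks -/

section multi
variable {ι : Type} [Fintype ι] [DecidableEq ι] {n d : ι → ℕ}

/-- The cyclic cover `w ^ k = MF A z` of the product of projective spaces has a rational point. -/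
def MKSol (k : ℕ) (A : MIdx n d → ℤ) : Prop :=
  ∃ z : MVar n → ℚ, BNZ z ∧ ∃ w : ℚ, w ^ k = MF (fun t => (A t : ℚ)) z

/-- The cyclic cover is everywhere locally soluble. -/
def MKELS (k : ℕ) (A : MIdx n d → ℤ) : Prop :=
  (∃ z : MVar n → ℝ, BNZ z ∧ ∃ w : ℝ, w ^ k = MF (fun t => (A t : ℝ)) z) ∧
    ∀ (p : ℕ) [Fact p.Prime],
      ∃ z : MVar n → ℚ_[p], BNZ z ∧ ∃ w : ℚ_[p], w ^ k = MF (fun t => (A t : ℚ_[p])) z

/-- A good `p`-adic point modulo `p ^ (2 l)`. -/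
def KGoodP (k p l : ℕ) (A : MIdx n d → ℤ) : Prop :=
  ∃ z : MVar n → ℤ, BUnit p z ∧ ∃ w : ℤ, (p : ℤ) ^ (2 * l) ∣ MF A z - w ^ k ∧
    ¬ (p : ℤ) ^ l ∣ k * w ^ (k - 1)

/-- A good real point. -/
def KGoodR (g : ℝ) (A : MIdx n d → ℝ) : Prop :=
  ∃ z : MVar n → ℝ, BNorm z ∧ g ≤ MF A z

/-- A good real point of `A`, or of `-A` for odd `k`. -/
def KGoodR' (k : ℕ) (g : ℝ) (A : MIdx n d → ℝ) : Prop :=
  KGoodR g A ∨ (Odd k ∧ KGoodR g fun t => -A t)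

/-- The class theorem for cyclic covers. -/
def KCLS (n d : ι → ℕ) (k : ℕ) : Prop :=
  ∀ eps : ℝ, 0 < eps → ∃ w1 : ℕ, ∀ w : ℕ, w1 ≤ w → 2 ≤ w → ∀ bet : ℝ, 0 < bet → bet ≤ 1 →
    ∃ rho0 : ℝ, 0 < rho0 ∧ rho0 ≤ 1 ∧ ∀ rho : ℝ, 0 < rho → rho ≤ rho0 → ∀ l : ℕ, 1 ≤ l →
      ∀ A0 : MIdx n d → ℤ, (∀ p : ℕ, p.Prime → p ≤ w → KGoodP k p l A0) →
      ∀ AC : MIdx n d → ℝ, (∀ t, |AC t| ≤ 1) → KGoodR bet AC →
      ∀ᶠ H : ℝ in atTop,
        (Set.ncard {A : MIdx n d → ℤ | (∀ t, |(A t : ℝ) - H * AC t| ≤ rho * H) ∧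
          (∀ t, ((primorial w : ℤ) ^ (2 * l)) ∣ A t - A0 t) ∧ ¬ MKSol k A} : ℝ) ≤
          eps * (2 * rho * H / (primorial w : ℝ) ^ (2 * l)) ^ NM n d

/-- The class theorem for cyclic covers, both signs. -/
def KCLS' (n d : ι → ℕ) (k : ℕ) : Prop :=
  ∀ eps : ℝ, 0 < eps → ∃ w1 : ℕ, ∀ w : ℕ, w1 ≤ w → 2 ≤ w → ∀ bet : ℝ, 0 < bet → bet ≤ 1 →
    ∃ rho0 : ℝ, 0 < rho0 ∧ rho0 ≤ 1 ∧ ∀ rho : ℝ, 0 < rho → rho ≤ rho0 → ∀ l : ℕ, 1 ≤ l →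
      ∀ A0 : MIdx n d → ℤ, (∀ p : ℕ, p.Prime → p ≤ w → KGoodP k p l A0) →
      ∀ AC : MIdx n d → ℝ, (∀ t, |AC t| ≤ 1) → KGoodR' k bet AC →
      ∀ᶠ H : ℝ in atTop,
        (Set.ncard {A : MIdx n d → ℤ | (∀ t, |(A t : ℝ) - H * AC t| ≤ rho * H) ∧
          (∀ t, ((primorial w : ℤ) ^ (2 * l)) ∣ A t - A0 t) ∧ ¬ MKSol k A} : ℝ) ≤
          eps * (2 * rho * H / (primorial w : ℝ) ^ (2 * l)) ^ NM n d

end multi

end CovHP
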