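import Pool.Agent.Lib.MP_e426f4_ag.K.Defs
import Pool.Agent.Lib.MP_e426f4_ag.G.Basic
import Pool.Agent.Lib.MP_e426f4_ag.G.Alg

/-! Module K-BAS: finiteness and double counting. -/

namespace CovHP

open GenHP Finset Filter Topology

variable {n d : ℕ}

theorem ncard_fib {α β : Type*} (S : Set α) (hS : S.Finite) (R : α → Set β)
    (hR : ∀ a ∈ S, (R a).Finite) :
    {q : α × β | q.1 ∈ S ∧ q.2 ∈ R q.1}.Finite ∧
      {q : α × β | q.1 ∈ S ∧ q.2 ∈ R q.1}.ncard = ∑ a ∈ hS.toFinset, (R a).ncard := by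
  classical
  have hR' : ∀ a : α, (if a ∈ S then R a else ∅ : Set β).Finite := by
    intro a
    split_ifs with h
    · exact hR a h
    · exact Set.finite_empty
  set RF : α → Finset β := fun a => (hR' a).toFinset with hRF
  have hset : {q : α × β | q.1 ∈ S ∧ q.2 ∈ R q.1} =
      ((hS.toFinset.sigma RF).image fun q => ((q.1, q.2) : α × β) : Finset (α × β)) := by
    ext ⟨a, b⟩
    simp only [Set.mem_ofPred_eq, Finset.coe_image, Set.mem_image, Finset.mem_coe,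
      Finset.mem_sigma, Set.Finite.mem_toFinset, hRF, Prod.mk.injEq, Sigma.exists]
    constructor
    · rintro ⟨h1, h2⟩
      exact ⟨a, b, ⟨h1, by rw [if_pos h1]; exact h2⟩, rfl, rfl⟩
    · rintro ⟨a', b', ⟨h1, h2⟩, rfl, rfl⟩
      rw [if_pos h1] at h2
      exact ⟨h1, h2⟩
  refine ⟨by rw [hset]; exact Finset.finite_toSet _, ?_⟩
  rw [hset, Set.ncard_coe_finset, Finset.card_image_of_injective, Finset.card_sigma]
  · refine Finset.sum_congr rfl fun a ha => ?_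
    have haS : a ∈ S := (Set.Finite.mem_toFinset hS).1 ha
    rw [Set.ncard_eq_toFinset_card _ (hR a haS)]
    congr 1
    ext b
    simp [hRF, haS]
  · rintro ⟨a, b⟩ ⟨a', b'⟩ h
    simp only [Prod.mk.injEq] at h
    obtain ⟨rfl, rfl⟩ := h
    rfl

theorem Cl_finite (p : KPar n d) (r H : ℝ) : (p.Cl r H).Finite := by
  obtain ⟨C, hC⟩ : ∃ C : ℝ, ∀ m, |H * p.AC m| ≤ C := by
    refine ⟨∑ m, |H * p.AC m|, fun m => ?_⟩
    exact Finset.single_le_sum (f := fun m => |H * p.AC m|) (fun _ _ => abs_nonneg _)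
      (Finset.mem_univ m)
  refine finite_of_abs_le _ (C + r * H) ?_
  intro A hA m
  have h1 := hA.1 m
  calc |(A m : ℝ)| = |H * p.AC m + ((A m : ℝ) - H * p.AC m)| := by ring_nf
    _ ≤ |H * p.AC m| + |(A m : ℝ) - H * p.AC m| := abs_add_le _ _
    _ ≤ C + r * H := add_le_add (hC m) h1

theorem XX_finite (p : KPar n d) (B : ℕ) : (p.XX B).Finite := by
  obtain ⟨C, hC⟩ : ∃ C : ℝ, ∀ m, |(B : ℝ) * p.xi m| ≤ C := by
    refine ⟨∑ m, |(B : ℝ) * p.xi m|, fun m => ?_⟩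
    exact Finset.single_le_sum (f := fun m => |(B : ℝ) * p.xi m|) (fun _ _ => abs_nonneg _)
      (Finset.mem_univ m)
  refine finite_of_abs_le _ (C + p.kap * B) ?_
  intro x hx i
  have h1 := hx.1 i
  calc |(x i : ℝ)| = |B * p.xi i + ((x i : ℝ) - B * p.xi i)| := by ring_nf
    _ ≤ |(B : ℝ) * p.xi i| + |(x i : ℝ) - B * p.xi i| := abs_add_le _ _
    _ ≤ C + p.kap * B := add_le_add (hC i) h1

theorem GG_finite (p : KPar n d) (K : ℝ) (B : ℕ) : (p.GG K B).Finite :=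
  (XX_finite p B).subset fun _ hx => hx.1

theorem Cl_mono (p : KPar n d) {r r' H : ℝ} (hr : r ≤ r') (hH : 0 ≤ H) : p.Cl r H ⊆ p.Cl r' H :=
  fun _ hA => ⟨fun t => (hA.1 t).trans (mul_le_mul_of_nonneg_right hr hH), hA.2⟩

/-- positive integers with bounded `k`-th power form a finite set -/
theorem finite_pow_le (k : ℕ) (hk : 1 ≤ k) (v : ℤ) : {u : ℤ | 0 < u ∧ u ^ k = v}.Finite := by
  refine (Set.finite_Icc (0 : ℤ) v).subset ?_
  rintro u ⟨h1, h2⟩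
  refine ⟨h1.le, ?_⟩
  rw [← h2]
  exact le_self_pow₀ (by omega) (by omega)

theorem P1_finite (p : KPar n d) {k : ℕ} (hk : 1 ≤ k) (r H : ℝ) (x : Fin (n + 1) → ℤ) :
    (p.P1 k r H x).Finite := by
  have h := (ncard_fib (p.Cl r H) (Cl_finite p r H) (fun A => {u : ℤ | 0 < u ∧ u ^ k = F A x})
    fun A _ => finite_pow_le k hk _).1
  refine h.subset ?_
  rintro ⟨A, u⟩ ⟨h1, h2, h3⟩
  exact ⟨h1, h2.1, h3.symm⟩

theorem P1_mono (p : KPar n d) (k : ℕ) {r r' H : ℝ} (hr : r ≤ r') (hH : 0 ≤ H)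
    (x : Fin (n + 1) → ℤ) : p.P1 k r H x ⊆ p.P1 k r' H x :=
  fun _ hq => ⟨Cl_mono p hr hH hq.1, hq.2⟩

theorem P2_finite (p : KPar n d) {k : ℕ} (hk : 1 ≤ k) (r H : ℝ) (x y : Fin (n + 1) → ℤ) :
    (p.P2 k r H x y).Finite := by
  have h := (ncard_fib (p.Cl r H) (Cl_finite p r H)
    (fun A => {u : ℤ | 0 < u ∧ u ^ k = F A x} ×ˢ {u : ℤ | 0 < u ∧ u ^ k = F A y})
    fun A _ => (finite_pow_le k hk _).prod (finite_pow_le k hk _)).1
  refine h.subset ?_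
  rintro ⟨A, u, u'⟩ ⟨h1, h2, h3, h4, h5⟩
  exact ⟨h1, ⟨h2.1, h4.symm⟩, ⟨h3.1, h5.symm⟩⟩

theorem pow_inj_pos {k : ℕ} (hk : 1 ≤ k) {u u' : ℤ} (hu : 0 < u) (hu' : 0 < u')
    (h : u ^ k = u' ^ k) : u = u' :=
  (pow_left_inj₀ hu.le hu'.le (by omega)).mp h

theorem P2_self (p : KPar n d) {k : ℕ} (hk : 1 ≤ k) (r H : ℝ) (x : Fin (n + 1) → ℤ) :
    (p.P2 k r H x x).ncard = (p.P1 k r H x).ncard := by
  have hset : p.P2 k r H x x = (fun q : (Idx n d → ℤ) × ℤ => (q.1, q.2, q.2)) '' p.P1 k r H x := by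
    ext ⟨A, u, u'⟩
    constructor
    · rintro ⟨h1, h2, h3, h4, h5⟩
      have h6 : u = u' := pow_inj_pos hk h2.1 h3.1 (by
        have h4' : F A x = u ^ k := h4
        have h5' : F A x = u' ^ k := h5
        rw [← h4', ← h5'])
      subst h6
      exact ⟨(A, u), ⟨h1, h2, h4⟩, rfl⟩
    · rintro ⟨⟨A', v⟩, ⟨h1, h2, h3⟩, h4⟩
      simp only [Prod.mk.injEq] at h4
      obtain ⟨rfl, rfl, rfl⟩ := h4
      exact ⟨h1, h2, h2, h3, h3⟩
  rw [hset]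
  refine Set.ncard_image_of_injective _ ?_
  rintro ⟨A, u⟩ ⟨A', u'⟩ h
  simp only [Prod.mk.injEq] at h
  exact Prod.ext h.1 h.2.1

/-- the fibre over a form -/
def NS (p : KPar n d) (k : ℕ) (K : ℝ) (B : ℕ) (A : Idx n d → ℤ) : Set ((Fin (n + 1) → ℤ) × ℤ) :=
  {z | z.1 ∈ p.GG K B ∧ z.2 ∈ p.WW ∧ F A z.1 = z.2 ^ k}

theorem NS_finite (p : KPar n d) {k : ℕ} (hk : 1 ≤ k) (K : ℝ) (B : ℕ) (A : Idx n d → ℤ) :
    (NS p k K B A).Finite := by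
  have h := (ncard_fib (p.GG K B) (GG_finite p K B) (fun x => {u : ℤ | 0 < u ∧ u ^ k = F A x})
    fun x _ => finite_pow_le k hk _).1
  refine h.subset ?_
  rintro ⟨x, u⟩ ⟨h1, h2, h3⟩
  exact ⟨h1, h2.1, h3.symm⟩

theorem sum_NA (p : KPar n d) {k : ℕ} (hk : 1 ≤ k) (r H K : ℝ) (B : ℕ) :
    ∑ A ∈ (Cl_finite p r H).toFinset, p.NA k K B A =
      ∑ x ∈ (GG_finite p K B).toFinset, (p.P1 k r H x).ncard := by
  have h1 := (ncard_fib (p.Cl r H) (Cl_finite p r H) (fun A => NS p k K B A)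
    fun A _ => NS_finite p hk K B A).2
  have h2 := (ncard_fib (p.GG K B) (GG_finite p K B) (fun x => p.P1 k r H x)
    fun x _ => P1_finite p hk r H x).2
  have h3 : ∑ A ∈ (Cl_finite p r H).toFinset, p.NA k K B A =
      ∑ A ∈ (Cl_finite p r H).toFinset, (NS p k K B A).ncard := rfl
  rw [h3, ← h1, ← h2]
  refine Set.ncard_congr (fun q _ => (q.2.1, q.1, q.2.2)) ?_ ?_ ?_
  · rintro ⟨A, x, u⟩ ⟨g1, g2, g3, g4⟩
    exact ⟨g2, g1, g3, g4⟩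
  · rintro ⟨A, x, u⟩ ⟨A', x', u'⟩ - - h
    simp only [Prod.mk.injEq] at h
    obtain ⟨rfl, rfl, rfl⟩ := h
    rfl
  · rintro ⟨x, A, u⟩ ⟨g1, g2, g3, g4⟩
    exact ⟨(A, x, u), ⟨g2, g1, g3, g4⟩, rfl⟩

theorem sum_NA_sq (p : KPar n d) {k : ℕ} (hk : 1 ≤ k) (r H K : ℝ) (B : ℕ) :
    ∑ A ∈ (Cl_finite p r H).toFinset, p.NA k K B A ^ 2 =
      ∑ x ∈ (GG_finite p K B).toFinset, ∑ y ∈ (GG_finite p K B).toFinset,
        (p.P2 k r H x y).ncard := by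
  classical
  have h1 := (ncard_fib (p.Cl r H) (Cl_finite p r H) (fun A => NS p k K B A ×ˢ NS p k K B A)
    fun A _ => (NS_finite p hk K B A).prod (NS_finite p hk K B A)).2
  have h2 := fun x : Fin (n + 1) → ℤ =>
    (ncard_fib (p.GG K B) (GG_finite p K B) (fun y => p.P2 k r H x y)
      fun y _ => P2_finite p hk r H x y)
  have h3 := (ncard_fib (p.GG K B) (GG_finite p K B)
    (fun x => {q : (Fin (n + 1) → ℤ) × ((Idx n d → ℤ) × ℤ × ℤ) |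
      q.1 ∈ p.GG K B ∧ q.2 ∈ p.P2 k r H x q.1}) fun x _ => (h2 x).1).2
  have h4 : ∑ A ∈ (Cl_finite p r H).toFinset, p.NA k K B A ^ 2 =
      ∑ A ∈ (Cl_finite p r H).toFinset, (NS p k K B A ×ˢ NS p k K B A).ncard := by
    refine Finset.sum_congr rfl fun A _ => ?_
    rw [Set.ncard_prod, sq]
    rfl
  rw [h4, ← h1]
  have h5 : ∑ x ∈ (GG_finite p K B).toFinset, ∑ y ∈ (GG_finite p K B).toFinset,
      (p.P2 k r H x y).ncard = ∑ x ∈ (GG_finite p K B).toFinset,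
        {q : (Fin (n + 1) → ℤ) × ((Idx n d → ℤ) × ℤ × ℤ) |
          q.1 ∈ p.GG K B ∧ q.2 ∈ p.P2 k r H x q.1}.ncard :=
    Finset.sum_congr rfl fun x _ => ((h2 x).2).symm
  rw [h5, ← h3]
  refine Set.ncard_congr (fun q _ => (q.2.1.1, q.2.2.1, q.1, q.2.1.2, q.2.2.2)) ?_ ?_ ?_
  · rintro ⟨A, ⟨x, u⟩, ⟨y, u'⟩⟩ ⟨g1, ⟨g2, g3, g4⟩, ⟨g5, g6, g7⟩⟩
    exact ⟨g2, g5, g1, g3, g6, g4, g7⟩
  · rintro ⟨A, ⟨x, u⟩, ⟨y, u'⟩⟩ ⟨A', ⟨x', v⟩, ⟨y', v'⟩⟩ - - h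
    simp only [Prod.mk.injEq] at h
    obtain ⟨rfl, rfl, rfl, rfl, rfl⟩ := h
    rfl
  · rintro ⟨x, y, A, u, u'⟩ ⟨g1, g2, g3, g4, g5, g6, g7⟩
    exact ⟨(A, (x, u), (y, u')), ⟨g3, ⟨g1, g4, g6⟩, ⟨g2, g5, g7⟩⟩, rfl⟩

/-- `N_A > 0` gives a rational point -/
theorem KSol_of_NA (p : KPar n d) {k : ℕ} (K : ℝ) (B : ℕ) (A : Idx n d → ℤ)
    (h : p.NA k K B A ≠ 0) : KSol k A := by
  have hne : {z : (Fin (n + 1) → ℤ) × ℤ | z.1 ∈ p.GG K B ∧ z.2 ∈ p.WW ∧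
      F A z.1 = z.2 ^ k}.Nonempty := by
    rw [Set.nonempty_iff_ne_empty]
    intro he
    apply h
    unfold KPar.NA
    rw [he]
    exact Set.ncard_empty _
  obtain ⟨⟨x, u⟩, ⟨hx, -, hu⟩⟩ := hne
  refine ⟨fun i => (x i : ℚ), ?_, (u : ℚ), ?_⟩
  · intro h0
    obtain ⟨c, hc⟩ := hx.2.1
    have : ∀ i, x i = 0 := fun i => by
      have := congrFun h0 i
      simpa using this
    simp [this] at hc
  · have h1 : F (fun t => (A t : ℚ)) (fun i => (x i : ℚ)) = ((F A x : ℤ) : ℚ) :=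
      F_map (Int.castRingHom ℚ) A x
    have h2 : F A x = u ^ k := hu
    rw [h1, h2]
    push_cast
    rfl

end CovHP
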