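import Pool.Agent.Lib.MP_e426f4_ag.K.Defs
import Pool.Agent.Lib.MP_e426f4_ag.G.Minors
import Pool.Agent.Lib.MP_e426f4_ag.G.Alg

/-! Module K-PT: facts on the points of a class. -/

namespace CovHP

open GenHP Finset Filter Topology

variable {n d : ℕ}

theorem mem_XX_bounds (p : KPar n d) {k m w : ℕ} {eps bet : ℝ} (hp : p.Valid k m eps bet w)
    (B : ℕ) (x : Fin (n + 1) → ℤ) (hx : x ∈ p.XX B) :
    ∀ i, |(x i : ℝ)| ≤ 2 * B ∧ (|p.xi i| = 1 → (B : ℝ) / 2 ≤ |(x i : ℝ)|) := by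
  intro i
  have h1 := hx.1 i
  have hk1 := hp.kap_pos
  have hk2 := hp.kap_le
  have hB : (0 : ℝ) ≤ B := by positivity
  have h2 : |(x i : ℝ) - B * p.xi i| ≤ 1 / 10 * B :=
    h1.trans (mul_le_mul_of_nonneg_right hk2 hB)
  have h3 : |(B : ℝ) * p.xi i| = B * |p.xi i| := by
    rw [abs_mul, abs_of_nonneg hB]
  constructor
  · have h4 : |(x i : ℝ)| ≤ |(x i : ℝ) - B * p.xi i| + |(B : ℝ) * p.xi i| := by
      have := abs_add_le ((x i : ℝ) - B * p.xi i) (B * p.xi i)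
      simpa using this
    rw [h3] at h4
    have := mul_le_mul_of_nonneg_left (hp.xi_le i) hB
    linarith
  · intro h
    have h4 : |(B : ℝ) * p.xi i| ≤ |(x i : ℝ) - B * p.xi i| + |(x i : ℝ)| := by
      have := abs_sub_abs_le_abs_sub ((B : ℝ) * p.xi i) (x i)
      rw [abs_sub_comm] at this
      linarith
    rw [h3, h] at h4
    linarith

theorem dl_pos_of_mem_GG (p : KPar n d) {k m w : ℕ} {eps bet : ℝ} (hp : p.Valid k m eps bet w)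
    (K : ℝ) (B : ℕ) (hB : 1 ≤ B) (x y : Fin (n + 1) → ℤ) (hx : x ∈ p.GG K B) (hy : y ∈ p.GG K B)
    (h : x ≠ y) : 0 < dl x y := by
  refine dl_pos x y hx.2.1 hy.2.1 (Ne.symm h) ?_
  intro hyx
  obtain ⟨i, hi⟩ := hp.xi_eq
  have hB' : (1 : ℝ) ≤ B := by exact_mod_cast hB
  have h1 := (hx.1.1 i).trans (mul_le_mul_of_nonneg_right hp.kap_le (by positivity))
  have h2 := (hy.1.1 i).trans (mul_le_mul_of_nonneg_right hp.kap_le (by positivity))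
  rw [hyx] at h2
  rw [abs_le] at h1 h2
  simp only [Pi.neg_apply, Int.cast_neg] at h2
  rcases (abs_eq (by norm_num : (0 : ℝ) ≤ 1)).mp hi with h3 | h3 <;> rw [h3] at h1 h2 <;>
    linarith [h1.1, h1.2, h2.1, h2.2]

theorem dl_le_of_mem_XX (p : KPar n d) {k m w : ℕ} {eps bet : ℝ} (hp : p.Valid k m eps bet w)
    (B : ℕ) (x y : Fin (n + 1) → ℤ) (hx : x ∈ p.XX B) (hy : y ∈ p.XX B) :
    (dl x y : ℝ) ≤ 8 * (B : ℝ) ^ 2 := by
  obtain ⟨a, b, hab, -⟩ := exists_minor_eq_dl x y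
  rw [← hab, Nat.cast_natAbs, minor]
  push_cast
  have hB : (0 : ℝ) ≤ B := by positivity
  have h1 := fun i => (mem_XX_bounds p hp B x hx i).1
  have h2 := fun i => (mem_XX_bounds p hp B y hy i).1
  have h3 : ∀ a b, |(x a : ℝ) * y b| ≤ 4 * (B : ℝ) ^ 2 := fun a b => by
    rw [abs_mul]
    calc |(x a : ℝ)| * |(y b : ℝ)| ≤ (2 * B) * (2 * B) :=
          mul_le_mul (h1 a) (h2 b) (abs_nonneg _) (by positivity)
      _ = 4 * (B : ℝ) ^ 2 := by ring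
  calc |(x a : ℝ) * y b - x b * y a| ≤ |(x a : ℝ) * y b| + |(x b : ℝ) * y a| := abs_sub _ _
    _ ≤ 4 * (B : ℝ) ^ 2 + 4 * (B : ℝ) ^ 2 := add_le_add (h3 a b) (h3 b a)
    _ = 8 * (B : ℝ) ^ 2 := by ring

/-- values are near `VV` -/
theorem val_near (p : KPar n d) {k m w : ℕ} {eps bet : ℝ} (hp : p.Valid k m eps bet w)
    (r H : ℝ) (hr : r ≤ 2 * p.rho) (hH : 0 < H) (hB : 1 ≤ Bk n k m H) (A : Idx n d → ℤ)
    (hA : A ∈ p.Cl r H) (x : Fin (n + 1) → ℤ) (hx : x ∈ p.XX (Bk n k m H)) :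
    |((F A x : ℤ) : ℝ) - p.VV k m H| ≤ eps / 8 * p.VV k m H :=
  hp.rk H hH (Bk n k m H) hB A
    (fun t => (hA.1 t).trans (mul_le_mul_of_nonneg_right hr hH.le)) x hx

/-- values are congruent to `w ^ k` modulo `Q` -/
theorem val_congr (p : KPar n d) {k m w : ℕ} {eps bet : ℝ} (hp : p.Valid k m eps bet w)
    (r H : ℝ) (A : Idx n d → ℤ) (hA : A ∈ p.Cl r H) (B : ℕ) (x : Fin (n + 1) → ℤ)
    (hx : x ∈ p.XX B) (u : ℤ) (hu : u ∈ p.WW) : (p.Q : ℤ) ∣ F A x - u ^ k := by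
  have h1 : (p.Q : ℤ) ∣ F A x - F p.A0 p.x0 := F_congr_mod _ _ _ _ _ hA.2 hx.2
  obtain ⟨c, hc⟩ := hu.2
  obtain ⟨e, -, he⟩ := hp.hens.2.2.2 0 c
  have h2 : (p.Q : ℤ) ∣ u ^ k - p.w0 ^ k := by
    refine ⟨c * e, ?_⟩
    have : u = p.w0 + p.P * (0 + c) := by rw [zero_add]; linarith
    rw [this]
    rw [mul_zero, add_zero] at he
    rw [he]
    ring
  have h3 := dvd_sub (dvd_add h1 hp.A0x0) h2
  have h4 : F A x - F p.A0 p.x0 + (F p.A0 p.x0 - p.w0 ^ k) - (u ^ k - p.w0 ^ k) =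
      F A x - u ^ k := by ring
  rw [h4] at h3
  exact h3

end CovHP
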