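import Pool.Agent.Lib.MP_e426f4_ag.K.CountX
import Pool.Agent.Lib.MP_e426f4_ag.K.Points
import Pool.Agent.Lib.MP_e426f4_ag.G.FewNotGood
import Pool.Agent.Lib.MP_e426f4_ag.G.BadB
import Pool.Agent.Lib.MP_e426f4_ag.G.Minors
import Pool.Agent.Lib.MP_e426f4_ag.K.Basic

/-! Module K-BP: points of a class that are not primitive and well rounded. -/

namespace CovHP

open GenHP Finset Filter Topology

variable {n d : ℕ}

theorem bp_XX_box (p : KPar n d) {k m w : ℕ} {eps bet : ℝ} (hp : p.Valid k m eps bet w)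
    (B : ℕ) (x : Fin (n + 1) → ℤ) (hx : x ∈ p.XX B) : x ∈ boxn n (2 * B) := by
  rw [mem_boxn]
  intro i
  have h := (mem_XX_bounds p hp B x hx i).1
  have h2 : ((|x i| : ℤ) : ℝ) ≤ ((2 * B : ℕ) : ℝ) := by
    push_cast
    exact h
  exact_mod_cast h2

theorem bp_gt_of_dvd (p : KPar n d) {k m w : ℕ} {eps bet : ℝ} (hp : p.Valid k m eps bet w)
    (B : ℕ) (x : Fin (n + 1) → ℤ) (hx : x ∈ p.XX B) (l : ℕ) (hl : l.Prime)
    (hlx : ∀ i, (l : ℤ) ∣ x i) : w < l := by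
  by_contra hcon
  push Not at hcon
  have hpW : l ∣ p.W := (hp.W_primes l hl).2 hcon
  have hlQ : (l : ℤ) ∣ (p.Q : ℤ) := by exact_mod_cast hpW.trans hp.hens.2.1
  obtain ⟨c, hc⟩ := hp.x0_unimod
  have h0 : ∀ i, (l : ℤ) ∣ p.x0 i := by
    intro i
    have h1 := hlQ.trans (hx.2 i)
    have h2 := dvd_sub (hlx i) h1
    have h3 : x i - (x i - p.x0 i) = p.x0 i := by ring
    rwa [h3] at h2
  have h1 : (l : ℤ) ∣ ∑ i, c i * p.x0 i :=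
    Finset.dvd_sum fun i _ => Dvd.dvd.mul_left (h0 i) _
  have h2 : (l : ℤ) ∣ (p.W : ℤ) := by exact_mod_cast hpW
  have h3 := hc.isUnit_of_dvd' h1 h2
  rw [Int.isUnit_iff] at h3
  have := hl.two_le
  omega

theorem bp_large (p : KPar n d) {k m w : ℕ} {eps bet : ℝ} (hp : p.Valid k m eps bet w)
    (e : ℝ) (he : 0 < e) :
    ∃ z : ℕ, ∀ B : ℕ, 1 ≤ B →
      (Set.ncard {x | x ∈ p.XX B ∧ ∃ l : ℕ, l.Prime ∧ z < l ∧ ∀ i, (l : ℤ) ∣ x i} : ℝ) ≤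
        e * (B : ℝ) ^ (n + 1) := by
  classical
  obtain ⟨z, hz⟩ : ∃ z, z = ⌈(6 : ℝ) ^ (n + 1) / e⌉₊ + 1 := ⟨_, rfl⟩
  refine ⟨z, fun B hB1 => ?_⟩
  have hB' : (1 : ℝ) ≤ B := by exact_mod_cast hB1
  let T : ℕ → Finset (Fin (n + 1) → ℤ) := fun l =>
    (boxn n (2 * B)).filter fun x => ∀ i, (l : ℤ) ∣ x i
  have hT : ∀ l : ℕ, (({x : Fin (n + 1) → ℤ | x ∈ boxn n (2 * B) ∧ ∀ i, (l : ℤ) ∣ x i} :
      Set (Fin (n + 1) → ℤ))) = (T l : Set (Fin (n + 1) → ℤ)) := by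
    intro l
    ext x
    simp [T]
  have hsub : {x | x ∈ p.XX B ∧ ∃ l : ℕ, l.Prime ∧ z < l ∧ ∀ i, (l : ℤ) ∣ x i} ⊆
      (((Finset.Ioc z (2 * B)).biUnion T : Finset (Fin (n + 1) → ℤ)) :
        Set (Fin (n + 1) → ℤ)) := by
    rintro x ⟨hx, l, hl, hzl, hlx⟩
    have hx4 := bp_XX_box p hp B x hx
    rw [Finset.mem_coe, Finset.mem_biUnion]
    refine ⟨l, ?_, ?_⟩
    · rw [Finset.mem_Ioc]
      refine ⟨hzl, ?_⟩
      obtain ⟨i, hi⟩ := hp.xi_eq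
      have h1 := (mem_XX_bounds p hp B x hx i).2 hi
      have hxi : x i ≠ 0 := by
        intro h0
        rw [h0] at h1
        simp at h1
        linarith
      have h2 := Int.le_of_dvd (abs_pos.2 hxi) ((dvd_abs _ _).2 (hlx i))
      have h3 := (mem_boxn.1 hx4) i
      exact_mod_cast h2.trans h3
    · simp only [T, Finset.mem_filter]
      exact ⟨hx4, hlx⟩
  have h1 := Set.ncard_le_ncard hsub (Finset.finite_toSet _)
  rw [Set.ncard_coe_finset] at h1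
  have h2 : (((Finset.Ioc z (2 * B)).biUnion T).card : ℝ) ≤
      ∑ l ∈ Finset.Ioc z (2 * B), ((T l).card : ℝ) := by
    exact_mod_cast Finset.card_biUnion_le
  have h3 : ∀ l ∈ Finset.Ioc z (2 * B), ((T l).card : ℝ) ≤ 6 ^ (n + 1) * (B : ℝ) ^ (n + 1) *
      (1 / (l : ℝ) ^ (n + 1)) := by
    intro l hl
    rw [Finset.mem_Ioc] at hl
    have h4 := bp_ncard_multiples_le n B l (by omega) hl.2
    rw [hT, Set.ncard_coe_finset] at h4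
    refine h4.trans (le_of_eq ?_)
    rw [div_pow, mul_pow]
    ring
  have hzpos : 1 ≤ z := by omega
  have hn1 : 1 ≤ n := by have := hp.n_ge; omega
  have h5 := bp_sum_inv_pow_le n z (2 * B) hn1 hzpos
  have h6 : 6 ^ (n + 1) * (1 / (z : ℝ)) ≤ e := by
    have hz' : (0 : ℝ) < z := by exact_mod_cast hzpos
    have h7 : 6 ^ (n + 1) / e ≤ z := by
      refine (Nat.le_ceil _).trans ?_
      rw [hz]
      push_cast
      linarith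
    rw [div_le_iff₀ he] at h7
    rw [mul_one_div, div_le_iff₀ hz']
    linarith
  calc ((Set.ncard {x | x ∈ p.XX B ∧ ∃ l : ℕ, l.Prime ∧ z < l ∧ ∀ i, (l : ℤ) ∣ x i} : ℕ) : ℝ)
      ≤ (((Finset.Ioc z (2 * B)).biUnion T).card : ℝ) := by exact_mod_cast h1
    _ ≤ ∑ l ∈ Finset.Ioc z (2 * B), ((T l).card : ℝ) := h2
    _ ≤ ∑ l ∈ Finset.Ioc z (2 * B), 6 ^ (n + 1) * (B : ℝ) ^ (n + 1) * (1 / (l : ℝ) ^ (n + 1)) :=
        Finset.sum_le_sum h3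
    _ = 6 ^ (n + 1) * (B : ℝ) ^ (n + 1) *
        ∑ l ∈ Finset.Ioc z (2 * B), (1 / (l : ℝ) ^ (n + 1)) := by
        rw [Finset.mul_sum]
    _ ≤ 6 ^ (n + 1) * (B : ℝ) ^ (n + 1) * (1 / z) := mul_le_mul_of_nonneg_left h5 (by positivity)
    _ = (6 ^ (n + 1) * (1 / (z : ℝ))) * (B : ℝ) ^ (n + 1) := by ring
    _ ≤ e * (B : ℝ) ^ (n + 1) := mul_le_mul_of_nonneg_right h6 (by positivity)

theorem bp_medium (p : KPar n d) {k m w : ℕ} {eps bet : ℝ} (hp : p.Valid k m eps bet w)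
    (z : ℕ) :
    ∃ B0 : ℕ, ∀ B : ℕ, B0 ≤ B →
      (Set.ncard {x | x ∈ p.XX B ∧ ∃ l : ℕ, l.Prime ∧ w < l ∧ l ≤ z ∧ ∀ i, (l : ℤ) ∣ x i} : ℝ) ≤
        2 / w * p.NX B := by
  classical
  have hw2 := hp.w_two
  have hwr : (0 : ℝ) < w := by
    have : 0 < w := by omega
    exact_mod_cast this
  set PP : Finset ℕ := (Finset.Ioc w z).filter Nat.Prime with hPP
  obtain ⟨B0, hB0⟩ : ∃ B0 : ℕ, ∀ l ∈ PP, ∀ B : ℕ, B0 ≤ B →
      (Set.ncard {x : Fin (n + 1) → ℤ | x ∈ p.XX B ∧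
        ∀ i, (l : ℤ) ∣ x i - (0 : Fin (n + 1) → ℤ) i} : ℝ) ≤
        (1 + 1) * (p.NX B / (l : ℝ) ^ (n + 1)) := by
    have h1 : ∀ l : ℕ, ∃ B0 : ℕ, l ∈ PP → ∀ B : ℕ, B0 ≤ B →
      (Set.ncard {x : Fin (n + 1) → ℤ | x ∈ p.XX B ∧
        ∀ i, (l : ℤ) ∣ x i - (0 : Fin (n + 1) → ℤ) i} : ℝ) ≤
        (1 + 1) * (p.NX B / (l : ℝ) ^ (n + 1)) := by
      intro l
      by_cases hl : l ∈ PP
      · have hl' := hl
        rw [hPP, Finset.mem_filter, Finset.mem_Ioc] at hl'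
        have hcop : Nat.Coprime l p.W := by
          rw [Nat.Prime.coprime_iff_not_dvd hl'.2]
          intro h
          have := (hp.W_primes l hl'.2).1 h
          omega
        obtain ⟨B0, h⟩ := XX_upper p hp l hl'.2.pos hcop 1 one_pos
        exact ⟨B0, fun _ B hB => h B hB 0⟩
      · exact ⟨0, fun h => absurd h hl⟩
    choose f hf using h1
    exact ⟨PP.sup f, fun q hq B hB => hf q hq B ((Finset.le_sup hq).trans hB)⟩
  refine ⟨B0, fun B hB => ?_⟩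
  have hNX : 0 ≤ p.NX B := by
    have := hp.kap_pos
    unfold KPar.NX
    positivity
  have hXX := XX_finite p B
  set T : ℕ → Finset (Fin (n + 1) → ℤ) := fun l =>
    hXX.toFinset.filter fun x => ∀ i, (l : ℤ) ∣ x i with hT
  have hsub : {x | x ∈ p.XX B ∧ ∃ l : ℕ, l.Prime ∧ w < l ∧ l ≤ z ∧ ∀ i, (l : ℤ) ∣ x i} ⊆
      ((PP.biUnion T : Finset (Fin (n + 1) → ℤ)) : Set (Fin (n + 1) → ℤ)) := by
    rintro x ⟨hx, l, hl, hwl, hlz, hlx⟩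
    rw [Finset.mem_coe, Finset.mem_biUnion]
    refine ⟨l, ?_, ?_⟩
    · rw [hPP, Finset.mem_filter, Finset.mem_Ioc]
      exact ⟨⟨hwl, hlz⟩, hl⟩
    · simp only [hT, Finset.mem_filter, Set.Finite.mem_toFinset]
      exact ⟨hx, hlx⟩
  have h1 := Set.ncard_le_ncard hsub (Finset.finite_toSet _)
  rw [Set.ncard_coe_finset] at h1
  have h2 : ((PP.biUnion T).card : ℝ) ≤ ∑ l ∈ PP, ((T l).card : ℝ) := by
    exact_mod_cast Finset.card_biUnion_le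
  have h3 : ∀ l ∈ PP, ((T l).card : ℝ) ≤ 2 * p.NX B * (1 / (l : ℝ) ^ (n + 1)) := by
    intro l hl
    have h4 := hB0 l hl B hB
    have e1 : {x : Fin (n + 1) → ℤ | x ∈ p.XX B ∧
        ∀ i, (l : ℤ) ∣ x i - (0 : Fin (n + 1) → ℤ) i} = (T l : Set (Fin (n + 1) → ℤ)) := by
      ext x
      simp [hT]
    rw [e1, Set.ncard_coe_finset] at h4
    refine h4.trans (le_of_eq ?_)
    ring
  have hn1 : 1 ≤ n := by have := hp.n_ge; omega
  have h5 := bp_sum_inv_pow_le n w z hn1 (by omega)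
  have h6 : ∑ l ∈ PP, (1 : ℝ) / (l : ℝ) ^ (n + 1) ≤ 1 / w :=
    (Finset.sum_le_sum_of_subset_of_nonneg (Finset.filter_subset _ _)
      (fun l _ _ => by positivity)).trans h5
  calc (Set.ncard {x | x ∈ p.XX B ∧ ∃ l : ℕ, l.Prime ∧ w < l ∧ l ≤ z ∧
        ∀ i, (l : ℤ) ∣ x i} : ℝ) ≤ ((PP.biUnion T).card : ℝ) := by exact_mod_cast h1
    _ ≤ ∑ l ∈ PP, ((T l).card : ℝ) := h2
    _ ≤ ∑ l ∈ PP, 2 * p.NX B * (1 / (l : ℝ) ^ (n + 1)) := Finset.sum_le_sum h3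
    _ = 2 * p.NX B * ∑ l ∈ PP, (1 / (l : ℝ) ^ (n + 1)) := by rw [Finset.mul_sum]
    _ ≤ 2 * p.NX B * (1 / w) := mul_le_mul_of_nonneg_left h6 (by positivity)
    _ = 2 / w * p.NX B := by ring

theorem bad_points (p : KPar n d) {k m w : ℕ} {eps bet : ℝ} (hp : p.Valid k m eps bet w) :
    ∃ K0 : ℝ, 1 ≤ K0 ∧ ∀ K : ℝ, K0 ≤ K → ∃ B0 : ℕ, ∀ B : ℕ, B0 ≤ B →
      ((p.XX B \ p.GG K B).ncard : ℝ) ≤ (eps + 2 / w) * p.NX B := by
  have he := hp.eps_pos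
  have hkap := hp.kap_pos
  have hQ : (0 : ℝ) < p.Q := by exact_mod_cast hp.Q_pos
  set c0 : ℝ := (2 * p.kap / p.Q) ^ (n + 1) with hc0
  have hc0p : 0 < c0 := by positivity
  have hNXc : ∀ B : ℕ, p.NX B = c0 * (B : ℝ) ^ (n + 1) := by
    intro B
    unfold KPar.NX
    rw [hc0, ← mul_pow]
    congr 1
    ring
  obtain ⟨K0, hK0, hgood⟩ := few_not_good n hp.n_ge (eps / 2 * c0) (by positivity)
  obtain ⟨z, hz⟩ := bp_large p hp (eps / 2 * c0) (by positivity)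
  obtain ⟨B1, hB1⟩ := bp_medium p hp z
  refine ⟨K0, hK0, fun K hK => ⟨max B1 1, fun B hB => ?_⟩⟩
  have hBB1 : B1 ≤ B := (le_max_left _ _).trans hB
  have hB0 : 1 ≤ B := (le_max_right _ _).trans hB
  have h1 := hgood K hK B hB0
  have h2 := hz B hB0
  have h3 := hB1 B hBB1
  have hXX := XX_finite p B
  have hf1 : ({x : Fin (n + 1) → ℤ | x ∈ boxn n (2 * B) ∧ ¬ Good K B x}).Finite :=
    (Finset.finite_toSet (boxn n (2 * B))).subset fun x hx => hx.1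
  have hf2 : ({x | x ∈ p.XX B ∧ ∃ l : ℕ, l.Prime ∧ z < l ∧ ∀ i, (l : ℤ) ∣ x i}).Finite :=
    hXX.subset fun x hx => hx.1
  have hf3 : ({x | x ∈ p.XX B ∧ ∃ l : ℕ, l.Prime ∧ w < l ∧ l ≤ z ∧
      ∀ i, (l : ℤ) ∣ x i}).Finite := hXX.subset fun x hx => hx.1
  have hsub : p.XX B \ p.GG K B ⊆
      ({x : Fin (n + 1) → ℤ | x ∈ boxn n (2 * B) ∧ ¬ Good K B x} ∪
      {x | x ∈ p.XX B ∧ ∃ l : ℕ, l.Prime ∧ z < l ∧ ∀ i, (l : ℤ) ∣ x i}) ∪
      {x | x ∈ p.XX B ∧ ∃ l : ℕ, l.Prime ∧ w < l ∧ l ≤ z ∧ ∀ i, (l : ℤ) ∣ x i} := by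
    rintro x ⟨hx, hxG⟩
    by_cases hg : Good K B x
    · have hprim : ¬ Prim x := fun h => hxG ⟨hx, h, hg⟩
      obtain ⟨l, hl, hlx⟩ := exists_prime_of_not_prim x hprim
      have hwl := bp_gt_of_dvd p hp B x hx l hl hlx
      rcases le_or_gt l z with hlz | hlz
      · exact Or.inr ⟨hx, l, hl, hwl, hlz, hlx⟩
      · exact Or.inl (Or.inr ⟨hx, l, hl, hlz, hlx⟩)
    · exact Or.inl (Or.inl ⟨bp_XX_box p hp B x hx, hg⟩)
  have h4 := Set.ncard_le_ncard hsub ((hf1.union hf2).union hf3)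
  have h5 := h4.trans (Set.ncard_union_le _ _)
  have h6 := h5.trans (Nat.add_le_add_right (Set.ncard_union_le _ _) _)
  have h7 : ((p.XX B \ p.GG K B).ncard : ℝ) ≤
      (Set.ncard {x : Fin (n + 1) → ℤ | x ∈ boxn n (2 * B) ∧ ¬ Good K B x} : ℝ) +
      (Set.ncard {x | x ∈ p.XX B ∧ ∃ l : ℕ, l.Prime ∧ z < l ∧ ∀ i, (l : ℤ) ∣ x i} : ℝ) +
      (Set.ncard {x | x ∈ p.XX B ∧ ∃ l : ℕ, l.Prime ∧ w < l ∧ l ≤ z ∧
        ∀ i, (l : ℤ) ∣ x i} : ℝ) := by exact_mod_cast h6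
  refine h7.trans ?_
  have h8 : (eps + 2 / w) * p.NX B = eps / 2 * c0 * (B : ℝ) ^ (n + 1) +
      eps / 2 * c0 * (B : ℝ) ^ (n + 1) + 2 / w * p.NX B := by
    rw [hNXc]
    ring
  rw [h8]
  linarith

end CovHP
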