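import Pool.Agent.Lib.MP_e426f4_ag.K.Defs
import Pool.Agent.Lib.MP_e426f4_ag.G.CardCl

/-! Module K-CU: number of forms in a class. -/

namespace CovHP

open GenHP Finset Filter Topology

variable {n d : ℕ}

/-- the corresponding data of GenHP -/
noncomputable def KPar.toPar (p : KPar n d) : Par n d :=
  { Ainf := p.AC, AC := p.AC, xi := p.xi, j := 0, kap := p.kap, rho := p.rho, W := p.W, P := p.P,
    Q := p.Q, A0 := p.A0, x0 := p.x0 }

theorem toPar_Cl (p : KPar n d) (r H : ℝ) : p.toPar.Cl r H = p.Cl r H := rfl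

theorem card_Cl (p : KPar n d) (hQ : 0 < p.Q) (r eps : ℝ) (hr : 0 < r) (he : 0 < eps) :
    ∀ᶠ H : ℝ in atTop,
      (1 - eps) * p.XR r H ≤ ((p.Cl r H).ncard : ℝ) ∧
      ((p.Cl r H).ncard : ℝ) ≤ (1 + eps) * p.XR r H :=
  GenHP.card_Cl p.toPar hQ r eps hr he

theorem exists_radius (N : ℕ) (eps : ℝ) (he : 0 < eps) (he1 : eps ≤ 1) :
    ∃ e0 : ℝ, 0 < e0 ∧ e0 ≤ 1 / 2 ∧ (1 + e0) ^ N ≤ 1 + eps ∧ 1 - eps ≤ (1 - e0) ^ N := by
  have h1 : Tendsto (fun t : ℝ => (1 + t) ^ N) (𝓝 0) (𝓝 1) := by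
    have : Tendsto (fun t : ℝ => (1 + t) ^ N) (𝓝 0) (𝓝 ((1 + 0) ^ N)) :=
      (tendsto_const_nhds.add tendsto_id).pow N
    simpa using this
  have h2 : Tendsto (fun t : ℝ => (1 - t) ^ N) (𝓝 0) (𝓝 1) := by
    have : Tendsto (fun t : ℝ => (1 - t) ^ N) (𝓝 0) (𝓝 ((1 - 0) ^ N)) :=
      (tendsto_const_nhds.sub tendsto_id).pow N
    simpa using this
  have e1 := h1.eventually (gt_mem_nhds (by linarith : (1 : ℝ) < 1 + eps))
  have e2 := h2.eventually (lt_mem_nhds (by linarith : (1 : ℝ) - eps < 1))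
  obtain ⟨δ, hδ, h⟩ := Metric.eventually_nhds_iff.mp (e1.and e2)
  refine ⟨min (δ / 2) (1 / 2), by positivity, min_le_right _ _, ?_⟩
  have hm : 0 < min (δ / 2) (1 / 2) := by positivity
  have h3 := h (y := min (δ / 2) (1 / 2)) (by
    rw [dist_zero_right, Real.norm_eq_abs, abs_of_pos hm]
    exact (min_le_left _ _).trans_lt (by linarith))
  exact ⟨h3.1.le, h3.2.le⟩

end CovHP
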