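import Pool.Agent.Lib.MP_e426f4_ag.K.Defs

/-! Module K-HT: facts on the height function. -/

namespace CovHP

open GenHP Finset Filter Topology

/-- the denominator of the exponent -/
theorem kc_den {n k m : ℕ} (hk : 2 ≤ k) (hf : m * (k - 1) ≤ n) :
    1 ≤ (n : ℝ) + 1 - (m : ℝ) * ((k : ℝ) - 1) := by
  have h1 : ((k - 1 : ℕ) : ℝ) = (k : ℝ) - 1 := by
    rw [Nat.cast_sub (by omega)]
    norm_num
  have h2 : ((m * (k - 1) : ℕ) : ℝ) ≤ n := by exact_mod_cast hf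
  rw [Nat.cast_mul, h1] at h2
  linarith

theorem kc_num {k : ℕ} (hk : 2 ≤ k) :
    0 < (8 * (k : ℝ) - 7) / (8 * (k : ℝ)) ∧ (8 * (k : ℝ) - 7) / (8 * (k : ℝ)) < 1 := by
  have hk' : (2 : ℝ) ≤ k := by exact_mod_cast hk
  refine ⟨div_pos (by linarith) (by linarith), ?_⟩
  rw [div_lt_one (by linarith)]
  linarith

theorem kc_pos {n k m : ℕ} (hn : 2 ≤ n) (hk : 2 ≤ k) (hm : 1 ≤ m) (hf : m * (k - 1) ≤ n) :
    0 < kc n k m :=
  div_pos (kc_num hk).1 (lt_of_lt_of_le one_pos (kc_den hk hf))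

theorem kc_lt_one {n k m : ℕ} (hk : 2 ≤ k) (hf : m * (k - 1) ≤ n) : kc n k m < 1 := by
  have h1 := kc_den hk hf
  unfold kc
  rw [div_lt_one (by linarith)]
  exact lt_of_lt_of_le (kc_num hk).2 h1

theorem Bk_le {n k m : ℕ} {H : ℝ} (hH : 0 ≤ H) : (Bk n k m H : ℝ) ≤ H ^ kc n k m :=
  Nat.floor_le (Real.rpow_nonneg hH _)

theorem lt_Bk_add_one (n k m : ℕ) (H : ℝ) : H ^ kc n k m < (Bk n k m H : ℝ) + 1 :=
  Nat.lt_floor_add_one _

theorem Bk_atTop {n k m : ℕ} (hn : 2 ≤ n) (hk : 2 ≤ k) (hm : 1 ≤ m) (hf : m * (k - 1) ≤ n) :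
    Tendsto (fun H : ℝ => Bk n k m H) atTop atTop :=
  tendsto_nat_floor_atTop.comp (tendsto_rpow_atTop (kc_pos hn hk hm hf))

theorem Bk_ge_half {n k m : ℕ} (hn : 2 ≤ n) (hk : 2 ≤ k) (hm : 1 ≤ m) (hf : m * (k - 1) ≤ n) :
    ∀ᶠ H : ℝ in atTop, H ^ kc n k m / 2 ≤ (Bk n k m H : ℝ) := by
  have h := (tendsto_rpow_atTop (kc_pos hn hk hm hf)).eventually_ge_atTop 2
  filter_upwards [h] with H hH
  have := lt_Bk_add_one n k m H
  linarith

theorem Bk_small {n k m : ℕ} (hn : 2 ≤ n) (hk : 2 ≤ k) (hm : 1 ≤ m) (hf : m * (k - 1) ≤ n)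
    (c : ℝ) : ∀ᶠ H : ℝ in atTop, c * (Bk n k m H : ℝ) ^ (2 / (n : ℝ)) ≤ H := by
  have hn0 : (0 : ℝ) < n := by exact_mod_cast (by omega : 0 < n)
  have hn2 : (2 : ℝ) ≤ n := by exact_mod_cast hn
  have hc := kc_pos hn hk hm hf
  have hlt : kc n k m * (2 / (n : ℝ)) < 1 := by
    have h1 : 2 / (n : ℝ) ≤ 1 := by rw [div_le_one hn0]; exact hn2
    calc kc n k m * (2 / (n : ℝ)) ≤ kc n k m * 1 := mul_le_mul_of_nonneg_left h1 hc.le
      _ = kc n k m := mul_one _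
      _ < 1 := kc_lt_one hk hf
  have h := (tendsto_rpow_atTop (by linarith : 0 < 1 - kc n k m * (2 / (n : ℝ)))).eventually_ge_atTop |c|
  filter_upwards [h, eventually_gt_atTop 0] with H hH hH0
  have h2 : (Bk n k m H : ℝ) ^ (2 / (n : ℝ)) ≤ H ^ (kc n k m * (2 / (n : ℝ))) := by
    rw [Real.rpow_mul hH0.le]
    exact Real.rpow_le_rpow (by positivity) (Bk_le hH0.le) (by positivity)
  calc c * (Bk n k m H : ℝ) ^ (2 / (n : ℝ)) ≤ |c| * (Bk n k m H : ℝ) ^ (2 / (n : ℝ)) :=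
        mul_le_mul_of_nonneg_right (le_abs_self c) (by positivity)
    _ ≤ H ^ (1 - kc n k m * (2 / (n : ℝ))) * H ^ (kc n k m * (2 / (n : ℝ))) :=
        mul_le_mul hH h2 (by positivity) (by positivity)
    _ = H := by
      rw [← Real.rpow_add hH0]
      norm_num

variable {n d : ℕ}

theorem vi_pos (p : KPar n d) {k m w : ℕ} {eps bet : ℝ} (hp : p.Valid k m eps bet w) :
    0 < p.vi := lt_of_lt_of_le hp.bet_pos hp.vi_ge

theorem VV_pos (p : KPar n d) {k m w : ℕ} {eps bet : ℝ} (hp : p.Valid k m eps bet w) :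
    ∀ᶠ H : ℝ in atTop, 0 < p.VV k m H := by
  have h := (Bk_atTop hp.n_ge hp.k_ge hp.m_ge hp.fano).eventually_ge_atTop 1
  filter_upwards [h, eventually_gt_atTop 0] with H h1 h2
  have h3 : (0 : ℝ) < (Bk n k m H : ℝ) := by exact_mod_cast h1
  have h4 := vi_pos p hp
  unfold KPar.VV
  positivity

theorem VV_atTop (p : KPar n d) {k m w : ℕ} {eps bet : ℝ} (hp : p.Valid k m eps bet w) :
    Tendsto (fun H : ℝ => p.VV k m H) atTop atTop := by
  have h4 := vi_pos p hp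
  have h := (Bk_atTop hp.n_ge hp.k_ge hp.m_ge hp.fano).eventually_ge_atTop 1
  refine tendsto_atTop_mono' atTop ?_ (Tendsto.const_mul_atTop h4 tendsto_id)
  filter_upwards [h, eventually_gt_atTop 0] with H h1 h2
  have h3 : (1 : ℝ) ≤ (Bk n k m H : ℝ) := by exact_mod_cast h1
  have h5 : (1 : ℝ) ≤ (Bk n k m H : ℝ) ^ d := one_le_pow₀ h3
  unfold KPar.VV
  simp only [id]
  calc p.vi * H = H * 1 * p.vi := by ring
    _ ≤ H * (Bk n k m H : ℝ) ^ d * p.vi := by gcongr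

theorem root_atTop (p : KPar n d) {k m w : ℕ} {eps bet : ℝ} (hp : p.Valid k m eps bet w) :
    Tendsto (fun H : ℝ => p.VV k m H ^ (1 / (k : ℝ))) atTop atTop := by
  have hk0 : (0 : ℝ) < k := by exact_mod_cast (by have := hp.k_ge; omega : 0 < k)
  exact (tendsto_rpow_atTop (by positivity : (0 : ℝ) < 1 / (k : ℝ))).comp (VV_atTop p hp)

/-- `(B ^ d) ^ (1 / k) = B ^ m` -/
theorem root_pow {k m : ℕ} (hk : 2 ≤ k) (hd : d = k * m) (B : ℝ) (hB : 0 ≤ B) :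
    (B ^ d) ^ (1 / (k : ℝ)) = B ^ m := by
  have hk0 : (k : ℝ) ≠ 0 := by exact_mod_cast (by omega : k ≠ 0)
  rw [← Real.rpow_natCast B d, ← Real.rpow_mul hB, hd]
  push_cast
  rw [show (k : ℝ) * m * (1 / k) = m by field_simp, Real.rpow_natCast]

theorem root_eq (p : KPar n d) {k m w : ℕ} {eps bet : ℝ} (hp : p.Valid k m eps bet w) {H : ℝ}
    (hH : 0 ≤ H) : p.VV k m H ^ (1 / (k : ℝ)) =
      H ^ (1 / (k : ℝ)) * (Bk n k m H : ℝ) ^ m * p.vi ^ (1 / (k : ℝ)) := by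
  have h4 := vi_pos p hp
  unfold KPar.VV
  rw [Real.mul_rpow (by positivity) h4.le, Real.mul_rpow hH (by positivity),
    root_pow hp.k_ge hp.d_eq _ (by positivity)]

theorem TT_atTop (p : KPar n d) {k m w : ℕ} {eps bet : ℝ} (hp : p.Valid k m eps bet w) :
    Tendsto (fun H : ℝ => p.TT k m H) atTop atTop := by
  have hv := vi_pos p hp
  have hk2 := hp.k_ge
  have hk0 : (0 : ℝ) < k := by exact_mod_cast (by omega : 0 < k)
  have hkap := hp.kap_pos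
  have hQ : (0 : ℝ) < p.Q := by exact_mod_cast hp.Q_pos
  have hP : (0 : ℝ) < p.P := by exact_mod_cast hp.P_pos
  -- natural exponent e
  obtain ⟨e, he⟩ : ∃ e : ℕ, n + 1 = m * (k - 1) + e ∧ 1 ≤ e := by
    refine ⟨n + 1 - m * (k - 1), ?_, ?_⟩ <;> have := hp.fano <;> omega
  have hdm : d = m * (k - 1) + m := by
    rw [hp.d_eq]
    obtain ⟨k', rfl⟩ : ∃ k', k = k' + 1 := ⟨k - 1, by omega⟩
    simp only [Nat.add_sub_cancel]
    ring
  have heR : (n : ℝ) + 1 - (m : ℝ) * ((k : ℝ) - 1) = e := by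
    have h1 : ((k - 1 : ℕ) : ℝ) = (k : ℝ) - 1 := by
      rw [Nat.cast_sub (by omega)]
      norm_num
    have h2 : ((n + 1 : ℕ) : ℝ) = ((m * (k - 1) + e : ℕ) : ℝ) := by exact_mod_cast he.1
    push_cast [h1] at h2
    linarith
  have he0 : (0 : ℝ) < e := by exact_mod_cast he.2
  set c : ℝ := (2 * p.kap / p.Q) ^ (n + 1) * (p.Q / (p.P * k)) * (p.vi ^ (1 / (k : ℝ)) / p.vi) *
    (1 / 2) ^ e with hc
  have hc0 : 0 < c := by positivity
  have hexp : (0 : ℝ) < 1 / (8 * k) := by positivity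
  have hlim : Tendsto (fun H : ℝ => c * H ^ (1 / (8 * (k : ℝ)))) atTop atTop :=
    Tendsto.const_mul_atTop hc0 (tendsto_rpow_atTop hexp)
  refine tendsto_atTop_mono' atTop ?_ hlim
  have hB := (Bk_atTop hp.n_ge hp.k_ge hp.m_ge hp.fano).eventually_ge_atTop 1
  filter_upwards [hB, eventually_gt_atTop 0, Bk_ge_half hp.n_ge hp.k_ge hp.m_ge hp.fano] with H hB1 hH0 hhalf
  have hB0 : (0 : ℝ) < (Bk n k m H : ℝ) := by exact_mod_cast hB1
  set B : ℝ := (Bk n k m H : ℝ) with hBdef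
  have h1 : p.TT k m H = (2 * p.kap / p.Q) ^ (n + 1) * (p.Q / (p.P * k)) *
      (p.vi ^ (1 / (k : ℝ)) / p.vi) * B ^ e * (H ^ (1 / (k : ℝ)) / H) := by
    unfold KPar.TT KPar.NX KPar.lam
    rw [root_eq p hp hH0.le]
    unfold KPar.VV
    rw [← hBdef]
    have h2 : B ^ (n + 1) = B ^ (m * (k - 1)) * B ^ e := by rw [he.1, pow_add]
    have h3 : B ^ d = B ^ (m * (k - 1)) * B ^ m := by
      conv_lhs => rw [hdm]
      rw [pow_add]
    have h4 : (2 * p.kap * B / p.Q) ^ (n + 1) = (2 * p.kap / p.Q) ^ (n + 1) * B ^ (n + 1) := by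
      rw [← mul_pow]
      congr 1
      ring
    rw [h4, h2, h3]
    field_simp
  have h5 : H ^ (1 / (k : ℝ)) / H = H ^ (1 / (k : ℝ) - 1) := by
    rw [Real.rpow_sub_one hH0.ne']
  have h6 : (H ^ kc n k m / 2) ^ e ≤ B ^ e := pow_le_pow_left₀ (by positivity) hhalf e
  have h7 : (H ^ kc n k m) ^ e = H ^ ((8 * (k : ℝ) - 7) / (8 * k)) := by
    rw [← Real.rpow_natCast, ← Real.rpow_mul hH0.le]
    congr 1
    unfold kc
    rw [heR]
    field_simp
  have h8 : H ^ ((8 * (k : ℝ) - 7) / (8 * k)) * H ^ (1 / (k : ℝ) - 1) = H ^ (1 / (8 * (k : ℝ))) := by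
    rw [← Real.rpow_add hH0]
    congr 1
    field_simp
    ring
  rw [h1, h5]
  calc c * H ^ (1 / (8 * (k : ℝ)))
      = (2 * p.kap / p.Q) ^ (n + 1) * (p.Q / (p.P * k)) * (p.vi ^ (1 / (k : ℝ)) / p.vi) *
          (H ^ kc n k m / 2) ^ e * H ^ (1 / (k : ℝ) - 1) := by
        rw [← h8, ← h7, hc, div_pow (H ^ kc n k m) 2 e, div_pow (1 : ℝ) 2 e, one_pow]
        ring
    _ ≤ _ := by gcongr

/-- only used for `n = 2` -/
theorem root_large (p : KPar 2 d) {k m w : ℕ} {eps bet : ℝ} (hp : p.Valid k m eps bet w) (c : ℝ) :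
    ∀ᶠ H : ℝ in atTop, c * (Bk 2 k m H : ℝ) ^ (7 / 5 : ℝ) ≤ p.VV k m H ^ (1 / (k : ℝ)) := by
  have hv := vi_pos p hp
  have hk2 := hp.k_ge
  have hm1 := hp.m_ge
  have hf := hp.fano
  have hk0 : (0 : ℝ) < k := by exact_mod_cast (by omega : 0 < k)
  have hcp := kc_pos hp.n_ge hp.k_ge hp.m_ge hp.fano
  have hcl := kc_lt_one (n := 2) hk2 hf
  -- the exponent inequality
  have hexp : kc 2 k m * (7 / 5) < 1 / (k : ℝ) + kc 2 k m * m := by
    rcases Nat.lt_or_ge 1 m with h | h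
    · have h2 : (2 : ℝ) ≤ m := by exact_mod_cast h
      have : 0 < 1 / (k : ℝ) := by positivity
      nlinarith
    · have hm : m = 1 := le_antisymm h hm1
      subst hm
      have hk3 : k = 2 ∨ k = 3 := by omega
      rcases hk3 with rfl | rfl
      · unfold kc; norm_num
      · unfold kc; norm_num
  set a : ℝ := 1 / (k : ℝ) + kc 2 k m * m - kc 2 k m * (7 / 5) with ha
  have ha0 : 0 < a := by linarith
  set c' : ℝ := p.vi ^ (1 / (k : ℝ)) * (1 / 2) ^ m with hc'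
  have hc'0 : 0 < c' := by positivity
  have h := (tendsto_rpow_atTop ha0).eventually_ge_atTop (|c| / c')
  filter_upwards [h, eventually_gt_atTop 0, Bk_ge_half hp.n_ge hp.k_ge hp.m_ge hp.fano] with H hH hH0 hhalf
  rw [root_eq p hp hH0.le]
  set B : ℝ := (Bk 2 k m H : ℝ) with hB
  have hB0 : 0 ≤ B := by positivity
  have h2 : B ^ (7 / 5 : ℝ) ≤ H ^ (kc 2 k m * (7 / 5)) := by
    rw [Real.rpow_mul hH0.le]
    exact Real.rpow_le_rpow hB0 (Bk_le hH0.le) (by norm_num)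
  have h6 : (H ^ kc 2 k m / 2) ^ m ≤ B ^ m := pow_le_pow_left₀ (by positivity) hhalf m
  have h7 : (H ^ kc 2 k m) ^ m = H ^ (kc 2 k m * m) := by
    rw [← Real.rpow_natCast, ← Real.rpow_mul hH0.le]
  have h9 : |c| ≤ H ^ a * c' := by
    rw [div_le_iff₀ hc'0] at hH
    exact hH
  calc c * B ^ (7 / 5 : ℝ) ≤ |c| * B ^ (7 / 5 : ℝ) :=
        mul_le_mul_of_nonneg_right (le_abs_self c) (by positivity)
    _ ≤ (H ^ a * c') * H ^ (kc 2 k m * (7 / 5)) := mul_le_mul h9 h2 (by positivity) (by positivity)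
    _ = H ^ (1 / (k : ℝ)) * (H ^ kc 2 k m / 2) ^ m * p.vi ^ (1 / (k : ℝ)) := by
        have h10 : H ^ a * H ^ (kc 2 k m * (7 / 5)) = H ^ (1 / (k : ℝ)) * H ^ (kc 2 k m * m) := by
          rw [← Real.rpow_add hH0, ← Real.rpow_add hH0]
          congr 1
          rw [ha]
          ring
        calc (H ^ a * c') * H ^ (kc 2 k m * (7 / 5)) =
            (H ^ a * H ^ (kc 2 k m * (7 / 5))) * c' := by ring
          _ = H ^ (1 / (k : ℝ)) * H ^ (kc 2 k m * m) * c' := by rw [h10]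
          _ = _ := by
            rw [hc', div_pow (H ^ kc 2 k m) 2 m, h7, div_pow (1 : ℝ) 2 m, one_pow]
            ring
    _ ≤ _ := by gcongr

end CovHP
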