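import Pool.Agent.Lib.MP_e426f4_ag.K.Basic
import Pool.Agent.Lib.MP_e426f4_ag.K.Heights
import Pool.Agent.Lib.MP_e426f4_ag.K.Points
import Pool.Agent.Lib.MP_e426f4_ag.G.Minors
import Pool.Agent.Lib.MP_e426f4_ag.G.BadC
import Pool.Agent.Lib.MP_e426f4_ag.AP

/-! Cyclic covers: number of pairs of last coordinates. -/

namespace CovHP

open GenHP Finset Filter Topology

variable {n d : ℕ}

private theorem cw_set (R : ℝ) (hR : 0 ≤ R) : {u : ℤ | 0 < u ∧ (u : ℝ) ≤ R}.Finite ∧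
    (Set.ncard {u : ℤ | 0 < u ∧ (u : ℝ) ≤ R} : ℝ) ≤ R := by
  have h : {u : ℤ | 0 < u ∧ (u : ℝ) ≤ R} = ((Finset.Icc 1 ⌊R⌋ : Finset ℤ) : Set ℤ) := by
    ext u
    simp only [Set.mem_ofPred_eq, Finset.coe_Icc, Set.mem_Icc, Int.le_floor]
    constructor
    · rintro ⟨h1, h2⟩
      exact ⟨by omega, h2⟩
    · rintro ⟨h1, h2⟩
      exact ⟨by omega, h2⟩
  rw [h, Set.ncard_coe_finset, Int.card_Icc]
  refine ⟨Finset.finite_toSet _, ?_⟩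
  have h0 : 0 ≤ ⌊R⌋ := Int.floor_nonneg.mpr hR
  have h1 : ((⌊R⌋ + 1 - 1).toNat : ℤ) = ⌊R⌋ := by
    rw [Int.toNat_of_nonneg (by omega)]
    ring
  have h2 : (((⌊R⌋ + 1 - 1).toNat : ℕ) : ℝ) = ((⌊R⌋ : ℤ) : ℝ) := by
    have : ((((⌊R⌋ + 1 - 1).toNat : ℤ)) : ℝ) = ((⌊R⌋ : ℤ) : ℝ) := by rw [h1]
    rw [← this, Int.cast_natCast]
  rw [h2]
  exact Int.floor_le R

/-- last coordinates are bounded -/
theorem w_le (p : KPar n d) {k m w : ℕ} {eps bet : ℝ} (hp : p.Valid k m eps bet w) :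
    ∀ᶠ H : ℝ in atTop, ∀ x ∈ p.XX (Bk n k m H), ∀ A ∈ p.Cl p.rho H, ∀ u ∈ p.WW,
      F A x = u ^ k → (u : ℝ) ≤ 2 * p.VV k m H ^ (1 / (k : ℝ)) := by
  filter_upwards [VV_pos p hp,
    (Bk_atTop hp.n_ge hp.k_ge hp.m_ge hp.fano).eventually_ge_atTop 1,
    eventually_gt_atTop (0 : ℝ)] with H hVV hB hH
  intro x hx A hA u hu hF
  have hk := hp.k_ge
  have h1 := val_near p hp p.rho H (by linarith [hp.rho_pos]) hH hB A hA x hx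
  have h2 : ((F A x : ℤ) : ℝ) ≤ 2 * p.VV k m H := by
    have := (abs_le.mp h1).2
    have := hp.eps_le
    nlinarith
  have hu0 : (0 : ℝ) < u := by exact_mod_cast hu.1
  have hR0 : 0 < p.VV k m H ^ (1 / (k : ℝ)) := Real.rpow_pos_of_pos hVV _
  have h3 : (u : ℝ) ^ k ≤ (2 * p.VV k m H ^ (1 / (k : ℝ))) ^ k := by
    have e1 : (p.VV k m H ^ (1 / (k : ℝ))) ^ k = p.VV k m H := by
      rw [← Real.rpow_natCast, ← Real.rpow_mul hVV.le]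
      rw [one_div, inv_mul_cancel₀ (by exact_mod_cast (by omega : k ≠ 0)), Real.rpow_one]
    rw [mul_pow, e1]
    have h4 : (u : ℝ) ^ k = ((F A x : ℤ) : ℝ) := by rw [hF]; push_cast; rfl
    have h5 : (2 : ℝ) ≤ 2 ^ k := by
      calc (2 : ℝ) = 2 ^ 1 := by norm_num
        _ ≤ 2 ^ k := pow_le_pow_right₀ (by norm_num) (by omega)
    rw [h4]
    nlinarith
  exact (pow_le_pow_iff_left₀ hu0.le (by positivity) (by omega)).mp h3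

theorem card_w3 (p : KPar n d) {k m w : ℕ} {eps bet : ℝ} (hp : p.Valid k m eps bet w)
    (K : ℝ) : ∀ᶠ H : ℝ in atTop,
      ∀ x ∈ p.GG K (Bk n k m H), ∀ y ∈ p.GG K (Bk n k m H),
        ((Prod.snd '' p.P2 k p.rho H x y).ncard : ℝ) ≤ 4 * (p.VV k m H ^ (1 / (k : ℝ))) ^ 2 := by
  filter_upwards [w_le p hp, VV_pos p hp] with H hw hVV
  intro x hx y hy
  have hR0 : 0 < p.VV k m H ^ (1 / (k : ℝ)) := Real.rpow_pos_of_pos hVV _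
  obtain ⟨hf, hc⟩ := cw_set (2 * p.VV k m H ^ (1 / (k : ℝ))) (by positivity)
  have hsub : Prod.snd '' p.P2 k p.rho H x y ⊆
      {u : ℤ | 0 < u ∧ (u : ℝ) ≤ 2 * p.VV k m H ^ (1 / (k : ℝ))} ×ˢ
      {u : ℤ | 0 < u ∧ (u : ℝ) ≤ 2 * p.VV k m H ^ (1 / (k : ℝ))} := by
    rintro _ ⟨⟨A, u, v⟩, ⟨hA, hu, hv, hF, hF'⟩, rfl⟩
    exact ⟨⟨hu.1, hw x hx.1 A hA u hu hF⟩, ⟨hv.1, hw y hy.1 A hA v hv hF'⟩⟩
  have h1 := Set.ncard_le_ncard hsub (hf.prod hf)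
  rw [Set.ncard_prod] at h1
  calc ((Prod.snd '' p.P2 k p.rho H x y).ncard : ℝ)
      ≤ (Set.ncard {u : ℤ | 0 < u ∧ (u : ℝ) ≤ 2 * p.VV k m H ^ (1 / (k : ℝ))} : ℝ) *
        (Set.ncard {u : ℤ | 0 < u ∧ (u : ℝ) ≤ 2 * p.VV k m H ^ (1 / (k : ℝ))} : ℝ) := by
        exact_mod_cast h1
    _ ≤ (2 * p.VV k m H ^ (1 / (k : ℝ))) * (2 * p.VV k m H ^ (1 / (k : ℝ))) := by
        gcongr
    _ = _ := by ring

/-- elements of an interval with `k`-th power in a class -/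
private theorem cw_roots (k g : ℕ) (hg : 0 < g) (psi : ℕ → ℝ) (hpsi : PsiBound k psi) (R : ℝ)
    (hR : 0 ≤ R) (v : ℤ) :
    (Set.ncard {u : ℤ | (0 < u ∧ (u : ℝ) ≤ R) ∧ (g : ℤ) ∣ u ^ k - v} : ℝ) ≤
      (R / g + 1) * psi g := by
  have hg0 : (0 : ℝ) < g := by exact_mod_cast hg
  have hgz : (0 : ℤ) < g := by exact_mod_cast hg
  have hY : {b : ℤ | 0 ≤ b ∧ b < g ∧ (g : ℤ) ∣ b ^ k - v}.Finite :=
    (Set.finite_Ico (0 : ℤ) g).subset fun b hb => ⟨hb.1, hb.2.1⟩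
  have h1 := bp_ncard_fiber_le {u : ℤ | (0 < u ∧ (u : ℝ) ≤ R) ∧ (g : ℤ) ∣ u ^ k - v}
    ((cw_set R hR).1.subset fun u hu => hu.1) (fun u => u % (g : ℤ))
    {b : ℤ | 0 ≤ b ∧ b < g ∧ (g : ℤ) ∣ b ^ k - v} hY (by
      rintro u ⟨_, hu⟩
      refine ⟨Int.emod_nonneg _ hgz.ne', Int.emod_lt_of_pos _ hgz, ?_⟩
      have h2 : (g : ℤ) ∣ (u % (g : ℤ)) ^ k - u ^ k :=
        (Int.ModEq.pow k (Int.mod_modEq u (g : ℤ))).symm.dvd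
      have : (u % (g : ℤ)) ^ k - v = ((u % (g : ℤ)) ^ k - u ^ k) + (u ^ k - v) := by ring
      rw [this]
      exact dvd_add h2 hu) (R / g + 1) (by
      intro b _
      have h3 := CubicHP.ncard_AP 0 R hR g hg b
      refine le_trans ?_ (h3.2.2.trans (by rw [sub_zero]))
      have h4 : ({x | x ∈ {u : ℤ | (0 < u ∧ (u : ℝ) ≤ R) ∧ (g : ℤ) ∣ u ^ k - v} ∧
          x % (g : ℤ) = b} : Set ℤ) ⊆ {x : ℤ | (0 : ℝ) ≤ x ∧ (x : ℝ) ≤ R ∧ (g : ℤ) ∣ x - b} := by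
        rintro x ⟨⟨⟨hx0, hxR⟩, _⟩, rfl⟩
        refine ⟨by exact_mod_cast hx0.le, hxR, ?_⟩
        exact Int.dvd_self_sub_emod
      exact_mod_cast Set.ncard_le_ncard h4 h3.1)
  refine h1.trans ?_
  have h5 := hpsi.2.2 g hg v
  gcongr

theorem card_w2 (p : KPar n d) {k m w : ℕ} {eps bet : ℝ} (hp : p.Valid k m eps bet w)
    (psi : ℕ → ℝ) (hpsi : PsiBound k psi) (K : ℝ) : ∀ᶠ H : ℝ in atTop,
      ∀ x ∈ p.GG K (Bk n k m H), ∀ y ∈ p.GG K (Bk n k m H), 0 < mg x y →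
        ((Prod.snd '' p.P2 k p.rho H x y).ncard : ℝ) ≤
          2 * p.VV k m H ^ (1 / (k : ℝ)) * (2 * p.VV k m H ^ (1 / (k : ℝ)) / mg x y + 1) *
            psi (mg x y) := by
  filter_upwards [w_le p hp, VV_pos p hp] with H hw hVV
  intro x hx y hy hg
  have hR0 : 0 < p.VV k m H ^ (1 / (k : ℝ)) := Real.rpow_pos_of_pos hVV _
  obtain ⟨R, hR⟩ : ∃ R : ℝ, R = 2 * p.VV k m H ^ (1 / (k : ℝ)) := ⟨_, rfl⟩
  have hR1 : 0 < R := by rw [hR]; positivity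
  rw [← hR] at hw ⊢
  obtain ⟨hf, hc⟩ := cw_set R hR1.le
  obtain ⟨l, hl⟩ := exists_mod_of_dvd_mg x y hx.2.1 (mg x y) dvd_rfl
  have hk := hp.k_ge
  have hfin : (Prod.snd '' p.P2 k p.rho H x y).Finite :=
    (P2_finite p (by omega) p.rho H x y).image _
  have hmem : ∀ q ∈ Prod.snd '' p.P2 k p.rho H x y, (0 < q.1 ∧ (q.1 : ℝ) ≤ R) ∧
      (0 < q.2 ∧ (q.2 : ℝ) ≤ R) ∧ (mg x y : ℤ) ∣ q.2 ^ k - l ^ d * q.1 ^ k := by
    rintro _ ⟨⟨A, u, v⟩, ⟨hA, hu, hv, hF, hF'⟩, rfl⟩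
    refine ⟨⟨hu.1, hw x hx.1 A hA u hu hF⟩, ⟨hv.1, hw y hy.1 A hA v hv hF'⟩, ?_⟩
    have h1 := F_congr_mod (mg x y : ℤ) A A y (fun i => l * x i) (fun i => by simp) hl
    rw [F_scale] at h1
    simp only at hF hF' ⊢
    rw [← hF', ← hF]
    exact h1
  have h1 := bp_ncard_fiber_le (Prod.snd '' p.P2 k p.rho H x y) hfin Prod.fst
    {u : ℤ | 0 < u ∧ (u : ℝ) ≤ R} hf (fun q hq => (hmem q hq).1)
    ((R / mg x y + 1) * psi (mg x y)) (by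
      intro u _
      refine le_trans ?_ (cw_roots k (mg x y) hg psi hpsi R hR1.le (l ^ d * u ^ k))
      have h2 : Set.InjOn Prod.snd {q : ℤ × ℤ | q ∈ Prod.snd '' p.P2 k p.rho H x y ∧
          q.1 = u} := by
        rintro ⟨a, b⟩ ⟨_, ha⟩ ⟨a', b'⟩ ⟨_, ha'⟩ h
        simp only at ha ha' h
        rw [ha, ha', h]
      rw [← h2.ncard_image]
      have h3 : Prod.snd '' {q : ℤ × ℤ | q ∈ Prod.snd '' p.P2 k p.rho H x y ∧ q.1 = u} ⊆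
          {v : ℤ | (0 < v ∧ (v : ℝ) ≤ R) ∧ (mg x y : ℤ) ∣ v ^ k - l ^ d * u ^ k} := by
        rintro _ ⟨q, ⟨hq, rfl⟩, rfl⟩
        exact (hmem q hq).2
      exact_mod_cast Set.ncard_le_ncard h3 (hf.subset fun v hv => hv.1))
  refine h1.trans ?_
  have h4 := hpsi.1 (mg x y)
  calc (R / mg x y + 1) * psi (mg x y) * (Set.ncard {u : ℤ | 0 < u ∧ (u : ℝ) ≤ R} : ℝ)
      ≤ (R / mg x y + 1) * psi (mg x y) * R := by gcongr
    _ = _ := by ring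

end CovHP
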