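import Pool.Agent.Lib.MP_e426f4_ag.K.Defs
import Pool.Agent.Lib.MP_e426f4_ag.G.Alg

/-! # Cyclic covers, module K-HD: Hensel data for `w ^ k` from local data. -/

namespace CovHP

open GenHP Finset

private theorem khd_crt (S : Finset ℕ) (hS : ∀ p ∈ S, p.Prime) (m : ℕ) (f : ℕ → ℤ) :
    ∃ y : ℤ, ∀ p ∈ S, (p : ℤ) ^ m ∣ y - f p := by
  have hco : Pairwise
      (Function.onFun IsCoprime fun p : S => Ideal.span {(((p : ℕ) : ℤ) ^ m)}) := by
    intro p q hpq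
    show IsCoprime (Ideal.span {(((p : ℕ) : ℤ) ^ m)}) (Ideal.span {(((q : ℕ) : ℤ) ^ m)})
    rw [Ideal.isCoprime_span_singleton_iff]
    apply IsCoprime.pow
    exact Nat.isCoprime_iff_coprime.mpr ((Nat.coprime_primes (hS p p.2) (hS q q.2)).mpr
      fun h => hpq (Subtype.ext h))
  obtain ⟨y, hy⟩ := Ideal.exists_forall_sub_mem_ideal hco (fun p : S => f p)
  exact ⟨y, fun p hp => Ideal.mem_span_singleton.mp (hy ⟨p, hp⟩)⟩

private theorem khd_local_E (p k c : ℕ) (hp : p.Prime) (hc : c < k) (P P' : ℤ)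
    (hP : P = (p : ℤ) ^ (2 * k - c) * P') (hP' : ¬ (p : ℤ) ∣ P') (S t r : ℤ)
    (hS : (p : ℤ) ^ c ∣ S) (hS' : ¬ (p : ℤ) ^ (c + 1) ∣ S) :
    (p : ℤ) ^ (2 * k) ∣ P * S + t * P ^ 2 * r ∧ ¬ (p : ℤ) ^ (2 * k + 1) ∣ P * S + t * P ^ 2 * r := by
  have hpp : Prime (p : ℤ) := Nat.prime_iff_prime_int.mp hp
  obtain ⟨s, hs⟩ := hS
  have hps : ¬ (p : ℤ) ∣ s := by
    intro h
    apply hS'
    rw [hs, pow_succ]
    exact mul_dvd_mul_left _ h
  have h1 : P * S = (p : ℤ) ^ (2 * k) * (P' * s) := by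
    have h4 : (p : ℤ) ^ (2 * k) = (p : ℤ) ^ (2 * k - c) * (p : ℤ) ^ c := by
      rw [← pow_add]; congr 1; omega
    rw [h4, hP, hs]; ring
  have h2 : (p : ℤ) ^ (2 * k + 1) ∣ t * P ^ 2 * r := by
    have h5 : (p : ℤ) ^ (2 * k + 1) ∣ P ^ 2 := by
      rw [hP, mul_pow, ← pow_mul]
      exact (pow_dvd_pow _ (by omega)).mul_right _
    exact (h5.mul_left t).mul_right r
  constructor
  · refine dvd_add ⟨_, h1⟩ ((pow_dvd_pow _ (Nat.le_succ _)).trans h2)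
  · intro h3
    have h4 : (p : ℤ) ^ (2 * k + 1) ∣ P * S := by
      have := dvd_sub h3 h2
      simpa using this
    rw [h1, pow_succ] at h4
    have h6 : (p : ℤ) ∣ P' * s :=
      (mul_dvd_mul_iff_left (pow_ne_zero _ hpp.ne_zero)).mp h4
    rcases hpp.dvd_or_dvd h6 with h | h
    · exact hP' h
    · exact hps h

/-- Taylor expansion of `a ^ k` -/
private theorem khd_taylor (k : ℕ) (a h : ℤ) :
    ∃ r : ℤ, (a + h) ^ k = a ^ k + h * (k * a ^ (k - 1)) + h ^ 2 * r := by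
  induction k with
  | zero => exact ⟨0, by simp⟩
  | succ m ih =>
    obtain ⟨r, hr⟩ := ih
    rcases Nat.eq_zero_or_pos m with h0 | h0
    · subst h0
      exact ⟨0, by simp⟩
    · refine ⟨m * a ^ (m - 1) + r * (a + h), ?_⟩
      have h1 : a ^ m = a ^ (m - 1) * a := by
        rw [← pow_succ]; congr 1; omega
      have h2 : a ^ (m + 1) = a ^ (m - 1) * a * a := by
        rw [pow_succ, h1]
      rw [pow_succ (a + h), hr, Nat.add_sub_cancel, h2, h1]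
      push_cast
      ring

theorem hensK_of_local {n d : ℕ} (k : ℕ) (hk : 2 ≤ k) (w l : ℕ) (hw : 2 ≤ w) (hl : 1 ≤ l)
    (A0 : Idx n d → ℤ)
    (hloc : ∀ p : ℕ, p.Prime → p ≤ w → ∃ x : Fin (n + 1) → ℤ, (∃ i, ¬ (p : ℤ) ∣ x i) ∧
      ∃ u : ℤ, ((p : ℤ) ^ (2 * l)) ∣ F A0 x - u ^ k ∧ ¬ ((p : ℤ) ^ l ∣ k * u ^ (k - 1))) :
    ∃ (P : ℕ) (x0 : Fin (n + 1) → ℤ) (w0 : ℤ), 0 < P ∧
      HensK P ((primorial w) ^ (2 * l)) (primorial w) k w0 ∧
      (((primorial w) ^ (2 * l) : ℕ) : ℤ) ∣ F A0 x0 - w0 ^ k ∧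
      ∃ c : Fin (n + 1) → ℤ, IsCoprime (∑ i, c i * x0 i) (primorial w : ℤ) := by
  classical
  set S : Finset ℕ := (Finset.range (w + 1)).filter Nat.Prime with hSdef
  have hSp : ∀ p ∈ S, p.Prime := fun p hp => (Finset.mem_filter.mp hp).2
  have hSw : ∀ p ∈ S, p ≤ w := fun p hp => by
    have := (Finset.mem_filter.mp hp).1
    rw [Finset.mem_range] at this
    omega
  have hWS : primorial w = ∏ p ∈ S, p := rfl
  -- local data
  have hdat : ∀ p : ℕ, ∃ (x : Fin (n + 1) → ℤ) (i0 : Fin (n + 1)) (u : ℤ) (c : ℕ), p ∈ S →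
      (¬ (p : ℤ) ∣ x i0 ∧ ((p : ℤ) ^ (2 * l)) ∣ F A0 x - u ^ k ∧ c < l ∧
        (p : ℤ) ^ c ∣ k * u ^ (k - 1) ∧ ¬ (p : ℤ) ^ (c + 1) ∣ k * u ^ (k - 1)) := by
    intro p
    by_cases hp : p ∈ S
    · obtain ⟨x, ⟨i0, hi0⟩, u, hF, hj⟩ := hloc p (hSp p hp) (hSw p hp)
      have hex : ∃ a : ℕ, ¬ ((p : ℤ) ^ a ∣ k * u ^ (k - 1)) := ⟨l, hj⟩
      have hjp := Nat.find_spec hex
      have hle : Nat.find hex ≤ l := Nat.find_min' hex hj
      have hpos : 0 < Nat.find hex := by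
        rcases Nat.eq_zero_or_pos (Nat.find hex) with h0 | h0
        · rw [h0, pow_zero] at hjp
          exact absurd (one_dvd _) hjp
        · exact h0
      refine ⟨x, i0, u, Nat.find hex - 1, fun _ => ⟨hi0, hF, by omega, ?_, ?_⟩⟩
      · by_contra hcon
        exact Nat.find_min hex (m := Nat.find hex - 1) (by omega) hcon
      · have : Nat.find hex - 1 + 1 = Nat.find hex := by omega
        rw [this]; exact hjp
    · exact ⟨0, 0, 0, 0, fun h => absurd h hp⟩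
  choose xp ip up c hprop using hdat
  -- the modulus for the last coordinate
  set P : ℕ := ∏ p ∈ S, p ^ (2 * l - c p) with hPdef
  have hPpos : 0 < P := Finset.prod_pos fun p hp => pow_pos (hSp p hp).pos _
  have hPfac : ∀ p ∈ S, ∃ P' : ℤ, (P : ℤ) = (p : ℤ) ^ (2 * l - c p) * P' ∧ ¬ (p : ℤ) ∣ P' := by
    intro p hp
    refine ⟨((∏ q ∈ S.erase p, q ^ (2 * l - c q) : ℕ) : ℤ), ?_, ?_⟩
    · rw [hPdef, ← Finset.mul_prod_erase S _ hp]
      push_cast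
      ring
    · intro hdiv
      have hdiv' : p ∣ ∏ q ∈ S.erase p, q ^ (2 * l - c q) := by exact_mod_cast hdiv
      rw [(Nat.Prime.prime (hSp p hp)).dvd_finsetProd_iff] at hdiv'
      obtain ⟨q, hq, hpq⟩ := hdiv'
      have h1 := (hSp p hp).dvd_of_dvd_pow hpq
      have h2 := (Nat.prime_dvd_prime_iff_eq (hSp p hp)
        (hSp q (Finset.mem_of_mem_erase hq))).mp h1
      exact (Finset.ne_of_mem_erase hq) h2.symm
  have hcop : (S : Set ℕ).Pairwise fun p q => IsCoprime ((p : ℤ) ^ (2 * l)) ((q : ℤ) ^ (2 * l)) := by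
    intro p hp q hq hpq
    apply IsCoprime.pow
    exact Nat.isCoprime_iff_coprime.mpr ((Nat.coprime_primes (hSp p hp) (hSp q hq)).mpr hpq)
  have hQ : ((primorial w ^ (2 * l) : ℕ) : ℤ) = ∏ p ∈ S, (p : ℤ) ^ (2 * l) := by
    rw [hWS]
    push_cast
    rw [Finset.prod_pow]
  have hQdvd : ∀ z : ℤ, (∀ p ∈ S, (p : ℤ) ^ (2 * l) ∣ z) →
      ((primorial w ^ (2 * l) : ℕ) : ℤ) ∣ z := by
    intro z hz
    rw [hQ]
    exact Finset.prod_dvd_of_coprime hcop hz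
  have hdvdQ : ∀ p ∈ S, (p : ℤ) ^ (2 * l) ∣ ((primorial w ^ (2 * l) : ℕ) : ℤ) := by
    intro p hp
    rw [hQ]
    exact Finset.dvd_prod_of_mem (fun p : ℕ => (p : ℤ) ^ (2 * l)) hp
  have hcopW : ∀ z : ℤ, (∀ p ∈ S, ¬ (p : ℤ) ∣ z) → IsCoprime z ((primorial w : ℕ) : ℤ) := by
    intro z hz
    rw [hWS]
    push_cast
    refine IsCoprime.prod_right fun p hp => ?_
    have hpp : Prime (p : ℤ) := Nat.prime_iff_prime_int.mp (hSp p hp)
    exact (hpp.coprime_iff_not_dvd.mpr (hz p hp)).symm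
  -- CRT
  have hx0 : ∀ i, ∃ y : ℤ, ∀ p ∈ S, (p : ℤ) ^ (2 * l) ∣ y - xp p i := fun i =>
    khd_crt S hSp (2 * l) fun p => xp p i
  choose x0 hx0 using hx0
  obtain ⟨w0, hw0⟩ := khd_crt S hSp (2 * l) fun p => up p
  have hc0 : ∀ i : Fin (n + 1), ∃ y : ℤ, ∀ p ∈ S, (p : ℤ) ^ 1 ∣ y - if i = ip p then 1 else 0 := fun i =>
    khd_crt S hSp 1 fun p => if i = ip p then 1 else 0
  choose c0 hc0 using hc0
  simp only [pow_one] at hc0
  refine ⟨P, x0, w0, hPpos, ⟨?_, ?_, ⟨2 * l, rfl⟩, ?_⟩, ?_, c0, ?_⟩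
  · rw [hPdef, hWS, ← Finset.prod_pow]
    exact Finset.prod_dvd_prod_of_dvd _ _ fun p _ => pow_dvd_pow _ (Nat.sub_le _ _)
  · exact dvd_pow_self _ (by omega)
  · intro t b
    obtain ⟨r, hr⟩ := khd_taylor k (w0 + P * t) (P * b)
    set Sg : ℤ := (k : ℤ) * (w0 + P * t) ^ (k - 1) with hSg
    have hloc2 : ∀ p ∈ S, (p : ℤ) ^ (2 * l) ∣ (P : ℤ) * Sg + b * (P : ℤ) ^ 2 * r ∧
        ¬ (p : ℤ) ^ (2 * l + 1) ∣ (P : ℤ) * Sg + b * (P : ℤ) ^ 2 * r := by
      intro p hp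
      obtain ⟨P', hP', hP''⟩ := hPfac p hp
      obtain ⟨-, hF, hc, hD, hj⟩ := hprop p hp
      have ha : (p : ℤ) ^ (c p + 1) ∣ (w0 + P * t) - up p := by
        have h1 : (w0 + P * t) - up p = (w0 - up p) + P * t := by ring
        rw [h1]
        refine dvd_add ((pow_dvd_pow _ (by omega)).trans (hw0 p hp)) ?_
        rw [hP', mul_assoc]
        exact (pow_dvd_pow _ (by omega)).mul_right _
      have hb : (p : ℤ) ^ (c p + 1) ∣ Sg - k * up p ^ (k - 1) := by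
        have h1 : Sg - k * up p ^ (k - 1) = k * ((w0 + P * t) ^ (k - 1) - up p ^ (k - 1)) := by
          rw [hSg]; ring
        rw [h1]
        exact (ha.trans (sub_dvd_pow_sub_pow _ _ _)).mul_left _
      have hS1 : (p : ℤ) ^ c p ∣ Sg := by
        have h3 := dvd_add ((pow_dvd_pow _ (Nat.le_succ (c p))).trans hb) hD
        simpa using h3
      have hS2 : ¬ (p : ℤ) ^ (c p + 1) ∣ Sg := by
        intro h3
        have h4 := dvd_sub h3 hb
        exact hj (by simpa using h4)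
      exact khd_local_E p l (c p) (hSp p hp) hc P P' hP' hP'' Sg b r hS1 hS2
    obtain ⟨e, he⟩ := hQdvd _ fun p hp => (hloc2 p hp).1
    refine ⟨e, hcopW e fun p hp hdiv => (hloc2 p hp).2 ?_, ?_⟩
    · rw [he, pow_succ]
      exact mul_dvd_mul (hdvdQ p hp) hdiv
    · have h3 : w0 + (P : ℤ) * (t + b) = (w0 + P * t) + P * b := by ring
      rw [h3, hr]
      have h4 : (w0 + P * t) ^ k + P * b * Sg + (P * b) ^ 2 * r - (w0 + P * t) ^ k
          = b * ((P : ℤ) * Sg + b * (P : ℤ) ^ 2 * r) := by ring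
      rw [h4, he]
      ring
  · refine hQdvd _ fun p hp => ?_
    obtain ⟨-, hF, hc, hD, -⟩ := hprop p hp
    have h1 : (p : ℤ) ^ (2 * l) ∣ F A0 x0 - F A0 (xp p) :=
      F_congr_mod ((p : ℤ) ^ (2 * l)) A0 A0 x0 (xp p) (fun i => by simp) (fun i => hx0 i p hp)
    have h2 : (p : ℤ) ^ (2 * l) ∣ w0 ^ k - up p ^ k :=
      (hw0 p hp).trans (sub_dvd_pow_sub_pow _ _ _)
    have h3 : F A0 x0 - w0 ^ k = (F A0 x0 - F A0 (xp p)) + (F A0 (xp p) - up p ^ k)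
        - (w0 ^ k - up p ^ k) := by ring
    rw [h3]
    exact dvd_sub (dvd_add h1 hF) h2
  · refine hcopW _ fun p hp hdiv => ?_
    obtain ⟨hi, -, hc, -, -⟩ := hprop p hp
    apply hi
    have hXp : ∀ i, (p : ℤ) ∣ x0 i - xp p i := fun i =>
      (dvd_pow_self _ (by omega)).trans (hx0 i p hp)
    have h1 : (p : ℤ) ∣ ∑ i, c0 i * x0 i - xp p (ip p) := by
      have h2 : ∑ i, c0 i * x0 i - xp p (ip p) =
          ∑ i, (c0 i * (x0 i - xp p i)
            + (c0 i - if i = ip p then 1 else 0) * xp p i) := by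
        have h3 : xp p (ip p) = ∑ i, (if i = ip p then 1 else 0) * xp p i := by simp
        rw [h3, ← Finset.sum_sub_distrib]
        exact Finset.sum_congr rfl fun i _ => by ring
      rw [h2]
      exact Finset.dvd_sum fun i _ => dvd_add ((hXp i).mul_left _) ((hc0 i p hp).mul_right _)
    have := dvd_sub hdiv h1
    simpa using this

end CovHP
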