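import Pool.Agent.Lib.MP_e426f4_ag.K.RootBound

/-!
# The function `psi` (module K-NU3)
-/

namespace CovHP

open GenHP Finset Filter Topology

theorem nu3_triv (k q : ℕ) (v : ℤ) :
    (Set.ncard {b : ℤ | 0 ≤ b ∧ b < q ∧ (q : ℤ) ∣ b ^ k - v} : ℝ) ≤ q := by
  rw [nu1_ncard q (fun b => (q : ℤ) ∣ b ^ k - v)]
  have h1 := Finset.card_filter_le (Finset.Ico (0 : ℤ) q) (fun b => (q : ℤ) ∣ b ^ k - v)
  rw [Int.card_Ico, sub_zero, Int.toNat_natCast] at h1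
  exact_mod_cast h1

theorem exists_psi (n k m : ℕ) (hn : 2 ≤ n) (hk : 2 ≤ k) (hm : 1 ≤ m) (hf : m * (k - 1) ≤ n) :
    ∃ psi : ℕ → ℝ, PsiBound k psi ∧ PsiOK n psi := by
  by_cases h3 : 3 ≤ n
  · refine ⟨fun q => q, ⟨fun q => Nat.cast_nonneg q, by simp, fun q _ v => nu3_triv k q v⟩,
      Or.inl ⟨h3, fun q => rfl⟩⟩
  · have hn2 : n = 2 := by omega
    have hk3 : k ≤ 3 := by
      have h1 : 1 * (k - 1) ≤ m * (k - 1) := Nat.mul_le_mul_right _ hm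
      omega
    obtain ⟨C, hC1, hC⟩ := root_bound k hk hk3
    refine ⟨fun q => if q = 1 then 1 else C * (q : ℝ) ^ (7 / 10 : ℝ), ⟨?_, ?_, ?_⟩,
      Or.inr ⟨hn2, C, hC1, fun q => rfl⟩⟩
    · intro q
      dsimp only
      split_ifs
      · exact zero_le_one
      · positivity
    · simp
    · intro q hq v
      dsimp only
      split_ifs with h
      · have := nu3_triv k q v
        rw [h] at this ⊢
        simpa using this
      · exact hC q hq v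

theorem psi_tail (n : ℕ) (psi : ℕ → ℝ) (h : PsiOK n psi) (e : ℝ) (he : 0 < e) :
    ∃ w1 : ℕ, ∀ w : ℕ, w1 ≤ w → ∀ N : ℕ, ∑ q ∈ Icc (w + 1) N, psi q / (q : ℝ) ^ n ≤ e := by
  have key : ∃ C : ℝ, 1 ≤ C ∧ ∀ q : ℕ, 2 ≤ q → psi q / (q : ℝ) ^ n ≤ C * (q : ℝ) ^ (-(13 / 10) : ℝ) := by
    rcases h with ⟨hn, hpsi⟩ | ⟨hn, C, hC1, hpsi⟩
    · refine ⟨1, le_rfl, fun q hq => ?_⟩
      have hq1 : (1 : ℝ) ≤ q := by exact_mod_cast (by omega : 1 ≤ q)
      have hq0 : (0 : ℝ) < q := by linarith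
      rw [hpsi, one_mul]
      calc (q : ℝ) / (q : ℝ) ^ n ≤ (q : ℝ) / (q : ℝ) ^ 3 := by
            apply div_le_div_of_nonneg_left hq0.le (by positivity)
            exact pow_le_pow_right₀ hq1 hn
        _ = (q : ℝ) ^ (-2 : ℝ) := by
            rw [Real.rpow_neg hq0.le]
            have : (q : ℝ) ^ (2 : ℝ) = (q : ℝ) ^ (2 : ℕ) := by
              rw [← Real.rpow_natCast]; norm_num
            rw [this]
            field_simp
        _ ≤ (q : ℝ) ^ (-(13 / 10) : ℝ) := Real.rpow_le_rpow_of_exponent_le hq1 (by norm_num)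
    · refine ⟨C, hC1, fun q hq => ?_⟩
      have hq1 : (1 : ℝ) ≤ q := by exact_mod_cast (by omega : 1 ≤ q)
      have hq0 : (0 : ℝ) < q := by linarith
      rw [hpsi, if_neg (by omega), hn]
      apply le_of_eq
      have : (q : ℝ) ^ (2 : ℕ) = (q : ℝ) ^ (2 : ℝ) := by
        rw [← Real.rpow_natCast]; norm_num
      rw [this, mul_div_assoc, ← Real.rpow_sub hq0]
      norm_num
  obtain ⟨C, hC1, hC⟩ := key
  have hsum : Summable (fun q : ℕ => (q : ℝ) ^ (-(13 / 10) : ℝ)) :=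
    Real.summable_nat_rpow.mpr (by norm_num)
  have htail := tendsto_sum_nat_add (fun q : ℕ => (q : ℝ) ^ (-(13 / 10) : ℝ))
  have hev := htail.eventually (gt_mem_nhds (show (0 : ℝ) < e / C by positivity))
  rw [eventually_atTop] at hev
  obtain ⟨w1, hw1⟩ := hev
  refine ⟨w1 + 1, fun w hw N => ?_⟩
  have h1 : ∑ q ∈ Icc (w + 1) N, psi q / (q : ℝ) ^ n ≤
      C * ∑ q ∈ Icc (w + 1) N, (q : ℝ) ^ (-(13 / 10) : ℝ) := by
    rw [Finset.mul_sum]
    refine sum_le_sum fun q hq => ?_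
    rw [mem_Icc] at hq
    exact hC q (by omega)
  have h2 : ∑ q ∈ Icc (w + 1) N, (q : ℝ) ^ (-(13 / 10) : ℝ) ≤
      ∑' i : ℕ, (((i + (w + 1) : ℕ)) : ℝ) ^ (-(13 / 10) : ℝ) := by
    have h3 : ∑ q ∈ Icc (w + 1) N, (q : ℝ) ^ (-(13 / 10) : ℝ) =
        ∑ i ∈ range (N + 1 - (w + 1)), (((i + (w + 1) : ℕ)) : ℝ) ^ (-(13 / 10) : ℝ) := by
      have h4 : Icc (w + 1) N = Ico (w + 1) (N + 1) := by
        ext x; rw [mem_Icc, mem_Ico]; omega
      rw [h4, Finset.sum_Ico_eq_sum_range]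
      refine sum_congr rfl fun i _ => ?_
      rw [add_comm]
    rw [h3]
    apply Summable.sum_le_tsum
    · intro i _
      positivity
    · exact (summable_nat_add_iff (f := fun q : ℕ => (q : ℝ) ^ (-(13 / 10) : ℝ)) (w + 1)).mpr hsum
  have h3 := hw1 (w + 1) (by omega)
  have hC0 : 0 < C := by linarith
  calc ∑ q ∈ Icc (w + 1) N, psi q / (q : ℝ) ^ n
      ≤ C * ∑ q ∈ Icc (w + 1) N, (q : ℝ) ^ (-(13 / 10) : ℝ) := h1
    _ ≤ C * (e / C) := mul_le_mul_of_nonneg_left (h2.trans h3.le) hC0.le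
    _ = e := by field_simp

end CovHP
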