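import Pool.Agent.Lib.MP_e426f4_ag.K.Defs
import Pool.Agent.Lib.MP_e426f4_ag.G.Alg
import Pool.Agent.Lib.MP_e426f4_ag.G.AlgReal

/-! # Cyclic covers, module K-RK: real control of the values -/

namespace CovHP

open GenHP Finset Filter Topology

theorem real_control (n d : ℕ) (eps bet : ℝ) (he : 0 < eps) (hb : 0 < bet) :
    ∃ kap : ℝ, 0 < kap ∧ kap ≤ 1 / 10 ∧ ∃ rho0 : ℝ, 0 < rho0 ∧ rho0 ≤ 1 ∧
      ∀ rho : ℝ, 0 < rho → rho ≤ rho0 →
      ∀ (AC : Idx n d → ℝ) (xi : Fin (n + 1) → ℝ), (∀ t, |AC t| ≤ 1) → (∀ i, |xi i| ≤ 1) →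
      bet ≤ F AC xi → ∀ H : ℝ, 0 < H → ∀ B : ℕ, 1 ≤ B → ∀ A : Idx n d → ℤ,
      (∀ t, |(A t : ℝ) - H * AC t| ≤ 2 * rho * H) → ∀ x : Fin (n + 1) → ℤ,
      (∀ i, |(x i : ℝ) - B * xi i| ≤ kap * B) →
      |((F A x : ℤ) : ℝ) - H * (B : ℝ) ^ d * F AC xi| ≤ eps / 8 * (H * (B : ℝ) ^ d * F AC xi) := by
  obtain ⟨C1, hC1⟩ : ∃ C : ℝ, C = NN n d * (2 * 2 ^ d) + 1 := ⟨_, rfl⟩
  obtain ⟨C2, hC2⟩ : ∃ C : ℝ, C = (n + 1) * (NN n d * d) + NN n d * 4 ^ d + 1 := ⟨_, rfl⟩
  have hC1p : 0 < C1 := by rw [hC1]; positivity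
  have hC2p : 0 < C2 := by rw [hC2]; positivity
  refine ⟨min (1 / 10) (eps * bet / (16 * C2)), lt_min (by norm_num) (by positivity),
    min_le_left _ _, min 1 (eps * bet / (16 * C1)), lt_min one_pos (by positivity),
    min_le_left _ _, ?_⟩
  obtain ⟨kap, hkap⟩ : ∃ k : ℝ, k = min (1 / 10) (eps * bet / (16 * C2)) := ⟨_, rfl⟩
  rw [← hkap]
  have hk0 : 0 < kap := by rw [hkap]; exact lt_min (by norm_num) (by positivity)
  have hk1 : kap ≤ 1 / 10 := by rw [hkap]; exact min_le_left _ _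
  have hk2 : C2 * kap ≤ eps * bet / 16 := by
    have h1 : kap ≤ eps * bet / (16 * C2) := by rw [hkap]; exact min_le_right _ _
    rw [le_div_iff₀ (by positivity)] at h1
    linarith
  intro rho hr hr0 AC xi hAC hxi hbet H hH B hB A hA x hx
  have hr2 : C1 * rho ≤ eps * bet / 16 := by
    have h1 : rho ≤ eps * bet / (16 * C1) := hr0.trans (min_le_right _ _)
    rw [le_div_iff₀ (by positivity)] at h1
    linarith
  have hB0 : (0 : ℝ) < B := by exact_mod_cast (by omega : 0 < B)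
  -- scaled data
  obtain ⟨a, ha⟩ : ∃ a : Idx n d → ℝ, a = fun t => (A t : ℝ) / H - AC t := ⟨_, rfl⟩
  obtain ⟨y, hy⟩ : ∃ y : Fin (n + 1) → ℝ, y = fun i => (x i : ℝ) / B - xi i := ⟨_, rfl⟩
  have ha1 : ∀ t, |a t| ≤ 2 * rho := by
    intro t
    have h1 : a t = ((A t : ℝ) - H * AC t) / H := by
      rw [ha]
      field_simp
    rw [h1, abs_div, abs_of_pos hH, div_le_iff₀ hH]
    exact hA t
  have hy1 : ∀ i, |y i| ≤ kap := by
    intro i
    have h1 : y i = ((x i : ℝ) - B * xi i) / B := by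
      rw [hy]
      field_simp
    rw [h1, abs_div, abs_of_pos hB0, div_le_iff₀ hB0]
    exact hx i
  have hFA : ((F A x : ℤ) : ℝ) = H * (B : ℝ) ^ d *
      (F AC (fun i => xi i + y i) + F a (fun i => xi i + y i)) := by
    rw [← F_add]
    have e1 : (fun t => (A t : ℝ)) = fun t => H * (AC t + a t) := by
      funext t
      rw [ha]
      field_simp
      ring
    have e2 : (fun i => (x i : ℝ)) = fun i => (B : ℝ) * (xi i + y i) := by
      funext i
      rw [hy]
      field_simp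
      ring
    rw [← F_cast, e1, e2, F_smul, F_scale]
    ring
  have h1 : |F a (fun i => xi i + y i)| ≤ NN n d * (2 * rho) * 2 ^ d :=
    F_abs_le a _ (2 * rho) 2 (by norm_num) ha1 fun i => by
      refine (abs_add_le _ _).trans ?_
      linarith [hxi i, hy1 i]
  have h2 := F_taylor_real AC xi y 1 1 kap le_rfl hk0.le (by linarith) hAC hxi hy1
  have h3 : |∑ j, D AC xi j * y j| ≤ (n + 1) * (NN n d * d) * kap := by
    calc |∑ j, D AC xi j * y j| ≤ ∑ j, |D AC xi j * y j| := Finset.abs_sum_le_sum_abs _ _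
      _ ≤ ∑ _j : Fin (n + 1), (NN n d * d) * kap := by
          refine Finset.sum_le_sum fun j _ => ?_
          rw [abs_mul]
          have h4 := D_abs_le AC xi j 1 1 le_rfl hAC hxi
          rw [one_pow, mul_one, mul_one] at h4
          exact mul_le_mul h4 (hy1 j) (abs_nonneg _) (by positivity)
      _ = (n + 1) * (NN n d * d) * kap := by
          rw [Finset.sum_const, nsmul_eq_mul, Finset.card_univ, Fintype.card_fin]
          push_cast
          ring
  have h4 : |F AC (fun i => xi i + y i) - F AC xi| ≤ C2 * kap := by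
    have h5 : F AC (fun i => xi i + y i) - F AC xi =
        (F AC (fun i => xi i + y i) - F AC xi - ∑ j, D AC xi j * y j) +
          ∑ j, D AC xi j * y j := by ring
    rw [h5]
    refine (abs_add_le _ _).trans ?_
    have h6 : (NN n d : ℝ) * 4 ^ d * 1 * 1 ^ d * kap ^ 2 ≤ NN n d * 4 ^ d * kap := by
      have h7 : kap ^ 2 ≤ kap := by nlinarith
      have h8 : (0 : ℝ) ≤ NN n d * 4 ^ d := by positivity
      calc (NN n d : ℝ) * 4 ^ d * 1 * 1 ^ d * kap ^ 2 = NN n d * 4 ^ d * kap ^ 2 := by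
            rw [one_pow]; ring
        _ ≤ _ := mul_le_mul_of_nonneg_left h7 h8
    have h7 : C2 * kap = (n + 1) * (NN n d * d) * kap + NN n d * 4 ^ d * kap + kap := by
      rw [hC2]; ring
    rw [h7]
    linarith
  have h5 : |F a (fun i => xi i + y i)| ≤ C1 * rho := by
    have h6 : C1 * rho = NN n d * (2 * rho) * 2 ^ d + rho := by rw [hC1]; ring
    rw [h6]
    linarith
  have hP : 0 < H * (B : ℝ) ^ d := by positivity
  rw [hFA]
  have h6 : H * (B : ℝ) ^ d * (F AC (fun i => xi i + y i) + F a (fun i => xi i + y i)) -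
      H * (B : ℝ) ^ d * F AC xi =
      H * (B : ℝ) ^ d * ((F AC (fun i => xi i + y i) - F AC xi) + F a (fun i => xi i + y i)) := by
    ring
  rw [h6, abs_mul, abs_of_pos hP]
  have h7 : |(F AC (fun i => xi i + y i) - F AC xi) + F a (fun i => xi i + y i)| ≤
      eps / 8 * F AC xi := by
    refine (abs_add_le _ _).trans ?_
    nlinarith
  calc H * (B : ℝ) ^ d * |(F AC (fun i => xi i + y i) - F AC xi) + F a (fun i => xi i + y i)|
      ≤ H * (B : ℝ) ^ d * (eps / 8 * F AC xi) := mul_le_mul_of_nonneg_left h7 hP.le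
    _ = eps / 8 * (H * (B : ℝ) ^ d * F AC xi) := by ring

end CovHP
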