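import Pool.Agent.Lib.MP_e426f4_ag.K.SecondMoment
import Pool.Agent.Lib.MP_e426f4_ag.K.HensLocal
import Pool.Agent.Lib.MP_e426f4_ag.K.RealControl
import Pool.Agent.Lib.MP_e426f4_ag.K.Psi

/-! Module K-CT2: the class theorem for cyclic covers of `P^n`. -/

namespace CovHP

open GenHP Finset Filter Topology

theorem class_thm (n k m : ℕ) (hn : 2 ≤ n) (hk : 2 ≤ k) (hm : 1 ≤ m) (hf : m * (k - 1) ≤ n)
    (eps : ℝ) (he : 0 < eps) : ∃ w1 : ℕ, ∀ w : ℕ, w1 ≤ w → 2 ≤ w → ∀ bet : ℝ, 0 < bet → bet ≤ 1 →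
    ∃ rho0 : ℝ, 0 < rho0 ∧ rho0 ≤ 1 ∧ ∀ rho : ℝ, 0 < rho → rho ≤ rho0 → ∀ l : ℕ, 1 ≤ l →
      ∀ A0 : Idx n (k * m) → ℤ,
      (∀ p : ℕ, p.Prime → p ≤ w → ∃ x : Fin (n + 1) → ℤ, (∃ i, ¬ (p : ℤ) ∣ x i) ∧
        ∃ u : ℤ, ((p : ℤ) ^ (2 * l)) ∣ F A0 x - u ^ k ∧ ¬ ((p : ℤ) ^ l ∣ k * u ^ (k - 1))) →
      ∀ AC : Idx n (k * m) → ℝ, (∀ t, |AC t| ≤ 1) →
      ∀ xi : Fin (n + 1) → ℝ, (∀ i, |xi i| ≤ 1) → (∃ i, |xi i| = 1) → bet ≤ F AC xi →
      ∀ᶠ H : ℝ in atTop,
        (Set.ncard {A : Idx n (k * m) → ℤ | (∀ t, |(A t : ℝ) - H * AC t| ≤ rho * H) ∧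
          (∀ t, ((primorial w : ℤ) ^ (2 * l)) ∣ A t - A0 t) ∧ ¬ KSol k A} : ℝ) ≤
          eps * (2 * rho * H / (primorial w : ℝ) ^ (2 * l)) ^ NN n (k * m) := by
  classical
  obtain ⟨psi, hpsi, hok⟩ := exists_psi n k m hn hk hm hf
  set e1 : ℝ := min (1 / 10) (eps / 400) with he1
  have he10 : 0 < e1 := lt_min (by norm_num) (by positivity)
  have he1a : e1 ≤ 1 / 10 := min_le_left _ _
  have he1b : e1 ≤ eps / 400 := min_le_right _ _
  obtain ⟨w2, hw2⟩ := psi_tail n psi hok (eps / 40) (by positivity)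
  obtain ⟨w3, hw3⟩ := exists_nat_ge (40 / eps)
  refine ⟨max w2 w3, ?_⟩
  intro w hww hw bet hb hb1
  obtain ⟨kap, hkap, hkap1, rho0, hr0, hr01, hrc⟩ := real_control n (k * m) e1 bet he10 hb
  refine ⟨rho0, hr0, hr01, ?_⟩
  intro rho hrho hrho1 l hl A0 hloc AC hAC xi hxi hxi1 hF
  obtain ⟨P, x0, w0, hP, hHens, hA0, hx0⟩ := hensK_of_local k hk w l hw hl A0 hloc
  set p : KPar n (k * m) :=
    { AC := AC, xi := xi, kap := kap, rho := rho, W := primorial w, P := P,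
      Q := (primorial w) ^ (2 * l), A0 := A0, x0 := x0, w0 := w0 } with hp
  have hval : p.Valid k m e1 bet w :=
    { n_ge := hn
      k_ge := hk
      m_ge := hm
      d_eq := rfl
      fano := hf
      eps_pos := he10
      eps_le := he1a
      bet_pos := hb
      bet_le := hb1
      w_two := hw
      kap_pos := hkap
      kap_le := hkap1
      rho_pos := hrho
      rho_le := hrho1.trans hr01
      AC_le := hAC
      xi_le := hxi
      xi_eq := hxi1
      vi_ge := hF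
      rk := fun H hH B hB A hA x hx => hrc rho hrho hrho1 AC xi hAC hxi hF H hH B hB A hA x hx.1
      W_pos := primorial_pos w
      W_primes := by
        intro l hl
        show l ∣ primorial w ↔ l ≤ w
        unfold primorial
        rw [Prime.dvd_finsetProd_iff hl.prime]
        constructor
        · rintro ⟨q, hq, hlq⟩
          rw [Finset.mem_filter, Finset.mem_range] at hq
          rw [Nat.prime_dvd_prime_iff_eq hl hq.2] at hlq
          omega
        · intro hlw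
          exact ⟨l, Finset.mem_filter.mpr ⟨Finset.mem_range.mpr (by omega), hl⟩, dvd_rfl⟩
      Q_pos := pow_pos (primorial_pos w) _
      P_pos := hP
      hens := hHens
      A0x0 := hA0
      x0_unimod := hx0 }
  have hmain := second_moment p hval psi hpsi (eps / 40) (hw2 w ((le_max_left _ _).trans hww))
  filter_upwards [hmain, Filter.eventually_ge_atTop 0] with H hH hHpos
  have hset : {A : Idx n (k * m) → ℤ | (∀ t, |(A t : ℝ) - H * AC t| ≤ rho * H) ∧
      (∀ t, ((primorial w : ℤ) ^ (2 * l)) ∣ A t - A0 t) ∧ ¬ KSol k A} =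
      {A | A ∈ p.Cl p.rho H ∧ ¬ KSol k A} := by
    ext A
    simp only [KPar.Cl, hp, ← and_assoc]
    push_cast
    rfl
  rw [hset]
  refine hH.trans ?_
  have hXR : p.XR p.rho H = (2 * rho * H / (primorial w : ℝ) ^ (2 * l)) ^ NN n (k * m) := by
    simp only [KPar.XR, hp]
    push_cast
    rfl
  rw [hXR]
  have hH0 : 0 ≤ (2 * rho * H / (primorial w : ℝ) ^ (2 * l)) ^ NN n (k * m) := by
    positivity
  refine mul_le_mul_of_nonneg_right ?_ hH0
  have hw0 : (0 : ℝ) < w := by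
    have : 0 < w := by omega
    exact_mod_cast this
  have h3 : 10 / (w : ℝ) ≤ eps / 4 := by
    rw [div_le_iff₀ hw0]
    have h4 : (40 / eps : ℝ) ≤ w := hw3.trans (by exact_mod_cast (le_max_right _ _).trans hww)
    rw [div_le_iff₀ he] at h4
    linarith
  linarith
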