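import Pool.Agent.Lib.MP_e426f4_ag.M.ClsOfBlock
import Pool.Agent.Lib.MP_e426f4_ag.K.ClassThm

/-! Module K-CLS: the class theorem for cyclic covers of products from the one for `P^n`. -/

namespace CovHP

open GenHP Finset Filter Topology

section multi
variable {ι : Type} [Fintype ι] [DecidableEq ι]

/-- solubility of the evaluated form gives solubility -/
theorem mksol_of_ev {n d : ι → ℕ} (k : ℕ) (i0 : ι) (A : MIdx n d → ℤ) (z : MVar n → ℤ)
    (hz : ∀ j, j ≠ i0 → Prim fun a => z ⟨j, a⟩) (h : KSol k (ev i0 A z)) : MKSol k A := by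
  classical
  obtain ⟨x, hx, u, hu⟩ := h
  have hexa : ∃ a, x a ≠ 0 := by
    by_contra hcon
    push Not at hcon
    exact hx (funext hcon)
  set Z : MVar n → ℚ := fun v => if h : v.1 = i0 then x (h ▸ v.2) else (z v : ℚ) with hZ
  have hZ0 : ∀ a, Z ⟨i0, a⟩ = x a := fun a => by simp [hZ]
  have hZ1 : ∀ (j : ι) (a : Fin (n j + 1)), j ≠ i0 → Z ⟨j, a⟩ = (z ⟨j, a⟩ : ℚ) := fun j a hj => by
    simp [hZ, hj]
  refine ⟨Z, ?_, u, ?_⟩
  · intro i
    by_cases hi : i = i0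
    · subst hi
      obtain ⟨a, ha⟩ := hexa
      exact ⟨a, by rw [hZ0]; exact ha⟩
    · obtain ⟨c, hc⟩ := hz i hi
      by_contra hcon
      push Not at hcon
      have : ∀ a, z ⟨i, a⟩ = 0 := fun a => by
        have := hcon a
        rw [hZ1 i a hi] at this
        exact_mod_cast this
      simp [this] at hc
  · rw [MF_eq_F_ev i0]
    have h1 : (fun a => Z ⟨i0, a⟩) = x := funext hZ0
    rw [h1]
    have h2 : ev i0 (fun t => (A t : ℚ)) Z = fun t => ((ev i0 A z t : ℤ) : ℚ) := by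
      rw [ev_congr i0 _ Z (fun v => (z v : ℚ)) hZ1]
      funext t
      exact ev_map (Int.castRingHom ℚ) i0 A z t
    rw [h2]
    exact hu

/-- local data at `p` for the evaluated form -/
theorem kcls_local (n m : ι → ℕ) (k : ℕ) (i0 : ι) (p l : ℕ) (hp : p.Prime)
    (A0 : MIdx n (fun i => k * m i) → ℤ)
    (zp Y : MVar n → ℤ) (hzu : BUnit p zp) (u0 : ℤ)
    (hF : (p : ℤ) ^ (2 * l) ∣ MF A0 zp - u0 ^ k) (hD : ¬ (p : ℤ) ^ l ∣ k * u0 ^ (k - 1))
    (hY : ∀ j, ∃ u : ℤ, ¬ (p : ℤ) ∣ u ∧ ∀ b, (p : ℤ) ^ (2 * l) ∣ Y ⟨j, b⟩ - u * zp ⟨j, b⟩) :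
    ∃ x : Fin (n i0 + 1) → ℤ, (∃ i, ¬ (p : ℤ) ∣ x i) ∧ ∃ u : ℤ,
      ((p : ℤ) ^ (2 * l)) ∣ F (ev i0 A0 Y) x - u ^ k ∧ ¬ ((p : ℤ) ^ l ∣ k * u ^ (k - 1)) := by
  classical
  choose u hu1 hu2 using hY
  set c : ι → ℤ := fun j => if j = i0 then 1 else u j with hc
  set Zm : MVar n → ℤ := fun v => if v.1 = i0 then zp v else Y v with hZm
  have hpp : Prime (p : ℤ) := Nat.prime_iff_prime_int.mp hp
  have hcong : ∀ v, (p : ℤ) ^ (2 * l) ∣ Zm v - c v.1 * zp v := by
    rintro ⟨j, b⟩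
    by_cases hj : j = i0
    · simp [hZm, hc, hj]
    · simpa [hZm, hc, hj] using hu2 j b
  have hev : ev i0 A0 Y = ev i0 A0 Zm := by
    refine ev_congr i0 A0 Y Zm fun j b hj => ?_
    simp [hZm, hj]
  set C : ℤ := ∏ i, c i ^ m i with hC
  have hcp : ¬ (p : ℤ) ∣ C := by
    intro h
    obtain ⟨i, -, hi⟩ := (Prime.dvd_finsetProd_iff hpp _).mp h
    have h1 := hpp.dvd_of_dvd_pow hi
    by_cases hj : i = i0
    · simp only [hc, hj, if_true] at h1
      exact hpp.not_isUnit (isUnit_of_dvd_one h1)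
    · simp only [hc, hj, if_false] at h1
      exact hu1 i h1
  have hCk : ∏ i, c i ^ (k * m i) = C ^ k := by
    rw [hC, ← Finset.prod_pow]
    refine Finset.prod_congr rfl fun i _ => ?_
    rw [← pow_mul, mul_comm]
  refine ⟨fun b => zp ⟨i0, b⟩, hzu i0, C * u0, ?_, ?_⟩
  · have h1 : F (ev i0 A0 Y) (fun b => zp ⟨i0, b⟩) = MF A0 Zm := by
      rw [hev, MF_eq_F_ev i0 A0 Zm]
      simp [hZm]
    rw [h1]
    have h2 := MF_congr_mod ((p : ℤ) ^ (2 * l)) A0 A0 Zm (fun v => c v.1 * zp v)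
      (fun t => by simp) hcong
    rw [MF_scale, hCk] at h2
    have h3 := dvd_add h2 (hF.mul_left (C ^ k))
    have h4 : MF A0 Zm - C ^ k * MF A0 zp + C ^ k * (MF A0 zp - u0 ^ k) =
        MF A0 Zm - (C * u0) ^ k := by ring
    rw [h4] at h3
    exact h3
  · intro h
    have h1 : (k : ℤ) * (C * u0) ^ (k - 1) = C ^ (k - 1) * (k * u0 ^ (k - 1)) := by ring
    rw [h1] at h
    have h7 : IsCoprime ((p : ℤ) ^ l) (C ^ (k - 1)) :=
      IsCoprime.pow ((Prime.coprime_iff_not_dvd hpp).mpr hcp)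
    exact hD (h7.dvd_of_dvd_mul_left h)

theorem kcls (n m : ι → ℕ) (k : ℕ) (hk : 2 ≤ k) (hm : ∀ i, 1 ≤ m i) (i0 : ι) (hn0 : 2 ≤ n i0)
    (hf : m i0 * (k - 1) ≤ n i0) : KCLS n (fun i => k * m i) k := by
  classical
  set d : ι → ℕ := fun i => k * m i with hd
  set S := SIdx n d i0 with hS
  set T1 := Idx (n i0) (d i0) with hT1
  have hSne : Nonempty S := ⟨fun j => mk fun _ => 0⟩
  have hσ : 1 ≤ Fintype.card S := Fintype.card_pos
  have hσR : (1 : ℝ) ≤ (Fintype.card S : ℝ) := by exact_mod_cast hσ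
  intro eps heps
  set eps' : ℝ := eps / (2 * (Fintype.card S : ℝ) ^ Fintype.card T1) with heps'
  have heps'0 : 0 < eps' := by positivity
  obtain ⟨w1, hw1⟩ := class_thm (n i0) k (m i0) hn0 hk (hm i0) hf eps' heps'0
  refine ⟨w1, ?_⟩
  intro w hww hw bet hb hb1
  have hw0 : (0 : ℝ) < w := by
    have : 0 < w := by omega
    exact_mod_cast this
  obtain ⟨rho0', hr0, hr01, hclass⟩ := hw1 w hww hw
    (bet / (2 * Fintype.card S)) (by positivity) (by
      rw [div_le_one (by positivity)]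
      linarith)
  refine ⟨rho0', hr0, hr01, ?_⟩
  intro rho hrho hrho1 l hl A0 hA0 AC hAC hGR
  obtain ⟨z, ⟨hz1, hz2⟩, hFz⟩ := hGR
  -- the tolerance
  set L : ℝ := NM n d * (Fintype.card (MVar n) * (∑ i, d i : ℕ) + 4 ^ (∑ i, d i) * 1) * 1 *
        1 ^ (∑ i, d i) with hL
  have hL0 : 0 ≤ L := by positivity
  obtain ⟨delta, hdel, hdel1, hLd⟩ : ∃ delta : ℝ, 0 < delta ∧ delta ≤ 1 ∧
      L * delta ≤ bet / 2 := by
    refine ⟨min 1 (bet / 2 / (L + 1)), ?_, min_le_left _ _, ?_⟩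
    · exact lt_min one_pos (by positivity)
    · calc L * min 1 (bet / 2 / (L + 1))
          ≤ L * (bet / 2 / (L + 1)) :=
            mul_le_mul_of_nonneg_left (min_le_right _ _) hL0
        _ ≤ bet / 2 := by
            rw [← mul_div_assoc, div_le_iff₀ (by positivity)]
            nlinarith
  -- the local points at the small primes
  have hzp0 : ∀ p : ℕ, ∃ zp : MVar n → ℤ, ∃ u0 : ℤ, p.Prime → p ≤ w → BUnit p zp ∧
      (p : ℤ) ^ (2 * l) ∣ MF A0 zp - u0 ^ k ∧ ¬ (p : ℤ) ^ l ∣ k * u0 ^ (k - 1) := by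
    intro p
    by_cases hp : p.Prime ∧ p ≤ w
    · obtain ⟨zp, h, u0, h1, h2⟩ := hA0 p hp.1 hp.2
      exact ⟨zp, u0, fun _ _ => ⟨h, h1, h2⟩⟩
    · exact ⟨0, 0, fun h1 h2 => absurd ⟨h1, h2⟩ hp⟩
  choose zp u0 hzp using hzp0
  -- the integer point
  have hy0 : ∀ j : ι, ∃ (y : Fin (n j + 1) → ℤ) (N : ℕ), 0 < N ∧ Prim y ∧
      (∀ p : ℕ, p.Prime → p ≤ w → ∃ u : ℤ, ¬ (p : ℤ) ∣ u ∧
        ∀ a, (p : ℤ) ^ (2 * l) ∣ y a - u * zp p ⟨j, a⟩) ∧
      (∀ a, |y a| ≤ N) ∧ (∃ a, |y a| = N) ∧ ∀ a, |(y a : ℝ) / N - z ⟨j, a⟩| ≤ delta := by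
    intro j
    exact exists_prim_approx w l (n j) hl (fun p a => zp p ⟨j, a⟩)
      (fun p hp hpw => (hzp p hp hpw).1 j) (fun a => z ⟨j, a⟩) (fun a => hz1 _) (hz2 j) delta hdel
  choose y N hN hyP hyp hyN hyN1 hyd using hy0
  set Y : MVar n → ℤ := fun v => y v.1 v.2 with hY
  set V : ℕ := ∏ j : {j // j ≠ i0}, N j ^ d j with hV
  have hVpos : 0 < V := Finset.prod_pos fun j _ => pow_pos (hN j) _
  have hVR : (0 : ℝ) < V := by exact_mod_cast hVpos
  set v : S → ℤ := fun s => vy i0 Y s with hv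
  have hvprim : ∃ c : S → ℤ, ∑ s, c s * v s = 1 := vy_prim i0 Y fun j _ => hyP j
  obtain ⟨hvV, s0, hs0⟩ := vy_sup (n := n) (d := d) i0 Y N (fun j a => hyN j a) hyN1
  -- class theorem for the evaluated forms
  set Q : ℕ := primorial w ^ (2 * l) with hQ
  have hQpos : 1 ≤ Q := Nat.one_le_pow _ _ (primorial_pos w)
  set AC2 : T1 × S → ℝ := fun q => AC ((spl n d i0).symm q) with hAC2
  set A02 : T1 × S → ℤ := fun q => A0 ((spl n d i0).symm q) with hA02
  set AC' : T1 → ℝ := fun t => (∑ s, AC2 (t, s) * (v s : ℝ)) / (Fintype.card S * V) with hAC'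
  have hev0 : (fun t => ∑ s, A02 (t, s) * v s) = ev i0 A0 Y := rfl
  -- the real point
  set Zr : MVar n → ℝ := fun u => if u.1 = i0 then z u else (Y u : ℝ) / N u.1 with hZr
  have hZrd : ∀ u, |Zr u - z u| ≤ delta := by
    rintro ⟨j, b⟩
    by_cases hj : j = i0
    · simp only [hZr, hj, if_true, sub_self, abs_zero]
      exact hdel.le
    · simp only [hZr, hj, if_false]
      exact hyd j b
  have hAC'ev : AC' = fun t => (Fintype.card S : ℝ)⁻¹ * ev i0 AC Zr t := by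
    funext t
    have h1 : ev i0 AC Zr = ev i0 AC (fun u => (Y u : ℝ) / N u.1) := by
      refine ev_congr i0 AC _ _ fun j b hj => ?_
      simp [hZr, hj]
    rw [h1]
    simp only [hAC', ev, vy_div, hAC2, hv]
    rw [div_eq_inv_mul, mul_inv, mul_assoc, Finset.mul_sum]
    congr 1
    refine Finset.sum_congr rfl fun s _ => ?_
    rw [hV]
    field_simp
  have hZrsum : (fun u => z u + (Zr u - z u)) = Zr := by funext u; ring
  have hMFr : |MF AC Zr - MF AC z| ≤ L * delta := by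
    have := MF_lip AC z (fun u => Zr u - z u) 1 1 delta le_rfl hdel.le hdel1 hAC hz1 hZrd
    rw [hZrsum] at this
    exact this
  have hxi : (fun b => Zr ⟨i0, b⟩) = fun b => z ⟨i0, b⟩ := by
    funext b
    simp [hZr]
  have hFAC' : F AC' (fun b => z ⟨i0, b⟩) = (Fintype.card S : ℝ)⁻¹ * MF AC Zr := by
    rw [hAC'ev, F_smul, MF_eq_F_ev i0 AC Zr, hxi]
  have hclass1 := hclass rho hrho hrho1 l hl (ev i0 A0 Y) ?_ AC' ?_
    (fun b => z ⟨i0, b⟩) (fun b => hz1 _) (hz2 i0) ?_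
  rotate_left
  · -- local data
    intro p hp hpw
    obtain ⟨hzu, hF, hD⟩ := hzp p hp hpw
    exact kcls_local n m k i0 p l hp A0 (zp p) Y hzu (u0 p) hF hD fun j => hyp j p hp hpw
  · intro t
    rw [hAC', abs_div, abs_of_pos (by positivity : (0 : ℝ) < Fintype.card S * V),
      div_le_one (by positivity)]
    calc |∑ s, AC2 (t, s) * (v s : ℝ)| ≤ ∑ s, |AC2 (t, s) * (v s : ℝ)| :=
          Finset.abs_sum_le_sum_abs _ _
      _ ≤ ∑ _s : S, (V : ℝ) := by
          refine Finset.sum_le_sum fun s _ => ?_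
          rw [abs_mul]
          have h1 : |(v s : ℝ)| ≤ V := by exact_mod_cast hvV s
          calc |AC2 (t, s)| * |(v s : ℝ)| ≤ 1 * V :=
                mul_le_mul (hAC _) h1 (abs_nonneg _) zero_le_one
            _ = V := one_mul _
      _ = Fintype.card S * V := by rw [Finset.sum_const, Finset.card_univ, nsmul_eq_mul]
  · rw [hFAC']
    have h1 : bet / 2 ≤ MF AC Zr := by
      have := (abs_le.mp hMFr).1
      linarith
    calc bet / (2 * Fintype.card S) = (Fintype.card S : ℝ)⁻¹ * (bet / 2) := by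
          rw [div_eq_mul_inv, mul_inv]
          ring
      _ ≤ _ := mul_le_mul_of_nonneg_left h1 (by positivity)
  -- reduction
  have hred := reduce (T1 := T1) (S := S) v hvprim V hvV s0 hs0 Q hQpos rho hrho
    (fun b => ¬ KSol k b) (fun A => ¬ MKSol k (n := n) (d := d) fun t => A (spl n d i0 t)) ?_ AC2 A02
    eps' heps'0 ?_
  rotate_left
  · intro A hA hsol
    refine hA (mksol_of_ev k i0 _ Y (fun j _ => hyP j) ?_)
    have : ev i0 (fun t => A (spl n d i0 t)) Y = fun t => ∑ s, A (t, s) * v s := by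
      funext t
      simp only [ev, Equiv.apply_symm_apply]
      rfl
    rw [this]
    exact hsol
  · refine hclass1.mono fun H hH => ?_
    refine le_trans (le_of_eq ?_) (hH.trans (le_of_eq ?_))
    · have hset : {b : T1 → ℤ | (∀ t, |(b t : ℝ) - H *
          ((∑ s, AC2 (t, s) * (v s : ℝ)) / (Fintype.card S * V))| ≤ rho * H) ∧
          (∀ t, (Q : ℤ) ∣ b t - ∑ s, A02 (t, s) * v s) ∧ ¬ KSol k b} =
          {A | (∀ m, |(A m : ℝ) - H * AC' m| ≤ rho * H) ∧
          (∀ m, (primorial w : ℤ) ^ (2 * l) ∣ A m - ev i0 A0 Y m) ∧ ¬ KSol k A} := by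
        have hQz : (Q : ℤ) = (primorial w : ℤ) ^ (2 * l) := by rw [hQ]; push_cast; rfl
        rw [hQz]
        rfl
      exact congrArg (fun X : Set (T1 → ℤ) => (X.ncard : ℝ)) hset
    · rw [hQ]
      push_cast
      rfl
  refine hred.mono fun H hH => ?_
  have hcardM : NM n d = Fintype.card (T1 × S) := Fintype.card_congr (spl n d i0)
  rw [hcardM]
  have hQc : (primorial w : ℝ) ^ (2 * l) = Q := by rw [hQ]; push_cast; rfl
  rw [hQc]
  have hcoef : 2 * eps' * (Fintype.card S : ℝ) ^ Fintype.card T1 = eps := by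
    rw [heps']
    field_simp
  rw [hcoef] at hH
  refine le_trans ?_ hH
  -- transport
  set Φ : (MIdx n d → ℤ) → (T1 × S → ℤ) := fun A q => A ((spl n d i0).symm q) with hΦ
  have hΦinj : Function.Injective Φ := by
    intro A A' h
    funext t
    have := congrFun h (spl n d i0 t)
    simpa [hΦ] using this
  have hfin : {A : T1 × S → ℤ | (∀ t, |(A t : ℝ) - H * AC2 t| ≤ rho * H) ∧
      (∀ t, (Q : ℤ) ∣ A t - A02 t) ∧ ¬ MKSol k (n := n) (d := d) fun t => A (spl n d i0 t)}.Finite := by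
    refine finite_of_abs_le _ (|H| + rho * H) fun A hA t => ?_
    have h1 := hA.1 t
    have h2 : |H * AC2 t| ≤ |H| := by
      rw [abs_mul]
      calc |H| * |AC2 t| ≤ |H| * 1 := mul_le_mul_of_nonneg_left (hAC _) (abs_nonneg _)
        _ = |H| := mul_one _
    calc |(A t : ℝ)| = |H * AC2 t + ((A t : ℝ) - H * AC2 t)| := by ring_nf
      _ ≤ |H * AC2 t| + |(A t : ℝ) - H * AC2 t| := abs_add_le _ _
      _ ≤ _ := add_le_add h2 h1
  have hsub : Φ '' {A : MIdx n d → ℤ | (∀ t, |(A t : ℝ) - H * AC t| ≤ rho * H) ∧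
      (∀ t, ((primorial w : ℤ) ^ (2 * l)) ∣ A t - A0 t) ∧ ¬ MKSol k A} ⊆
      {A : T1 × S → ℤ | (∀ t, |(A t : ℝ) - H * AC2 t| ≤ rho * H) ∧
      (∀ t, (Q : ℤ) ∣ A t - A02 t) ∧ ¬ MKSol k (n := n) (d := d) fun t => A (spl n d i0 t)} := by
    rintro _ ⟨A, ⟨hA1, hA2, hA3⟩, rfl⟩
    refine ⟨fun t => hA1 _, fun t => ?_, ?_⟩
    · have := hA2 ((spl n d i0).symm t)
      rw [hQ]
      push_cast
      exact this
    · have : (fun t => Φ A (spl n d i0 t)) = A := by
        funext t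
        simp [hΦ]
      rw [this]
      exact hA3
  have h1 := Set.ncard_le_ncard hsub hfin
  rw [Set.ncard_image_of_injective _ hΦinj] at h1
  exact_mod_cast h1

end multi

end CovHP
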