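import Pool.Agent.Lib.MP_e426f4_ag.AP

/-! Module K-IC: number of integers `w` with `w ^ k` in a short interval. -/

namespace CovHP

open Finset Filter Topology

/-- `a - b` in terms of `a ^ k - b ^ k` -/
theorem root_diff (k : ℕ) (hk : 1 ≤ k) (a b : ℝ) (hb : 0 ≤ b) (hab : b ≤ a) :
    (a - b) * (k * b ^ (k - 1)) ≤ a ^ k - b ^ k ∧ a ^ k - b ^ k ≤ (a - b) * (k * a ^ (k - 1)) := by
  have ha : 0 ≤ a := hb.trans hab
  have h1 := (Commute.all a b).mul_geom_sum₂ k
  rw [← h1]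
  have h2 : ∀ i ∈ Finset.range k, b ^ (k - 1) ≤ a ^ i * b ^ (k - 1 - i) := by
    intro i hi
    have hi' : i ≤ k - 1 := by have := Finset.mem_range.mp hi; omega
    calc b ^ (k - 1) = b ^ i * b ^ (k - 1 - i) := by rw [← pow_add]; congr 1; omega
      _ ≤ a ^ i * b ^ (k - 1 - i) := by gcongr
  have h3 : ∀ i ∈ Finset.range k, a ^ i * b ^ (k - 1 - i) ≤ a ^ (k - 1) := by
    intro i hi
    have hi' : i ≤ k - 1 := by have := Finset.mem_range.mp hi; omega
    calc a ^ i * b ^ (k - 1 - i) ≤ a ^ i * a ^ (k - 1 - i) := by gcongr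
      _ = a ^ (k - 1) := by rw [← pow_add]; congr 1; omega
  have h4 := Finset.card_nsmul_le_sum _ _ _ h2
  have h5 := Finset.sum_le_card_nsmul _ _ _ h3
  rw [Finset.card_range, nsmul_eq_mul] at h4 h5
  exact ⟨mul_le_mul_of_nonneg_left h4 (by linarith), mul_le_mul_of_nonneg_left h5 (by linarith)⟩

theorem count_w (k : ℕ) (hk : 2 ≤ k) (eps th : ℝ) (he : 0 < eps) (he1 : eps ≤ 1 / 10)
    (hth : 0 < th) (hth1 : th ≤ eps / 8) (M : ℕ) (hM : 1 ≤ M) :
    ∃ V0 : ℝ, 0 < V0 ∧ ∀ V : ℝ, V0 ≤ V → ∀ v : ℝ, |v - V| ≤ eps / 4 * V → ∀ r : ℤ,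
      {u : ℤ | 0 < u ∧ (M : ℤ) ∣ u - r ∧ v - th * V < (u : ℝ) ^ k ∧ (u : ℝ) ^ k ≤ v}.Finite ∧
      (1 - eps) * (th * V ^ (1 / (k : ℝ)) / (k * M)) ≤
        (Set.ncard {u : ℤ | 0 < u ∧ (M : ℤ) ∣ u - r ∧ v - th * V < (u : ℝ) ^ k ∧
          (u : ℝ) ^ k ≤ v} : ℝ) ∧
      (Set.ncard {u : ℤ | 0 < u ∧ (M : ℤ) ∣ u - r ∧ v - th * V < (u : ℝ) ^ k ∧
          (u : ℝ) ^ k ≤ v} : ℝ) ≤ (1 + eps) * (th * V ^ (1 / (k : ℝ)) / (k * M)) := by
  have hM0 : (0 : ℝ) < M := by exact_mod_cast hM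
  have hM1 : (1 : ℝ) ≤ M := by exact_mod_cast hM
  have hk0 : (0 : ℝ) < k := by exact_mod_cast (by omega : 0 < k)
  have hkne : (k : ℝ) ≠ 0 := hk0.ne'
  have hinv : (0 : ℝ) < 1 / (k : ℝ) := by positivity
  have hlim := (tendsto_rpow_atTop hinv).eventually_ge_atTop (8 * k * M / (eps * th))
  obtain ⟨V1, hV1⟩ := Filter.eventually_atTop.mp hlim
  refine ⟨max V1 1, by positivity, ?_⟩
  intro V hV v hv r
  have hVpos : 0 < V := lt_of_lt_of_le one_pos ((le_max_right _ _).trans hV)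
  have hbig := hV1 V ((le_max_left _ _).trans hV)
  set R : ℝ := V ^ (1 / (k : ℝ)) with hR
  have hR0 : 0 < R := by positivity
  have hRk : R ^ k = V := by
    rw [hR, ← Real.rpow_natCast, ← Real.rpow_mul hVpos.le, one_div_mul_cancel hkne, Real.rpow_one]
  rw [abs_le] at hv
  have hvl : (1 - eps / 4) * V ≤ v := by linarith
  have hvu : v ≤ (1 + eps / 4) * V := by linarith
  have hv0 : 0 < v := lt_of_lt_of_le (by nlinarith) hvl
  have hvL : (1 - 3 * eps / 8) * V ≤ v - th * V := by nlinarith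
  have hvL0 : 0 < v - th * V := lt_of_lt_of_le (by nlinarith) hvL
  -- the roots
  set a : ℝ := v ^ (1 / (k : ℝ)) with ha
  set b : ℝ := (v - th * V) ^ (1 / (k : ℝ)) with hb
  have ha0 : 0 < a := by positivity
  have hb0 : 0 < b := by positivity
  have hak : a ^ k = v := by
    rw [ha, ← Real.rpow_natCast, ← Real.rpow_mul hv0.le, one_div_mul_cancel hkne, Real.rpow_one]
  have hbk : b ^ k = v - th * V := by
    rw [hb, ← Real.rpow_natCast, ← Real.rpow_mul hvL0.le, one_div_mul_cancel hkne, Real.rpow_one]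
  have hkpos : k ≠ 0 := by omega
  have hba : b ≤ a := by
    refine (pow_le_pow_iff_left₀ hb0.le ha0.le hkpos).mp ?_
    rw [hak, hbk]
    nlinarith
  -- a ≤ (1 + eps/4) R, b ≥ (1 - 3 eps / 8) R
  have haR : a ≤ (1 + eps / 4) * R := by
    refine (pow_le_pow_iff_left₀ ha0.le (by positivity) hkpos).mp ?_
    rw [hak, mul_pow, hRk]
    refine hvu.trans (mul_le_mul_of_nonneg_right ?_ hVpos.le)
    exact le_self_pow₀ (by linarith) hkpos
  have hbR : (1 - 3 * eps / 8) * R ≤ b := by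
    refine (pow_le_pow_iff_left₀ (by nlinarith) hb0.le hkpos).mp ?_
    rw [hbk, mul_pow, hRk]
    refine le_trans (mul_le_mul_of_nonneg_right ?_ hVpos.le) hvL
    exact pow_le_of_le_one (by linarith) (by linarith) hkpos
  obtain ⟨h1, h2⟩ := root_diff k (by omega) a b hb0.le hba
  rw [hak, hbk] at h1 h2
  have hL : v - (v - th * V) = th * V := by ring
  rw [hL] at h1 h2
  -- length of the interval
  have hak1 : a ^ (k - 1) = v / a := by
    rw [← hak, eq_div_iff ha0.ne', ← pow_succ]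
    congr 1
    omega
  have hbk1 : b ^ (k - 1) = (v - th * V) / b := by
    rw [← hbk, eq_div_iff hb0.ne', ← pow_succ]
    congr 1
    omega
  set Len : ℝ := th * R / k with hLen
  have hLen0 : 0 < Len := by positivity
  have hup : a - b ≤ (1 + eps * 7 / 8) * Len := by
    rw [hbk1] at h1
    have h3 : a - b ≤ th * V * b / (k * (v - th * V)) := by
      rw [le_div_iff₀ (by positivity)]
      have h4 : (a - b) * (k * ((v - th * V) / b)) * b = (a - b) * (k * (v - th * V)) := by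
        field_simp
      rw [← h4]
      exact mul_le_mul_of_nonneg_right h1 hb0.le
    refine h3.trans ?_
    rw [div_le_iff₀ (by positivity), hLen]
    have h5 : b ≤ (1 + eps / 4) * R := hba.trans haR
    have h6 : (1 + eps / 4) ≤ (1 + eps * 7 / 8) * (1 - 3 * eps / 8) := by nlinarith
    have h7 : (1 + eps * 7 / 8) * (th * R / k) * (k * (v - th * V)) =
        th * R * ((1 + eps * 7 / 8) * (v - th * V)) := by
      field_simp
    rw [h7]
    have h8 : (1 + eps / 4) * V ≤ (1 + eps * 7 / 8) * (v - th * V) := by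
      calc (1 + eps / 4) * V ≤ ((1 + eps * 7 / 8) * (1 - 3 * eps / 8)) * V :=
            mul_le_mul_of_nonneg_right h6 hVpos.le
        _ = (1 + eps * 7 / 8) * ((1 - 3 * eps / 8) * V) := by ring
        _ ≤ _ := mul_le_mul_of_nonneg_left hvL (by positivity)
    calc th * V * b ≤ th * V * ((1 + eps / 4) * R) := by gcongr
      _ = th * R * ((1 + eps / 4) * V) := by ring
      _ ≤ _ := by gcongr
  have hlo : (1 - eps * 3 / 4) * Len ≤ a - b := by
    rw [hak1] at h2
    have h3 : th * V * a / (k * v) ≤ a - b := by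
      rw [div_le_iff₀ (by positivity)]
      have h4 : (a - b) * (k * (v / a)) * a = (a - b) * (k * v) := by
        field_simp
      rw [← h4]
      exact mul_le_mul_of_nonneg_right h2 ha0.le
    refine le_trans ?_ h3
    rw [le_div_iff₀ (by positivity), hLen]
    have h5 : (1 - 3 * eps / 8) * R ≤ a := hbR.trans hba
    have h6 : (1 - eps * 3 / 4) * (1 + eps / 4) ≤ (1 - 3 * eps / 8) := by nlinarith
    have h7 : (1 - eps * 3 / 4) * (th * R / k) * (k * v) = th * R * ((1 - eps * 3 / 4) * v) := by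
      field_simp
    rw [h7]
    have h9 : 0 ≤ 1 - eps * 3 / 4 := by linarith
    have h8 : (1 - eps * 3 / 4) * v ≤ (1 - 3 * eps / 8) * V := by
      calc (1 - eps * 3 / 4) * v ≤ (1 - eps * 3 / 4) * ((1 + eps / 4) * V) :=
            mul_le_mul_of_nonneg_left hvu h9
        _ = ((1 - eps * 3 / 4) * (1 + eps / 4)) * V := by ring
        _ ≤ _ := mul_le_mul_of_nonneg_right h6 hVpos.le
    calc th * R * ((1 - eps * 3 / 4) * v) ≤ th * R * ((1 - 3 * eps / 8) * V) := by gcongr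
      _ = th * V * ((1 - 3 * eps / 8) * R) := by ring
      _ ≤ _ := by gcongr
  -- error terms
  have herr : 8 * k * M ≤ R * (eps * th) := by
    rw [div_le_iff₀ (by positivity)] at hbig
    exact hbig
  have herr2 : 1 ≤ eps / 8 * (Len / M) := by
    rw [hLen, div_div, mul_div_assoc', le_div_iff₀ (by positivity)]
    linarith
  -- comparison with closed arithmetic progressions
  obtain ⟨f1, l1, u1⟩ := CubicHP.ncard_AP b a hba M hM r
  set T : Set ℤ := {u : ℤ | 0 < u ∧ (M : ℤ) ∣ u - r ∧ v - th * V < (u : ℝ) ^ k ∧ (u : ℝ) ^ k ≤ v}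
    with hT
  have hsub : T ⊆ {x : ℤ | b ≤ x ∧ (x : ℝ) ≤ a ∧ (M : ℤ) ∣ x - r} := by
    rintro u ⟨g1, g2, g3, g4⟩
    have gu : (0 : ℝ) < u := by exact_mod_cast g1
    refine ⟨?_, ?_, g2⟩
    · refine (pow_le_pow_iff_left₀ hb0.le gu.le hkpos).mp ?_
      rw [hbk]
      exact g3.le
    · refine (pow_le_pow_iff_left₀ gu.le ha0.le hkpos).mp ?_
      rw [hak]
      exact g4
  have hfin : T.Finite := f1.subset hsub
  have hsup : {x : ℤ | b ≤ x ∧ (x : ℝ) ≤ a ∧ (M : ℤ) ∣ x - r} ⊆ insert ⌊b⌋ T := by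
    rintro u ⟨g1, g2, g3⟩
    have gu : (0 : ℝ) < u := lt_of_lt_of_le hb0 g1
    rcases g1.eq_or_lt with g | g
    · left
      rw [g, Int.floor_intCast]
    · right
      refine ⟨by exact_mod_cast gu, g3, ?_, ?_⟩
      · rw [← hbk]
        exact pow_lt_pow_left₀ g hb0.le hkpos
      · rw [← hak]
        exact pow_le_pow_left₀ gu.le g2 k
  have c1 : (T.ncard : ℝ) ≤ (Set.ncard {x : ℤ | b ≤ x ∧ (x : ℝ) ≤ a ∧ (M : ℤ) ∣ x - r} : ℝ) := by
    exact_mod_cast Set.ncard_le_ncard hsub f1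
  have c2 : (Set.ncard {x : ℤ | b ≤ x ∧ (x : ℝ) ≤ a ∧ (M : ℤ) ∣ x - r} : ℝ) ≤ T.ncard + 1 := by
    have h := (Set.ncard_le_ncard hsup (hfin.insert _)).trans (Set.ncard_insert_le _ _)
    exact_mod_cast h
  have hmain : th * V ^ (1 / (k : ℝ)) / (k * M) = Len / M := by
    rw [hLen, ← hR]
    field_simp
  rw [hmain]
  refine ⟨hfin, ?_, ?_⟩
  · have h10 : (1 - eps * 3 / 4) * (Len / M) ≤ (a - b) / M := by
      rw [mul_div_assoc']
      exact div_le_div_of_nonneg_right hlo hM0.le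
    have h11 : (1 - eps) * (Len / M) = (1 - eps * 3 / 4) * (Len / M) - 2 * (eps / 8 * (Len / M)) := by
      ring
    rw [h11]
    linarith only [h10, herr2, l1, c2]
  · have h10 : (a - b) / M ≤ (1 + eps * 7 / 8) * (Len / M) := by
      rw [mul_div_assoc']
      exact div_le_div_of_nonneg_right hup hM0.le
    have h11 : (1 + eps) * (Len / M) = (1 + eps * 7 / 8) * (Len / M) + eps / 8 * (Len / M) := by
      ring
    rw [h11]
    linarith only [h10, herr2, u1, c1]

end CovHP
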