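import Pool.Agent.Lib.MP_e426f4_ag.AP
import Pool.Agent.Lib.MP_e426f4_ag.K.Defs

/-! Module K-NX: number of points of a class. -/

namespace CovHP

open GenHP Finset Filter Topology

variable {n d : ℕ}

theorem NX_box (p : KPar n d) (hQ : 0 < p.Q) (hkap : 0 < p.kap) (q : ℕ) (hq : 0 < q)
    (hqQ : Nat.Coprime q p.Q) (B : ℕ) (c : Fin (n + 1) → ℤ) :
    (Set.ncard {x : Fin (n + 1) → ℤ | x ∈ p.XX B ∧ ∀ i, (q : ℤ) ∣ x i - c i} : ℝ) ≤
        (2 * p.kap * B / (p.Q * q) + 1) ^ (n + 1) ∧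
      (1 ≤ 2 * p.kap * B / ((p.Q : ℝ) * q) → (2 * p.kap * B / (p.Q * q) - 1) ^ (n + 1) ≤
        (Set.ncard {x : Fin (n + 1) → ℤ | x ∈ p.XX B ∧ ∀ i, (q : ℤ) ∣ x i - c i} : ℝ)) := by
  have hQ' : (0 : ℝ) < p.Q := by exact_mod_cast hQ
  have hq' : (0 : ℝ) < q := by exact_mod_cast hq
  have hB' : (0 : ℝ) ≤ B := Nat.cast_nonneg B
  set t : ℝ := 2 * p.kap * B / (p.Q * q) with ht
  have ht0 : 0 ≤ t := by positivity
  -- chinese remainder
  have hcop : IsCoprime (p.Q : ℤ) (q : ℤ) := Int.isCoprime_iff_gcd_eq_one.2 (by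
    rw [Int.gcd_natCast_natCast]; exact hqQ.symm)
  have hcrt : ∀ i, ∃ z : ℤ, ∀ a : ℤ, ((p.Q : ℤ) ∣ a - p.x0 i ∧ (q : ℤ) ∣ a - c i) ↔
      ((p.Q * q : ℕ) : ℤ) ∣ a - z := by
    intro i
    obtain ⟨u, v, huv⟩ := hcop
    refine ⟨c i * (u * p.Q) + p.x0 i * (v * q), fun a => ?_⟩
    have e1 : a - (c i * (u * p.Q) + p.x0 i * (v * q)) =
        (a - p.x0 i) + (p.x0 i - c i) * (u * p.Q) := by
      have : v * q = 1 - u * p.Q := by linarith
      rw [this]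
      ring
    have e2 : a - (c i * (u * p.Q) + p.x0 i * (v * q)) =
        (a - c i) + (c i - p.x0 i) * (v * q) := by
      have : u * p.Q = 1 - v * q := by linarith
      rw [this]
      ring
    constructor
    · rintro ⟨h1, h2⟩
      push_cast
      refine IsCoprime.mul_dvd ⟨u, v, huv⟩ ?_ ?_
      · rw [e1]
        exact dvd_add h1 (Dvd.intro_left ((p.x0 i - c i) * u) (by ring))
      · rw [e2]
        exact dvd_add h2 (Dvd.intro_left ((c i - p.x0 i) * v) (by ring))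
    · intro h
      push_cast at h
      have h1 : (p.Q : ℤ) ∣ a - (c i * (u * p.Q) + p.x0 i * (v * q)) := (Dvd.intro _ rfl).trans h
      have h2 : (q : ℤ) ∣ a - (c i * (u * p.Q) + p.x0 i * (v * q)) :=
        (Dvd.intro_left _ rfl).trans h
      constructor
      · rw [e1] at h1
        exact (dvd_add_left (Dvd.intro_left ((p.x0 i - c i) * u) (by ring))).1 h1
      · rw [e2] at h2
        exact (dvd_add_left (Dvd.intro_left ((c i - p.x0 i) * v) (by ring))).1 h2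
  choose z hz using hcrt
  set S : Fin (n + 1) → Set ℤ := fun i => {a : ℤ | B * p.xi i - p.kap * B ≤ a ∧
    (a : ℝ) ≤ B * p.xi i + p.kap * B ∧ ((p.Q * q : ℕ) : ℤ) ∣ a - z i} with hS
  have hkB : 0 ≤ p.kap * B := by positivity
  have hAP : ∀ i, (S i).Finite ∧ t - 1 ≤ ((S i).ncard : ℝ) ∧ ((S i).ncard : ℝ) ≤ t + 1 := by
    intro i
    have h := CubicHP.ncard_AP (B * p.xi i - p.kap * B) (B * p.xi i + p.kap * B) (by linarith)
      (p.Q * q) (Nat.mul_pos hQ hq) (z i)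
    have e : (B * p.xi i + p.kap * B - (B * p.xi i - p.kap * B)) / ((p.Q * q : ℕ) : ℝ) = t := by
      rw [ht]
      push_cast
      ring
    rw [e] at h
    exact h
  have hfin : ∀ i, (S i).Finite := fun i => (hAP i).1
  have hcl : {x : Fin (n + 1) → ℤ | x ∈ p.XX B ∧ ∀ i, (q : ℤ) ∣ x i - c i} =
      ↑(Fintype.piFinset fun i => (hfin i).toFinset) := by
    ext x
    rw [Finset.mem_coe, Fintype.mem_piFinset]
    simp only [Set.Finite.mem_toFinset]
    change (((∀ i, |(x i : ℝ) - B * p.xi i| ≤ p.kap * B) ∧ ∀ i, (p.Q : ℤ) ∣ x i - p.x0 i) ∧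
      ∀ i, (q : ℤ) ∣ x i - c i) ↔
      ∀ i, B * p.xi i - p.kap * B ≤ x i ∧ (x i : ℝ) ≤ B * p.xi i + p.kap * B ∧
        ((p.Q * q : ℕ) : ℤ) ∣ x i - z i
    constructor
    · rintro ⟨⟨ha, hb⟩, hc⟩ i
      have := ha i
      rw [abs_le] at this
      exact ⟨by linarith [this.1], by linarith [this.2], (hz i _).1 ⟨hb i, hc i⟩⟩
    · intro h
      refine ⟨⟨fun i => ?_, fun i => ((hz i _).2 (h i).2.2).1⟩, fun i => ((hz i _).2 (h i).2.2).2⟩
      rw [abs_le]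
      exact ⟨by linarith [(h i).1], by linarith [(h i).2.1]⟩
  have hcard : (Set.ncard {x : Fin (n + 1) → ℤ | x ∈ p.XX B ∧ ∀ i, (q : ℤ) ∣ x i - c i} : ℝ) =
      ∏ i, ((S i).ncard : ℝ) := by
    rw [hcl, Set.ncard_coe_finset, Fintype.card_piFinset]
    push_cast
    refine Finset.prod_congr rfl fun i _ => ?_
    rw [Set.ncard_eq_toFinset_card _ (hfin i)]
  rw [hcard]
  constructor
  · calc ∏ i, ((S i).ncard : ℝ) ≤ ∏ _i : Fin (n + 1), (t + 1) :=
          Finset.prod_le_prod (fun _ _ => by positivity) fun i _ => (hAP i).2.2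
      _ = (t + 1) ^ (n + 1) := by rw [Finset.prod_const, Finset.card_univ, Fintype.card_fin]
  · intro h1
    calc (t - 1) ^ (n + 1) = ∏ _i : Fin (n + 1), (t - 1) := by
          rw [Finset.prod_const, Finset.card_univ, Fintype.card_fin]
      _ ≤ ∏ i, ((S i).ncard : ℝ) :=
        Finset.prod_le_prod (fun _ _ => by linarith) fun i _ => (hAP i).2.1

theorem XX_upper (p : KPar n d) {k m w : ℕ} {eps bet : ℝ} (hp : p.Valid k m eps bet w)
    (q : ℕ) (hq : 0 < q) (hqW : Nat.Coprime q p.W) (e0 : ℝ) (he0 : 0 < e0) :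
    ∃ B0 : ℕ, ∀ B : ℕ, B0 ≤ B → ∀ c : Fin (n + 1) → ℤ,
      (Set.ncard {x : Fin (n + 1) → ℤ | x ∈ p.XX B ∧ ∀ i, (q : ℤ) ∣ x i - c i} : ℝ) ≤
        (1 + e0) * (p.NX B / (q : ℝ) ^ (n + 1)) := by
  have hQ := hp.Q_pos
  have hkap := hp.kap_pos
  have hQ' : (0 : ℝ) < p.Q := by exact_mod_cast hQ
  have hq' : (0 : ℝ) < q := by exact_mod_cast hq
  obtain ⟨s, hs⟩ := hp.hens.2.2.1
  have hqQ : Nat.Coprime q p.Q := by
    rw [hs]
    exact Nat.Coprime.pow_right s hqW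
  have hlim' : Tendsto (fun t : ℝ => (1 + 1 / t) ^ (n + 1)) atTop (𝓝 1) := by
    have h1 : Tendsto (fun t : ℝ => 1 / t) atTop (𝓝 0) := by
      simpa using tendsto_inv_atTop_zero (𝕜 := ℝ)
    have h2 : Tendsto (fun t : ℝ => (1 + 1 / t) ^ (n + 1)) atTop (𝓝 ((1 + 0) ^ (n + 1))) :=
      (tendsto_const_nhds.add h1).pow (n + 1)
    simpa using h2
  have hT : Tendsto (fun B : ℕ => 2 * p.kap * (B : ℝ) / (p.Q * q)) atTop atTop := by
    have : (fun B : ℕ => 2 * p.kap * (B : ℝ) / (p.Q * q)) =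
        fun B : ℕ => (2 * p.kap / (p.Q * q)) * (B : ℝ) := by
      funext H; ring
    rw [this]
    exact Tendsto.const_mul_atTop (by positivity) tendsto_natCast_atTop_atTop
  have ev2 : ∀ᶠ t : ℝ in atTop, (1 + 1 / t) ^ (n + 1) ≤ 1 + e0 :=
    (hlim'.eventually (gt_mem_nhds (by linarith : 1 < 1 + e0))).mono fun t ht => ht.le
  obtain ⟨B0, hB0⟩ := Filter.eventually_atTop.1
    (hT.eventually (ev2.and (eventually_ge_atTop (1 : ℝ))))
  refine ⟨B0, fun B hB c => ?_⟩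
  obtain ⟨h2, h3⟩ := hB0 B hB
  refine (NX_box p hQ hkap q hq hqQ B c).1.trans ?_
  set t : ℝ := 2 * p.kap * B / (p.Q * q) with ht
  have ht0 : 0 < t := by linarith
  have e1 : p.NX B / (q : ℝ) ^ (n + 1) = t ^ (n + 1) := by
    unfold KPar.NX
    rw [← div_pow, ht]
    congr 1
    rw [div_div]
  rw [e1]
  calc (t + 1) ^ (n + 1) = (1 + 1 / t) ^ (n + 1) * t ^ (n + 1) := by
        rw [← mul_pow]; congr 1; field_simp
    _ ≤ (1 + e0) * t ^ (n + 1) := mul_le_mul_of_nonneg_right h2 (by positivity)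

theorem XX_lower (p : KPar n d) {k m w : ℕ} {eps bet : ℝ} (hp : p.Valid k m eps bet w)
    (e0 : ℝ) (he0 : 0 < e0) :
    ∃ B0 : ℕ, ∀ B : ℕ, B0 ≤ B → (1 - e0) * p.NX B ≤ ((p.XX B).ncard : ℝ) := by
  have hQ := hp.Q_pos
  have hkap := hp.kap_pos
  have hQ' : (0 : ℝ) < p.Q := by exact_mod_cast hQ
  have hlim' : Tendsto (fun t : ℝ => (1 - 1 / t) ^ (n + 1)) atTop (𝓝 1) := by
    have h1 : Tendsto (fun t : ℝ => 1 / t) atTop (𝓝 0) := by
      simpa using tendsto_inv_atTop_zero (𝕜 := ℝ)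
    have h2 : Tendsto (fun t : ℝ => (1 - 1 / t) ^ (n + 1)) atTop (𝓝 ((1 - 0) ^ (n + 1))) :=
      (tendsto_const_nhds.sub h1).pow (n + 1)
    simpa using h2
  have hT : Tendsto (fun B : ℕ => 2 * p.kap * (B : ℝ) / (p.Q * (1 : ℕ))) atTop atTop := by
    have : (fun B : ℕ => 2 * p.kap * (B : ℝ) / (p.Q * (1 : ℕ))) =
        fun B : ℕ => (2 * p.kap / p.Q) * (B : ℝ) := by
      funext H
      push_cast
      ring
    rw [this]
    exact Tendsto.const_mul_atTop (by positivity) tendsto_natCast_atTop_atTop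
  have ev2 : ∀ᶠ t : ℝ in atTop, 1 - e0 ≤ (1 - 1 / t) ^ (n + 1) :=
    (hlim'.eventually (lt_mem_nhds (by linarith : 1 - e0 < 1))).mono fun t ht => ht.le
  obtain ⟨B0, hB0⟩ := Filter.eventually_atTop.1
    (hT.eventually (ev2.and (eventually_ge_atTop (1 : ℝ))))
  refine ⟨B0, fun B hB => ?_⟩
  obtain ⟨h2, h3⟩ := hB0 B hB
  have h4 := (NX_box p hQ hkap 1 one_pos (Nat.coprime_one_left _) B 0).2 h3
  have e0' : {x : Fin (n + 1) → ℤ | x ∈ p.XX B ∧
      ∀ i, ((1 : ℕ) : ℤ) ∣ x i - (0 : Fin (n + 1) → ℤ) i} = p.XX B := by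
    ext x
    simp
  rw [e0'] at h4
  refine le_trans ?_ h4
  set t : ℝ := 2 * p.kap * B / (p.Q * (1 : ℕ)) with ht
  have ht0 : 0 < t := by linarith
  have e1 : p.NX B = t ^ (n + 1) := by
    unfold KPar.NX
    rw [ht]
    congr 1
    push_cast
    rw [mul_one]
  rw [e1]
  calc (1 - e0) * t ^ (n + 1) ≤ (1 - 1 / t) ^ (n + 1) * t ^ (n + 1) :=
        mul_le_mul_of_nonneg_right h2 (by positivity)
    _ = (t - 1) ^ (n + 1) := by
        rw [← mul_pow]; congr 1; field_simp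

end CovHP
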