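import Pool.Agent.Lib.MP_e426f4_ag.G.Alg
import Pool.Agent.Lib.MP_e426f4_ag.G.Crude
import Pool.Agent.Lib.MP_e426f4_ag.G.BadC
import Pool.Agent.Lib.MP_e426f4_ag.K.Basic
import Pool.Agent.Lib.MP_e426f4_ag.K.Heights
import Pool.Agent.Lib.MP_e426f4_ag.K.Points

/-! Module K-CR1: crude bound for the number of forms through two points. -/

namespace CovHP

open GenHP Finset Filter Topology

variable {n d : ℕ}

theorem P2_crude (p : KPar n d) {k m w : ℕ} {eps bet : ℝ} (hp : p.Valid k m eps bet w)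
    (K : ℝ) (hK : 1 ≤ K) : ∃ C : ℝ, 0 < C ∧ ∀ᶠ H : ℝ in atTop,
      ∀ x ∈ p.GG K (Bk n k m H), ∀ y ∈ p.GG K (Bk n k m H), x ≠ y →
        ((p.P2 k p.rho H x y).ncard : ℝ) ≤
          ((Prod.snd '' p.P2 k p.rho H x y).ncard : ℝ) *
            (C * H ^ NN n d * mg x y / (H ^ 2 * (Bk n k m H : ℝ) ^ (2 * d - 2) * dl x y)) := by
  have hn := hp.n_ge
  have hk := hp.k_ge
  have hm := hp.m_ge
  have hk1 : 1 ≤ k := by omega
  have hd2 : 2 ≤ d := by
    rw [hp.d_eq]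
    calc 2 ≤ k * 1 := by omega
      _ ≤ k * m := Nat.mul_le_mul_left k hm
  refine ⟨7 ^ NN n d * 2 ^ (2 * d + 5) * 2 ^ NN n d / 4, by positivity, ?_⟩
  have hc1 : 0 ≤ c1 n d := by unfold c1; positivity
  have hc2 : 0 ≤ c2 n d := by unfold c2; positivity
  have h1 := Bk_small hn hk hm hp.fano (2 * c2 n d * K ^ 2)
  have h1' := Bk_small hn hk hm hp.fano (2 * c1 n d * K)
  have h2 := (Bk_atTop hn hk hm hp.fano).eventually_ge_atTop 1
  filter_upwards [h1, h1', h2, eventually_ge_atTop 1] with H h1 h1' hB hH1 x hx y hy hxy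
  set B : ℕ := Bk n k m H with hBdef
  have hB1 : (1 : ℝ) ≤ B := by exact_mod_cast hB
  have hB0 : (0 : ℝ) < B := by linarith
  have hn0 : (0 : ℝ) < n := by exact_mod_cast (by omega : 0 < n)
  have hpow : (1 : ℝ) ≤ (B : ℝ) ^ (1 / (n : ℝ)) := Real.one_le_rpow hB1 (by positivity)
  have hmu : 1 ≤ K * (B : ℝ) ^ (1 / (n : ℝ)) := by nlinarith
  have hsq : ((B : ℝ) ^ (1 / (n : ℝ))) ^ 2 = (B : ℝ) ^ (2 / (n : ℝ)) := by
    rw [← Real.rpow_natCast, ← Real.rpow_mul hB0.le]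
    congr 1
    push_cast
    ring
  have e1 : 2 * c2 n d * (K * (B : ℝ) ^ (1 / (n : ℝ))) ^ 2 ≤ 2 * H := by
    rw [mul_pow, hsq]
    nlinarith
  have e2 : 2 * c1 n d * (K * (B : ℝ) ^ (1 / (n : ℝ))) ≤ 2 * H := by
    have h7 : (B : ℝ) ^ (1 / (n : ℝ)) ≤ (B : ℝ) ^ (2 / (n : ℝ)) :=
      Real.rpow_le_rpow_of_exponent_le hB1 (by gcongr; norm_num)
    have h8 : 2 * c1 n d * K * (B : ℝ) ^ (1 / (n : ℝ)) ≤ 2 * c1 n d * K * (B : ℝ) ^ (2 / (n : ℝ)) :=
      mul_le_mul_of_nonneg_left h7 (by positivity)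
    nlinarith
  obtain ⟨i0, hi0⟩ := hp.xi_eq
  have hxb := mem_XX_bounds p hp B x hx.1
  have hyb := mem_XX_bounds p hp B y hy.1
  have hdl := dl_pos_of_mem_GG p hp K B hB x y hx hy hxy
  have hcp := crude_pair hd2 B hB x y hx.2.1 hy.2.1 (K * (B : ℝ) ^ (1 / (n : ℝ))) hmu hx.2.2
    hy.2.2 i0 ((hxb i0).2 hi0) ((hyb i0).2 hi0) (fun i => (hxb i).1) (fun i => (hyb i).1) hdl
    (2 * H) (by linarith) e1 e2
  have hfin : {A : Idx n d → ℤ | (∀ t, |(A t : ℝ)| ≤ 2 * H) ∧ F A x = 0 ∧ F A y = 0}.Finite :=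
    finite_of_abs_le _ (2 * H) fun A hA i => hA.1 i
  have hP2f := P2_finite p hk1 p.rho H x y
  have hfib := bp_ncard_fiber_le (p.P2 k p.rho H x y) hP2f Prod.snd
    (Prod.snd '' p.P2 k p.rho H x y) (hP2f.image _) (fun q hq => ⟨q, hq, rfl⟩)
    (7 ^ NN n d * 2 ^ (2 * d + 5) * 2 ^ NN n d / 4 * H ^ NN n d * mg x y /
      (H ^ 2 * (B : ℝ) ^ (2 * d - 2) * dl x y)) ?_
  · rw [mul_comm]
    exact hfib
  · rintro z ⟨⟨A0, z0⟩, hA0, rfl⟩
    obtain ⟨hA0c, hw1, hw2, hF1, hF2⟩ := hA0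
    have hle : Set.ncard {q | q ∈ p.P2 k p.rho H x y ∧ q.2 = z0} ≤
        {A : Idx n d → ℤ | (∀ t, |(A t : ℝ)| ≤ 2 * H) ∧ F A x = 0 ∧ F A y = 0}.ncard := by
      refine Set.ncard_le_ncard_of_injOn
        (fun q : (Idx n d → ℤ) × ℤ × ℤ => fun i => q.1 i + (-1) * A0 i) ?_ ?_ hfin
      · rintro ⟨A, z⟩ ⟨⟨hA, _, _, hF3, hF4⟩, hz⟩
        have hz' : z = z0 := hz
        subst hz'
        have hF3' : F A x = z.1 ^ k := hF3
        have hF4' : F A y = z.2 ^ k := hF4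
        have hF1' : F A0 x = z.1 ^ k := hF1
        have hF2' : F A0 y = z.2 ^ k := hF2
        refine ⟨fun t => ?_, ?_, ?_⟩
        · have h3 : |(A t : ℝ) - H * p.AC t| ≤ p.rho * H := hA.1 t
          have h4 : |(A0 t : ℝ) - H * p.AC t| ≤ p.rho * H := hA0c.1 t
          have h5 := hp.rho_le
          push_cast
          calc |(A t : ℝ) + -1 * A0 t| = |((A t : ℝ) - H * p.AC t) - ((A0 t : ℝ) - H * p.AC t)| := by
                ring_nf
            _ ≤ |(A t : ℝ) - H * p.AC t| + |(A0 t : ℝ) - H * p.AC t| := abs_sub _ _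
            _ ≤ 2 * H := by nlinarith
        · change F (fun i => A i + (-1) * A0 i) x = 0
          rw [F_add A (fun i => (-1) * A0 i) x, F_smul, hF3', hF1']
          ring
        · change F (fun i => A i + (-1) * A0 i) y = 0
          rw [F_add A (fun i => (-1) * A0 i) y, F_smul, hF4', hF2']
          ring
      · rintro ⟨A, z⟩ ⟨_, hz⟩ ⟨A', z'⟩ ⟨_, hz'⟩ heq
        have hz1 : z = z0 := hz
        have hz2 : z' = z0 := hz'
        have hA : A = A' := by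
          funext i
          have := congrFun heq i
          simpa using this
        rw [hA, hz1, hz2]
    have hle' : (Set.ncard {q | q ∈ p.P2 k p.rho H x y ∧ q.2 = z0} : ℝ) ≤
        ({A : Idx n d → ℤ | (∀ t, |(A t : ℝ)| ≤ 2 * H) ∧ F A x = 0 ∧ F A y = 0}.ncard : ℝ) := by
      exact_mod_cast hle
    refine (hle'.trans hcp).trans (le_of_eq ?_)
    have hdl0 : (0 : ℝ) < dl x y := by exact_mod_cast hdl
    have hH0 : (0 : ℝ) < H := by linarith
    rw [mul_pow, mul_pow]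
    field_simp
    ring

end CovHP
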