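import Pool.Agent.Lib.MP_e426f4_ag.K.Defs
import Pool.Agent.Lib.MP_e426f4_ag.M.Alg

/-! # Cyclic covers, module K-ES: rational points give local points -/

namespace CovHP

open GenHP Finset

section multi
variable {ι : Type} [Fintype ι] [DecidableEq ι] {n d : ι → ℕ}

theorem mkels_of_mksol (k : ℕ) (A : MIdx n d → ℤ) (h : MKSol k A) : MKELS k A := by
  obtain ⟨z, hz, w, hw⟩ := h
  refine ⟨⟨fun v => (z v : ℝ), ?_, (w : ℝ), ?_⟩, ?_⟩
  · intro i
    obtain ⟨a, ha⟩ := hz i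
    exact ⟨a, Rat.cast_ne_zero.2 ha⟩
  · have h1 := MF_map (Rat.castHom ℝ) (fun t => (A t : ℚ)) z
    rw [← hw] at h1
    simpa using h1.symm
  · intro p _
    refine ⟨fun v => (z v : ℚ_[p]), ?_, (w : ℚ_[p]), ?_⟩
    · intro i
      obtain ⟨a, ha⟩ := hz i
      exact ⟨a, Rat.cast_ne_zero.2 ha⟩
    · have h1 := MF_map (Rat.castHom ℚ_[p]) (fun t => (A t : ℚ)) z
      rw [← hw] at h1
      simpa using h1.symm

end multi

end CovHP
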