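import Pool.Agent.Lib.MP_e426f4_ag.K.Defs

/-! Module K-NEG: both signs for odd `k`. -/

namespace CovHP

open GenHP Finset Filter Topology

variable {ι : Type} [Fintype ι] [DecidableEq ι] {n d : ι → ℕ}

theorem MF_neg {R : Type*} [CommRing R] (A : MIdx n d → R) (z : MVar n → R) :
    MF (fun t => -A t) z = - MF A z := by
  simp [MF, Fg, Finset.sum_neg_distrib]

theorem KGoodP_neg {k p l : ℕ} (hk : Odd k) {A : MIdx n d → ℤ} (h : KGoodP k p l A) :
    KGoodP k p l (fun t => -A t) := by
  obtain ⟨z, hz, w, hw1, hw2⟩ := h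
  refine ⟨z, hz, -w, ?_, ?_⟩
  · rw [MF_neg, hk.neg_pow]
    have : -MF A z - -w ^ k = -(MF A z - w ^ k) := by ring
    rw [this]
    exact (dvd_neg).2 hw1
  · have h2 : Even (k - 1) := by
      obtain ⟨c, rfl⟩ := hk
      exact ⟨c, by omega⟩
    rw [h2.neg_pow]
    exact hw2

theorem MKSol_neg {k : ℕ} (hk : Odd k) {A : MIdx n d → ℤ} (h : MKSol k A) :
    MKSol k (fun t => -A t) := by
  obtain ⟨z, hz, w, hw⟩ := h
  refine ⟨z, hz, -w, ?_⟩
  have : (fun t => (((fun t => -A t) t : ℤ) : ℚ)) = fun t => -(A t : ℚ) := by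
    funext t
    push_cast
    rfl
  rw [this, MF_neg, hk.neg_pow, hw]

theorem kcls_neg (k : ℕ) (h : KCLS n d k) : KCLS' n d k := by
  intro eps heps
  obtain ⟨w1, hw1⟩ := h eps heps
  refine ⟨w1, fun w hw hw2 bet hb hb1 => ?_⟩
  obtain ⟨rho0, h0, h1, hrho⟩ := hw1 w hw hw2 bet hb hb1
  refine ⟨rho0, h0, h1, fun rho hr hr0 l hl A0 hA0 AC hAC hG => ?_⟩
  rcases hG with hG | ⟨hk, hG⟩
  · exact hrho rho hr hr0 l hl A0 hA0 AC hAC hG
  · have := hrho rho hr hr0 l hl (fun t => -A0 t) (fun p hp hpw => KGoodP_neg hk (hA0 p hp hpw))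
      (fun t => -AC t) (fun t => by rw [abs_neg]; exact hAC t) hG
    filter_upwards [this] with H hH
    refine le_trans (le_of_eq ?_) hH
    have hinj : Function.Injective (fun A : MIdx n d → ℤ => fun t => -A t) := by
      intro A A' hAA
      funext t
      have := congrFun hAA t
      simpa using this
    rw [← Set.ncard_image_of_injective _ hinj]
    congr 2
    ext A
    constructor
    · rintro ⟨A', ⟨h1, h2, h3⟩, rfl⟩
      refine ⟨fun t => ?_, fun t => ?_, fun h => h3 ?_⟩
      · have := h1 t
        push_cast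
        rw [← abs_neg]
        convert this using 2
        ring
      · have := h2 t
        have e : (-A' t - -A0 t) = -(A' t - A0 t) := by ring
        show _ ∣ (-A' t - -A0 t)
        rw [e]
        exact (dvd_neg).2 this
      · have := MKSol_neg hk h
        simpa using this
    · rintro ⟨h1, h2, h3⟩
      refine ⟨fun t => -A t, ⟨fun t => ?_, fun t => ?_, fun h => h3 ?_⟩, ?_⟩
      · have := h1 t
        push_cast
        rw [← abs_neg]
        convert this using 2
        ring
      · have := h2 t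
        have e : (-A t - A0 t) = -(A t - -A0 t) := by ring
        rw [e]
        exact (dvd_neg).2 this
      · have := MKSol_neg hk h
        simpa using this
      · funext t
        simp

end CovHP
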