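import Pool.Agent.Lib.MP_e426f4_ag.K.Defs
import Pool.Agent.Lib.MP_e426f4_ag.M.Alg

/-! K-EP1: near a good zero modulo `p ^ (2 l)` a form takes every value divisible by `p ^ (2 l)`. -/

namespace CovHP

open GenHP Finset Filter Topology

/-- one Hensel step along the variable `v1` -/
private theorem hv_step {V I : Type*} [Fintype V] [DecidableEq V] [Fintype I] (e : I → V → ℕ)
    (A : I → ℤ) (b : ℤ) (p c m : ℕ) (hp : p.Prime) (hm : 2 * c + 2 ≤ m) (z : V → ℤ) (v1 : V)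
    (hF : (p : ℤ) ^ m ∣ Fg e A z - b) (hD : (p : ℤ) ^ c ∣ Dg e A z v1)
    (hD' : ¬ (p : ℤ) ^ (c + 1) ∣ Dg e A z v1) :
    ∃ t : ℤ, (p : ℤ) ^ (m - c) ∣ t ∧
      (p : ℤ) ^ (m + 1) ∣ Fg e A (Function.update z v1 (z v1 + t)) - b := by
  have hp0 : (p : ℤ) ≠ 0 := by exact_mod_cast hp.ne_zero
  obtain ⟨F', hF'⟩ := hF
  obtain ⟨D', hD1⟩ := hD
  have hcop : IsCoprime D' (p : ℤ) := by
    rw [isCoprime_comm, (Nat.prime_iff_prime_int.1 hp).irreducible.coprime_iff_not_dvd]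
    intro hdvd
    apply hD'
    rw [hD1, pow_succ]
    exact mul_dvd_mul_left _ hdvd
  obtain ⟨a, b', hab⟩ := hcop
  -- s = -F' * a
  refine ⟨(p : ℤ) ^ (m - c) * (-F' * a), dvd_mul_right _ _, ?_⟩
  obtain ⟨r, hr⟩ := Fg_add_smul e A z (Pi.single v1 1) ((p : ℤ) ^ (m - c) * (-F' * a))
  have hupd : Function.update z v1 (z v1 + (p : ℤ) ^ (m - c) * (-F' * a)) =
      fun i => z i + (p : ℤ) ^ (m - c) * (-F' * a) * (Pi.single v1 (1 : ℤ) : V → ℤ) i := by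
    funext i
    by_cases hi : i = v1
    · subst hi; simp
    · simp [Function.update_of_ne hi, Pi.single_eq_of_ne hi]
  rw [hupd, hr]
  have hsum : ∑ j, Dg e A z j * (Pi.single v1 (1 : ℤ) : V → ℤ) j = Dg e A z v1 := by
    rw [Finset.sum_eq_single v1]
    · simp
    · intro j _ hj; simp [Pi.single_eq_of_ne hj]
    · simp
  rw [hsum, hD1]
  have e1 : (p : ℤ) ^ (m - c) * (p : ℤ) ^ c = (p : ℤ) ^ m := by
    rw [← pow_add]; congr 1; omega
  obtain ⟨q, hq⟩ : ∃ q, (m - c) + (m - c) = (m + 1) + q := ⟨(m - c) + (m - c) - (m + 1), by omega⟩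
  have e2 : (p : ℤ) ^ (m - c) * (p : ℤ) ^ (m - c) = (p : ℤ) ^ (m + 1) * (p : ℤ) ^ q := by
    rw [← pow_add, ← pow_add, hq]
  refine ⟨F' * b' + (p : ℤ) ^ q * (F' * a) ^ 2 * r, ?_⟩
  have e3 : (p : ℤ) ^ (m + 1) = (p : ℤ) ^ m * p := pow_succ _ _
  rw [e3] at e2 ⊢
  linear_combination hF' + (-F' * a * D') * e1 + (F' * a) ^ 2 * r * e2 - (p : ℤ) ^ m * F' * hab

private theorem hv_lift {V I : Type*} [Fintype V] [DecidableEq V] [Fintype I] (e : I → V → ℕ)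
    (A : I → ℤ) (b : ℤ) (p c m0 : ℕ) (hp : p.Prime) (hm : 2 * c + 2 ≤ m0) (z : V → ℤ) (v1 : V)
    (hF : (p : ℤ) ^ m0 ∣ Fg e A z - b) (hD : (p : ℤ) ^ c ∣ Dg e A z v1)
    (hD' : ¬ (p : ℤ) ^ (c + 1) ∣ Dg e A z v1) (j : ℕ) :
    ∃ t : ℤ, (p : ℤ) ^ (m0 - c) ∣ t ∧
      (p : ℤ) ^ (m0 + j) ∣ Fg e A (Function.update z v1 (z v1 + t)) - b := by
  induction j with
  | zero => exact ⟨0, dvd_zero _, by simpa using hF⟩
  | succ j ih =>
    obtain ⟨t, ht1, ht2⟩ := ih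
    set z' := Function.update z v1 (z v1 + t) with hz'
    have hcong : ∀ i, (p : ℤ) ^ (m0 - c) ∣ z' i - z i := by
      intro i
      by_cases hi : i = v1
      · subst hi; simpa [hz'] using ht1
      · simp [hz', Function.update_of_ne hi]
    have hDc := Dg_congr_mod e ((p : ℤ) ^ (m0 - c)) A A z' z v1 (by simp) hcong
    have hle : (p : ℤ) ^ (c + 1) ∣ (p : ℤ) ^ (m0 - c) := pow_dvd_pow _ (by omega)
    have hDd := hle.trans hDc
    have h1 : (p : ℤ) ^ c ∣ Dg e A z' v1 := by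
      have := (pow_dvd_pow (p : ℤ) (Nat.le_succ c)).trans hDd
      have h3 : Dg e A z' v1 = (Dg e A z' v1 - Dg e A z v1) + Dg e A z v1 := by ring
      rw [h3]; exact dvd_add this hD
    have h2 : ¬ (p : ℤ) ^ (c + 1) ∣ Dg e A z' v1 := by
      intro h
      apply hD'
      have h3 : Dg e A z v1 = Dg e A z' v1 - (Dg e A z' v1 - Dg e A z v1) := by ring
      rw [h3]; exact dvd_sub h hDd
    obtain ⟨t', ht'1, ht'2⟩ := hv_step e A b p c (m0 + j) hp (by omega) z' v1 ht2 h1 h2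
    refine ⟨t + t', dvd_add ht1 ((pow_dvd_pow _ (by omega)).trans ht'1), ?_⟩
    have h4 : Function.update z' v1 (z' v1 + t') = Function.update z v1 (z v1 + (t + t')) := by
      rw [hz', Function.update_idem, Function.update_self, add_assoc]
    rw [h4] at ht'2
    exact ht'2

section multi
variable {ι : Type} [Fintype ι] [DecidableEq ι] {n d : ι → ℕ}

theorem hensel_values (p : ℕ) (hp : p.Prime) (A : MIdx n d → ℤ) (l : ℕ) (hl : 1 ≤ l)
    (z : MVar n → ℤ) (hz : BUnit p z) (h0 : (p : ℤ) ^ (2 * l) ∣ MF A z) (v : MVar n)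
    (h1 : ¬ (p : ℤ) ^ l ∣ MD A z v) (b : ℤ) (hb : (p : ℤ) ^ (2 * l) ∣ b) (L : ℕ) :
    ∃ z' : MVar n → ℤ, BUnit p z' ∧ (p : ℤ) ^ L ∣ MF A z' - b := by
  -- the valuation of the derivative
  have hex : ∃ c : ℕ, ¬ (p : ℤ) ^ (c + 1) ∣ MD A z v :=
    ⟨l - 1, by rwa [Nat.sub_add_cancel hl]⟩
  obtain ⟨c, hv1, hmin⟩ : ∃ c : ℕ, (¬ (p : ℤ) ^ (c + 1) ∣ MD A z v) ∧
      ∀ c' < c, ¬ ¬ (p : ℤ) ^ (c' + 1) ∣ MD A z v :=
    ⟨Nat.find hex, Nat.find_spec hex, fun c' hc' => Nat.find_min hex hc'⟩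
  have hall : (p : ℤ) ^ c ∣ MD A z v := by
    rcases Nat.eq_zero_or_pos c with hc | hc
    · simp [hc]
    · have := hmin (c - 1) (by omega)
      rw [not_not, Nat.sub_add_cancel hc] at this
      exact this
  have hck : c + 1 ≤ l := by
    by_contra hcon
    exact h1 ((pow_dvd_pow _ (by omega)).trans hall)
  obtain ⟨t, ht1, ht2⟩ := hv_lift mex A b p c (2 * l) hp (by omega) z v (dvd_sub h0 hb) hall hv1 L
  refine ⟨Function.update z v (z v + t), fun i => ?_, (pow_dvd_pow _ (by omega)).trans ht2⟩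
  obtain ⟨a, ha⟩ := hz i
  refine ⟨a, fun hcon => ha ?_⟩
  by_cases hi : (⟨i, a⟩ : MVar n) = v
  · rw [hi, Function.update_self] at hcon
    have h5 : (p : ℤ) ∣ t := (dvd_pow_self _ (by omega)).trans ht1
    have h6 := dvd_sub hcon h5
    rw [hi]
    simpa using h6
  · rwa [Function.update_of_ne hi] at hcon

end multi

end CovHP
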