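import Pool.Agent.Lib.MP_e426f4_ag.K.Defs
import Pool.Agent.Lib.MP_e426f4_ag.K.HenselValues
import Pool.Agent.Lib.MP_e426f4_ag.M.PadicExc1

/-! K-EP: covers with `p`-adic points but without a good one. -/

namespace CovHP

open GenHP Finset Filter Topology

section multi
variable {ι : Type} [Fintype ι] [DecidableEq ι] {n d : ι → ℕ}

theorem cov_padic_exc (k : ℕ) (hk : 2 ≤ k) (hd : ∀ i, 1 ≤ d i) (p : ℕ) (hp : p.Prime)
    (eps : ℝ) (he : 0 < eps) : ∃ l0 : ℕ, ∀ l : ℕ, l0 ≤ l → ∀ᶠ H : ℕ in atTop,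
      (Set.ncard {A : MIdx n d → ℤ | A ∈ MBox n d H ∧
        (∀ L : ℕ, ∃ z : MVar n → ℤ, BUnit p z ∧ ∃ w : ℤ, (p : ℤ) ^ L ∣ MF A z - w ^ k) ∧
          ¬ KGoodP k p l A} : ℝ) ≤ eps * (2 * H + 1) ^ NM n d := by
  have hpR : (0 : ℝ) < p := by exact_mod_cast hp.pos
  have hpR1 : (1 : ℝ) < p := by exact_mod_cast hp.one_lt
  have hpp : Prime (p : ℤ) := Nat.prime_iff_prime_int.mp hp
  obtain ⟨C, hC, hC1⟩ := padic_exc1 (n := n) (d := d) hd
  -- the choice of `l1`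
  obtain ⟨l1, hl1, hl1'⟩ : ∃ k1 : ℕ, 1 ≤ k1 ∧ C / (p : ℝ) ^ (2 * k1) ≤ eps := by
    have h1 : Tendsto (fun k : ℕ => eps * (p : ℝ) ^ k) atTop atTop :=
      (tendsto_pow_atTop_atTop_of_one_lt hpR1).const_mul_atTop he
    obtain ⟨k, hk1, hk2⟩ := ((h1.eventually_ge_atTop C).and (eventually_ge_atTop 1)).exists
    refine ⟨k, hk2, ?_⟩
    rw [div_le_iff₀ (by positivity)]
    refine hk1.trans ?_
    have h7 : (p : ℝ) ^ k ≤ (p : ℝ) ^ (2 * k) := pow_le_pow_right₀ hpR1.le (by omega)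
    gcongr
  refine ⟨2 * l1 * k + k, fun l hl => ?_⟩
  filter_upwards [hC1 p hp l1 hl1] with H h1
  set S1 := {A : MIdx n d → ℤ | A ∈ MBox n d H ∧ ∃ z : MVar n → ℤ, BUnit p z ∧
        (p : ℤ) ^ (2 * l1) ∣ MF A z ∧ ∀ v, (p : ℤ) ^ l1 ∣ MD A z v} with hS1
  have hsub : {A : MIdx n d → ℤ | A ∈ MBox n d H ∧
        (∀ L : ℕ, ∃ z : MVar n → ℤ, BUnit p z ∧ ∃ w : ℤ, (p : ℤ) ^ L ∣ MF A z - w ^ k) ∧
          ¬ KGoodP k p l A} ⊆ S1 := by
    rintro A ⟨hA, hl', hg⟩
    by_contra hnot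
    apply hg
    obtain ⟨z, hz, w, hF⟩ := hl' (2 * l)
    by_cases hw : (p : ℤ) ^ l ∣ k * w ^ (k - 1)
    · -- the point is singular modulo a high power
      obtain ⟨c, k', hk', hkc⟩ := Nat.exists_eq_pow_mul_and_not_dvd (n := k) (by omega) p hp.ne_one
      have hck : c < k := by
        have h2 : p ^ c ∣ k := ⟨k', hkc⟩
        exact lt_of_lt_of_le (Nat.lt_pow_self hp.one_lt) (Nat.le_of_dvd (by omega) h2)
      have hl2 : l = c + (l - c) := by
        have : k ≤ l := le_trans (by omega) hl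
        omega
      have h3 : (p : ℤ) ^ (l - c) ∣ w ^ (k - 1) := by
        have h4 : (p : ℤ) ^ c * (p : ℤ) ^ (l - c) ∣ (p : ℤ) ^ c * ((k' : ℤ) * w ^ (k - 1)) := by
          rw [← pow_add, ← hl2]
          have : (k : ℤ) * w ^ (k - 1) = (p : ℤ) ^ c * ((k' : ℤ) * w ^ (k - 1)) := by
            have h5 : (k : ℤ) = (p : ℤ) ^ c * (k' : ℤ) := by exact_mod_cast hkc
            rw [← mul_assoc, ← h5]
          rw [← this]
          exact hw
        have h6 : (p : ℤ) ^ (l - c) ∣ (k' : ℤ) * w ^ (k - 1) :=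
          (mul_dvd_mul_iff_left (pow_ne_zero _ hpp.ne_zero)).mp h4
        have h7 : IsCoprime ((p : ℤ) ^ (l - c)) (k' : ℤ) := by
          apply IsCoprime.pow_left
          apply hpp.coprime_iff_not_dvd.mpr
          intro h8
          exact hk' (by exact_mod_cast h8)
        exact h7.dvd_of_dvd_mul_left h6
      have h2l1 : 2 * l1 ≤ 2 * l1 * k := Nat.le_mul_of_pos_right _ (by omega)
      have h9 : (p : ℤ) ^ (2 * l1) ∣ MF A z := by
        have h10 : (p : ℤ) ^ (2 * l1) ∣ w ^ k := by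
          have h11 : (p : ℤ) ^ (2 * l1) ∣ (p : ℤ) ^ (l - c) := pow_dvd_pow _ (by omega)
          have h12 : w ^ k = w ^ (k - 1) * w := by
            rw [← pow_succ]
            congr 1
            omega
          rw [h12]
          exact (h11.trans h3).mul_right _
        have h13 : (p : ℤ) ^ (2 * l1) ∣ MF A z - w ^ k :=
          (pow_dvd_pow _ (by omega)).trans hF
        have := dvd_add h13 h10
        simpa using this
      have hD : ∃ v, ¬ (p : ℤ) ^ l1 ∣ MD A z v := by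
        by_contra hcon
        push Not at hcon
        exact hnot ⟨hA, z, hz, h9, hcon⟩
      obtain ⟨v, hv⟩ := hD
      obtain ⟨z', hz', hF'⟩ := hensel_values p hp A l1 hl1 z hz h9 v hv
        (((p : ℤ) ^ (2 * l1)) ^ k) (dvd_pow_self _ (by omega)) (2 * l)
      refine ⟨z', hz', (p : ℤ) ^ (2 * l1), hF', ?_⟩
      intro hdiv
      have h14 : (k : ℤ) * ((p : ℤ) ^ (2 * l1)) ^ (k - 1) < (p : ℤ) ^ l := by
        have hk2 : k * (p ^ (2 * l1)) ^ (k - 1) < p ^ l := by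
          calc k * (p ^ (2 * l1)) ^ (k - 1) < p ^ k * (p ^ (2 * l1)) ^ (k - 1) := by
                apply Nat.mul_lt_mul_of_pos_right (Nat.lt_pow_self hp.one_lt)
                exact pow_pos (pow_pos hp.pos _) _
            _ = p ^ (k + 2 * l1 * (k - 1)) := by rw [← pow_mul, ← pow_add]
            _ ≤ p ^ l := by
                apply Nat.pow_le_pow_right hp.pos
                have : 2 * l1 * (k - 1) ≤ 2 * l1 * k := Nat.mul_le_mul_left _ (by omega)
                omega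
        exact_mod_cast hk2
      have h15 : 0 < (k : ℤ) * ((p : ℤ) ^ (2 * l1)) ^ (k - 1) := by
        have : (0 : ℤ) < k := by exact_mod_cast (by omega : 0 < k)
        have hp0 : (0 : ℤ) < p := by exact_mod_cast hp.pos
        positivity
      exact absurd (Int.le_of_dvd h15 hdiv) (not_le.mpr h14)
    · exact ⟨z, hz, w, hF, hw⟩
  have hf1 : S1.Finite := MBox_finite H fun A => ∃ z : MVar n → ℤ, BUnit p z ∧
        (p : ℤ) ^ (2 * l1) ∣ MF A z ∧ ∀ v, (p : ℤ) ^ l1 ∣ MD A z v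
  have h3 := Set.ncard_le_ncard hsub hf1
  have h4 : (Set.ncard {A : MIdx n d → ℤ | A ∈ MBox n d H ∧
        (∀ L : ℕ, ∃ z : MVar n → ℤ, BUnit p z ∧ ∃ w : ℤ, (p : ℤ) ^ L ∣ MF A z - w ^ k) ∧
          ¬ KGoodP k p l A} : ℝ) ≤ (S1.ncard : ℝ) := by exact_mod_cast h3
  refine h4.trans (h1.trans ?_)
  gcongr

end multi

end CovHP
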