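import Pool.Agent.Lib.MP_e426f4_ag.K.Defs
import Pool.Agent.Lib.MP_e426f4_ag.M.Alg
import Pool.Agent.Lib.MP_e426f4_ag.M.AlgReal
import Pool.Agent.Lib.MP_e426f4_ag.M.Spec

/-! K-ER: covers with a real point but without a good one. -/

namespace CovHP

open GenHP Finset Filter Topology

section multi
variable {ι : Type} [Fintype ι] [DecidableEq ι] {n d : ι → ℕ}

private theorem er_ms0_of_zero (τ : ∀ i, Fin (n i + 1)) (t : MIdx n d)
    (h : ∀ v : MVar n, v.2 ≠ τ v.1 → mex t v = 0) : t = ms0 τ := by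
  funext i
  apply Subtype.ext
  funext a
  have h0 : (ms0 τ i : Idx (n i) (d i)).1 a = if a = τ i then d i else 0 := msp_mk_const _ _
  rw [h0]
  by_cases ha : a = τ i
  · rw [if_pos ha, ha]
    have h1 := (t i).2
    rw [Finset.sum_eq_single (τ i)] at h1
    · exact h1
    · intro b _ hb
      exact h ⟨i, b⟩ hb
    · intro h2
      exact absurd (Finset.mem_univ _) h2
  · rw [if_neg ha]
    exact h ⟨i, a⟩ ha

/-- the value at a coordinate point -/
private theorem er_MF_point {R : Type*} [CommRing R] (τ : ∀ i, Fin (n i + 1)) (A : MIdx n d → R) :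
    MF A (fun v => if v.2 = τ v.1 then (1 : R) else 0) = A (ms0 τ) := by
  unfold MF Fg
  rw [Finset.sum_eq_single (ms0 τ)]
  · rw [mon_ms0]
    simp
  · intro t _ ht
    have h1 : ∃ v : MVar n, v.2 ≠ τ v.1 ∧ mex t v ≠ 0 := by
      by_contra hcon
      push Not at hcon
      exact ht (er_ms0_of_zero τ t hcon)
    obtain ⟨v, hv, hm⟩ := h1
    have h2 : mon (fun v : MVar n => if v.2 = τ v.1 then (1 : R) else 0) (mex t) = 0 := by
      unfold mon
      apply Finset.prod_eq_zero (Finset.mem_univ v)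
      simp only
      rw [if_neg hv, zero_pow hm]
    rw [h2, mul_zero]
  · intro h
    exact absurd (Finset.mem_univ _) h

open Classical in
/-- counting along the lines `A + ℤ Pv` -/
private theorem er_count (H : ℕ) (Pv : MIdx n d → ℤ) (t0 : MIdx n d) (h0 : Pv t0 = 1)
    (h1 : ∀ t, |Pv t| ≤ 1) (E : Finset (MIdx n d → ℤ)) (hE : E ⊆ MBox n d H) (D : ℝ) (hD : 0 ≤ D)
    (hline : ∀ A ∈ E, ∀ A' ∈ E, (∀ t, A t - A t0 * Pv t = A' t - A' t0 * Pv t) →
      |((A t0 : ℤ) : ℝ) - A' t0| ≤ D) :
    (E.card : ℝ) ≤ (D + 1) * (4 * H + 1) ^ (NM n d - 1) := by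
  set f : (MIdx n d → ℤ) → (MIdx n d → ℤ) := fun A t => A t - A t0 * Pv t with hf
  -- the fibres
  have hfib : ∀ B ∈ E.image f, (E.filter (fun A => f A = B)).card ≤ ⌊D⌋₊ + 1 := by
    intro B hB
    obtain ⟨A1, hA1, hA1B⟩ := Finset.mem_image.mp hB
    set S := E.filter (fun A => f A = B) with hS
    have hne : (S.image (fun A => A t0)).Nonempty :=
      ⟨A1 t0, Finset.mem_image.mpr ⟨A1, Finset.mem_filter.mpr ⟨hA1, hA1B⟩, rfl⟩⟩
    set m := (S.image (fun A => A t0)).min' hne with hm
    obtain ⟨A2, hA2, hA2m⟩ := Finset.mem_image.mp (Finset.min'_mem _ hne)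
    have hA2' := Finset.mem_filter.mp hA2
    have hcard : S.card ≤ (Finset.Icc m (m + ⌊D⌋₊)).card := by
      apply Finset.card_le_card_of_injOn (fun A => A t0)
      · intro A hA
        have hA' := Finset.mem_filter.mp (Finset.mem_coe.mp hA)
        have h2 : m ≤ A t0 := Finset.min'_le _ _ (Finset.mem_image.mpr ⟨A, hA, rfl⟩)
        have h3 := hline A hA'.1 A2 hA2'.1 (fun t => by
          have : f A = f A2 := hA'.2.trans hA2'.2.symm
          exact congrFun this t)
        have h4 : (A t0 : ℝ) - m ≤ D := by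
          have h5 := (abs_le.mp h3).2
          have h6 : A2 t0 = m := hA2m
          rw [h6] at h5
          exact h5
        have h7 : A t0 - m ≤ ⌊D⌋₊ := by
          have h8 : ((A t0 - m).toNat : ℝ) ≤ D := by
            have h9 : (((A t0 - m).toNat : ℤ) : ℝ) = ((A t0 - m : ℤ) : ℝ) := by
              rw [Int.toNat_of_nonneg (by omega)]
            have h10 : (((A t0 - m).toNat : ℕ) : ℝ) = (((A t0 - m).toNat : ℤ) : ℝ) := by
              push_cast; rfl
            rw [h10, h9]
            push_cast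
            exact h4
          have h11 := Nat.le_floor h8
          have h12 := Int.self_le_toNat (A t0 - m)
          omega
        simp only [Finset.coe_Icc, Set.mem_Icc]
        exact ⟨h2, by omega⟩
      · intro A hA A' hA' hAA'
        have hA1' := (Finset.mem_filter.mp (Finset.mem_coe.mp hA)).2
        have hA2'' := (Finset.mem_filter.mp (Finset.mem_coe.mp hA')).2
        funext t
        have h2 : f A t = f A' t := by rw [hA1', hA2'']
        simp only [hf] at h2
        simp only at hAA'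
        rw [hAA'] at h2
        linarith
    refine hcard.trans (le_of_eq ?_)
    rw [Int.card_Icc]
    omega
  have hcard1 := Finset.card_le_mul_card_image (f := f) E (⌊D⌋₊ + 1) hfib
  -- the image
  have himg : (E.image f).card ≤ (4 * H + 1) ^ (NM n d - 1) := by
    set P : Finset (MIdx n d → ℤ) := Fintype.piFinset fun t =>
      if t = t0 then ({0} : Finset ℤ) else Finset.Icc (-(2 * H : ℤ)) (2 * H) with hP
    have hsub : E.image f ⊆ P := by
      intro B hB
      obtain ⟨A, hA, rfl⟩ := Finset.mem_image.mp hB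
      rw [hP, Fintype.mem_piFinset]
      intro t
      have hAb := mem_MBox.mp (hE hA)
      by_cases ht : t = t0
      · rw [if_pos ht, Finset.mem_singleton]
        simp only [hf]
        rw [ht, h0]
        ring
      · rw [if_neg ht, Finset.mem_Icc, ← abs_le]
        simp only [hf]
        calc |A t - A t0 * Pv t| ≤ |A t| + |A t0 * Pv t| := abs_sub _ _
          _ ≤ H + H * 1 := by
              apply add_le_add (hAb t)
              rw [abs_mul]
              exact mul_le_mul (hAb t0) (h1 t) (abs_nonneg _) (by positivity)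
          _ = 2 * H := by ring
    refine (Finset.card_le_card hsub).trans (le_of_eq ?_)
    rw [hP, Fintype.card_piFinset]
    rw [← Finset.mul_prod_erase univ _ (Finset.mem_univ t0), if_pos rfl, Finset.card_singleton,
      one_mul]
    rw [Finset.prod_congr rfl (g := fun _ => 4 * H + 1)]
    · rw [Finset.prod_const, Finset.card_erase_of_mem (Finset.mem_univ _), Finset.card_univ]
      rfl
    · intro t ht
      rw [if_neg (Finset.ne_of_mem_erase ht), Int.card_Icc]
      omega
  have h2 : (E.card : ℝ) ≤ ((⌊D⌋₊ + 1 : ℕ) : ℝ) * (((4 * H + 1) ^ (NM n d - 1) : ℕ) : ℝ) := by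
    have := hcard1.trans (Nat.mul_le_mul_left _ himg)
    exact_mod_cast this
  refine h2.trans ?_
  push_cast
  have h3 : (⌊D⌋₊ : ℝ) ≤ D := Nat.floor_le hD
  gcongr

theorem cov_real_exc (k : ℕ) (hk : 2 ≤ k) (hd : ∀ i, 1 ≤ d i) (hdk : ∀ i, k ∣ d i)
    (eps : ℝ) (he : 0 < eps) : ∃ bet : ℝ, 0 < bet ∧ bet ≤ 1 ∧ ∀ᶠ H : ℕ in atTop,
      (Set.ncard {A : MIdx n d → ℤ | A ∈ MBox n d H ∧
        (∃ z : MVar n → ℝ, BNZ z ∧ ∃ w : ℝ, w ^ k = MF (fun t => (A t : ℝ)) z) ∧
        ¬ KGoodR' k (bet * H) (fun t => (A t : ℝ))} : ℝ) ≤ eps * (2 * H + 1) ^ NM n d := by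
  classical
  set Nn := NM n d with hNn
  have hNpos : 0 < Nn := NM_pos n d
  set bet : ℝ := min 1 (eps / 2 ^ Nn) with hbet
  have hb0 : 0 < bet := lt_min one_pos (by positivity)
  have hb1 : bet ≤ 1 := min_le_left _ _
  have hb2 : 2 ^ Nn * bet ≤ eps := by
    have := min_le_right (1 : ℝ) (eps / 2 ^ Nn)
    rw [le_div_iff₀ (by positivity)] at this
    linarith
  refine ⟨bet, hb0, hb1, ?_⟩
  have hlin : ∀ᶠ H : ℕ in atTop, (2 : ℝ) ^ Nn / eps ≤ H :=
    tendsto_natCast_atTop_atTop.eventually_ge_atTop _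
  filter_upwards [hlin, eventually_ge_atTop 1] with H hH hH1
  have hH0 : (0 : ℝ) < H := by exact_mod_cast hH1
  set E : Finset (MIdx n d → ℤ) := (MBox n d H).filter (fun A =>
      (∃ z : MVar n → ℝ, BNZ z ∧ ∃ w : ℝ, w ^ k = MF (fun t => (A t : ℝ)) z) ∧
        ¬ KGoodR' k (bet * H) (fun t => (A t : ℝ))) with hE
  have hcardE : Set.ncard {A : MIdx n d → ℤ | A ∈ MBox n d H ∧
        (∃ z : MVar n → ℝ, BNZ z ∧ ∃ w : ℝ, w ^ k = MF (fun t => (A t : ℝ)) z) ∧
        ¬ KGoodR' k (bet * H) (fun t => (A t : ℝ))} = E.card := by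
    rw [← Set.ncard_coe_finset]
    congr 1
    ext A
    simp [hE]
  rw [hcardE]
  have hEsub : E ⊆ MBox n d H := Finset.filter_subset _ _
  -- the vector `Pv`
  set Pv : MIdx n d → ℤ := fun t => if ∃ τ : ∀ i, Fin (n i + 1), t = ms0 τ then 1 else 0 with hPv
  have hPv1 : ∀ τ : ∀ i, Fin (n i + 1), Pv (ms0 τ) = 1 := fun τ => if_pos ⟨τ, rfl⟩
  have hPv0 : ∀ t, 0 ≤ Pv t := by
    intro t
    simp only [hPv]
    split_ifs <;> norm_num
  have hPvabs : ∀ t, |Pv t| ≤ 1 := by
    intro t
    simp only [hPv]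
    split_ifs <;> norm_num
  set τ0 : ∀ i, Fin (n i + 1) := fun _ => 0 with hτ0
  have hcount : (E.card : ℝ) ≤ (2 * (bet * H) + 1) * (4 * H + 1) ^ (Nn - 1) := by
    refine er_count H Pv (ms0 τ0) (hPv1 τ0) hPvabs E hEsub (2 * (bet * H)) (by positivity) ?_
    intro A hA A' hA' hAA'
    have hA1 := Finset.mem_filter.mp hA
    have hA1' := Finset.mem_filter.mp hA'
    rcases Nat.even_or_odd k with hev | hodd
    · -- even degree
      have hev' : ∀ i, Even (d i) := fun i => even_iff_two_dvd.mpr (hev.two_dvd.trans (hdk i))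
      -- the value of `Pv`
      have hPval : ∀ z : MVar n → ℝ, BNorm z → 1 ≤ MF (fun t => (Pv t : ℝ)) z := by
        intro z hz
        choose τ hτ using hz.2
        have hterm : ∀ t : MIdx n d, 0 ≤ (Pv t : ℝ) * mon z (mex t) := by
          intro t
          by_cases ht : ∃ τ : ∀ i, Fin (n i + 1), t = ms0 τ
          · obtain ⟨σ, hσ⟩ := ht
            rw [hσ, mon_ms0]
            have : 0 ≤ ∏ i, z ⟨i, σ i⟩ ^ d i := Finset.prod_nonneg fun i _ => (hev' i).pow_nonneg _
            have h3 : (0 : ℝ) ≤ (Pv (ms0 σ) : ℝ) := by exact_mod_cast hPv0 _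
            exact mul_nonneg h3 this
          · have : Pv t = 0 := if_neg ht
            rw [this]
            simp
        have h2 : (Pv (ms0 τ) : ℝ) * mon z (mex (ms0 τ : MIdx n d)) = 1 := by
          rw [hPv1, mon_ms0]
          have : ∏ i, z ⟨i, τ i⟩ ^ d i = 1 := by
            apply Finset.prod_eq_one
            intro i _
            rw [← (hev' i).pow_abs, hτ i, one_pow]
          rw [this]
          norm_num
        unfold MF Fg
        rw [← h2]
        exact Finset.single_le_sum (f := fun t : MIdx n d => (Pv t : ℝ) * mon z (mex t))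
          (fun t _ => hterm t) (Finset.mem_univ _)
      -- the ordered statement
      have key : ∀ A ∈ E, ∀ A' ∈ E, (∀ t, A t - A (ms0 τ0) * Pv t = A' t - A' (ms0 τ0) * Pv t) →
          ((A' (ms0 τ0) : ℤ) : ℝ) - A (ms0 τ0) ≤ bet * H := by
        intro A hA A' hA' hAA'
        have hA1 := Finset.mem_filter.mp hA
        have hA1' := Finset.mem_filter.mp hA'
        by_contra hcon
        push Not at hcon
        obtain ⟨z, hz, w, hw⟩ := hA1.2.1
        -- normalise
        obtain ⟨τ, hτ⟩ := ALR.exists_argmax z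
        have hpos : ∀ i, 0 < |z ⟨i, τ i⟩| := by
          intro i
          obtain ⟨a, ha⟩ := hz i
          exact (abs_pos.mpr ha).trans_le (hτ i a)
        set z' : MVar n → ℝ := fun v => |z ⟨v.1, τ v.1⟩|⁻¹ * z v with hz'
        have hzn : BNorm z' := ALR.bnorm_div z τ hτ hpos
        have hFz : 0 ≤ MF (fun t => (A t : ℝ)) z' := by
          rw [hz', MF_scale (fun i => |z ⟨i, τ i⟩|⁻¹) _ z, ← hw]
          apply mul_nonneg
          · exact Finset.prod_nonneg fun i _ => by positivity
          · exact hev.pow_nonneg _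
        apply hA1'.2.2
        refine Or.inl ⟨z', hzn, ?_⟩
        set s : ℝ := ((A' (ms0 τ0) : ℤ) : ℝ) - A (ms0 τ0) with hs
        have hA'eq : (fun t => (A' t : ℝ)) = fun t => (A t : ℝ) - (-s) * (Pv t : ℝ) := by
          funext t
          have h4 := hAA' t
          have h5 : (A t : ℝ) - A (ms0 τ0) * Pv t = A' t - A' (ms0 τ0) * Pv t := by exact_mod_cast h4
          rw [hs]
          linarith
        have h6 : MF (fun t => (A' t : ℝ)) z' = MF (fun t => (A t : ℝ)) z' -
            (-s) * MF (fun t => (Pv t : ℝ)) z' := by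
          rw [hA'eq, MF_sub, MF_smul]
        rw [h6]
        have h7 := hPval z' hzn
        have hspos : 0 < s := lt_of_le_of_lt (by positivity) hcon
        nlinarith
      have k1 := key A hA A' hA' hAA'
      have k2 := key A' hA' A hA (fun t => (hAA' t).symm)
      have : 0 ≤ bet * (H : ℝ) := by positivity
      rw [abs_le]
      constructor <;> linarith
    · -- odd degree
      have key : ∀ A ∈ E, |((A (ms0 τ0) : ℤ) : ℝ)| ≤ bet * H := by
        intro A hA
        have hA1 := Finset.mem_filter.mp hA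
        by_contra hcon
        push Not at hcon
        apply hA1.2.2
        set z : MVar n → ℝ := fun v => if v.2 = τ0 v.1 then (1 : ℝ) else 0 with hz
        have hzn : BNorm z := by
          refine ⟨fun v => ?_, fun i => ⟨τ0 i, ?_⟩⟩
          · simp only [hz]
            split_ifs <;> simp
          · simp [hz]
        rcases le_total 0 ((A (ms0 τ0) : ℤ) : ℝ) with h | h
        · rw [abs_of_nonneg h] at hcon
          refine Or.inl ⟨z, hzn, ?_⟩
          rw [hz, er_MF_point]
          exact hcon.le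
        · rw [abs_of_nonpos h] at hcon
          refine Or.inr ⟨hodd, z, hzn, ?_⟩
          rw [hz, er_MF_point]
          exact hcon.le
      have k1 := key A hA
      have k2 := key A' hA'
      calc |((A (ms0 τ0) : ℤ) : ℝ) - A' (ms0 τ0)| ≤ |((A (ms0 τ0) : ℤ) : ℝ)| +
            |((A' (ms0 τ0) : ℤ) : ℝ)| := abs_sub _ _
        _ ≤ 2 * (bet * H) := by linarith
  refine hcount.trans ?_
  -- the final estimate
  have h1 : (4 * (H : ℝ) + 1) ^ (Nn - 1) ≤ 2 ^ (Nn - 1) * (2 * H + 1) ^ (Nn - 1) := by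
    rw [← mul_pow]
    exact pow_le_pow_left₀ (by positivity) (by linarith) _
  have h2 : (2 : ℝ) ^ Nn = 2 * 2 ^ (Nn - 1) := by
    rw [← pow_succ']
    congr 1
    omega
  have h3 : (2 * (H : ℝ) + 1) ^ Nn = (2 * H + 1) * (2 * H + 1) ^ (Nn - 1) := by
    rw [← pow_succ']
    congr 1
    omega
  have h4 : (2 * (bet * H) + 1) * 2 ^ (Nn - 1) ≤ eps * (2 * H + 1) := by
    rw [div_le_iff₀ he] at hH
    have h5 : 2 * (bet * H) * 2 ^ (Nn - 1) ≤ eps * H := by
      have : 2 * (bet * H) * 2 ^ (Nn - 1) = (2 ^ Nn * bet) * H := by rw [h2]; ring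
      rw [this]
      exact mul_le_mul_of_nonneg_right hb2 hH0.le
    have h6 : (2 : ℝ) ^ (Nn - 1) ≤ 2 ^ Nn := pow_le_pow_right₀ (by norm_num) (by omega)
    nlinarith
  calc (2 * (bet * (H : ℝ)) + 1) * (4 * H + 1) ^ (Nn - 1)
      ≤ (2 * (bet * H) + 1) * (2 ^ (Nn - 1) * (2 * H + 1) ^ (Nn - 1)) :=
        mul_le_mul_of_nonneg_left h1 (by positivity)
    _ = ((2 * (bet * H) + 1) * 2 ^ (Nn - 1)) * (2 * H + 1) ^ (Nn - 1) := by ring
    _ ≤ (eps * (2 * H + 1)) * (2 * H + 1) ^ (Nn - 1) :=
        mul_le_mul_of_nonneg_right h4 (by positivity)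
    _ = eps * (2 * H + 1) ^ Nn := by rw [h3]; ring

end multi

end CovHP
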