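import Pool.Agent.Lib.MP_e426f4_ag.M.Global
import Pool.Agent.Lib.MP_e426f4_ag.K.Neg
import Pool.Agent.Lib.MP_e426f4_ag.K.ApproxZero
import Pool.Agent.Lib.MP_e426f4_ag.K.PadicExc
import Pool.Agent.Lib.MP_e426f4_ag.K.RealExc

/-! K-GL: global assembly for the cyclic covers. -/

namespace CovHP

open GenHP Finset Filter Topology

section multi
variable {ι : Type} [Fintype ι] [DecidableEq ι] {n d : ι → ℕ}

/-- the nonsoluble forms of a class -/
def kzS (k R Q : ℕ) (a : MIdx n d → Fin R) (b : MIdx n d → Fin Q) (H : ℝ) : Set (MIdx n d → ℤ) :=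
  {A | (∀ m, |(A m : ℝ) - H * mzC R a m| ≤ 1 / R * H) ∧ (∀ m, (Q : ℤ) ∣ A m - (b m : ℤ)) ∧
    ¬ MKSol k A}

/-- the class has a witness -/
def kzW (k w l R Q : ℕ) (bet : ℝ) (a : MIdx n d → Fin R) (b : MIdx n d → Fin Q) :
    Prop :=
  ∃ (H : ℕ) (A : MIdx n d → ℤ), 1 ≤ H ∧ A ∈ MBox n d H ∧
    (∀ m, |(A m : ℝ) - H * mzC R a m| ≤ 1 / R * H) ∧
    (∀ m, (Q : ℤ) ∣ A m - (b m : ℤ)) ∧
    KGoodR' k (bet * H) (fun t => (A t : ℝ)) ∧
    (∀ p : ℕ, p.Prime → p ≤ w → KGoodP k p l A)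

theorem kz_S_finite (k R Q : ℕ) (a : MIdx n d → Fin R) (b : MIdx n d → Fin Q) (H : ℝ) :
    (kzS k R Q a b H).Finite := by
  refine finite_of_abs_le _ (∑ m, |(H : ℝ) * mzC R a m| + 1 / R * H) ?_
  intro A hA m
  have h1 := hA.1 m
  have h2 : |(H : ℝ) * mzC R a m| ≤ ∑ m, |(H : ℝ) * mzC R a m| :=
    Finset.single_le_sum (f := fun m => |(H : ℝ) * mzC R a m|) (fun _ _ => abs_nonneg _)
      (Finset.mem_univ m)
  calc |(A m : ℝ)| = |H * mzC R a m + ((A m : ℝ) - H * mzC R a m)| := by ring_nf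
    _ ≤ |(H : ℝ) * mzC R a m| + |(A m : ℝ) - H * mzC R a m| := abs_add_le _ _
    _ ≤ _ := add_le_add h2 h1

/-- transfer of a good real point from a form of the cell to its centre -/
theorem kz_goodR (A : MIdx n d → ℝ) (H : ℕ) (hH : 1 ≤ H) (AC : MIdx n d → ℝ)
    (rho bet : ℝ) (h1 : ∀ m, |A m - H * AC m| ≤ rho * H)
    (hr1 : (NM n d : ℝ) * rho ≤ bet / 2)
    (hg : KGoodR (bet * H) A) :
    KGoodR (bet / 2) AC := by
  obtain ⟨z, hz, hF⟩ := hg
  have hH0 : (0 : ℝ) < H := by exact_mod_cast hH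
  have e1 : MF (fun t => A t - H * AC t) z = MF A z - H * MF AC z := by
    rw [MF_sub, MF_smul]
  have b1 := MF_abs_le (fun t => A t - H * AC t) z (rho * H) 1 le_rfl h1 hz.1
  rw [one_pow, mul_one, e1] at b1
  refine ⟨z, hz, ?_⟩
  have h3 : bet / 2 * H ≤ H * MF AC z := by
    have h4 := (abs_le.mp b1).2
    have h5 : (NM n d : ℝ) * (rho * H) ≤ bet / 2 * H := by
      have := mul_le_mul_of_nonneg_right hr1 hH0.le
      linarith
    linarith
  rw [mul_comm] at h3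
  exact le_of_mul_le_mul_left h3 hH0

theorem kz_goodR' (k : ℕ) (A : MIdx n d → ℤ) (H : ℕ) (hH : 1 ≤ H) (AC : MIdx n d → ℝ)
    (rho bet : ℝ) (h1 : ∀ m, |(A m : ℝ) - H * AC m| ≤ rho * H)
    (hr1 : (NM n d : ℝ) * rho ≤ bet / 2)
    (hg : KGoodR' k (bet * H) (fun t => (A t : ℝ))) :
    KGoodR' k (bet / 2) AC := by
  rcases hg with hg | ⟨hk, hg⟩
  · exact Or.inl (kz_goodR _ H hH AC rho bet h1 hr1 hg)
  · refine Or.inr ⟨hk, kz_goodR _ H hH _ rho bet (fun m => ?_) hr1 hg⟩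
    have := h1 m
    rw [← abs_neg] at this
    calc |-(A m : ℝ) - H * -AC m| = |-((A m : ℝ) - H * AC m)| := by ring_nf
      _ ≤ rho * H := this

theorem kz_class (k : ℕ) (eps rho0 bet : ℝ) (w l R : ℕ) (hl : 1 ≤ l) (hR : 1 ≤ R)
    (hcl : ∀ rho : ℝ, 0 < rho → rho ≤ rho0 → ∀ l : ℕ, 1 ≤ l →
      ∀ A0 : MIdx n d → ℤ, (∀ p : ℕ, p.Prime → p ≤ w → KGoodP k p l A0) →
      ∀ AC : MIdx n d → ℝ, (∀ t, |AC t| ≤ 1) → KGoodR' k (bet / 2) AC →
      ∀ᶠ H : ℝ in atTop,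
        (Set.ncard {A : MIdx n d → ℤ | (∀ t, |(A t : ℝ) - H * AC t| ≤ rho * H) ∧
          (∀ t, ((primorial w : ℤ) ^ (2 * l)) ∣ A t - A0 t) ∧ ¬ MKSol k A} : ℝ) ≤
          eps * (2 * rho * H / (primorial w : ℝ) ^ (2 * l)) ^ NM n d)
    (hrho : (1 : ℝ) / R ≤ rho0) (hr1 : (NM n d : ℝ) * (1 / R) ≤ bet / 2)
    (a : MIdx n d → Fin R) (b : MIdx n d → Fin (primorial w ^ (2 * l)))
    (hW : kzW k w l R (primorial w ^ (2 * l)) bet a b) :
    ∀ᶠ H : ℕ in atTop, ((kzS k R (primorial w ^ (2 * l)) a b (H : ℝ)).ncard : ℝ) ≤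
      eps * (2 * (1 / R) * H / (primorial w : ℝ) ^ (2 * l)) ^ NM n d := by
  obtain ⟨H0, A, hH0, hbox, hcell, hres, hgR, hp⟩ := hW
  have hR0 : (0 : ℝ) < R := by exact_mod_cast hR
  have h := hcl (1 / R) (by positivity) hrho l hl A hp (mzC R a) (mz_C_abs R hR a)
    (kz_goodR' k A H0 hH0 (mzC R a) (1 / R) bet hcell hr1 hgR)
  refine (tendsto_natCast_atTop_atTop.eventually h).mono fun H hH => ?_
  refine le_trans ?_ hH
  have heq : kzS k R (primorial w ^ (2 * l)) a b (H : ℝ) = {A' : MIdx n d → ℤ |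
        (∀ m, |(A' m : ℝ) - H * mzC R a m| ≤ 1 / R * H) ∧
        (∀ m, ((primorial w : ℤ) ^ (2 * l)) ∣ A' m - A m) ∧ ¬ MKSol k A'} := by
    ext A'
    unfold kzS
    refine and_congr_right fun _ => and_congr_left fun _ => forall_congr' fun m => ?_
    have h1 := hres m
    push_cast at h1 ⊢
    constructor
    · intro h2
      have := dvd_sub h2 h1
      simpa using this
    · intro h2
      have := dvd_add h2 h1
      simpa using this
  rw [heq]

theorem cov_exceptional_small (k : ℕ) (hk : 2 ≤ k) (hd : ∀ i, 1 ≤ d i) (hdk : ∀ i, k ∣ d i)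
    (hcls : KCLS n d k) (eps : ℝ) (he : 0 < eps) : ∀ᶠ H : ℕ in atTop,
    (Set.ncard {A : MIdx n d → ℤ | A ∈ MBox n d H ∧ MKELS k A ∧ ¬ MKSol k A} : ℝ) ≤
      eps * (2 * H + 1) ^ NM n d := by
  classical
  obtain ⟨w1, hw1⟩ := kcls_neg k hcls (eps / 4) (by positivity)
  -- w
  set w : ℕ := max 2 w1 with hw
  have hw2 : 2 ≤ w := le_max_left _ _
  have hw1w : w1 ≤ w := le_max_right _ _
  have hwpos : (0 : ℝ) < w := by
    have : 0 < w := by omega
    exact_mod_cast this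
  -- bet
  obtain ⟨bet, hb, hb1, h2⟩ := cov_real_exc (n := n) (d := d) k hk hd hdk (eps / 4) (by positivity)
  obtain ⟨rho0, hrho0, hrho01, hcl⟩ := hw1 w hw1w hw2 (bet / 2) (by positivity) (by linarith)
  -- R
  have hNM : (0 : ℝ) < NM n d := by exact_mod_cast NM_pos n d
  obtain ⟨R, hR, hRrho, hr1⟩ : ∃ R : ℕ, 1 ≤ R ∧ (1 : ℝ) / R ≤ rho0 ∧
      (NM n d : ℝ) * (1 / R) ≤ bet / 2 := by
    have hδ : 0 < min rho0 (bet / 2 / NM n d) := by
      refine lt_min hrho0 (by positivity)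
    obtain ⟨m, hm⟩ := exists_nat_one_div_lt hδ
    refine ⟨m + 1, by omega, ?_, ?_⟩
    · push_cast
      exact hm.le.trans (min_le_left _ _)
    · push_cast
      have h1 : 1 / ((m : ℝ) + 1) ≤ bet / 2 / NM n d :=
        hm.le.trans (min_le_right _ _)
      calc (NM n d : ℝ) * (1 / (m + 1)) ≤ NM n d * (bet / 2 / NM n d) :=
            mul_le_mul_of_nonneg_left h1 hNM.le
        _ = bet / 2 := by field_simp
  have hR0 : (0 : ℝ) < R := by exact_mod_cast hR
  -- l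
  set Pr : Finset ℕ := (Finset.range (w + 1)).filter Nat.Prime with hPr
  have hpad : ∀ p : ℕ, ∃ l0 : ℕ, p ∈ Pr → ∀ l : ℕ, l0 ≤ l → ∀ᶠ H : ℕ in atTop,
      (Set.ncard {A : MIdx n d → ℤ | A ∈ MBox n d H ∧
        (∀ L : ℕ, ∃ z : MVar n → ℤ, BUnit p z ∧ ∃ w : ℤ, (p : ℤ) ^ L ∣ MF A z - w ^ k) ∧
          ¬ KGoodP k p l A} : ℝ) ≤ eps / (4 * (w + 1)) * (2 * H + 1) ^ NM n d := by
    intro p
    by_cases hp : p ∈ Pr
    · obtain ⟨l0, hl0⟩ := cov_padic_exc (n := n) (d := d) k hk hd p (Finset.mem_filter.mp hp).2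
        (eps / (4 * (w + 1))) (by positivity)
      exact ⟨l0, fun _ => hl0⟩
    · exact ⟨0, fun h => absurd h hp⟩
  choose l0 hl0 using hpad
  set l : ℕ := 1 + ∑ p ∈ Pr, l0 p with hl
  have hl1 : 1 ≤ l := by omega
  have hlp : ∀ p ∈ Pr, l0 p ≤ l := by
    intro p hp
    have := Finset.single_le_sum (f := l0) (fun _ _ => Nat.zero_le _) hp
    omega
  set Q : ℕ := primorial w ^ (2 * l) with hQ
  have hQpos : 0 < Q := pow_pos (primorial_pos w) _
  have hQ0 : (0 : ℝ) < Q := by exact_mod_cast hQpos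
  have hQcast : (primorial w : ℝ) ^ (2 * l) = Q := by rw [hQ]; push_cast; rfl
  -- eventual bounds
  have h1 : ∀ᶠ H : ℕ in atTop, ∀ ab : (MIdx n d → Fin R) × (MIdx n d → Fin Q),
      kzW k w l R Q bet ab.1 ab.2 →
      ((kzS k R Q ab.1 ab.2 (H : ℝ)).ncard : ℝ) ≤ eps / 4 * (2 * (1 / R) * H / Q) ^ NM n d := by
    rw [Filter.eventually_all]
    intro ab
    by_cases hW : kzW k w l R Q bet ab.1 ab.2
    · have := kz_class k (eps / 4) rho0 bet w l R hl1 hR hcl hRrho hr1 ab.1 ab.2 hW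
      rw [hQcast] at this
      exact this.mono fun H hH _ => hH
    · exact Filter.Eventually.of_forall fun H h => absurd h hW
  have h3 : ∀ᶠ H : ℕ in atTop, ∀ p ∈ Pr, (Set.ncard {A : MIdx n d → ℤ | A ∈ MBox n d H ∧
        (∀ L : ℕ, ∃ z : MVar n → ℤ, BUnit p z ∧ ∃ w : ℤ, (p : ℤ) ^ L ∣ MF A z - w ^ k) ∧
          ¬ KGoodP k p l A} : ℝ) ≤ eps / (4 * (w + 1)) * (2 * H + 1) ^ NM n d := by
    rw [Filter.eventually_all_finset]
    intro p hp
    exact hl0 p hp l (hlp p hp)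
  filter_upwards [h1, h2, h3, Filter.eventually_ge_atTop 1] with H h1 h2 h3 hH
  -- the finsets
  set E : Finset (MIdx n d → ℤ) := (MBox n d H).filter (fun A => MKELS k A ∧ ¬ MKSol k A) with hE
  set ER : Finset (MIdx n d → ℤ) := (MBox n d H).filter (fun A =>
      (∃ z : MVar n → ℝ, BNZ z ∧ ∃ w : ℝ, w ^ k = MF (fun t => (A t : ℝ)) z) ∧
        ¬ KGoodR' k (bet * H) (fun t => (A t : ℝ))) with hER
  set EP : ℕ → Finset (MIdx n d → ℤ) := fun p => (MBox n d H).filter (fun A =>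
      (∀ L : ℕ, ∃ z : MVar n → ℤ, BUnit p z ∧ ∃ w : ℤ, (p : ℤ) ^ L ∣ MF A z - w ^ k) ∧
          ¬ KGoodP k p l A) with hEP
  set GW : Finset ((MIdx n d → Fin R) × (MIdx n d → Fin Q)) :=
    Finset.univ.filter (fun ab => kzW k w l R Q bet ab.1 ab.2) with hGW
  have hfin : ∀ ab : (MIdx n d → Fin R) × (MIdx n d → Fin Q),
      (kzS k R Q ab.1 ab.2 (H : ℝ)).Finite := fun ab => kz_S_finite k R Q ab.1 ab.2 H
  have hsub : E ⊆ (GW.biUnion fun ab => (hfin ab).toFinset) ∪ ER ∪ (Pr.biUnion EP) := by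
    intro A hA
    rw [hE, Finset.mem_filter] at hA
    obtain ⟨hAbox, ⟨hreal0, hpad0⟩, hns⟩ := hA
    by_cases hr : A ∈ ER
    · exact Finset.mem_union_left _ (Finset.mem_union_right _ hr)
    by_cases hpp : ∃ p ∈ Pr, A ∈ EP p
    · exact Finset.mem_union_right _ (Finset.mem_biUnion.mpr hpp)
    refine Finset.mem_union_left _ (Finset.mem_union_left _ ?_)
    -- the cell
    have hAabs : ∀ m, |(A m : ℝ)| ≤ H := fun m => by
      have := mem_MBox.mp hAbox m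
      exact_mod_cast this
    choose a ha using fun m => mz_cell H R hH hR (A m : ℝ) (hAabs m)
    have hbex : ∀ m, ∃ b : Fin Q, (Q : ℤ) ∣ A m - (b : ℤ) := by
      intro m
      have hQz : (0 : ℤ) < Q := by exact_mod_cast hQpos
      have h0 : 0 ≤ A m % Q := Int.emod_nonneg _ hQz.ne'
      have h1 : A m % Q < Q := Int.emod_lt_of_pos _ hQz
      refine ⟨⟨(A m % Q).toNat, by omega⟩, ?_⟩
      simp only
      rw [Int.toNat_of_nonneg h0]
      exact Int.dvd_self_sub_emod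
    choose b hb' using hbex
    refine Finset.mem_biUnion.mpr ⟨(a, b), ?_, ?_⟩
    · rw [hGW, Finset.mem_filter]
      refine ⟨Finset.mem_univ _, H, A, hH, hAbox, ha, hb', ?_, ?_⟩
      · by_contra hcon
        exact hr (Finset.mem_filter.mpr ⟨hAbox, hreal0, hcon⟩)
      · intro p hp hpw
        have : Fact p.Prime := ⟨hp⟩
        by_contra hcon
        refine hpp ⟨p, ?_, Finset.mem_filter.mpr ⟨hAbox, fun L =>
          k_approx k (by omega) hdk p L A (hpad0 p), hcon⟩⟩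
        rw [hPr, Finset.mem_filter, Finset.mem_range]
        exact ⟨by omega, hp⟩
    · rw [Set.Finite.mem_toFinset]
      exact ⟨ha, hb', hns⟩
  have hcardE : Set.ncard {A : MIdx n d → ℤ | A ∈ MBox n d H ∧ MKELS k A ∧ ¬ MKSol k A} =
      E.card := by
    rw [← Set.ncard_coe_finset]
    congr 1
    ext A
    simp [hE]
  have hcardR : (ER.card : ℝ) ≤ eps / 4 * (2 * H + 1) ^ NM n d := by
    refine le_trans (le_of_eq ?_) h2
    rw [← Set.ncard_coe_finset]
    congr 2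
    ext A
    simp [hER]
  have hcardP : ∀ p ∈ Pr, ((EP p).card : ℝ) ≤ eps / (4 * (w + 1)) * (2 * H + 1) ^ NM n d := by
    intro p hp
    refine le_trans (le_of_eq ?_) (h3 p hp)
    rw [← Set.ncard_coe_finset]
    congr 2
    ext A
    simp [hEP]
  have hcardS : ∀ ab ∈ GW, (((hfin ab).toFinset).card : ℝ) ≤
      eps / 4 * (2 * (1 / R) * H / Q) ^ NM n d := by
    intro ab hab
    rw [← Set.ncard_eq_toFinset_card _ (hfin ab)]
    exact h1 ab (Finset.mem_filter.mp hab).2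
  rw [hcardE]
  have hGWcard : (GW.card : ℝ) ≤ (R : ℝ) ^ NM n d * (Q : ℝ) ^ NM n d := by
    have h6 : GW.card ≤ R ^ NM n d * Q ^ NM n d := by
      refine (Finset.card_le_univ _).trans (le_of_eq ?_)
      rw [Fintype.card_prod, Fintype.card_fun, Fintype.card_fun, Fintype.card_fin,
        Fintype.card_fin]
      rfl
    exact_mod_cast h6
  have hsumS : ((GW.biUnion fun ab => (hfin ab).toFinset).card : ℝ) ≤
      eps / 4 * (2 * H + 1) ^ NM n d := by
    calc ((GW.biUnion fun ab => (hfin ab).toFinset).card : ℝ)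
        ≤ ∑ ab ∈ GW, (((hfin ab).toFinset).card : ℝ) := by exact_mod_cast Finset.card_biUnion_le
      _ ≤ ∑ ab ∈ GW, (eps / 4 * (2 * (1 / R) * H / Q) ^ NM n d : ℝ) := Finset.sum_le_sum hcardS
      _ = (GW.card : ℝ) * (eps / 4 * (2 * (1 / R) * H / Q) ^ NM n d) := by
          rw [Finset.sum_const, nsmul_eq_mul]
      _ ≤ ((R : ℝ) ^ NM n d * (Q : ℝ) ^ NM n d) * (eps / 4 * (2 * (1 / R) * H / Q) ^ NM n d) :=
          mul_le_mul_of_nonneg_right hGWcard (by positivity)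
      _ = eps / 4 * (2 * H) ^ NM n d := by
          have e1 : ((R : ℝ) ^ NM n d * (Q : ℝ) ^ NM n d) * (eps / 4 * (2 * (1 / R) * H / Q) ^ NM n d)
              = eps / 4 * (R * Q * (2 * (1 / R) * H / Q)) ^ NM n d := by
            rw [mul_pow, mul_pow]; ring
          rw [e1]
          congr 2
          field_simp
      _ ≤ eps / 4 * (2 * H + 1) ^ NM n d := by
          refine mul_le_mul_of_nonneg_left ?_ (by positivity)
          exact pow_le_pow_left₀ (by positivity) (by linarith) _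
  have hsumP : ((Pr.biUnion EP).card : ℝ) ≤ eps / 4 * (2 * H + 1) ^ NM n d := by
    have hPrc : (Pr.card : ℝ) ≤ (w : ℝ) + 1 := by
      have : Pr.card ≤ w + 1 := by
        refine (Finset.card_filter_le _ _).trans ?_
        rw [Finset.card_range]
      exact_mod_cast this
    calc ((Pr.biUnion EP).card : ℝ) ≤ ∑ p ∈ Pr, ((EP p).card : ℝ) := by
          exact_mod_cast Finset.card_biUnion_le
      _ ≤ ∑ p ∈ Pr, (eps / (4 * (w + 1)) * (2 * H + 1) ^ NM n d : ℝ) := Finset.sum_le_sum hcardP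
      _ = (Pr.card : ℝ) * (eps / (4 * (w + 1)) * (2 * H + 1) ^ NM n d) := by
          rw [Finset.sum_const, nsmul_eq_mul]
      _ ≤ ((w : ℝ) + 1) * (eps / (4 * (w + 1)) * (2 * H + 1) ^ NM n d) :=
          mul_le_mul_of_nonneg_right hPrc (by positivity)
      _ = eps / 4 * (2 * H + 1) ^ NM n d := by field_simp
  have hfinal : (E.card : ℝ) ≤ ((GW.biUnion fun ab => (hfin ab).toFinset).card : ℝ) +
      (ER.card : ℝ) + ((Pr.biUnion EP).card : ℝ) := by
    have h7 : E.card ≤ (GW.biUnion fun ab => (hfin ab).toFinset).card + ER.card +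
        (Pr.biUnion EP).card := by
      refine (Finset.card_le_card hsub).trans ((Finset.card_union_le _ _).trans ?_)
      exact Nat.add_le_add_right (Finset.card_union_le _ _) _
    exact_mod_cast h7
  have hpos : 0 ≤ (2 * (H : ℝ) + 1) ^ NM n d := by positivity
  nlinarith

end multi

end CovHP
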