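import Pool.Agent.Lib.MP_e426f4_ag.K.Defs
import Pool.Agent.Lib.MP_e426f4_ag.M.Alg
import Pool.Agent.Lib.MP_e426f4_ag.M.AlgReal
import Pool.Agent.Lib.MP_e426f4_ag.M.Spec
import Pool.Agent.Lib.MP_e426f4_ag.M.SmoothAlg
import Pool.Agent.Lib.MP_e426f4_ag.M.SmoothOpen
import Pool.Agent.Lib.MP_e426f4_ag.M.AlgInd
import Pool.Agent.Lib.MP_e426f4_ag.M.ClassCard

/-! # Cyclic covers, module K-PP: a positive proportion of the forms are smooth and soluble. -/

namespace CovHP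

open GenHP Finset Filter Topology

section multi
variable {ι : Type} [Fintype ι] [DecidableEq ι] {n d : ι → ℕ}

/-- base point -/
private def kpp_e (R : Type) [CommRing R] : MVar n → R := fun v => if v.2 = 0 then 1 else 0

/-- the special form -/
private noncomputable def kpp_A (R : Type) [CommRing R] : MIdx n d → R :=
  open Classical in fun t => if t = ms0 (fun _ => 0) then 1 else 0

private theorem kpp_MF (R : Type) [CommRing R] : MF (kpp_A (n := n) (d := d) R) (kpp_e R) = 1 := by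
  classical
  unfold MF Fg
  rw [Finset.sum_eq_single (ms0 (fun _ => 0))]
  · rw [mon_ms0]
    simp [kpp_A, kpp_e]
  · intro b _ hb
    simp [kpp_A, hb]
  · intro h
    exact absurd (Finset.mem_univ _) h

theorem cov_positive_proportion [Nonempty ι] (k : ℕ) (hk : 2 ≤ k) (hd : ∀ i, 1 ≤ d i)
    (hcls : KCLS n d k) : ∃ c : ℝ, 0 < c ∧ ∀ᶠ H : ℕ in atTop,
    c * (2 * H + 1) ^ NM n d ≤
      (Set.ncard {A : MIdx n d → ℤ | A ∈ MBox n d H ∧ MSmooth A ∧ MKSol k A} : ℝ) := by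
  classical
  obtain ⟨w1, hclass⟩ := hcls (1 / 4) (by norm_num)
  obtain ⟨w, hw⟩ : ∃ w : ℕ, w = max 2 w1 := ⟨_, rfl⟩
  have hw2 : 2 ≤ w := by rw [hw]; exact le_max_left _ _
  have hw1 : w1 ≤ w := by rw [hw]; exact le_max_right _ _
  obtain ⟨rho0, hrho0, hrho01, hclass⟩ := hclass w hw1 hw2 (1 / 4) (by norm_num) (by norm_num)
  -- the centre
  obtain ⟨M, hM⟩ : ∃ M : ℝ, M = NM n d + 1 := ⟨_, rfl⟩
  have hMp : 1 ≤ M := by
    rw [hM]
    have : (0 : ℝ) ≤ NM n d := by positivity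
    linarith
  obtain ⟨A1, hA1⟩ := exists_algInd_near (I := MIdx n d)
    (fun t => (1 / 2 : ℝ) * kpp_A (n := n) (d := d) ℝ t) (1 / (8 * M)) (by positivity)
  obtain ⟨hAind, hA1n⟩ := hA1
  obtain ⟨dl, hdl⟩ : ∃ dl : ℝ, dl = 1 / (8 * M) := ⟨_, rfl⟩
  rw [← hdl] at hA1n
  have hdl0 : 0 < dl := by rw [hdl]; positivity
  have hdl2 : dl * (8 * M) = 1 := by rw [hdl]; field_simp
  have hdl1 : dl ≤ 1 / 8 := by nlinarith
  have hsm := smooth_of_algInd hd A1 hAind
  obtain ⟨del, hdel, hopen⟩ := smooth_open A1 hsm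
  -- bounds at the base point
  have he1 : ∀ v : MVar n, |kpp_e ℝ v| ≤ 1 := by
    intro v
    unfold kpp_e
    split_ifs <;> simp
  have hsA : ∀ t, |kpp_A (n := n) (d := d) ℝ t| ≤ 1 := by
    intro t
    unfold kpp_A
    split_ifs <;> simp
  have hdiffF : |MF A1 (kpp_e ℝ) - MF (fun t => (1 / 2 : ℝ) * kpp_A (n := n) (d := d) ℝ t) (kpp_e ℝ)| ≤
      NM n d * dl := by
    rw [← MF_sub]
    have h1 := MF_abs_le (fun t => A1 t - (1 / 2 : ℝ) * kpp_A (n := n) (d := d) ℝ t) (kpp_e ℝ) dl 1 le_rfl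
      hA1n he1
    rw [one_pow, mul_one] at h1
    exact h1
  rw [MF_smul, kpp_MF, mul_one] at hdiffF
  have hNM0 : (0 : ℝ) ≤ NM n d := by positivity
  have hF1 : 1 / 4 ≤ MF A1 (kpp_e ℝ) := by
    have h1 : NM n d * dl ≤ 1 / 8 := by
      have h3 : (NM n d : ℝ) = M - 1 := by rw [hM]; ring
      rw [h3]
      nlinarith
    have h3 := abs_le.1 (hdiffF.trans h1)
    linarith [h3.1]
  have hA1le : ∀ t, |A1 t| ≤ 5 / 8 := by
    intro t
    have h1 := hA1n t
    have h3 := hsA t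
    have h4 : |(1 / 2 : ℝ) * kpp_A (n := n) (d := d) ℝ t| ≤ 1 / 2 := by
      rw [abs_mul, abs_of_pos (by norm_num : (0 : ℝ) < 1 / 2)]
      linarith
    have h5 : A1 t = (A1 t - 1 / 2 * kpp_A (n := n) (d := d) ℝ t) +
      1 / 2 * kpp_A (n := n) (d := d) ℝ t := by ring
    rw [h5]
    refine (abs_add_le _ _).trans ?_
    linarith
  have hGR : KGoodR (1 / 4) A1 :=
    ⟨kpp_e ℝ, ⟨he1, fun i => ⟨0, by simp [kpp_e]⟩⟩, hF1⟩
  have hGP : ∀ p : ℕ, p.Prime → p ≤ w → KGoodP k p k (kpp_A (n := n) (d := d) ℤ) := by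
    intro p hp _
    have hp1 : ¬ (p : ℤ) ∣ 1 := by
      intro h
      have h3 := Int.isUnit_iff_natAbs_eq.1 (isUnit_of_dvd_one h)
      rw [Int.natAbs_natCast] at h3
      exact hp.one_lt.ne' h3
    refine ⟨kpp_e ℤ, fun i => ⟨0, ?_⟩, 1, ?_, ?_⟩
    · simpa [kpp_e] using hp1
    · rw [kpp_MF ℤ, one_pow, sub_self]
      exact dvd_zero _
    · rw [one_pow, mul_one]
      intro h
      have h3 : p ^ k ∣ k := by exact_mod_cast h
      have h4 := Nat.le_of_dvd (by omega) h3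
      have h5 : k < p ^ k := Nat.lt_pow_self hp.one_lt
      omega
  obtain ⟨rho, hrho⟩ : ∃ rho : ℝ, rho = min rho0 (min (1 / 4) del) := ⟨_, rfl⟩
  have hr0 : 0 < rho := by rw [hrho]; exact lt_min hrho0 (lt_min (by norm_num) hdel)
  have hr1 : rho ≤ rho0 := by rw [hrho]; exact min_le_left _ _
  have hr2 : rho ≤ 1 / 4 := by rw [hrho]; exact (min_le_right _ _).trans (min_le_left _ _)
  have hr3 : rho ≤ del := by rw [hrho]; exact (min_le_right _ _).trans (min_le_right _ _)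
  have hprim : 0 < primorial w := primorial_pos w
  have hN := hclass rho hr0 hr1 k (by omega) (kpp_A (n := n) (d := d) ℤ) hGP A1
    (fun t => (hA1le t).trans (by norm_num)) hGR
  have hcard := class_card A1 (kpp_A (n := n) (d := d) ℤ) (primorial w ^ (2 * k)) (pow_pos hprim _)
    rho (1 / 2) hr0 (by norm_num)
  have hN' := tendsto_natCast_atTop_atTop.eventually hN
  have hcard' := tendsto_natCast_atTop_atTop.eventually hcard
  refine ⟨(1 / 4) * (2 * rho / (3 * (primorial w : ℝ) ^ (2 * k))) ^ NM n d, by positivity, ?_⟩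
  filter_upwards [hN', hcard', eventually_ge_atTop 1] with H h1 h3 h4
  have hH1 : (1 : ℝ) ≤ H := by exact_mod_cast h4
  obtain ⟨h5, _⟩ := h3
  have hQc : ((primorial w ^ (2 * k) : ℕ) : ℝ) = (primorial w : ℝ) ^ (2 * k) := by push_cast; ring
  have hQz : ((primorial w ^ (2 * k) : ℕ) : ℤ) = (primorial w : ℤ) ^ (2 * k) := by push_cast; ring
  simp only [hQc, hQz] at h5
  set X : ℝ := (2 * rho * H / (primorial w : ℝ) ^ (2 * k)) ^ NM n d with hX
  have hX0 : 0 ≤ X := by positivity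
  have h5' : (1 - 1 / 2) * X ≤ (Set.ncard {A : MIdx n d → ℤ |
      (∀ t, |(A t : ℝ) - H * A1 t| ≤ rho * H) ∧
      ∀ t, ((primorial w : ℤ) ^ (2 * k)) ∣ A t - kpp_A (n := n) (d := d) ℤ t} : ℝ) := h5
  set N : Set (MIdx n d → ℤ) := {A | (∀ t, |(A t : ℝ) - H * A1 t| ≤ rho * H) ∧
          (∀ t, ((primorial w : ℤ) ^ (2 * k)) ∣ A t - kpp_A (n := n) (d := d) ℤ t) ∧ ¬ MKSol k A}
    with hNdef
  set S : Set (MIdx n d → ℤ) := {A | A ∈ MBox n d H ∧ MSmooth A ∧ MKSol k A} with hS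
  have hsub : {A : MIdx n d → ℤ | (∀ t, |(A t : ℝ) - H * A1 t| ≤ rho * H) ∧
      ∀ t, ((primorial w : ℤ) ^ (2 * k)) ∣ A t - kpp_A (n := n) (d := d) ℤ t} ⊆ N ∪ S := by
    rintro A ⟨hA, hA'⟩
    by_cases hsol : MKSol k A
    · right
      refine ⟨?_, ?_, hsol⟩
      · rw [mem_MBox]
        intro t
        have h6 := hA t
        have h7 : |(H : ℝ) * A1 t| ≤ H * (5 / 8) := by
          rw [abs_mul, abs_of_nonneg (by positivity : (0 : ℝ) ≤ H)]
          exact mul_le_mul_of_nonneg_left (hA1le t) (by positivity)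
        have h8 : |(A t : ℝ)| ≤ H := by
          have h9 : (A t : ℝ) = ((A t : ℝ) - H * A1 t) + H * A1 t := by ring
          rw [h9]
          refine (abs_add_le _ _).trans ?_
          nlinarith
        have h9 : ((|A t| : ℤ) : ℝ) ≤ ((H : ℤ) : ℝ) := by
          rw [Int.cast_abs]
          exact_mod_cast h8
        exact_mod_cast h9
      · have hH0 : (0 : ℝ) < H := by linarith
        have h6 : RSmooth (fun t => (H : ℝ)⁻¹ * (A t : ℝ)) := by
          refine hopen _ fun t => ?_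
          have h7 : (H : ℝ)⁻¹ * (A t : ℝ) - A1 t = (H : ℝ)⁻¹ * ((A t : ℝ) - H * A1 t) := by
            field_simp
          rw [h7, abs_mul, abs_of_pos (inv_pos.2 hH0), inv_mul_le_iff₀ hH0]
          refine (hA t).trans ?_
          rw [mul_comm (H : ℝ)]
          exact mul_le_mul_of_nonneg_right hr3 hH0.le
        intro z hz
        obtain ⟨v, hv⟩ := h6 z hz
        refine ⟨v, fun h => hv ?_⟩
        have h7 : (fun t => (((H : ℝ)⁻¹ * (A t : ℝ) : ℝ) : ℂ)) =
            fun t => ((H : ℂ)⁻¹) * (A t : ℂ) := by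
          funext t
          push_cast
          ring
        rw [h7, MD_smul, h, mul_zero]
    · left
      exact ⟨hA, hA', hsol⟩
  have hSfin : S.Finite := MBox_finite H _
  have hNfin : N.Finite := class_finite A1 rho H _
  have hle := Set.ncard_le_ncard hsub (hNfin.union hSfin)
  have hle2 := Set.ncard_union_le N S
  have hle3 : (Set.ncard {A : MIdx n d → ℤ |
      (∀ t, |(A t : ℝ) - H * A1 t| ≤ rho * H) ∧
      ∀ t, ((primorial w : ℤ) ^ (2 * k)) ∣ A t - kpp_A (n := n) (d := d) ℤ t} : ℝ) ≤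
      (N.ncard : ℝ) + (S.ncard : ℝ) := by exact_mod_cast hle.trans hle2
  have h1' : (N.ncard : ℝ) ≤ 1 / 4 * X := h1
  have hSX : 1 / 4 * X ≤ (S.ncard : ℝ) := by linarith
  refine le_trans ?_ hSX
  have h6 : (2 * (H : ℝ) + 1) ^ NM n d ≤ (3 * H) ^ NM n d :=
    pow_le_pow_left₀ (by positivity) (by linarith) _
  have h7 : (2 * rho / (3 * (primorial w : ℝ) ^ (2 * k))) ^ NM n d * (3 * (H : ℝ)) ^ NM n d = X := by
    rw [hX, ← mul_pow]
    congr 1
    field_simp
  calc (1 / 4) * (2 * rho / (3 * (primorial w : ℝ) ^ (2 * k))) ^ NM n d *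
        (2 * (H : ℝ) + 1) ^ NM n d
      ≤ (1 / 4) * (2 * rho / (3 * (primorial w : ℝ) ^ (2 * k))) ^ NM n d * (3 * H) ^ NM n d :=
        mul_le_mul_of_nonneg_left h6 (by positivity)
    _ = 1 / 4 * ((2 * rho / (3 * (primorial w : ℝ) ^ (2 * k))) ^ NM n d *
        (3 * (H : ℝ)) ^ NM n d) := by ring
    _ = 1 / 4 * X := by rw [h7]

end multi

end CovHP
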