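import Pool.Agent.Lib.MP_e426f4_ag.K.ClsOfCover
import Pool.Agent.Lib.MP_e426f4_ag.K.Global
import Pool.Agent.Lib.MP_e426f4_ag.K.PosProp
import Pool.Agent.Lib.MP_e426f4_ag.K.Els

/-! Module K, final theorem. -/

namespace CovHP

open GenHP Finset Filter Topology

variable {ι : Type} [Fintype ι] [DecidableEq ι]

theorem final (n m : ι → ℕ) (k : ℕ) (hk : 2 ≤ k) (hm : ∀ i, 1 ≤ m i) (i0 : ι) (hn0 : 2 ≤ n i0)
    (hf : m i0 * (k - 1) ≤ n i0) :
    (∃ c : ℝ, 0 < c ∧ ∀ᶠ H : ℕ in atTop, c * (2 * H + 1) ^ NM n (fun i => k * m i) ≤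
      (Set.ncard {A : MIdx n (fun i => k * m i) → ℤ |
        A ∈ MBox n (fun i => k * m i) H ∧ MSmooth A ∧ MKSol k A} : ℝ)) ∧
    (∀ eps : ℝ, 0 < eps → ∀ᶠ H : ℕ in atTop,
      (Set.ncard {A : MIdx n (fun i => k * m i) → ℤ |
        A ∈ MBox n (fun i => k * m i) H ∧ MKELS k A ∧ ¬ MKSol k A} : ℝ) ≤
        eps * (2 * H + 1) ^ NM n (fun i => k * m i)) := by
  have hne : Nonempty ι := ⟨i0⟩
  have hcls := kcls n m k hk hm i0 hn0 hf
  have hd : ∀ i, 1 ≤ k * m i := fun i => Nat.mul_pos (by omega) (hm i)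
  exact ⟨cov_positive_proportion k hk hd hcls, fun eps he =>
    cov_exceptional_small k hk hd (fun i => Dvd.intro _ rfl) hcls eps he⟩

end CovHP
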