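import Pool.Agent.Lib.MP_e426f4_ag.K.Heights
import Pool.Agent.Lib.MP_e426f4_ag.K.Points
import Pool.Agent.Lib.MP_e426f4_ag.G.ShortOne

/-! Module K-TS: translation over one point. -/

namespace CovHP

open GenHP Finset Filter Topology

variable {n d : ℕ}

theorem exists_shift (p : KPar n d) {k m w : ℕ} {eps bet : ℝ} (hp : p.Valid k m eps bet w)
    (K : ℝ) (hK : 1 ≤ K) (th : ℝ) (hth : 0 < th) :
    ∀ᶠ H : ℝ in atTop, ∀ x ∈ p.GG K (Bk n k m H), ∀ s : ℤ, (p.Q : ℤ) ∣ s →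
      |(s : ℝ)| ≤ th * p.VV k m H →
      ∃ t : Idx n d → ℤ, F t x = s ∧ (∀ i, (p.Q : ℤ) ∣ t i) ∧
        ∀ i, |(t i : ℝ)| ≤ p.cT * th * H := by
  have hn := hp.n_ge
  have hk := hp.k_ge
  have hm := hp.m_ge
  have hf := hp.fano
  have hv := vi_pos p hp
  have hd1 : 1 ≤ d := by rw [hp.d_eq]; exact Nat.mul_pos (by omega) hm
  have h1 := Bk_small hn hk hm hf (c1 n d * p.Q * K / th)
  have h2 := (Bk_atTop hn hk hm hf).eventually_ge_atTop 1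
  filter_upwards [h1, h2, eventually_gt_atTop 0] with H h1 hB1 hH0 x hx s hs hsb
  have hB1r : (1 : ℝ) ≤ Bk n k m H := by exact_mod_cast hB1
  obtain ⟨s', rfl⟩ := hs
  obtain ⟨i0, hi0⟩ := hp.xi_eq
  have hxb := (mem_XX_bounds p hp (Bk n k m H) x hx.1 i0).2 hi0
  have hn0 : (0 : ℝ) < n := by exact_mod_cast (by omega : 0 < n)
  have hmu : 1 ≤ K * (Bk n k m H : ℝ) ^ (1 / (n : ℝ)) := by
    have : 1 ≤ (Bk n k m H : ℝ) ^ (1 / (n : ℝ)) := Real.one_le_rpow hB1r (by positivity)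
    nlinarith
  obtain ⟨t, ht, htb⟩ := short_single hd1 (Bk n k m H) hB1 x hx.2.1
    (K * (Bk n k m H : ℝ) ^ (1 / (n : ℝ))) hmu hx.2.2 i0 hxb s'
  have hQ0 : (0 : ℝ) < p.Q := by exact_mod_cast hp.Q_pos
  have hc1 : 0 ≤ c1 n d := by unfold c1; positivity
  refine ⟨fun i => p.Q * t i, ?_, fun _ => Dvd.intro _ rfl, fun i => ?_⟩
  · rw [F_smul, ht]
  · have hB0 : (0 : ℝ) < (Bk n k m H : ℝ) ^ d := by positivity
    have h5 : (p.Q : ℝ) * |(s' : ℝ)| ≤ th * (H * (Bk n k m H : ℝ) ^ d * p.vi) := by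
      have : |(((p.Q : ℤ) * s' : ℤ) : ℝ)| = (p.Q : ℝ) * |(s' : ℝ)| := by
        push_cast
        rw [abs_mul, Nat.abs_cast]
      rw [← this]
      exact hsb
    have h6 : (p.Q : ℝ) * (2 ^ d * |(s' : ℝ)| / (Bk n k m H : ℝ) ^ d) ≤ 2 ^ d * p.vi * th * H := by
      have : (p.Q : ℝ) * (2 ^ d * |(s' : ℝ)| / (Bk n k m H : ℝ) ^ d) =
          2 ^ d * ((p.Q : ℝ) * |(s' : ℝ)|) / (Bk n k m H : ℝ) ^ d := by ring
      rw [this, div_le_iff₀ hB0]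
      have := mul_le_mul_of_nonneg_left h5 (by positivity : (0 : ℝ) ≤ 2 ^ d)
      linarith
    have h7 : (Bk n k m H : ℝ) ^ (1 / (n : ℝ)) ≤ (Bk n k m H : ℝ) ^ (2 / (n : ℝ)) :=
      Real.rpow_le_rpow_of_exponent_le hB1r (by gcongr; norm_num)
    have h8 : (p.Q : ℝ) * (c1 n d * (K * (Bk n k m H : ℝ) ^ (1 / (n : ℝ)))) ≤ th * H := by
      have h9 : c1 n d * p.Q * K / th * (Bk n k m H : ℝ) ^ (2 / (n : ℝ)) * th ≤ H * th :=
        mul_le_mul_of_nonneg_right h1 hth.le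
      have h10 : c1 n d * p.Q * K / th * (Bk n k m H : ℝ) ^ (2 / (n : ℝ)) * th =
          c1 n d * p.Q * K * (Bk n k m H : ℝ) ^ (2 / (n : ℝ)) := by
        field_simp
      rw [h10] at h9
      have h11 : c1 n d * (p.Q : ℝ) * K * (Bk n k m H : ℝ) ^ (1 / (n : ℝ)) ≤
          c1 n d * p.Q * K * (Bk n k m H : ℝ) ^ (2 / (n : ℝ)) :=
        mul_le_mul_of_nonneg_left h7 (by positivity)
      linarith
    push_cast
    rw [abs_mul, Nat.abs_cast]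
    calc (p.Q : ℝ) * |(t i : ℝ)| ≤
        p.Q * (2 ^ d * |(s' : ℝ)| / (Bk n k m H : ℝ) ^ d +
          c1 n d * (K * (Bk n k m H : ℝ) ^ (1 / (n : ℝ)))) :=
          mul_le_mul_of_nonneg_left (htb i) hQ0.le
      _ = p.Q * (2 ^ d * |(s' : ℝ)| / (Bk n k m H : ℝ) ^ d) +
          p.Q * (c1 n d * (K * (Bk n k m H : ℝ) ^ (1 / (n : ℝ)))) := mul_add _ _ _
      _ ≤ 2 ^ d * p.vi * th * H + th * H := add_le_add h6 h8
      _ = p.cT * th * H := by unfold KPar.cT; ring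

end CovHP
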