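import Pool.Agent.Lib.MP_e426f4_ag.G.Alg
import Pool.Agent.Lib.MP_e426f4_ag.K.Basic
import Pool.Agent.Lib.MP_e426f4_ag.K.Heights
import Pool.Agent.Lib.MP_e426f4_ag.K.Points
import Pool.Agent.Lib.MP_e426f4_ag.K.CountW
import Pool.Agent.Lib.MP_e426f4_ag.K.TransOne

/-! Module K-F1b: lower bound for the number of pairs over one point. -/

namespace CovHP

open GenHP Finset Filter Topology

variable {n d : ℕ}

/-- the fibres used for the translation over one point -/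
private def OneLower_R (p : KPar n d) (k : ℕ) (L : ℝ) (x : Fin (n + 1) → ℤ) (A : Idx n d → ℤ) : Set ℤ :=
  {u : ℤ | 0 < u ∧ (p.P : ℤ) ∣ u - p.w0 ∧ ((F A x : ℤ) : ℝ) - L < (u : ℝ) ^ k ∧
    (u : ℝ) ^ k ≤ ((F A x : ℤ) : ℝ)}

/-- counting pairs `(A, w)` with `w ^ k` slightly below `F A x` -/
private theorem OneLower_count (p : KPar n d) {k m w : ℕ} {eps bet : ℝ} (hp : p.Valid k m eps bet w)
    (K : ℝ) (th : ℝ) (hth : 0 < th) (hth1 : th ≤ eps / 8) (r : ℝ)
    (hr2 : r ≤ 2 * p.rho) :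
    ∀ᶠ H : ℝ in atTop, ∀ x ∈ p.GG K (Bk n k m H),
      {q : (Idx n d → ℤ) × ℤ | q.1 ∈ p.Cl r H ∧ q.2 ∈ OneLower_R p k (th * p.VV k m H) x q.1}.Finite ∧
      (1 - eps) * (th * p.VV k m H ^ (1 / (k : ℝ)) / (k * p.P)) * ((p.Cl r H).ncard : ℝ) ≤
        ({q : (Idx n d → ℤ) × ℤ | q.1 ∈ p.Cl r H ∧
          q.2 ∈ OneLower_R p k (th * p.VV k m H) x q.1}.ncard : ℝ) ∧
      ({q : (Idx n d → ℤ) × ℤ | q.1 ∈ p.Cl r H ∧
          q.2 ∈ OneLower_R p k (th * p.VV k m H) x q.1}.ncard : ℝ) ≤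
        (1 + eps) * (th * p.VV k m H ^ (1 / (k : ℝ)) / (k * p.P)) * ((p.Cl r H).ncard : ℝ) := by
  have heps := hp.eps_pos
  obtain ⟨V0, hV0, hcw⟩ := count_w k hp.k_ge eps th heps hp.eps_le hth hth1 p.P hp.P_pos
  have h1 := (VV_atTop p hp).eventually_ge_atTop V0
  have h2 := (Bk_atTop hp.n_ge hp.k_ge hp.m_ge hp.fano).eventually_ge_atTop 1
  filter_upwards [h1, h2, eventually_gt_atTop 0] with H h1 h2 hH0 x hx
  have hV : 0 < p.VV k m H := lt_of_lt_of_le hV0 h1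
  have key : ∀ A ∈ p.Cl r H, (OneLower_R p k (th * p.VV k m H) x A).Finite ∧
      (1 - eps) * (th * p.VV k m H ^ (1 / (k : ℝ)) / (k * p.P)) ≤
        ((OneLower_R p k (th * p.VV k m H) x A).ncard : ℝ) ∧
      ((OneLower_R p k (th * p.VV k m H) x A).ncard : ℝ) ≤
        (1 + eps) * (th * p.VV k m H ^ (1 / (k : ℝ)) / (k * p.P)) := by
    intro A hA
    have h3 := val_near p hp r H hr2 hH0 h2 A hA x hx.1
    refine hcw (p.VV k m H) h1 ((F A x : ℤ) : ℝ) (h3.trans ?_) p.w0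
    nlinarith
  obtain ⟨hf1, hf2⟩ := ncard_fib (p.Cl r H) (Cl_finite p r H)
    (fun A => OneLower_R p k (th * p.VV k m H) x A) fun A hA => (key A hA).1
  refine ⟨hf1, ?_, ?_⟩
  · rw [hf2]
    push_cast
    rw [Set.ncard_eq_toFinset_card _ (Cl_finite p r H), mul_comm, ← nsmul_eq_mul]
    exact Finset.card_nsmul_le_sum _ _ _ fun A hA =>
      (key A ((Set.Finite.mem_toFinset _).mp hA)).2.1
  · rw [hf2]
    push_cast
    rw [Set.ncard_eq_toFinset_card _ (Cl_finite p r H), mul_comm _ (((Cl_finite p r H).toFinset.card : ℕ) : ℝ),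
      ← nsmul_eq_mul]
    exact Finset.sum_le_card_nsmul _ _ _ fun A hA =>
      (key A ((Set.Finite.mem_toFinset _).mp hA)).2.2

theorem one_lower (p : KPar n d) {k m w : ℕ} {eps bet : ℝ} (hp : p.Valid k m eps bet w)
    (K : ℝ) (hK : 1 ≤ K) (th : ℝ) (hth : 0 < th) (hth1 : th ≤ eps / 8) (r : ℝ) (hr : 0 ≤ r)
    (hr2 : r ≤ 2 * p.rho) :
    ∀ᶠ H : ℝ in atTop, ∀ x ∈ p.GG K (Bk n k m H),
      (1 - 3 * eps) * p.lam k m H * ((p.Cl (r - p.cT * th) H).ncard : ℝ) ≤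
        ((p.P1 k r H x).ncard : ℝ) := by
  have heps := hp.eps_pos
  have heps1 := hp.eps_le
  have hk1 : 1 ≤ k := by have := hp.k_ge; omega
  have hQ0 : (0 : ℝ) < p.Q := by exact_mod_cast hp.Q_pos
  have hP0 : (0 : ℝ) < p.P := by exact_mod_cast hp.P_pos
  have hk0 : (0 : ℝ) < k := by exact_mod_cast hk1
  have hcT : 0 ≤ p.cT := by
    have := hp.vi_ge
    have := hp.bet_pos
    have hv : 0 < p.vi := by linarith
    unfold KPar.cT
    positivity
  have hr3 : r - p.cT * th ≤ 2 * p.rho := by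
    have := mul_nonneg hcT hth.le
    linarith
  have h1 := OneLower_count p hp K th hth hth1 (r - p.cT * th) hr3
  have h2 := exists_shift p hp K hK th hth
  have h3 := (VV_atTop p hp).eventually_ge_atTop (2 * p.Q / (eps * th))
  filter_upwards [h1, h2, h3, VV_pos p hp, eventually_gt_atTop 0] with H h1 h2 h3 hV hH0 x hx
  obtain ⟨hfin, hlow, _⟩ := h1 x hx
  set V : ℝ := p.VV k m H with hVdef
  set J : ℕ := ⌊th * V / p.Q⌋₊ with hJ
  have hJ1 : (J : ℝ) ≤ th * V / p.Q := Nat.floor_le (by positivity)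
  have hJ2 : th * V / p.Q < J + 1 := Nat.lt_floor_add_one _
  have hJ3 : (J : ℝ) + 1 ≤ (1 + eps / 2) * (th * V / p.Q) := by
    have h4 : 1 ≤ eps / 2 * (th * V / p.Q) := by
      rw [div_le_iff₀ (by positivity)] at h3
      have h5 : eps / 2 * (th * V / p.Q) = V * (eps * th) / (2 * p.Q) := by
        field_simp
      rw [h5, le_div_iff₀ (by positivity)]
      linarith
    linarith
  -- the translation
  have hsh : ∀ j : ℕ, ∃ t : Idx n d → ℤ, j ≤ J → (F t x = (p.Q : ℤ) * j ∧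
      (∀ i, (p.Q : ℤ) ∣ t i) ∧ ∀ i, |(t i : ℝ)| ≤ p.cT * th * H) := by
    intro j
    by_cases hj : j ≤ J
    · obtain ⟨t, ht⟩ := h2 x hx ((p.Q : ℤ) * j) (Dvd.intro _ rfl) (by
        push_cast
        rw [abs_of_nonneg (by positivity)]
        have h6 : (j : ℝ) ≤ J := by exact_mod_cast hj
        have h7 : (j : ℝ) ≤ th * V / p.Q := h6.trans hJ1
        rw [le_div_iff₀ hQ0] at h7
        linarith)
      exact ⟨t, fun _ => ht⟩
    · exact ⟨0, fun h => absurd h hj⟩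
  choose t ht using hsh
  have hP1f := P1_finite p hk1 r H x
  -- the level of a pair
  have hlev : ∀ q : (Idx n d → ℤ) × ℤ, q ∈ {q : (Idx n d → ℤ) × ℤ |
      q.1 ∈ p.Cl (r - p.cT * th) H ∧ q.2 ∈ OneLower_R p k (th * V) x q.1} →
      ∃ j : ℕ, j ≤ J ∧ F q.1 x = q.2 ^ k + (p.Q : ℤ) * j := by
    rintro ⟨A, u⟩ ⟨hA, hu0, huP, hu1, hu2⟩
    have hdv := val_congr p hp (r - p.cT * th) H A hA (Bk n k m H) x hx.1 u ⟨hu0, huP⟩
    obtain ⟨c, hc⟩ := hdv
    have hc' : F A x = u ^ k + (p.Q : ℤ) * c := by linarith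
    have hcr : ((F A x : ℤ) : ℝ) = (u : ℝ) ^ k + p.Q * c := by
      rw [hc']
      push_cast
      ring
    have hu1' : ((F A x : ℤ) : ℝ) - th * V < (u : ℝ) ^ k := hu1
    have hu2' : (u : ℝ) ^ k ≤ ((F A x : ℤ) : ℝ) := hu2
    have hc0 : (0 : ℝ) ≤ c := by
      have : 0 ≤ (p.Q : ℝ) * c := by linarith
      exact nonneg_of_mul_nonneg_right this hQ0
    have hc0' : 0 ≤ c := by exact_mod_cast hc0
    obtain ⟨j, rfl⟩ := Int.eq_ofNat_of_zero_le hc0'
    refine ⟨j, ?_, by exact_mod_cast hc'⟩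
    rw [hJ]
    refine Nat.le_floor ?_
    rw [le_div_iff₀ hQ0]
    have : (p.Q : ℝ) * ((j : ℕ) : ℤ) < th * V := by linarith
    push_cast at this
    linarith
  have hinj : {q : (Idx n d → ℤ) × ℤ | q.1 ∈ p.Cl (r - p.cT * th) H ∧
          q.2 ∈ OneLower_R p k (th * V) x q.1}.ncard ≤
      (p.P1 k r H x ×ˢ {j : ℕ | j < J + 1}).ncard := by
    classical
    set lv : (Idx n d → ℤ) × ℤ → ℕ := fun q =>
      if h : ∃ j : ℕ, j ≤ J ∧ F q.1 x = q.2 ^ k + (p.Q : ℤ) * j then h.choose else 0 with hlv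
    have hlvs : ∀ q : (Idx n d → ℤ) × ℤ, q ∈ {q : (Idx n d → ℤ) × ℤ |
        q.1 ∈ p.Cl (r - p.cT * th) H ∧ q.2 ∈ OneLower_R p k (th * V) x q.1} →
        lv q ≤ J ∧ F q.1 x = q.2 ^ k + (p.Q : ℤ) * lv q := by
      intro q hq
      have h := hlev q hq
      rw [hlv]
      simp only
      rw [dif_pos h]
      exact h.choose_spec
    refine Set.ncard_le_ncard_of_injOn
      (fun q : (Idx n d → ℤ) × ℤ => (((fun i => q.1 i - t (lv q) i), q.2), lv q)) ?_ ?_
      (hP1f.prod (Set.finite_lt_nat _))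
    · rintro ⟨A, u⟩ hq
      obtain ⟨hj, hFj⟩ := hlvs (A, u) hq
      obtain ⟨ht1, ht2, ht3⟩ := ht _ hj
      obtain ⟨hA, hu0, huP, hu1, hu2⟩ := hq
      refine ⟨⟨⟨fun i => ?_, fun i => ?_⟩, ⟨hu0, huP⟩, ?_⟩, Nat.lt_succ_of_le hj⟩
      · have h8 : |(A i : ℝ) - H * p.AC i| ≤ (r - p.cT * th) * H := hA.1 i
        have h9 := ht3 i
        push_cast
        calc |(A i : ℝ) - t (lv (A, u)) i - H * p.AC i|
            = |((A i : ℝ) - H * p.AC i) + -(t (lv (A, u)) i : ℝ)| := by ring_nf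
          _ ≤ |(A i : ℝ) - H * p.AC i| + |-(t (lv (A, u)) i : ℝ)| := abs_add_le _ _
          _ ≤ (r - p.cT * th) * H + p.cT * th * H := by rw [abs_neg]; exact add_le_add h8 h9
          _ = r * H := by ring
      · have h8 : (p.Q : ℤ) ∣ A i - p.A0 i := hA.2 i
        have h9 := dvd_sub h8 (ht2 i)
        have h10 : A i - p.A0 i - t (lv (A, u)) i = A i - t (lv (A, u)) i - p.A0 i := by ring
        rwa [h10] at h9
      · change F (fun i => A i - t (lv (A, u)) i) x = u ^ k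
        have h11 : F A x = F (fun i => (A i - t (lv (A, u)) i) + t (lv (A, u)) i) x := by
          congr 1
          funext i
          ring
        rw [F_add, ht1, hFj] at h11
        linarith
    · rintro ⟨A, u⟩ hq ⟨A', u'⟩ hq' heq
      simp only [Prod.mk.injEq] at heq
      obtain ⟨⟨he1, he2⟩, he3⟩ := heq
      rw [he3] at he1
      have e6 : A = A' := by
        funext i
        have := congrFun he1 i
        simpa using this
      rw [e6, he2]
  rw [Set.ncard_prod] at hinj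
  have hJc : {j : ℕ | j < J + 1}.ncard = J + 1 := by
    have : {j : ℕ | j < J + 1} = ↑(Finset.range (J + 1)) := by ext; simp
    rw [this, Set.ncard_coe_finset, Finset.card_range]
  rw [hJc] at hinj
  have hinj0 : ({q : (Idx n d → ℤ) × ℤ | q.1 ∈ p.Cl (r - p.cT * th) H ∧
          q.2 ∈ OneLower_R p k (th * V) x q.1}.ncard : ℝ) ≤ ((p.P1 k r H x).ncard : ℝ) * (J + 1) := by
    exact_mod_cast hinj
  set N1 : ℝ := ((p.P1 k r H x).ncard : ℝ) with hN1
  set NC : ℝ := ((p.Cl (r - p.cT * th) H).ncard : ℝ) with hNC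
  have hinj' : (1 - eps) * (th * V ^ (1 / (k : ℝ)) / (k * p.P)) * NC ≤ N1 * (J + 1) :=
    hlow.trans hinj0
  have hN1n : 0 ≤ N1 := by positivity
  have hNCn : 0 ≤ NC := by positivity
  set X : ℝ := th * V / p.Q with hX
  have hX0 : 0 < X := by positivity
  have hlam : th * V ^ (1 / (k : ℝ)) / (k * p.P) = p.lam k m H * X := by
    rw [KPar.lam, hX, ← hVdef]
    field_simp
  rw [hlam] at hinj'
  have hlam0 : 0 ≤ p.lam k m H := by
    rw [KPar.lam, ← hVdef]
    positivity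
  have h10 : (1 - eps) * (p.lam k m H * X) * NC ≤ N1 * ((1 + eps / 2) * X) :=
    hinj'.trans (mul_le_mul_of_nonneg_left hJ3 hN1n)
  have h11 : (1 - eps) * p.lam k m H * NC ≤ N1 * (1 + eps / 2) := by
    have : ((1 - eps) * p.lam k m H * NC) * X ≤ (N1 * (1 + eps / 2)) * X := by linarith
    exact le_of_mul_le_mul_right this hX0
  have h12 : (1 - 3 * eps) * (1 + eps / 2) ≤ 1 - eps := by nlinarith
  have h13 : (1 - 3 * eps) * (1 + eps / 2) * (p.lam k m H * NC) ≤ (1 - eps) * (p.lam k m H * NC) :=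
    mul_le_mul_of_nonneg_right h12 (mul_nonneg hlam0 hNCn)
  have h14 : ((1 - 3 * eps) * p.lam k m H * NC) * (1 + eps / 2) ≤ N1 * (1 + eps / 2) := by
    linarith
  exact le_of_mul_le_mul_right h14 (by linarith)

end CovHP
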