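import Pool.Agent.Lib.MP_e426f4_ag.K.Basic
import Pool.Agent.Lib.MP_e426f4_ag.K.TransOne
import Pool.Agent.Lib.MP_e426f4_ag.K.CountW

/-! Module K-F1a: upper bound for the number of solutions over one point. -/

namespace CovHP

open GenHP Finset Filter Topology

variable {n d : ℕ}

/-- the number of `w` for one form and one point -/
theorem card_w_le (p : KPar n d) {k m w : ℕ} {eps bet : ℝ} (hp : p.Valid k m eps bet w)
    (th : ℝ) (hth : 0 < th) (hth1 : th ≤ eps / 8) (M : ℕ) (hM : 1 ≤ M) :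
    ∀ᶠ H : ℝ in atTop, ∀ v : ℝ, |v - p.VV k m H| ≤ eps / 4 * p.VV k m H → ∀ r : ℤ,
      {u : ℤ | 0 < u ∧ (M : ℤ) ∣ u - r ∧ v - th * p.VV k m H < (u : ℝ) ^ k ∧
        (u : ℝ) ^ k ≤ v}.Finite ∧
      (1 - eps) * (th * p.VV k m H ^ (1 / (k : ℝ)) / (k * M)) ≤
        (Set.ncard {u : ℤ | 0 < u ∧ (M : ℤ) ∣ u - r ∧ v - th * p.VV k m H < (u : ℝ) ^ k ∧
          (u : ℝ) ^ k ≤ v} : ℝ) ∧
      (Set.ncard {u : ℤ | 0 < u ∧ (M : ℤ) ∣ u - r ∧ v - th * p.VV k m H < (u : ℝ) ^ k ∧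
          (u : ℝ) ^ k ≤ v} : ℝ) ≤
        (1 + eps) * (th * p.VV k m H ^ (1 / (k : ℝ)) / (k * M)) := by
  obtain ⟨V0, -, h⟩ := count_w k hp.k_ge eps th hp.eps_pos hp.eps_le hth hth1 M hM
  filter_upwards [(VV_atTop p hp).eventually_ge_atTop V0] with H hH v hv r
  exact h _ hH v hv r

/-- general injection bound: `S × J` injects into a fibred set with fibres `≤ c` -/
theorem card_mul_le_of_inj {α β γ : Type*} (S : Set α) (J : ℕ) (C : Set β) (hC : C.Finite)
    (R : β → Set γ) (hR : ∀ b ∈ C, (R b).Finite) (c : ℝ) (hc : ∀ b ∈ C, ((R b).ncard : ℝ) ≤ c)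
    (f : α → ℕ → β) (g : α → γ) (hf : ∀ a ∈ S, ∀ j < J, f a j ∈ C ∧ g a ∈ R (f a j))
    (hinj : ∀ a ∈ S, ∀ j < J, ∀ a' ∈ S, ∀ j' < J, f a j = f a' j' → g a = g a' →
      a = a' ∧ j = j') (hS : S.Finite) :
    (S.ncard : ℝ) * J ≤ (C.ncard : ℝ) * c := by
  classical
  obtain ⟨hfin, hcard⟩ := ncard_fib C hC R hR
  have h1 : (S ×ˢ {j : ℕ | j < J}).ncard ≤ {q : β × γ | q.1 ∈ C ∧ q.2 ∈ R q.1}.ncard := by
    refine Set.ncard_le_ncard_of_injOn (fun q => (f q.1 q.2, g q.1)) ?_ ?_ hfin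
    · rintro ⟨a, j⟩ ⟨h1, h2⟩
      exact hf a h1 j h2
    · rintro ⟨a, j⟩ ⟨h1, h2⟩ ⟨a', j'⟩ ⟨h1', h2'⟩ h
      simp only [Prod.mk.injEq] at h
      obtain ⟨g1, g2⟩ := hinj a h1 j h2 a' h1' j' h2' h.1 h.2
      exact Prod.ext g1 g2
  rw [Set.ncard_prod, hcard] at h1
  have h2 : {j : ℕ | j < J}.ncard = J := by
    have : {j : ℕ | j < J} = (Finset.range J : Set ℕ) := by ext; simp
    rw [this, Set.ncard_coe_finset, Finset.card_range]
  rw [h2] at h1
  have h3 : ((S.ncard * J : ℕ) : ℝ) ≤ ((∑ a ∈ hC.toFinset, (R a).ncard : ℕ) : ℝ) := by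
    exact_mod_cast h1
  push_cast at h3
  refine h3.trans ?_
  rw [Set.ncard_eq_toFinset_card C hC, ← nsmul_eq_mul]
  exact Finset.sum_le_card_nsmul _ _ _ fun b hb => hc b ((Set.Finite.mem_toFinset hC).1 hb)

theorem one_upper (p : KPar n d) {k m w : ℕ} {eps bet : ℝ} (hp : p.Valid k m eps bet w)
    (K : ℝ) (hK : 1 ≤ K) (th : ℝ) (hth : 0 < th) (hth1 : th ≤ eps / 8) (r : ℝ) (hr : 0 ≤ r)
    (hr2 : r + p.cT * th ≤ 2 * p.rho) :
    ∀ᶠ H : ℝ in atTop, ∀ x ∈ p.GG K (Bk n k m H),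
      ((p.P1 k r H x).ncard : ℝ) ≤
        (1 + 3 * eps) * p.lam k m H * ((p.Cl (r + p.cT * th) H).ncard : ℝ) := by
  have hk := hp.k_ge
  have hk0 : (0 : ℝ) < k := by exact_mod_cast (by omega : 0 < k)
  have he := hp.eps_pos
  have he1 := hp.eps_le
  have hP := hp.P_pos
  have hP0 : (0 : ℝ) < p.P := by exact_mod_cast hP
  have hQ0 : (0 : ℝ) < p.Q := by exact_mod_cast hp.Q_pos
  have hBk := (Bk_atTop hp.n_ge hp.k_ge hp.m_ge hp.fano).eventually_ge_atTop 1
  have hbig := (VV_atTop p hp).eventually_ge_atTop (10 * p.Q / (eps * th))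
  filter_upwards [exists_shift p hp K hK th hth, card_w_le p hp th hth hth1 p.P hP, hBk, hbig,
    eventually_gt_atTop 0, VV_pos p hp] with H hshift hcw hB hV hH0 hV0 x hx
  set V : ℝ := p.VV k m H with hVdef
  set J : ℕ := ⌊th * V / p.Q⌋₊ with hJ
  -- the shifts
  have hs : ∀ j : ℕ, ∃ t : Idx n d → ℤ, j < J → (F t x = p.Q * j ∧ (∀ i, (p.Q : ℤ) ∣ t i) ∧
      ∀ i, |(t i : ℝ)| ≤ p.cT * th * H) := by
    intro j
    by_cases hj : j < J
    · obtain ⟨t, h1, h2, h3⟩ := hshift x hx (p.Q * j) (Dvd.intro _ rfl) (by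
        push_cast
        rw [abs_of_nonneg (by positivity)]
        have h4 : (j : ℝ) ≤ th * V / p.Q := by
          have h5 : (j : ℝ) ≤ (J : ℝ) := by exact_mod_cast hj.le
          exact h5.trans (Nat.floor_le (by positivity))
        rw [le_div_iff₀ hQ0] at h4
        linarith)
      exact ⟨t, fun _ => ⟨h1, h2, h3⟩⟩
    · exact ⟨0, fun h => absurd h hj⟩
  choose t ht using hs
  have hmain := card_mul_le_of_inj (p.P1 k r H x) J (p.Cl (r + p.cT * th) H)
    (Cl_finite p _ H)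
    (fun A => {u : ℤ | 0 < u ∧ (p.P : ℤ) ∣ u - p.w0 ∧ ((F A x : ℤ) : ℝ) - th * V < (u : ℝ) ^ k ∧
        (u : ℝ) ^ k ≤ ((F A x : ℤ) : ℝ)})
    (fun A hA => (hcw _ ((val_near p hp _ H hr2 hH0 hB A hA x hx.1).trans (by
      have : 0 ≤ eps * V := by positivity
      linarith)) p.w0).1)
    ((1 + eps) * (th * V ^ (1 / (k : ℝ)) / (k * p.P)))
    (fun A hA => (hcw _ ((val_near p hp _ H hr2 hH0 hB A hA x hx.1).trans (by
      have : 0 ≤ eps * V := by positivity
      linarith)) p.w0).2.2)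
    (fun q j => fun i => q.1 i + t j i) (fun q => q.2) ?_ ?_ (P1_finite p (by omega) r H x)
  rotate_left
  · rintro ⟨A, u⟩ ⟨hA, hu, hF⟩ j hj
    obtain ⟨h1, h2, h3⟩ := ht j hj
    have hF' : F A x = u ^ k := hF
    have hval : F (fun i => A i + t j i) x = u ^ k + p.Q * j := by rw [F_add, hF', h1]
    refine ⟨⟨fun i => ?_, fun i => ?_⟩, hu.1, hu.2, ?_, ?_⟩
    · push_cast
      have h5 := hA.1 i
      have h6 := h3 i
      calc |(A i : ℝ) + (t j i : ℝ) - H * p.AC i| =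
          |((A i : ℝ) - H * p.AC i) + (t j i : ℝ)| := by ring_nf
        _ ≤ |(A i : ℝ) - H * p.AC i| + |(t j i : ℝ)| := abs_add_le _ _
        _ ≤ r * H + p.cT * th * H := add_le_add h5 h6
        _ = (r + p.cT * th) * H := by ring
    · have h5 := dvd_add (hA.2 i) (h2 i)
      have h6 : A i - p.A0 i + t j i = A i + t j i - p.A0 i := by ring
      rw [h6] at h5
      exact h5
    · show ((F (fun i => A i + t j i) x : ℤ) : ℝ) - th * V < (u : ℝ) ^ k
      rw [hval]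
      push_cast
      have h4 : (j : ℝ) + 1 ≤ th * V / p.Q := by
        have h5 : ((j + 1 : ℕ) : ℝ) ≤ (J : ℝ) := by exact_mod_cast hj
        push_cast at h5
        exact h5.trans (Nat.floor_le (by positivity))
      rw [le_div_iff₀ hQ0] at h4
      nlinarith
    · show (u : ℝ) ^ k ≤ ((F (fun i => A i + t j i) x : ℤ) : ℝ)
      rw [hval]
      push_cast
      have : (0 : ℝ) ≤ p.Q * j := by positivity
      linarith
  · rintro ⟨A, u⟩ ⟨hA, hu, hF⟩ j hj ⟨A', u'⟩ ⟨hA', hu', hF'⟩ j' hj' h1 h2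
    have h2' : u = u' := h2
    subst h2'
    obtain ⟨a1, -, -⟩ := ht j hj
    obtain ⟨a2, -, -⟩ := ht j' hj'
    have e1 : F (fun i => A i + t j i) x = u ^ k + p.Q * j := by
      rw [F_add, (hF : F A x = u ^ k), a1]
    have e2 : F (fun i => A' i + t j' i) x = u ^ k + p.Q * j' := by
      rw [F_add, (hF' : F A' x = u ^ k), a2]
    have h1' : (fun i => A i + t j i) = fun i => A' i + t j' i := h1
    rw [h1', e2] at e1
    have hQz : (p.Q : ℤ) ≠ 0 := by exact_mod_cast hp.Q_pos.ne'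
    have e3 : (j : ℤ) = j' := by
      have : (p.Q : ℤ) * j' = p.Q * j := by linarith
      exact (mul_left_cancel₀ hQz this).symm
    have e4 : j = j' := by exact_mod_cast e3
    subst e4
    refine ⟨?_, rfl⟩
    have e5 : A = A' := by
      funext i
      have := congrFun h1' i
      simpa using this
    rw [e5]
  -- conclusion
  have hJ1 : th * V / p.Q - 1 ≤ (J : ℝ) := by
    have := Nat.lt_floor_add_one (th * V / p.Q)
    linarith
  have hy : 10 / eps ≤ th * V / p.Q := by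
    rw [le_div_iff₀ hQ0]
    rw [div_le_iff₀ (by positivity)] at hV
    rw [div_mul_eq_mul_div, div_le_iff₀ he]
    linarith
  set y : ℝ := th * V / p.Q with hydef
  have hy1 : 1 ≤ eps / 10 * y := by
    rw [div_le_iff₀ he] at hy
    linarith
  have hJ2 : (1 - eps / 10) * y ≤ (J : ℝ) := by linarith
  have hy0 : 0 < y := by positivity
  set N : ℝ := ((p.P1 k r H x).ncard : ℝ) with hN
  set X : ℝ := ((p.Cl (r + p.cT * th) H).ncard : ℝ) with hX
  have hN0 : 0 ≤ N := by positivity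
  have hX0 : 0 ≤ X := by positivity
  have h7 : N * ((1 - eps / 10) * y) ≤ X * ((1 + eps) * (th * V ^ (1 / (k : ℝ)) / (k * p.P))) :=
    (mul_le_mul_of_nonneg_left hJ2 hN0).trans hmain
  have h8 : th * V ^ (1 / (k : ℝ)) / (k * p.P) = y * p.lam k m H := by
    unfold KPar.lam
    rw [← hVdef, hydef]
    field_simp
  rw [h8] at h7
  have hlam0 : 0 ≤ p.lam k m H := by
    unfold KPar.lam
    rw [← hVdef]
    positivity
  have h9 : N * (1 - eps / 10) ≤ (1 + eps) * p.lam k m H * X := by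
    have h10 : (N * (1 - eps / 10)) * y ≤ ((1 + eps) * p.lam k m H * X) * y := by
      calc (N * (1 - eps / 10)) * y = N * ((1 - eps / 10) * y) := by ring
        _ ≤ X * ((1 + eps) * (y * p.lam k m H)) := h7
        _ = _ := by ring
    exact le_of_mul_le_mul_right h10 hy0
  have h11 : (1 + eps) ≤ (1 + 3 * eps) * (1 - eps / 10) := by nlinarith
  have h12 : N * (1 - eps / 10) ≤ ((1 + 3 * eps) * p.lam k m H * X) * (1 - eps / 10) := by
    calc N * (1 - eps / 10) ≤ (1 + eps) * p.lam k m H * X := h9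
      _ ≤ ((1 + 3 * eps) * (1 - eps / 10)) * p.lam k m H * X := by gcongr
      _ = _ := by ring
  exact le_of_mul_le_mul_right h12 (by linarith)

end CovHP
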