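import Pool.Agent.Lib.MP_e426f4_ag.K.Basic
import Pool.Agent.Lib.MP_e426f4_ag.K.Heights
import Pool.Agent.Lib.MP_e426f4_ag.K.CardCl
import Pool.Agent.Lib.MP_e426f4_ag.K.OneUpper
import Pool.Agent.Lib.MP_e426f4_ag.K.OneLower
import Pool.Agent.Lib.MP_e426f4_ag.K.CountX
import Pool.Agent.Lib.MP_e426f4_ag.K.BadPoints

/-! First moment for cyclic covers. -/

namespace CovHP

open GenHP Finset Filter Topology

theorem K1_XR_scale {n d : ℕ} (p : KPar n d) (a r H : ℝ) :
    p.XR (a * r) H = a ^ NN n d * p.XR r H := by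
  unfold KPar.XR
  rw [← mul_pow]
  congr 1
  ring

theorem K1_XR_nonneg {n d : ℕ} (p : KPar n d) {r H : ℝ} (hr : 0 ≤ r) (hH : 0 ≤ H) :
    0 ≤ p.XR r H := by
  unfold KPar.XR
  positivity

theorem K1_lam_nonneg {n d : ℕ} (p : KPar n d) (k m : ℕ) (H : ℝ) (h : 0 < p.VV k m H) :
    0 ≤ p.lam k m H := by
  unfold KPar.lam
  positivity

theorem K1_NX_nonneg {n d : ℕ} (p : KPar n d) (hk : 0 ≤ p.kap) (B : ℕ) : 0 ≤ p.NX B := by
  unfold KPar.NX
  positivity

theorem S1_lower {n d : ℕ} (p : KPar n d) {k m w : ℕ} {eps bet : ℝ} (hp : p.Valid k m eps bet w) :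
    ∃ K0 : ℝ, 1 ≤ K0 ∧ ∀ K : ℝ, K0 ≤ K → ∀ᶠ H : ℝ in atTop,
      (1 - 8 * eps - 2 / w) * p.TT k m H * p.XR p.rho H ≤
        ∑ x ∈ (GG_finite p K (Bk n k m H)).toFinset, ((p.P1 k p.rho H x).ncard : ℝ) := by
  have he := hp.eps_pos
  have he1 := hp.eps_le
  have hrho := hp.rho_pos
  have hvi : 0 < p.vi := hp.bet_pos.trans_le hp.vi_ge
  have hcT : 0 < p.cT := by
    unfold KPar.cT
    positivity
  have hw : (0 : ℝ) < w := by
    have := hp.w_two
    have : 0 < w := by omega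
    exact_mod_cast this
  obtain ⟨K0, hK0, hbad⟩ := bad_points p hp
  obtain ⟨e0, he0, he0h, hup, hlo⟩ := exists_radius (NN n d) eps he (by linarith)
  obtain ⟨B1, hB1⟩ := XX_lower p hp eps he
  refine ⟨K0, hK0, fun K hK => ?_⟩
  obtain ⟨B2, hB2⟩ := hbad K hK
  obtain ⟨th, hth, hth1, hth2⟩ : ∃ th : ℝ, 0 < th ∧ th ≤ eps / 8 ∧ p.cT * th ≤ e0 * p.rho := by
    refine ⟨min (eps / 8) (e0 * p.rho / p.cT), lt_min (by positivity) (by positivity),
      min_le_left _ _, ?_⟩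
    have := min_le_right (eps / 8) (e0 * p.rho / p.cT)
    calc p.cT * min (eps / 8) (e0 * p.rho / p.cT) ≤ p.cT * (e0 * p.rho / p.cT) :=
          mul_le_mul_of_nonneg_left this hcT.le
      _ = e0 * p.rho := by field_simp
  have hr1 : 0 < (1 - e0) * p.rho := mul_pos (by linarith) hrho
  filter_upwards [one_lower p hp K (hK0.trans hK) th hth hth1 p.rho hrho.le (by linarith),
    card_Cl p hp.Q_pos ((1 - e0) * p.rho) eps hr1 he, VV_pos p hp,
    (Bk_atTop hp.n_ge hp.k_ge hp.m_ge hp.fano).eventually_ge_atTop (max B1 B2),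
    eventually_ge_atTop (1 : ℝ)] with H h1 h2 h3 h4 h5
  have hH : 0 ≤ H := by linarith
  have hlam := K1_lam_nonneg p k m H h3
  have hNX := K1_NX_nonneg p hp.kap_pos.le (Bk n k m H)
  have hXR := K1_XR_nonneg p hrho.le hH
  have hsumnn : (0 : ℝ) ≤ ∑ x ∈ (GG_finite p K (Bk n k m H)).toFinset,
      ((p.P1 k p.rho H x).ncard : ℝ) := Finset.sum_nonneg fun _ _ => Nat.cast_nonneg _
  by_cases hneg : 1 - 8 * eps - 2 / w ≤ 0
  · refine le_trans ?_ hsumnn
    unfold KPar.TT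
    have : 0 ≤ p.NX (Bk n k m H) * p.lam k m H * p.XR p.rho H := by positivity
    nlinarith
  push Not at hneg
  -- lower bound for every point
  have hcl : (1 - eps) * ((1 - eps) * p.XR p.rho H) ≤ ((p.Cl (p.rho - p.cT * th) H).ncard : ℝ) := by
    have h6 : ((p.Cl ((1 - e0) * p.rho) H).ncard : ℝ) ≤
        ((p.Cl (p.rho - p.cT * th) H).ncard : ℝ) := by
      exact_mod_cast Set.ncard_le_ncard (Cl_mono p (by linarith) hH) (Cl_finite p _ H)
    refine le_trans ?_ (h2.1.trans h6)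
    rw [K1_XR_scale]
    exact mul_le_mul_of_nonneg_left (mul_le_mul_of_nonneg_right hlo hXR) (by linarith)
  have hone : ∀ x ∈ (GG_finite p K (Bk n k m H)).toFinset,
      (1 - 3 * eps) * p.lam k m H * ((1 - eps) * ((1 - eps) * p.XR p.rho H)) ≤
        ((p.P1 k p.rho H x).ncard : ℝ) := by
    intro x hx
    rw [Set.Finite.mem_toFinset] at hx
    refine le_trans ?_ (h1 x hx)
    exact mul_le_mul_of_nonneg_left hcl (mul_nonneg (by linarith) hlam)
  have hcard : (1 - 2 * eps - 2 / w) * p.NX (Bk n k m H) ≤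
      (((GG_finite p K (Bk n k m H)).toFinset.card : ℕ) : ℝ) := by
    rw [← Set.ncard_eq_toFinset_card _ (GG_finite p K (Bk n k m H))]
    have h7 := hB1 _ ((le_max_left _ _).trans h4)
    have h8 := hB2 _ ((le_max_right _ _).trans h4)
    have h9 : (p.XX (Bk n k m H)).ncard ≤
        (p.GG K (Bk n k m H)).ncard + (p.XX (Bk n k m H) \ p.GG K (Bk n k m H)).ncard := by
      have h10 : p.XX (Bk n k m H) ⊆
          p.GG K (Bk n k m H) ∪ (p.XX (Bk n k m H) \ p.GG K (Bk n k m H)) := by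
        intro x hx
        by_cases h : x ∈ p.GG K (Bk n k m H)
        · exact Or.inl h
        · exact Or.inr ⟨hx, h⟩
      exact (Set.ncard_le_ncard h10 ((GG_finite p K _).union
        ((XX_finite p _).subset Set.sdiff_subset))).trans (Set.ncard_union_le _ _)
    have h9' : ((p.XX (Bk n k m H)).ncard : ℝ) ≤
        ((p.GG K (Bk n k m H)).ncard : ℝ) +
          ((p.XX (Bk n k m H) \ p.GG K (Bk n k m H)).ncard : ℝ) := by exact_mod_cast h9
    linarith
  have hsum := Finset.card_nsmul_le_sum (GG_finite p K (Bk n k m H)).toFinset _ _ hone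
  rw [nsmul_eq_mul] at hsum
  refine le_trans ?_ hsum
  have hunit : 0 ≤ (1 - 3 * eps) * p.lam k m H * ((1 - eps) * ((1 - eps) * p.XR p.rho H)) := by
    have : 0 ≤ 1 - 3 * eps := by linarith
    have : 0 ≤ 1 - eps := by linarith
    positivity
  refine le_trans ?_ (mul_le_mul_of_nonneg_right hcard hunit)
  unfold KPar.TT
  have h2w : (0 : ℝ) ≤ 2 / w := by positivity
  have hfac : 1 - 8 * eps - 2 / w ≤
      (1 - 2 * eps - 2 / w) * ((1 - 3 * eps) * (1 - eps) * (1 - eps)) := by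
    have e1 : 1 - 5 * eps ≤ (1 - 3 * eps) * (1 - eps) * (1 - eps) := by nlinarith [mul_pos he he]
    have e2 : (1 - 2 * eps - 2 / w) * (1 - 5 * eps) ≤
        (1 - 2 * eps - 2 / w) * ((1 - 3 * eps) * (1 - eps) * (1 - eps)) :=
      mul_le_mul_of_nonneg_left e1 (by linarith)
    refine le_trans ?_ e2
    nlinarith
  have hZ : 0 ≤ p.NX (Bk n k m H) * p.lam k m H * p.XR p.rho H := by positivity
  calc (1 - 8 * eps - 2 / w) * (p.NX (Bk n k m H) * p.lam k m H) * p.XR p.rho H =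
      (1 - 8 * eps - 2 / w) * (p.NX (Bk n k m H) * p.lam k m H * p.XR p.rho H) := by ring
    _ ≤ (1 - 2 * eps - 2 / w) * ((1 - 3 * eps) * (1 - eps) * (1 - eps)) *
        (p.NX (Bk n k m H) * p.lam k m H * p.XR p.rho H) := mul_le_mul_of_nonneg_right hfac hZ
    _ = _ := by ring

theorem S1_upper {n d : ℕ} (p : KPar n d) {k m w : ℕ} {eps bet : ℝ} (hp : p.Valid k m eps bet w)
    (K : ℝ) (hK : 1 ≤ K) (r : ℝ) (hr : p.rho ≤ r) (hr2 : r ≤ 3 / 2 * p.rho) :
    ∀ᶠ H : ℝ in atTop,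
      ∑ x ∈ (GG_finite p K (Bk n k m H)).toFinset, ((p.P1 k r H x).ncard : ℝ) ≤
        (1 + 8 * eps) * p.TT k m H * p.XR r H := by
  have he := hp.eps_pos
  have he1 := hp.eps_le
  have hrho := hp.rho_pos
  have hvi : 0 < p.vi := hp.bet_pos.trans_le hp.vi_ge
  have hr0 : 0 < r := hrho.trans_le hr
  have hcT : 0 < p.cT := by
    unfold KPar.cT
    positivity
  obtain ⟨e0, he0, he0h, hup, hlo⟩ := exists_radius (NN n d) eps he (by linarith)
  obtain ⟨B1, hB1⟩ := XX_upper p hp 1 one_pos (Nat.coprime_one_left _) eps he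
  obtain ⟨th, hth, hth1, hth2⟩ : ∃ th : ℝ, 0 < th ∧ th ≤ eps / 8 ∧ p.cT * th ≤ e0 * p.rho := by
    refine ⟨min (eps / 8) (e0 * p.rho / p.cT), lt_min (by positivity) (by positivity),
      min_le_left _ _, ?_⟩
    have := min_le_right (eps / 8) (e0 * p.rho / p.cT)
    calc p.cT * min (eps / 8) (e0 * p.rho / p.cT) ≤ p.cT * (e0 * p.rho / p.cT) :=
          mul_le_mul_of_nonneg_left this hcT.le
      _ = e0 * p.rho := by field_simp
  have hth3 : p.cT * th ≤ e0 * r := hth2.trans (mul_le_mul_of_nonneg_left hr he0.le)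
  have hth4 : p.cT * th ≤ 1 / 2 * p.rho :=
    hth2.trans (mul_le_mul_of_nonneg_right he0h hrho.le)
  have hr1 : 0 < (1 + e0) * r := by positivity
  filter_upwards [one_upper p hp K hK th hth hth1 r hr0.le (by linarith),
    card_Cl p hp.Q_pos ((1 + e0) * r) eps hr1 he, VV_pos p hp,
    (Bk_atTop hp.n_ge hp.k_ge hp.m_ge hp.fano).eventually_ge_atTop B1,
    eventually_ge_atTop (1 : ℝ)] with H h1 h2 h3 h4 h5
  have hH : 0 ≤ H := by linarith
  have hlam := K1_lam_nonneg p k m H h3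
  have hNX := K1_NX_nonneg p hp.kap_pos.le (Bk n k m H)
  have hXR := K1_XR_nonneg p hr0.le hH
  have hcl : ((p.Cl (r + p.cT * th) H).ncard : ℝ) ≤ (1 + eps) * ((1 + eps) * p.XR r H) := by
    have h6 : ((p.Cl (r + p.cT * th) H).ncard : ℝ) ≤ ((p.Cl ((1 + e0) * r) H).ncard : ℝ) := by
      exact_mod_cast Set.ncard_le_ncard (Cl_mono p (by linarith) hH) (Cl_finite p _ H)
    refine (h6.trans h2.2).trans ?_
    rw [K1_XR_scale]
    exact mul_le_mul_of_nonneg_left (mul_le_mul_of_nonneg_right hup hXR) (by linarith)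
  have hone : ∀ x ∈ (GG_finite p K (Bk n k m H)).toFinset,
      ((p.P1 k r H x).ncard : ℝ) ≤
      (1 + 3 * eps) * p.lam k m H * ((1 + eps) * ((1 + eps) * p.XR r H)) := by
    intro x hx
    rw [Set.Finite.mem_toFinset] at hx
    refine (h1 x hx).trans ?_
    exact mul_le_mul_of_nonneg_left hcl (mul_nonneg (by linarith) hlam)
  have hcard : (((GG_finite p K (Bk n k m H)).toFinset.card : ℕ) : ℝ) ≤
      (1 + eps) * p.NX (Bk n k m H) := by
    rw [← Set.ncard_eq_toFinset_card _ (GG_finite p K (Bk n k m H))]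
    have h7 := hB1 _ h4 0
    have h8 : (p.GG K (Bk n k m H)).ncard ≤ Set.ncard {x : Fin (n + 1) → ℤ |
        x ∈ p.XX (Bk n k m H) ∧ ∀ i, ((1 : ℕ) : ℤ) ∣ x i - (0 : Fin (n + 1) → ℤ) i} := by
      refine Set.ncard_le_ncard ?_ ((XX_finite p _).subset fun x hx => hx.1)
      intro x hx
      exact ⟨hx.1, fun i => by simp⟩
    have h8' : ((p.GG K (Bk n k m H)).ncard : ℝ) ≤ (Set.ncard {x : Fin (n + 1) → ℤ |
        x ∈ p.XX (Bk n k m H) ∧ ∀ i, ((1 : ℕ) : ℤ) ∣ x i - (0 : Fin (n + 1) → ℤ) i} : ℝ) := by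
      exact_mod_cast h8
    refine (h8'.trans h7).trans (le_of_eq ?_)
    simp
  have hsum := Finset.sum_le_card_nsmul (GG_finite p K (Bk n k m H)).toFinset _ _ hone
  rw [nsmul_eq_mul] at hsum
  refine hsum.trans ?_
  have hunit : 0 ≤ (1 + 3 * eps) * p.lam k m H * ((1 + eps) * ((1 + eps) * p.XR r H)) := by
    positivity
  refine (mul_le_mul_of_nonneg_right hcard hunit).trans ?_
  unfold KPar.TT
  have hfac : (1 + eps) * (1 + 3 * eps) * (1 + eps) * (1 + eps) ≤ 1 + 8 * eps := by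
    have e2 : eps ^ 2 ≤ 1 / 10 * eps := by nlinarith
    have e3 : eps ^ 3 ≤ 1 / 100 * eps := by nlinarith
    have e4 : eps ^ 4 ≤ 1 / 1000 * eps := by nlinarith
    nlinarith
  have hZ : 0 ≤ p.NX (Bk n k m H) * p.lam k m H * p.XR r H := by positivity
  calc (1 + eps) * p.NX (Bk n k m H) *
      ((1 + 3 * eps) * p.lam k m H * ((1 + eps) * ((1 + eps) * p.XR r H))) =
      (1 + eps) * (1 + 3 * eps) * (1 + eps) * (1 + eps) *
        (p.NX (Bk n k m H) * p.lam k m H * p.XR r H) := by ring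
    _ ≤ (1 + 8 * eps) * (p.NX (Bk n k m H) * p.lam k m H * p.XR r H) :=
        mul_le_mul_of_nonneg_right hfac hZ
    _ = _ := by ring

end CovHP
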