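import Pool.Agent.Lib.MP_e426f4_ag.K.Defs

/-!
# Roots of `r ^ k = v` in the class of `w0` (module K-NU1)
-/

namespace CovHP

open GenHP Finset Filter Topology

/-- a set of integers of `[0, M K)` in one class modulo `M` has at most `K` elements -/
theorem nu1_class (M K : ℕ) (hM : 0 < M) (S : Finset ℤ)
    (hS : ∀ a ∈ S, 0 ≤ a ∧ a < (M : ℤ) * K) (h : ∀ a ∈ S, ∀ b ∈ S, (M : ℤ) ∣ a - b) :
    S.card ≤ K := by
  have hM' : (0 : ℤ) < M := by exact_mod_cast hM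
  have h1 : S.card ≤ (Finset.Ico (0 : ℤ) K).card := by
    apply Finset.card_le_card_of_injOn (fun a => a / (M : ℤ))
    · intro a ha
      have h2 := hS a ha
      rw [Finset.mem_coe, Finset.mem_Ico]
      refine ⟨Int.ediv_nonneg h2.1 hM'.le, ?_⟩
      apply Int.ediv_lt_of_lt_mul hM'
      linarith [h2.2, mul_comm (M : ℤ) (K : ℤ)]
    · intro a ha b hb hab
      have h2 := h a ha b hb
      have h3 : a % (M : ℤ) = b % (M : ℤ) := Int.ModEq.symm (Int.modEq_iff_dvd.mpr h2)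
      have h4 := Int.mul_ediv_add_emod a M
      have h5 := Int.mul_ediv_add_emod b M
      dsimp only at hab
      rw [hab, h3] at h4
      linarith
  rwa [Int.card_Ico, sub_zero, Int.toNat_natCast] at h1

/-- the sets in question as finsets -/
theorem nu1_ncard (N : ℕ) (R : ℤ → Prop) [DecidablePred R] :
    Set.ncard {r : ℤ | 0 ≤ r ∧ r < (N : ℤ) ∧ R r} =
      ((Finset.Ico (0 : ℤ) N).filter R).card := by
  rw [← Set.ncard_coe_finset]
  congr 1
  ext r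
  simp only [Finset.coe_filter, Finset.mem_Ico, Set.mem_ofPred_eq]
  tauto

theorem root_classes (P Q W k : ℕ) (w0 : ℤ) (hP : 0 < P) (hW : 0 < W) (hH : HensK P Q W k w0)
    (s : ℕ) (hs : Q ∣ W ^ s) (q : ℕ) (hq : 0 < q) (hqW : Nat.Coprime q W) (v : ℤ) :
    Set.ncard {r : ℤ | 0 ≤ r ∧ r < (W ^ s * q : ℕ) ∧ (P : ℤ) ∣ r - w0 ∧
      ((W ^ s * q : ℕ) : ℤ) ∣ r ^ k - v} * P ≤
      Q * Set.ncard {b : ℤ | 0 ≤ b ∧ b < q ∧ (q : ℤ) ∣ b ^ k - v} := by
  classical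
  obtain ⟨⟨K, hK⟩, -, -, hens⟩ := hH
  obtain ⟨R, hR⟩ := hs
  have hWs : 0 < W ^ s := pow_pos hW s
  have hQ : 0 < Q := Nat.pos_of_ne_zero fun h => by rw [h, zero_mul] at hR; omega
  have hR0 : 0 < R := Nat.pos_of_ne_zero fun h => by rw [h, mul_zero] at hR; omega
  have hWs' : (0 : ℤ) < ((W ^ s : ℕ) : ℤ) := by exact_mod_cast hWs
  have hq' : (0 : ℤ) < q := by exact_mod_cast hq
  rw [nu1_ncard (W ^ s * q) (fun r => (P : ℤ) ∣ r - w0 ∧ ((W ^ s * q : ℕ) : ℤ) ∣ r ^ k - v),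
    nu1_ncard q (fun b => (q : ℤ) ∣ b ^ k - v)]
  set B := (Finset.Ico (0 : ℤ) q).filter (fun b => (q : ℤ) ∣ b ^ k - v) with hB
  set A := (Finset.Ico (0 : ℤ) (W ^ s : ℕ)).filter
    (fun a => (P : ℤ) ∣ a - w0 ∧ ((W ^ s : ℕ) : ℤ) ∣ a ^ k - v) with hA
  have hdvd : ∀ (N : ℕ) (r : ℤ), (N : ℤ) ∣ r ^ k - v → (N : ℤ) ∣ (r % N) ^ k - v := by
    intro N r h
    have h1 : (r % N) ^ k ≡ r ^ k [ZMOD N] := (Int.mod_modEq r N).pow k
    have h2 : (N : ℤ) ∣ r ^ k - (r % N) ^ k := (Int.modEq_iff_dvd.mp h1)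
    have h3 : (r % N) ^ k - v = (r ^ k - v) - (r ^ k - (r % N) ^ k) := by ring
    rw [h3]
    exact dvd_sub h h2
  have hPW : P ∣ W ^ s := ⟨K * R, by rw [hR, hK]; ring⟩
  have hcop : IsCoprime ((W ^ s : ℕ) : ℤ) (q : ℤ) := by
    rw [Nat.isCoprime_iff_coprime]
    exact (hqW.symm).pow_left s
  -- Chinese remainder theorem
  have h1 : ((Finset.Ico (0 : ℤ) (W ^ s * q : ℕ)).filter
      (fun r => (P : ℤ) ∣ r - w0 ∧ ((W ^ s * q : ℕ) : ℤ) ∣ r ^ k - v)).card ≤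
      A.card * B.card := by
    rw [← Finset.card_product]
    apply Finset.card_le_card_of_injOn
      (fun r : ℤ => (r % ((W ^ s : ℕ) : ℤ), r % (q : ℤ)))
    · intro r hr
      rw [Finset.mem_coe, Finset.mem_filter] at hr
      obtain ⟨-, hr2, hr3⟩ := hr
      rw [Finset.mem_coe, Finset.mem_product, hA, hB, Finset.mem_filter, Finset.mem_filter,
        Finset.mem_Ico, Finset.mem_Ico]
      refine ⟨⟨⟨Int.emod_nonneg _ hWs'.ne', Int.emod_lt_of_pos _ hWs'⟩, ?_, ?_⟩,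
        ⟨Int.emod_nonneg _ hq'.ne', Int.emod_lt_of_pos _ hq'⟩, ?_⟩
      · dsimp only
        have h2 : ((W ^ s : ℕ) : ℤ) ∣ r - r % ((W ^ s : ℕ) : ℤ) := Int.dvd_self_sub_emod
        have h3 : (P : ℤ) ∣ ((W ^ s : ℕ) : ℤ) := Int.natCast_dvd_natCast.mpr hPW
        have h4 : r % ((W ^ s : ℕ) : ℤ) - w0 =
            (r - w0) - (r - r % ((W ^ s : ℕ) : ℤ)) := by ring
        rw [h4]
        exact dvd_sub hr2 (h3.trans h2)
      · apply hdvd
        refine dvd_trans ?_ hr3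
        rw [Nat.cast_mul]
        exact dvd_mul_right _ _
      · apply hdvd
        refine dvd_trans ?_ hr3
        rw [Nat.cast_mul]
        exact dvd_mul_left _ _
    · intro a ha b hb hab
      rw [Finset.mem_coe, Finset.mem_filter, Finset.mem_Ico] at ha hb
      rw [Prod.mk.injEq] at hab
      have h2 : ((W ^ s : ℕ) : ℤ) ∣ b - a := Int.modEq_iff_dvd.mp hab.1
      have h3 : (q : ℤ) ∣ b - a := Int.modEq_iff_dvd.mp hab.2
      have h4 : ((W ^ s : ℕ) : ℤ) * (q : ℤ) ∣ b - a := hcop.mul_dvd h2 h3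
      have h5 : a ≡ b [ZMOD (((W ^ s : ℕ) : ℤ) * (q : ℤ))] := Int.modEq_iff_dvd.mpr h4
      have ha1 := ha.1
      have hb1 := hb.1
      rw [Nat.cast_mul] at ha1 hb1
      rw [← Int.emod_eq_of_lt ha1.1 ha1.2, ← Int.emod_eq_of_lt hb1.1 hb1.2]
      exact h5
  -- the classes modulo `W ^ s`
  have h2 : A.card ≤ K := by
    have hRc : ∀ a ∈ A, ∀ b ∈ A, ((P * R : ℕ) : ℤ) ∣ a - b := by
      intro a ha b hb
      rw [hA, Finset.mem_filter] at ha hb
      obtain ⟨t, ht⟩ := hb.2.1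
      obtain ⟨u, hu⟩ := ha.2.1
      obtain ⟨e, he, heq⟩ := hens t (u - t)
      have e1 : w0 + (P : ℤ) * (t + (u - t)) = a := by
        have : (P : ℤ) * (t + (u - t)) = P * u := by ring
        rw [this, ← hu]; ring
      have e2 : w0 + (P : ℤ) * t = b := by rw [← ht]; ring
      rw [e1, e2] at heq
      have h3 : ((W ^ s : ℕ) : ℤ) ∣ a ^ k - b ^ k := by
        have : a ^ k - b ^ k = (a ^ k - v) - (b ^ k - v) := by ring
        rw [this]
        exact dvd_sub ha.2.2 hb.2.2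
      rw [heq, hR, Nat.cast_mul, mul_assoc] at h3
      have hQ' : (Q : ℤ) ≠ 0 := by exact_mod_cast hQ.ne'
      have h4 : (R : ℤ) ∣ (u - t) * e := (mul_dvd_mul_iff_left hQ').mp h3
      have h5 : IsCoprime (R : ℤ) e := by
        have h6 : (R : ℤ) ∣ (W : ℤ) ^ s := by
          have : ((W ^ s : ℕ) : ℤ) = (Q : ℤ) * R := by rw [hR, Nat.cast_mul]
          rw [← Nat.cast_pow, this]
          exact dvd_mul_left _ _
        exact (IsCoprime.of_isCoprime_of_dvd_left (he.symm.pow_left) h6)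
      have h6 : (R : ℤ) ∣ u - t := h5.dvd_of_dvd_mul_right h4
      have h7 : a - b = P * (u - t) := by
        have : a - b = (a - w0) - (b - w0) := by ring
        rw [this, hu, ht]; ring
      rw [h7, Nat.cast_mul]
      exact mul_dvd_mul_left _ h6
    apply nu1_class (P * R) K (Nat.mul_pos hP hR0) A _ hRc
    intro a ha
    rw [hA, Finset.mem_filter, Finset.mem_Ico] at ha
    refine ⟨ha.1.1, ?_⟩
    have e1 : ((P * R : ℕ) : ℤ) * (K : ℤ) = ((W ^ s : ℕ) : ℤ) := by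
      rw [hR, hK]; push_cast; ring
    rw [e1]
    exact ha.1.2
  calc _ ≤ (A.card * B.card) * P := Nat.mul_le_mul_right _ h1
    _ ≤ (K * B.card) * P := Nat.mul_le_mul_right _ (Nat.mul_le_mul_right _ h2)
    _ = Q * B.card := by rw [hK]; ring

end CovHP
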