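import Pool.Agent.Lib.MP_e426f4_ag.K.Heights
import Pool.Agent.Lib.MP_e426f4_ag.K.Points
import Pool.Agent.Lib.MP_e426f4_ag.G.ShortTwo

/-! Module K-TP: translation over two points. -/

namespace CovHP

open GenHP Finset Filter Topology

variable {n d : ℕ}

theorem exists_shift2 (p : KPar n d) {k m w : ℕ} {eps bet : ℝ} (hp : p.Valid k m eps bet w)
    (K : ℝ) (hK : 1 ≤ K) (G : ℕ) (hG : 1 ≤ G) (tau : ℝ) (ht : 0 < tau) (ht1 : tau ≤ 1)
    (th : ℝ) (hth : 0 < th) :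
    ∀ᶠ H : ℝ in atTop, ∀ x ∈ p.GG K (Bk n k m H), ∀ y ∈ p.GG K (Bk n k m H),
      mg x y ≤ G → tau * (Bk n k m H : ℝ) ^ 2 ≤ (dl x y : ℝ) →
      ∀ s : ℤ, ((p.Q * mg x y : ℕ) : ℤ) ∣ s → |(s : ℝ)| ≤ th * p.VV k m H →
      ∃ t : Idx n d → ℤ, F t x = 0 ∧ F t y = s ∧ (∀ i, (p.Q : ℤ) ∣ t i) ∧
        ∀ i, |(t i : ℝ)| ≤ p.cP * (th / tau) * H := by
  have hn := hp.n_ge
  have hk := hp.k_ge
  have hm := hp.m_ge
  have hf := hp.fano
  have hv := vi_pos p hp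
  have hd2 : 2 ≤ d := by
    rw [hp.d_eq]
    calc 2 = 2 * 1 := rfl
      _ ≤ k * m := Nat.mul_le_mul hk hm
  have h1 := Bk_small hn hk hm hf (c2 n d * p.Q * K ^ 2 * tau / th)
  have h2 := (Bk_atTop hn hk hm hf).eventually_ge_atTop 1
  filter_upwards [h1, h2, eventually_gt_atTop 0] with H h1 hB1 hH0 x hx y hy hmg hdl s hs hsb
  have hB1r : (1 : ℝ) ≤ Bk n k m H := by exact_mod_cast hB1
  have hB0' : (0 : ℝ) < Bk n k m H := by linarith
  obtain ⟨s', rfl, hs'⟩ : ∃ s' : ℤ, s = p.Q * s' ∧ (mg x y : ℤ) ∣ s' := by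
    obtain ⟨c, hc⟩ := hs
    refine ⟨mg x y * c, ?_, Dvd.intro _ rfl⟩
    rw [hc]
    push_cast
    ring
  obtain ⟨i0, hi0⟩ := hp.xi_eq
  have hxb := (mem_XX_bounds p hp (Bk n k m H) x hx.1 i0).2 hi0
  have hyb := (mem_XX_bounds p hp (Bk n k m H) y hy.1 i0).2 hi0
  have hn0 : (0 : ℝ) < n := by exact_mod_cast (by omega : 0 < n)
  have hmu : 1 ≤ K * (Bk n k m H : ℝ) ^ (1 / (n : ℝ)) := by
    have : 1 ≤ (Bk n k m H : ℝ) ^ (1 / (n : ℝ)) := Real.one_le_rpow hB1r (by positivity)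
    nlinarith
  have hdl0 : 0 < dl x y := by
    have : (0 : ℝ) < (dl x y : ℝ) := lt_of_lt_of_le (by positivity) hdl
    exact_mod_cast this
  obtain ⟨t, htx, hty, htb⟩ := short_pair hd2 (Bk n k m H) hB1 x y hx.2.1 hy.2.1
    (K * (Bk n k m H : ℝ) ^ (1 / (n : ℝ))) hmu hx.2.2 hy.2.2 i0 hxb hyb
    (fun i => (mem_XX_bounds p hp (Bk n k m H) x hx.1 i).1)
    (fun i => (mem_XX_bounds p hp (Bk n k m H) y hy.1 i).1) hdl0 s' hs'
  have hQ0 : (0 : ℝ) < p.Q := by exact_mod_cast hp.Q_pos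
  have hc2 : 0 ≤ c2 n d := by unfold c2; positivity
  refine ⟨fun i => p.Q * t i, ?_, ?_, fun _ => Dvd.intro _ rfl, fun i => ?_⟩
  · rw [F_smul, htx, mul_zero]
  · rw [F_smul, hty]
  · have hB0 : (0 : ℝ) < (Bk n k m H : ℝ) ^ d := by positivity
    have hB02 : (0 : ℝ) < (Bk n k m H : ℝ) ^ (d - 2) := by positivity
    have h5 : (p.Q : ℝ) * |(s' : ℝ)| ≤ th * (H * (Bk n k m H : ℝ) ^ d * p.vi) := by
      have : |(((p.Q : ℤ) * s' : ℤ) : ℝ)| = (p.Q : ℝ) * |(s' : ℝ)| := by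
        push_cast
        rw [abs_mul, Nat.abs_cast]
      rw [← this]
      exact hsb
    have hdd : (Bk n k m H : ℝ) ^ d = (Bk n k m H : ℝ) ^ (d - 2) * (Bk n k m H : ℝ) ^ 2 := by
      rw [← pow_add]
      congr 1
      omega
    have hden : tau * (Bk n k m H : ℝ) ^ d ≤ (Bk n k m H : ℝ) ^ (d - 2) * dl x y := by
      rw [hdd]
      have := mul_le_mul_of_nonneg_left hdl hB02.le
      linarith
    have hden0 : 0 < (Bk n k m H : ℝ) ^ (d - 2) * dl x y := lt_of_lt_of_le (by positivity) hden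
    have h6 : (p.Q : ℝ) * (2 ^ (d + 3) * |(s' : ℝ)| / ((Bk n k m H : ℝ) ^ (d - 2) * dl x y)) ≤
        2 ^ (d + 3) * p.vi * (th / tau) * H := by
      have : (p.Q : ℝ) * (2 ^ (d + 3) * |(s' : ℝ)| / ((Bk n k m H : ℝ) ^ (d - 2) * dl x y)) =
          2 ^ (d + 3) * ((p.Q : ℝ) * |(s' : ℝ)|) / ((Bk n k m H : ℝ) ^ (d - 2) * dl x y) := by ring
      rw [this, div_le_iff₀ hden0]
      have h51 := mul_le_mul_of_nonneg_left h5 (by positivity : (0 : ℝ) ≤ 2 ^ (d + 3))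
      have h52 : 2 ^ (d + 3) * p.vi * (th / tau) * H * (tau * (Bk n k m H : ℝ) ^ d) ≤
          2 ^ (d + 3) * p.vi * (th / tau) * H * ((Bk n k m H : ℝ) ^ (d - 2) * dl x y) :=
        mul_le_mul_of_nonneg_left hden (by positivity)
      have h53 : 2 ^ (d + 3) * p.vi * (th / tau) * H * (tau * (Bk n k m H : ℝ) ^ d) =
          2 ^ (d + 3) * (th * (H * (Bk n k m H : ℝ) ^ d * p.vi)) := by
        field_simp
      linarith
    have h7 : ((Bk n k m H : ℝ) ^ (1 / (n : ℝ))) ^ 2 = (Bk n k m H : ℝ) ^ (2 / (n : ℝ)) := by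
      rw [← Real.rpow_natCast, ← Real.rpow_mul hB0'.le]
      congr 1
      push_cast
      ring
    have h8 : (p.Q : ℝ) * (c2 n d * (K * (Bk n k m H : ℝ) ^ (1 / (n : ℝ))) ^ 2) ≤
        (th / tau) * H := by
      rw [mul_pow, h7]
      have h9 : c2 n d * p.Q * K ^ 2 * tau / th * (Bk n k m H : ℝ) ^ (2 / (n : ℝ)) *
          (th / tau) ≤ H * (th / tau) :=
        mul_le_mul_of_nonneg_right h1 (by positivity)
      have h10 : c2 n d * p.Q * K ^ 2 * tau / th * (Bk n k m H : ℝ) ^ (2 / (n : ℝ)) *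
          (th / tau) = (p.Q : ℝ) * (c2 n d * (K ^ 2 * (Bk n k m H : ℝ) ^ (2 / (n : ℝ)))) := by
        field_simp
      rw [h10] at h9
      linarith
    push_cast
    rw [abs_mul, Nat.abs_cast]
    calc (p.Q : ℝ) * |(t i : ℝ)| ≤
        p.Q * (2 ^ (d + 3) * |(s' : ℝ)| / ((Bk n k m H : ℝ) ^ (d - 2) * dl x y) +
          c2 n d * (K * (Bk n k m H : ℝ) ^ (1 / (n : ℝ))) ^ 2) :=
          mul_le_mul_of_nonneg_left (htb i) hQ0.le
      _ = p.Q * (2 ^ (d + 3) * |(s' : ℝ)| / ((Bk n k m H : ℝ) ^ (d - 2) * dl x y)) +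
          p.Q * (c2 n d * (K * (Bk n k m H : ℝ) ^ (1 / (n : ℝ))) ^ 2) := mul_add _ _ _
      _ ≤ 2 ^ (d + 3) * p.vi * (th / tau) * H + (th / tau) * H := add_le_add h6 h8
      _ = p.cP * (th / tau) * H := by unfold KPar.cP; ring

end CovHP
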