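import Pool.Agent.Lib.MP_e426f4_ag.K.Basic
import Pool.Agent.Lib.MP_e426f4_ag.K.Points
import Pool.Agent.Lib.MP_e426f4_ag.K.CountW
import Pool.Agent.Lib.MP_e426f4_ag.K.OneUpper
import Pool.Agent.Lib.MP_e426f4_ag.K.RootClasses
import Pool.Agent.Lib.MP_e426f4_ag.K.TransPair
import Pool.Agent.Lib.MP_e426f4_ag.G.Minors

/-! Module K-P2M: solutions over a good pair of points. -/

namespace CovHP

open GenHP Finset Filter Topology

variable {n d : ℕ}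

/-- the cofactor `q = lcm(M, Q m) / M` -/
private theorem cofactorK (W Q k G : ℕ) (hW : 0 < W) (hQ : ∃ n, Q = W ^ n)
    (hn : Q * W ^ G ∣ W ^ k) (m : ℕ) (hm : 0 < m) (hmG : m ≤ G) :
    ∃ q : ℕ, 0 < q ∧ q ∣ m ∧ Nat.Coprime q W ∧ Nat.lcm (W ^ k) (Q * m) = W ^ k * q := by
  obtain ⟨t, ht⟩ := hn
  have hg : Nat.gcd (W ^ G) m ∣ m := Nat.gcd_dvd_right _ _
  obtain ⟨q, hq⟩ := hg
  have hgpos : 0 < Nat.gcd (W ^ G) m := Nat.gcd_pos_of_pos_right _ hm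
  have hqpos : 0 < q := by
    rcases Nat.eq_zero_or_pos q with h | h
    · rw [h, Nat.mul_zero] at hq; omega
    · exact h
  have hcop : Nat.Coprime q W := by
    rw [Nat.coprime_iff_gcd_eq_one]
    by_contra hne
    obtain ⟨p, hp, hpd⟩ := Nat.exists_prime_and_dvd hne
    have hpq : p ∣ q := hpd.trans (Nat.gcd_dvd_left _ _)
    have hpW : p ∣ W := hpd.trans (Nat.gcd_dvd_right _ _)
    obtain ⟨e, m', hm', hme⟩ := Nat.exists_eq_pow_mul_and_not_dvd (n := m) (by omega) p hp.ne_one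
    have he1 : e < p ^ e := Nat.lt_pow_self hp.one_lt
    have he2 : p ^ e ≤ m := Nat.le_of_dvd hm ⟨m', hme⟩
    have heG : e ≤ G := by omega
    have h1 : p ^ e ∣ W ^ G := (pow_dvd_pow p heG).trans (pow_dvd_pow_of_dvd hpW G)
    have h2 : p ^ e ∣ Nat.gcd (W ^ G) m := Nat.dvd_gcd h1 ⟨m', hme⟩
    have h3 : p ^ e * p ∣ m := by
      rw [hq]
      exact Nat.mul_dvd_mul h2 hpq
    rw [hme] at h3
    have h4 : p ∣ m' := Nat.dvd_of_mul_dvd_mul_left (pow_pos hp.pos e) h3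
    exact hm' h4
  refine ⟨q, hqpos, ⟨Nat.gcd (W ^ G) m, by rw [mul_comm]; exact hq⟩, hcop, ?_⟩
  have hQpos : 0 < Q := by
    obtain ⟨n, rfl⟩ := hQ
    exact pow_pos hW n
  -- W^k = Q * (W^G * t)
  have hWk : W ^ k = Q * (W ^ G * t) := by rw [ht, mul_assoc]
  rw [hWk, Nat.lcm_mul_left]
  rw [mul_assoc]
  congr 1
  have htk : W ^ G * t ∣ W ^ k := ⟨Q, by rw [hWk]; ring⟩
  have hc2 : Nat.Coprime q (W ^ G * t) := Nat.Coprime.coprime_dvd_right htk (hcop.pow_right k)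
  have hgd : Nat.gcd (W ^ G) m ∣ W ^ G * t := (Nat.gcd_dvd_left _ _).trans (Dvd.intro _ rfl)
  apply Nat.dvd_antisymm
  · apply Nat.lcm_dvd
    · exact Dvd.intro _ rfl
    · rw [hq]
      exact Nat.mul_dvd_mul hgd dvd_rfl
  · apply Nat.Coprime.mul_dvd_of_dvd_of_dvd hc2.symm
    · exact Nat.dvd_lcm_left _ _
    · exact (Dvd.intro_left _ hq.symm).trans (Nat.dvd_lcm_right _ _)

/-- the number of elements of a set of integers covered by residue classes modulo `M` -/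
private theorem ncard_le_classes (M : ℕ) (hM : 0 < M) (S : Set ℤ) (R : Set ℤ) (T : ℤ → Set ℤ)
    (c : ℝ) (hRM : ∀ r ∈ R, 0 ≤ r ∧ r < M)
    (hT : ∀ r, (T r).Finite ∧ ((T r).ncard : ℝ) ≤ c)
    (hS : ∀ u ∈ S, (u % M) ∈ R ∧ u ∈ T (u % M)) :
    S.Finite ∧ (S.ncard : ℝ) ≤ (R.ncard : ℝ) * c := by
  classical
  have hRfin : R.Finite := (Set.finite_Ico (0 : ℤ) M).subset fun r hr => ⟨(hRM r hr).1, (hRM r hr).2⟩
  have hsub : S ⊆ ⋃ r ∈ hRfin.toFinset, T r := by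
    intro u hu
    obtain ⟨h1, h2⟩ := hS u hu
    rw [Set.mem_iUnion₂]
    exact ⟨u % M, (Set.Finite.mem_toFinset hRfin).2 h1, h2⟩
  have hfin : (⋃ r ∈ hRfin.toFinset, T r).Finite := by
    refine Set.Finite.biUnion (Finset.finite_toSet _) ?_
    intro r _
    exact (hT r).1
  refine ⟨hfin.subset hsub, ?_⟩
  calc (S.ncard : ℝ) ≤ ((⋃ r ∈ hRfin.toFinset, T r).ncard : ℝ) := by
        exact_mod_cast Set.ncard_le_ncard hsub hfin
    _ ≤ ((∑ r ∈ hRfin.toFinset, (T r).ncard : ℕ) : ℝ) := by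
        exact_mod_cast Finset.set_ncard_biUnion_le _ _
    _ = ∑ r ∈ hRfin.toFinset, ((T r).ncard : ℝ) := by push_cast; rfl
    _ ≤ ∑ r ∈ hRfin.toFinset, c := Finset.sum_le_sum fun r _ => (hT r).2
    _ = (R.ncard : ℝ) * c := by
        rw [Finset.sum_const, nsmul_eq_mul, Set.ncard_eq_toFinset_card R hRfin]

theorem pair_main (p : KPar n d) {k m w : ℕ} {eps bet : ℝ} (hp : p.Valid k m eps bet w)
    (psi : ℕ → ℝ) (hpsi : PsiBound k psi) (K : ℝ) (hK : 1 ≤ K) (G : ℕ) (hG : 1 ≤ G)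
    (tau : ℝ) (ht : 0 < tau) (ht1 : tau ≤ 1) (th : ℝ) (hth : 0 < th) (hth1 : th ≤ eps / 8)
    (r : ℝ) (hr : 0 ≤ r) (hr2 : r + p.cP * (th / tau) ≤ 2 * p.rho) :
    ∀ᶠ H : ℝ in atTop, ∀ x ∈ p.GG K (Bk n k m H), ∀ y ∈ p.GG K (Bk n k m H),
      mg x y ≤ G → tau * (Bk n k m H : ℝ) ^ 2 ≤ (dl x y : ℝ) →
      ∃ q : ℕ, 0 < q ∧ q ∣ mg x y ∧ Nat.Coprime q p.W ∧
        ((p.P2 k r H x y).ncard : ℝ) ≤
          (1 + 4 * eps) * psi q * p.lam k m H *
            ((p.P1 k (r + p.cP * (th / tau)) H x).ncard : ℝ) := by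
  have hk := hp.k_ge
  have hk0 : (0 : ℝ) < k := by exact_mod_cast (by omega : 0 < k)
  have he := hp.eps_pos
  have he1 := hp.eps_le
  have hP := hp.P_pos
  have hP0 : (0 : ℝ) < p.P := by exact_mod_cast hP
  have hQ0 : (0 : ℝ) < p.Q := by exact_mod_cast hp.Q_pos
  have hWpos : 0 < p.W := hp.W_pos
  obtain ⟨hPQ, hWQ, ⟨s1, hs1⟩, -⟩ := hp.hens
  set s0 : ℕ := s1 + G with hs0
  have hdvd0 : p.Q * p.W ^ G ∣ p.W ^ s0 := by rw [hs1, hs0, pow_add]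
  have hQs0 : p.Q ∣ p.W ^ s0 := (Dvd.intro _ rfl).trans hdvd0
  have hBk := (Bk_atTop hp.n_ge hp.k_ge hp.m_ge hp.fano).eventually_ge_atTop 1
  have hbig := (VV_atTop p hp).eventually_ge_atTop (10 * (p.W ^ s0 * G : ℕ) / (eps * th))
  have hcw : ∀ᶠ H : ℝ in atTop, ∀ q ∈ Finset.Icc 1 G, ∀ v : ℝ, |v - p.VV k m H| ≤ eps / 4 * p.VV k m H →
      ∀ r : ℤ,
      {u : ℤ | 0 < u ∧ ((p.W ^ s0 * q : ℕ) : ℤ) ∣ u - r ∧ v - th * p.VV k m H < (u : ℝ) ^ k ∧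
        (u : ℝ) ^ k ≤ v}.Finite ∧
      (1 - eps) * (th * p.VV k m H ^ (1 / (k : ℝ)) / (k * (p.W ^ s0 * q : ℕ))) ≤
        (Set.ncard {u : ℤ | 0 < u ∧ ((p.W ^ s0 * q : ℕ) : ℤ) ∣ u - r ∧
          v - th * p.VV k m H < (u : ℝ) ^ k ∧ (u : ℝ) ^ k ≤ v} : ℝ) ∧
      (Set.ncard {u : ℤ | 0 < u ∧ ((p.W ^ s0 * q : ℕ) : ℤ) ∣ u - r ∧
          v - th * p.VV k m H < (u : ℝ) ^ k ∧ (u : ℝ) ^ k ≤ v} : ℝ) ≤
        (1 + eps) * (th * p.VV k m H ^ (1 / (k : ℝ)) / (k * (p.W ^ s0 * q : ℕ))) := by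
    rw [Filter.eventually_all_finset]
    intro q hq
    rw [Finset.mem_Icc] at hq
    exact card_w_le p hp th hth hth1 (p.W ^ s0 * q) (Nat.mul_pos (pow_pos hWpos _) hq.1)
  filter_upwards [exists_shift2 p hp K hK G hG tau ht ht1 th hth, hcw, hBk, hbig,
    eventually_gt_atTop 0, VV_pos p hp] with H hshift hcw hB hV hH0 hV0 x hx y hy hmG hdl
  set V : ℝ := p.VV k m H with hVdef
  set B := Bk n k m H with hBdef
  have hB0 : (0 : ℝ) < B := by exact_mod_cast (by omega : 0 < B)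
  have hdlpos' : (0 : ℝ) < dl x y := lt_of_lt_of_le (by positivity) hdl
  have hdlpos : 0 < dl x y := by exact_mod_cast hdlpos'
  have hmpos : 0 < mg x y := mg_pos_of_dl_pos x y hdlpos
  obtain ⟨q, hqpos, hqm, hqW, hlcm⟩ :=
    cofactorK p.W p.Q s0 G hWpos ⟨s1, hs1⟩ hdvd0 (mg x y) hmpos hmG
  have hqG : q ≤ G := (Nat.le_of_dvd hmpos hqm).trans hmG
  refine ⟨q, hqpos, hqm, hqW, ?_⟩
  set M : ℕ := p.W ^ s0 * q with hM
  have hMpos : 0 < M := Nat.mul_pos (pow_pos hWpos s0) hqpos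
  have hM0 : (0 : ℝ) < M := by exact_mod_cast hMpos
  have hQm : p.Q * mg x y ∣ M := by
    rw [← hlcm]
    exact Nat.dvd_lcm_right _ _
  have hPM : (p.P : ℤ) ∣ (M : ℤ) := by
    have : p.P ∣ M := (hPQ.trans hQs0).trans (Dvd.intro _ rfl)
    exact_mod_cast this
  have hMG : (M : ℝ) ≤ (p.W ^ s0 * G : ℕ) := by
    exact_mod_cast Nat.mul_le_mul_left _ hqG
  set J : ℕ := ⌊th * V / M⌋₊ with hJ
  set rr : ℝ := r + p.cP * (th / tau) with hrr
  have hcwq := hcw q (Finset.mem_Icc.2 ⟨hqpos, hqG⟩)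
  -- the shifts
  have hs : ∀ j : ℕ, ∃ t : Idx n d → ℤ, j < J → (F t x = 0 ∧ F t y = M * j ∧
      (∀ i, (p.Q : ℤ) ∣ t i) ∧ ∀ i, |(t i : ℝ)| ≤ p.cP * (th / tau) * H) := by
    intro j
    by_cases hj : j < J
    · obtain ⟨t, h1, h2, h3, h4⟩ := hshift x hx y hy hmG hdl (M * j) (by
        refine (Int.natCast_dvd_natCast.2 hQm).trans ?_
        exact Dvd.intro _ rfl) (by
        push_cast
        rw [abs_of_nonneg (by positivity)]
        have h4 : (j : ℝ) ≤ th * V / M := by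
          have h5 : (j : ℝ) ≤ (J : ℝ) := by exact_mod_cast hj.le
          exact h5.trans (Nat.floor_le (by positivity))
        rw [le_div_iff₀ hM0] at h4
        linarith)
      exact ⟨t, fun _ => ⟨h1, h2, h3, h4⟩⟩
    · exact ⟨0, fun h => absurd h hj⟩
  choose t ht' using hs
  -- the fibres
  have hfib : ∀ b ∈ p.P1 k rr H x,
      {u : ℤ | 0 < u ∧ (p.P : ℤ) ∣ u - p.w0 ∧ (M : ℤ) ∣ F b.1 y - u ^ k ∧
        ((F b.1 y : ℤ) : ℝ) - th * V < (u : ℝ) ^ k ∧ (u : ℝ) ^ k ≤ ((F b.1 y : ℤ) : ℝ)}.Finite ∧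
      (Set.ncard {u : ℤ | 0 < u ∧ (p.P : ℤ) ∣ u - p.w0 ∧ (M : ℤ) ∣ F b.1 y - u ^ k ∧
        ((F b.1 y : ℤ) : ℝ) - th * V < (u : ℝ) ^ k ∧ (u : ℝ) ^ k ≤ ((F b.1 y : ℤ) : ℝ)} : ℝ) ≤
      p.Q / p.P * psi q * ((1 + eps) * (th * V ^ (1 / (k : ℝ)) / (k * M))) := by
    rintro ⟨A, u0⟩ ⟨hA, -, -⟩
    have hnear : |((F A y : ℤ) : ℝ) - V| ≤ eps / 4 * V :=
      (val_near p hp _ H hr2 hH0 hB A hA y hy.1).trans (by
        have : 0 ≤ eps * V := by positivity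
        linarith)
    obtain ⟨hf1, hf2⟩ := ncard_le_classes M hMpos
      {u : ℤ | 0 < u ∧ (p.P : ℤ) ∣ u - p.w0 ∧ (M : ℤ) ∣ F A y - u ^ k ∧
        ((F A y : ℤ) : ℝ) - th * V < (u : ℝ) ^ k ∧ (u : ℝ) ^ k ≤ ((F A y : ℤ) : ℝ)}
      {r : ℤ | 0 ≤ r ∧ r < (p.W ^ s0 * q : ℕ) ∧ (p.P : ℤ) ∣ r - p.w0 ∧
        ((p.W ^ s0 * q : ℕ) : ℤ) ∣ r ^ k - F A y}
      (fun r => {u : ℤ | 0 < u ∧ (M : ℤ) ∣ u - r ∧
        ((F A y : ℤ) : ℝ) - th * V < (u : ℝ) ^ k ∧ (u : ℝ) ^ k ≤ ((F A y : ℤ) : ℝ)})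
      ((1 + eps) * (th * V ^ (1 / (k : ℝ)) / (k * M)))
      (fun r hr => ⟨hr.1, hr.2.1⟩)
      (fun r => ⟨(hcwq _ hnear r).1, (hcwq _ hnear r).2.2⟩) (by
        rintro u ⟨h1, h2, h3, h4, h5⟩
        have hMz : (0 : ℤ) < M := by exact_mod_cast hMpos
        have hdu : (M : ℤ) ∣ u - u % M := Int.dvd_self_sub_emod
        refine ⟨⟨Int.emod_nonneg _ hMz.ne', Int.emod_lt_of_pos _ hMz, ?_, ?_⟩, h1, hdu, h4, h5⟩
        · have h6 : u % M - p.w0 = (u - p.w0) - (u - u % M) := by ring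
          rw [h6]
          exact dvd_sub h2 (hPM.trans hdu)
        · have h6 : (M : ℤ) ∣ u ^ k - (u % M) ^ k := hdu.trans (sub_dvd_pow_sub_pow u (u % M) k)
          have h7 : (u % M) ^ k - F A y = -((F A y - u ^ k) + (u ^ k - (u % M) ^ k)) := by ring
          show (M : ℤ) ∣ _
          rw [h7]
          exact (dvd_add h3 h6).neg_right)
    refine ⟨hf1, hf2.trans ?_⟩
    have hc0 : 0 ≤ (1 + eps) * (th * V ^ (1 / (k : ℝ)) / (k * M)) := by positivity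
    refine mul_le_mul_of_nonneg_right ?_ hc0
    have hrc := root_classes p.P p.Q p.W k p.w0 hP hWpos hp.hens s0 hQs0 q hqpos hqW (F A y)
    have hps := hpsi.2.2 q hqpos (F A y)
    have hrc' : (Set.ncard {r : ℤ | 0 ≤ r ∧ r < (p.W ^ s0 * q : ℕ) ∧ (p.P : ℤ) ∣ r - p.w0 ∧
        ((p.W ^ s0 * q : ℕ) : ℤ) ∣ r ^ k - F A y} : ℝ) * p.P ≤
        p.Q * (Set.ncard {b : ℤ | 0 ≤ b ∧ b < q ∧ (q : ℤ) ∣ b ^ k - F A y} : ℝ) := by
      exact_mod_cast hrc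
    rw [div_mul_eq_mul_div, le_div_iff₀ hP0]
    exact hrc'.trans (mul_le_mul_of_nonneg_left hps hQ0.le)
  have hmain := card_mul_le_of_inj (p.P2 k r H x y) J (p.P1 k rr H x)
    (P1_finite p (by omega) _ H x)
    (fun b => {u : ℤ | 0 < u ∧ (p.P : ℤ) ∣ u - p.w0 ∧ (M : ℤ) ∣ F b.1 y - u ^ k ∧
        ((F b.1 y : ℤ) : ℝ) - th * V < (u : ℝ) ^ k ∧ (u : ℝ) ^ k ≤ ((F b.1 y : ℤ) : ℝ)})
    (fun b hb => (hfib b hb).1)
    (p.Q / p.P * psi q * ((1 + eps) * (th * V ^ (1 / (k : ℝ)) / (k * M))))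
    (fun b hb => (hfib b hb).2)
    (fun z j => (fun i => z.1 i + t j i, z.2.1)) (fun z => z.2.2) ?_ ?_
    (P2_finite p (by omega) r H x y)
  rotate_left
  · rintro ⟨A, u, u'⟩ ⟨hA, hu, hu', hF, hF'⟩ j hj
    obtain ⟨h1, h2, h3, h4⟩ := ht' j hj
    have hFx : F A x = u ^ k := hF
    have hFy : F A y = u' ^ k := hF'
    have hvalx : F (fun i => A i + t j i) x = u ^ k := by rw [F_add, hFx, h1, add_zero]
    have hvaly : F (fun i => A i + t j i) y = u' ^ k + M * j := by rw [F_add, hFy, h2]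
    refine ⟨⟨⟨fun i => ?_, fun i => ?_⟩, hu, hvalx⟩, hu'.1, hu'.2, ?_, ?_, ?_⟩
    · push_cast
      have h5 := hA.1 i
      have h6 := h4 i
      calc |(A i : ℝ) + (t j i : ℝ) - H * p.AC i| =
          |((A i : ℝ) - H * p.AC i) + (t j i : ℝ)| := by ring_nf
        _ ≤ |(A i : ℝ) - H * p.AC i| + |(t j i : ℝ)| := abs_add_le _ _
        _ ≤ r * H + p.cP * (th / tau) * H := add_le_add h5 h6
        _ = rr * H := by rw [hrr]; ring
    · have h5 := dvd_add (hA.2 i) (h3 i)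
      have h6 : A i - p.A0 i + t j i = A i + t j i - p.A0 i := by ring
      rw [h6] at h5
      exact h5
    · show (M : ℤ) ∣ F (fun i => A i + t j i) y - u' ^ k
      rw [hvaly]
      exact ⟨j, by ring⟩
    · show ((F (fun i => A i + t j i) y : ℤ) : ℝ) - th * V < (u' : ℝ) ^ k
      rw [hvaly]
      push_cast
      have h4 : (j : ℝ) + 1 ≤ th * V / M := by
        have h5 : ((j + 1 : ℕ) : ℝ) ≤ (J : ℝ) := by exact_mod_cast hj
        push_cast at h5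
        exact h5.trans (Nat.floor_le (by positivity))
      rw [le_div_iff₀ hM0] at h4
      nlinarith
    · show (u' : ℝ) ^ k ≤ ((F (fun i => A i + t j i) y : ℤ) : ℝ)
      rw [hvaly]
      push_cast
      have : (0 : ℝ) ≤ M * j := by positivity
      linarith
  · rintro ⟨A, u, u'⟩ ⟨hA, hu, hu', hF, hF'⟩ j hj ⟨A', v, v'⟩ ⟨hA', hv, hv', hG1, hG2⟩ j' hj' h1 h2
    have h2' : u' = v' := h2
    subst h2'
    simp only [Prod.mk.injEq] at h1
    obtain ⟨h1', h3⟩ := h1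
    subst h3
    obtain ⟨-, a1, -, -⟩ := ht' j hj
    obtain ⟨-, a2, -, -⟩ := ht' j' hj'
    have e1 : F (fun i => A i + t j i) y = u' ^ k + M * j := by
      rw [F_add, (hF' : F A y = u' ^ k), a1]
    have e2 : F (fun i => A' i + t j' i) y = u' ^ k + M * j' := by
      rw [F_add, (hG2 : F A' y = u' ^ k), a2]
    rw [h1', e2] at e1
    have hMz : (M : ℤ) ≠ 0 := by exact_mod_cast hMpos.ne'
    have e3 : (j : ℤ) = j' := by
      have : (M : ℤ) * j' = M * j := by linarith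
      exact (mul_left_cancel₀ hMz this).symm
    have e4 : j = j' := by exact_mod_cast e3
    subst e4
    refine ⟨?_, rfl⟩
    have e5 : A = A' := by
      funext i
      have := congrFun h1' i
      simpa using this
    rw [e5]
  -- conclusion
  have hJ1 : th * V / M - 1 ≤ (J : ℝ) := by
    have := Nat.lt_floor_add_one (th * V / M)
    linarith
  have hy' : 10 / eps ≤ th * V / M := by
    rw [le_div_iff₀ hM0]
    rw [div_le_iff₀ (by positivity)] at hV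
    rw [div_mul_eq_mul_div, div_le_iff₀ he]
    nlinarith
  set z : ℝ := th * V / M with hzdef
  have hy1 : 1 ≤ eps / 10 * z := by
    rw [div_le_iff₀ he] at hy'
    linarith
  have hJ2 : (1 - eps / 10) * z ≤ (J : ℝ) := by linarith
  have hz0 : 0 < z := by positivity
  set N : ℝ := ((p.P2 k r H x y).ncard : ℝ) with hN
  set X : ℝ := ((p.P1 k rr H x).ncard : ℝ) with hX
  have hN0 : 0 ≤ N := by positivity
  have hX0 : 0 ≤ X := by positivity
  have hpsi0 : 0 ≤ psi q := hpsi.1 q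
  have h7 : N * ((1 - eps / 10) * z) ≤
      X * (p.Q / p.P * psi q * ((1 + eps) * (th * V ^ (1 / (k : ℝ)) / (k * M)))) :=
    (mul_le_mul_of_nonneg_left hJ2 hN0).trans hmain
  have h8 : (p.Q : ℝ) / p.P * psi q * ((1 + eps) * (th * V ^ (1 / (k : ℝ)) / (k * M))) =
      (1 + eps) * psi q * (z * p.lam k m H) := by
    unfold KPar.lam
    rw [← hVdef, hzdef]
    field_simp
  rw [h8] at h7
  have hlam0 : 0 ≤ p.lam k m H := by
    unfold KPar.lam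
    rw [← hVdef]
    positivity
  have h9 : N * (1 - eps / 10) ≤ (1 + eps) * psi q * p.lam k m H * X := by
    have h10 : (N * (1 - eps / 10)) * z ≤ ((1 + eps) * psi q * p.lam k m H * X) * z := by
      calc (N * (1 - eps / 10)) * z = N * ((1 - eps / 10) * z) := by ring
        _ ≤ X * ((1 + eps) * psi q * (z * p.lam k m H)) := h7
        _ = _ := by ring
    exact le_of_mul_le_mul_right h10 hz0
  have h11 : (1 + eps) ≤ (1 + 4 * eps) * (1 - eps / 10) := by nlinarith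
  have h12 : N * (1 - eps / 10) ≤ ((1 + 4 * eps) * psi q * p.lam k m H * X) * (1 - eps / 10) := by
    calc N * (1 - eps / 10) ≤ (1 + eps) * psi q * p.lam k m H * X := h9
      _ ≤ ((1 + 4 * eps) * (1 - eps / 10)) * psi q * p.lam k m H * X := by gcongr
      _ = _ := by ring
  exact le_of_mul_le_mul_right h12 (by linarith)

end CovHP
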