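import Pool.Agent.Lib.MP_e426f4_ag.K.RootClasses
import Pool.Agent.Lib.MP_dd84fd_nt.DivBound

/-!
# The number of square and cube roots modulo `q` (module K-NU2)
-/

namespace CovHP

open GenHP Finset Filter Topology

/-- `q ∣ u v` implies `q = e f` with `e ∣ u`, `f ∣ v` -/
theorem nu2_split (q : ℕ) (hq : 1 ≤ q) (u v : ℤ) (h : (q : ℤ) ∣ u * v) :
    ∃ e ∈ q.divisors, (e : ℤ) ∣ u ∧ ((q / e : ℕ) : ℤ) ∣ v := by
  obtain ⟨a, b, ha, hb, hab⟩ := exists_dvd_and_dvd_of_dvd_mul h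
  have h1 : q = a.natAbs * b.natAbs := by
    rw [← Int.natAbs_mul, ← hab, Int.natAbs_natCast]
  have ha0 : 0 < a.natAbs := Nat.pos_of_ne_zero fun h => by rw [h, zero_mul] at h1; omega
  refine ⟨a.natAbs, Nat.mem_divisors.mpr ⟨⟨b.natAbs, h1⟩, by omega⟩, ?_, ?_⟩
  · exact Int.natAbs_dvd.mpr ha
  · have h2 : q / a.natAbs = b.natAbs := by
      rw [h1]
      exact Nat.mul_div_cancel_left _ ha0
    rw [h2]
    exact Int.natAbs_dvd.mpr hb

/-- the finset of `b ∈ [0, q)` with `R b` -/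
theorem nu2_sq (q : ℕ) (hq : 1 ≤ q) (v : ℤ) :
    ((Finset.Ico (0 : ℤ) q).filter (fun b => (q : ℤ) ∣ b ^ 2 - v)).card ≤
      q.divisors.card * Nat.sqrt q := by
  classical
  set S := (Finset.Ico (0 : ℤ) q).filter (fun b => (q : ℤ) ∣ b ^ 2 - v) with hS
  rcases S.eq_empty_or_nonempty with h0 | ⟨b0, hb0⟩
  · rw [h0, card_empty]
    exact Nat.zero_le _
  · rw [hS, mem_filter] at hb0
    set T : ℕ → Finset ℤ := fun e => (Finset.Ico (0 : ℤ) q).filter
      (fun b => (e : ℤ) ∣ b - b0 ∧ ((q / e : ℕ) : ℤ) ∣ b + b0) with hT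
    have h1 : S ⊆ q.divisors.biUnion T := by
      intro b hb
      rw [hS, mem_filter] at hb
      have h2 : (q : ℤ) ∣ (b - b0) * (b + b0) := by
        have h3 : (b - b0) * (b + b0) = (b ^ 2 - v) - (b0 ^ 2 - v) := by ring
        rw [h3]
        exact dvd_sub hb.2 hb0.2
      obtain ⟨e, he, h4, h5⟩ := nu2_split q hq _ _ h2
      rw [mem_biUnion]
      refine ⟨e, he, ?_⟩
      rw [hT]
      simp only [mem_filter]
      exact ⟨hb.1, h4, h5⟩
    refine (card_le_card h1).trans ?_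
    apply card_biUnion_le_card_mul
    intro e he
    rw [Nat.mem_divisors] at he
    have he0 : 0 < e := Nat.pos_of_dvd_of_pos he.1 hq
    have hmul : e * (q / e) = q := Nat.mul_div_cancel' he.1
    have hf0 : 0 < q / e := Nat.pos_of_ne_zero fun h => by rw [h, mul_zero] at hmul; omega
    rw [Nat.le_sqrt']
    have hA : (T e).card ≤ q / e := by
      apply nu1_class e (q / e) he0
      · intro a ha
        rw [hT] at ha
        simp only [mem_filter, mem_Ico] at ha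
        refine ⟨ha.1.1, ?_⟩
        have : (e : ℤ) * ((q / e : ℕ) : ℤ) = q := by exact_mod_cast hmul
        rw [this]
        exact ha.1.2
      · intro a ha b hb
        rw [hT] at ha hb
        simp only [mem_filter] at ha hb
        have : a - b = (a - b0) - (b - b0) := by ring
        rw [this]
        exact dvd_sub ha.2.1 hb.2.1
    have hB : (T e).card ≤ e := by
      apply nu1_class (q / e) e hf0
      · intro a ha
        rw [hT] at ha
        simp only [mem_filter, mem_Ico] at ha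
        refine ⟨ha.1.1, ?_⟩
        have : ((q / e : ℕ) : ℤ) * (e : ℤ) = q := by
          rw [mul_comm]; exact_mod_cast hmul
        rw [this]
        exact ha.1.2
      · intro a ha b hb
        rw [hT] at ha hb
        simp only [mem_filter] at ha hb
        have : a - b = (a + b0) - (b + b0) := by ring
        rw [this]
        exact dvd_sub ha.2.2 hb.2.2
    calc (T e).card ^ 2 = (T e).card * (T e).card := sq _
      _ ≤ e * (q / e) := Nat.mul_le_mul hB hA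
      _ = q := hmul

/-- roots of the quadratic form -/
theorem nu2_quad (f : ℕ) (hf : 1 ≤ f) (b0 : ℤ) :
    ((Finset.Ico (0 : ℤ) f).filter (fun b => (f : ℤ) ∣ b ^ 2 + b * b0 + b0 ^ 2)).card ≤
      (2 * f).divisors.card * Nat.sqrt (2 * f) := by
  classical
  refine le_trans ?_ (nu2_sq (2 * f) (by omega) (-3 * b0 ^ 2))
  have h2f : (0 : ℤ) < ((2 * f : ℕ) : ℤ) := by exact_mod_cast (by omega : 0 < 2 * f)
  apply Finset.card_le_card_of_injOn (fun b : ℤ => (2 * b + b0) % ((2 * f : ℕ) : ℤ))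
  · intro b hb
    rw [Finset.mem_coe, mem_filter] at hb
    rw [Finset.mem_coe, mem_filter, mem_Ico]
    refine ⟨⟨Int.emod_nonneg _ h2f.ne', Int.emod_lt_of_pos _ h2f⟩, ?_⟩
    dsimp only
    have h1 : ((2 * b + b0) % ((2 * f : ℕ) : ℤ)) ^ 2 ≡ (2 * b + b0) ^ 2 [ZMOD ((2 * f : ℕ) : ℤ)] :=
      (Int.mod_modEq _ _).pow 2
    have h2 := Int.modEq_iff_dvd.mp h1
    have h3 : ((2 * f : ℕ) : ℤ) ∣ (2 * b + b0) ^ 2 - (-3 * b0 ^ 2) := by
      obtain ⟨c, hc⟩ := hb.2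
      refine ⟨2 * c, ?_⟩
      have h4 : (2 * b + b0) ^ 2 - (-3 * b0 ^ 2) = 4 * (b ^ 2 + b * b0 + b0 ^ 2) := by ring
      rw [h4, hc]
      push_cast
      ring
    have h5 : ((2 * b + b0) % ((2 * f : ℕ) : ℤ)) ^ 2 - (-3 * b0 ^ 2) =
        ((2 * b + b0) ^ 2 - (-3 * b0 ^ 2)) -
          ((2 * b + b0) ^ 2 - ((2 * b + b0) % ((2 * f : ℕ) : ℤ)) ^ 2) := by ring
    rw [h5]
    exact dvd_sub h3 h2
  · intro a ha b hb hab
    rw [Finset.mem_coe, mem_filter, mem_Ico] at ha hb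
    dsimp only at hab
    have h1 : ((2 * f : ℕ) : ℤ) ∣ (2 * b + b0) - (2 * a + b0) := Int.modEq_iff_dvd.mp hab
    have h2 : (f : ℤ) ∣ b - a := by
      obtain ⟨c, hc⟩ := h1
      refine ⟨c, ?_⟩
      push_cast at hc
      have h3 : 2 * (b - a) = 2 * ((f : ℤ) * c) := by linarith
      linarith
    have h3 : a % (f : ℤ) = b % (f : ℤ) := Int.modEq_iff_dvd.mpr h2
    rwa [Int.emod_eq_of_lt ha.1.1 ha.1.2, Int.emod_eq_of_lt hb.1.1 hb.1.2] at h3

/-- the two bounds for the pieces of the set of cube roots -/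
theorem nu2_piece (q e : ℕ) (hq : 1 ≤ q) (he : e ∣ q) (b0 : ℤ) :
    ((Finset.Ico (0 : ℤ) q).filter (fun b => (e : ℤ) ∣ b - b0 ∧
      ((q / e : ℕ) : ℤ) ∣ b ^ 2 + b * b0 + b0 ^ 2)).card ≤
      min (q / e) (e * ((2 * (q / e)).divisors.card * Nat.sqrt (2 * (q / e)))) := by
  classical
  have he0 : 0 < e := Nat.pos_of_dvd_of_pos he hq
  have hmul : e * (q / e) = q := Nat.mul_div_cancel' he
  have hf0 : 0 < q / e := Nat.pos_of_ne_zero fun h => by rw [h, mul_zero] at hmul; omega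
  set f := q / e with hf
  have hf' : (0 : ℤ) < f := by exact_mod_cast hf0
  apply le_min
  · apply nu1_class e f he0
    · intro a ha
      simp only [mem_filter, mem_Ico] at ha
      refine ⟨ha.1.1, ?_⟩
      have : (e : ℤ) * (f : ℤ) = q := by exact_mod_cast hmul
      rw [this]
      exact ha.1.2
    · intro a ha b hb
      simp only [mem_filter] at ha hb
      have : a - b = (a - b0) - (b - b0) := by ring
      rw [this]
      exact dvd_sub ha.2.1 hb.2.1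
  · refine le_trans ?_ (Nat.mul_le_mul_left e (nu2_quad f hf0 b0))
    apply Finset.card_le_mul_card_image_of_maps_to (f := fun b : ℤ => b % (f : ℤ))
    · intro b hb
      simp only [mem_filter, mem_Ico] at hb ⊢
      refine ⟨⟨Int.emod_nonneg _ hf'.ne', Int.emod_lt_of_pos _ hf'⟩, ?_⟩
      have h1 : (b % f) ≡ b [ZMOD f] := Int.mod_modEq _ _
      have h2 : (b % f) ^ 2 + (b % f) * b0 + b0 ^ 2 ≡ b ^ 2 + b * b0 + b0 ^ 2 [ZMOD f] :=
        ((h1.pow 2).add (h1.mul_right _)).add_right _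
      have h3 := Int.modEq_iff_dvd.mp h2
      have h4 : (b % f) ^ 2 + (b % f) * b0 + b0 ^ 2 = (b ^ 2 + b * b0 + b0 ^ 2) -
        ((b ^ 2 + b * b0 + b0 ^ 2) - ((b % f) ^ 2 + (b % f) * b0 + b0 ^ 2)) := by ring
      rw [h4]
      exact dvd_sub hb.2.2 h3
    · intro c _
      apply nu1_class f e hf0
      · intro a ha
        simp only [mem_filter, mem_Ico] at ha
        refine ⟨ha.1.1.1, ?_⟩
        have : (f : ℤ) * (e : ℤ) = q := by
          rw [mul_comm]; exact_mod_cast hmul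
        rw [this]
        exact ha.1.1.2
      · intro a ha b hb
        simp only [mem_filter] at ha hb
        have h1 : a % (f : ℤ) = b % (f : ℤ) := by rw [ha.2, hb.2]
        exact Int.modEq_iff_dvd.mp (Int.ModEq.symm h1)

/-- real form of the divisor bound -/
theorem nu2_tau : ∃ C : ℝ, 1 ≤ C ∧ ∀ m : ℕ, 1 ≤ m →
    (m.divisors.card : ℝ) ≤ C * (m : ℝ) ^ (1 / 100 : ℝ) := by
  obtain ⟨C, hC1, hC⟩ := Pool.Agent.Lib.MP_dd84fd_nt.DivBound.div_bound 100
  have hC1' : (1 : ℝ) ≤ C := by exact_mod_cast hC1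
  refine ⟨C, hC1', fun m hm => ?_⟩
  have hm0 : (0 : ℝ) < m := by exact_mod_cast hm
  have h1 : ((m.divisors.card : ℝ)) ^ (100 : ℕ) ≤ C * m := by exact_mod_cast hC m (by omega)
  have h2 : (C : ℝ) * m ≤ (C * (m : ℝ) ^ (1 / 100 : ℝ)) ^ (100 : ℕ) := by
    rw [mul_pow, ← Real.rpow_natCast ((m : ℝ) ^ (1 / 100 : ℝ)) 100, ← Real.rpow_mul hm0.le]
    have h3 : (1 / 100 : ℝ) * ((100 : ℕ) : ℝ) = 1 := by norm_num
    rw [h3, Real.rpow_one]
    apply mul_le_mul_of_nonneg_right _ hm0.le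
    exact le_self_pow₀ hC1' (by norm_num)
  exact le_of_pow_le_pow_left₀ (by norm_num) (by positivity) (h1.trans h2)

theorem nu2_sqrt (m : ℕ) : (Nat.sqrt m : ℝ) ≤ (m : ℝ) ^ (1 / 2 : ℝ) := by
  rw [← Real.sqrt_eq_rpow]
  exact Real.nat_sqrt_le_real_sqrt

/-- square roots -/
theorem nu2_two : ∃ C : ℝ, 1 ≤ C ∧ ∀ q : ℕ, 1 ≤ q →
    ∀ v : ℤ, (Set.ncard {b : ℤ | 0 ≤ b ∧ b < q ∧ (q : ℤ) ∣ b ^ 2 - v} : ℝ) ≤
      C * (q : ℝ) ^ (7 / 10 : ℝ) := by
  obtain ⟨C, hC1, hC⟩ := nu2_tau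
  refine ⟨C, hC1, fun q hq v => ?_⟩
  have hq1 : (1 : ℝ) ≤ q := by exact_mod_cast hq
  have hq0 : (0 : ℝ) < q := by linarith
  rw [nu1_ncard q (fun b => (q : ℤ) ∣ b ^ 2 - v)]
  calc (((Finset.Ico (0 : ℤ) q).filter (fun b => (q : ℤ) ∣ b ^ 2 - v)).card : ℝ)
      ≤ ((q.divisors.card * Nat.sqrt q : ℕ) : ℝ) := by exact_mod_cast nu2_sq q hq v
    _ = (q.divisors.card : ℝ) * (Nat.sqrt q : ℝ) := by push_cast; ring
    _ ≤ (C * (q : ℝ) ^ (1 / 100 : ℝ)) * (q : ℝ) ^ (1 / 2 : ℝ) := by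
        apply mul_le_mul (hC q hq) (nu2_sqrt q) (Nat.cast_nonneg _) (by positivity)
    _ = C * (q : ℝ) ^ (51 / 100 : ℝ) := by
        rw [mul_assoc, ← Real.rpow_add hq0]
        norm_num
    _ ≤ C * (q : ℝ) ^ (7 / 10 : ℝ) := by
        apply mul_le_mul_of_nonneg_left _ (by linarith)
        exact Real.rpow_le_rpow_of_exponent_le hq1 (by norm_num)

/-- cube roots -/
theorem nu2_three : ∃ C : ℝ, 1 ≤ C ∧ ∀ q : ℕ, 1 ≤ q →
    ∀ v : ℤ, (Set.ncard {b : ℤ | 0 ≤ b ∧ b < q ∧ (q : ℤ) ∣ b ^ 3 - v} : ℝ) ≤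
      C * (q : ℝ) ^ (7 / 10 : ℝ) := by
  classical
  obtain ⟨C, hC1, hC⟩ := nu2_tau
  refine ⟨C * (4 * C), by nlinarith, fun q hq v => ?_⟩
  have hq1 : (1 : ℝ) ≤ q := by exact_mod_cast hq
  have hq0 : (0 : ℝ) < q := by linarith
  rw [nu1_ncard q (fun b => (q : ℤ) ∣ b ^ 3 - v)]
  set S := (Finset.Ico (0 : ℤ) q).filter (fun b => (q : ℤ) ∣ b ^ 3 - v) with hS
  rcases S.eq_empty_or_nonempty with h0 | ⟨b0, hb0⟩
  · rw [h0, card_empty, Nat.cast_zero]
    positivity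
  · rw [hS, mem_filter] at hb0
    set T : ℕ → Finset ℤ := fun e => (Finset.Ico (0 : ℤ) q).filter
      (fun b => (e : ℤ) ∣ b - b0 ∧ ((q / e : ℕ) : ℤ) ∣ b ^ 2 + b * b0 + b0 ^ 2) with hT
    have h1 : S ⊆ q.divisors.biUnion T := by
      intro b hb
      rw [hS, mem_filter] at hb
      have h2 : (q : ℤ) ∣ (b - b0) * (b ^ 2 + b * b0 + b0 ^ 2) := by
        have h3 : (b - b0) * (b ^ 2 + b * b0 + b0 ^ 2) = (b ^ 3 - v) - (b0 ^ 3 - v) := by ring
        rw [h3]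
        exact dvd_sub hb.2 hb0.2
      obtain ⟨e, he, h4, h5⟩ := nu2_split q hq _ _ h2
      rw [mem_biUnion]
      refine ⟨e, he, ?_⟩
      rw [hT]
      simp only [mem_filter]
      exact ⟨hb.1, h4, h5⟩
    have h2 : ∀ e ∈ q.divisors, ((T e).card : ℝ) ≤ 4 * C * (q : ℝ) ^ (203 / 300 : ℝ) := by
      intro e he
      rw [Nat.mem_divisors] at he
      have he0 : 0 < e := Nat.pos_of_dvd_of_pos he.1 hq
      have hmul : e * (q / e) = q := Nat.mul_div_cancel' he.1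
      have hf0 : 0 < q / e := Nat.pos_of_ne_zero fun h => by rw [h, mul_zero] at hmul; omega
      have h3 := nu2_piece q e hq he.1 b0
      have h3a := h3.trans (min_le_left _ _)
      have h3b := h3.trans (min_le_right _ _)
      set f := q / e with hf
      have hf1 : (1 : ℝ) ≤ f := by exact_mod_cast hf0
      have hff0 : (0 : ℝ) < f := by linarith
      have hfq : (f : ℝ) ≤ q := by
        have : f ≤ q := by rw [← hmul]; exact Nat.le_mul_of_pos_left f he0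
        exact_mod_cast this
      have hmulR : (e : ℝ) * f = q := by exact_mod_cast hmul
      by_cases hcase : (f : ℝ) ≤ (q : ℝ) ^ (2 / 3 : ℝ)
      · calc ((T e).card : ℝ) ≤ f := by exact_mod_cast h3a
          _ ≤ (q : ℝ) ^ (2 / 3 : ℝ) := hcase
          _ ≤ (q : ℝ) ^ (203 / 300 : ℝ) := Real.rpow_le_rpow_of_exponent_le hq1 (by norm_num)
          _ ≤ 4 * C * (q : ℝ) ^ (203 / 300 : ℝ) := by
              have : (0 : ℝ) ≤ (q : ℝ) ^ (203 / 300 : ℝ) := by positivity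
              nlinarith
      · rw [not_le] at hcase
        have hT1 : ((T e).card : ℝ) ≤
            e * (((2 * f).divisors.card : ℝ) * (Nat.sqrt (2 * f) : ℝ)) := by
          exact_mod_cast h3b
        have hT2 : ((2 * f).divisors.card : ℝ) ≤ 2 * C * (q : ℝ) ^ (1 / 100 : ℝ) := by
          calc ((2 * f).divisors.card : ℝ) ≤ C * ((2 * f : ℕ) : ℝ) ^ (1 / 100 : ℝ) :=
                hC (2 * f) (by omega)
            _ = C * ((2 : ℝ) ^ (1 / 100 : ℝ) * (f : ℝ) ^ (1 / 100 : ℝ)) := by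
                rw [Nat.cast_mul, Real.mul_rpow (by norm_num) hff0.le]
                norm_num
            _ ≤ C * (2 * (q : ℝ) ^ (1 / 100 : ℝ)) := by
                apply mul_le_mul_of_nonneg_left _ (by linarith)
                apply mul_le_mul _ _ (by positivity) (by norm_num)
                · calc (2 : ℝ) ^ (1 / 100 : ℝ) ≤ (2 : ℝ) ^ (1 : ℝ) :=
                        Real.rpow_le_rpow_of_exponent_le (by norm_num) (by norm_num)
                    _ = 2 := Real.rpow_one 2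
                · exact Real.rpow_le_rpow hff0.le hfq (by norm_num)
            _ = 2 * C * (q : ℝ) ^ (1 / 100 : ℝ) := by ring
        have hT3 : (Nat.sqrt (2 * f) : ℝ) ≤ 2 * (f : ℝ) ^ (1 / 2 : ℝ) := by
          calc (Nat.sqrt (2 * f) : ℝ) ≤ ((2 * f : ℕ) : ℝ) ^ (1 / 2 : ℝ) := nu2_sqrt _
            _ = (2 : ℝ) ^ (1 / 2 : ℝ) * (f : ℝ) ^ (1 / 2 : ℝ) := by
                rw [Nat.cast_mul, Real.mul_rpow (by norm_num) hff0.le]
                norm_num
            _ ≤ 2 * (f : ℝ) ^ (1 / 2 : ℝ) := by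
                apply mul_le_mul_of_nonneg_right _ (by positivity)
                calc (2 : ℝ) ^ (1 / 2 : ℝ) ≤ (2 : ℝ) ^ (1 : ℝ) :=
                      Real.rpow_le_rpow_of_exponent_le (by norm_num) (by norm_num)
                  _ = 2 := Real.rpow_one 2
        have hT4 : (e : ℝ) * (f : ℝ) ^ (1 / 2 : ℝ) ≤ (q : ℝ) ^ (2 / 3 : ℝ) := by
          have h4 : (q : ℝ) ^ (1 / 3 : ℝ) ≤ (f : ℝ) ^ (1 / 2 : ℝ) := by
            calc (q : ℝ) ^ (1 / 3 : ℝ) = ((q : ℝ) ^ (2 / 3 : ℝ)) ^ (1 / 2 : ℝ) := by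
                  rw [← Real.rpow_mul hq0.le]; norm_num
              _ ≤ (f : ℝ) ^ (1 / 2 : ℝ) :=
                  Real.rpow_le_rpow (by positivity) hcase.le (by norm_num)
          have h5 : (f : ℝ) ^ (1 / 2 : ℝ) * (f : ℝ) ^ (1 / 2 : ℝ) = f := by
            rw [← Real.rpow_add hff0]; norm_num
          have h6 : (q : ℝ) ^ (1 / 3 : ℝ) * ((e : ℝ) * (f : ℝ) ^ (1 / 2 : ℝ)) ≤
              (q : ℝ) ^ (1 / 3 : ℝ) * (q : ℝ) ^ (2 / 3 : ℝ) := by
            calc (q : ℝ) ^ (1 / 3 : ℝ) * ((e : ℝ) * (f : ℝ) ^ (1 / 2 : ℝ))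
                ≤ (f : ℝ) ^ (1 / 2 : ℝ) * ((e : ℝ) * (f : ℝ) ^ (1 / 2 : ℝ)) :=
                  mul_le_mul_of_nonneg_right h4 (by positivity)
              _ = (e : ℝ) * ((f : ℝ) ^ (1 / 2 : ℝ) * (f : ℝ) ^ (1 / 2 : ℝ)) := by ring
              _ = q := by rw [h5, hmulR]
              _ = (q : ℝ) ^ (1 / 3 : ℝ) * (q : ℝ) ^ (2 / 3 : ℝ) := by
                  rw [← Real.rpow_add hq0]; norm_num
          exact le_of_mul_le_mul_left h6 (by positivity)
        calc ((T e).card : ℝ) ≤ e * (((2 * f).divisors.card : ℝ) * (Nat.sqrt (2 * f) : ℝ)) := hT1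
          _ ≤ e * ((2 * C * (q : ℝ) ^ (1 / 100 : ℝ)) * (2 * (f : ℝ) ^ (1 / 2 : ℝ))) := by
              apply mul_le_mul_of_nonneg_left _ (Nat.cast_nonneg _)
              exact mul_le_mul hT2 hT3 (Nat.cast_nonneg _) (by positivity)
          _ = 4 * C * (q : ℝ) ^ (1 / 100 : ℝ) * ((e : ℝ) * (f : ℝ) ^ (1 / 2 : ℝ)) := by ring
          _ ≤ 4 * C * (q : ℝ) ^ (1 / 100 : ℝ) * (q : ℝ) ^ (2 / 3 : ℝ) :=
              mul_le_mul_of_nonneg_left hT4 (by positivity)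
          _ = 4 * C * (q : ℝ) ^ (203 / 300 : ℝ) := by
              rw [mul_assoc, ← Real.rpow_add hq0]
              norm_num
    have h3 : ((q.divisors.biUnion T).card : ℝ) ≤
        (q.divisors.card : ℝ) * (4 * C * (q : ℝ) ^ (203 / 300 : ℝ)) := by
      calc ((q.divisors.biUnion T).card : ℝ) ≤ ((∑ e ∈ q.divisors, (T e).card : ℕ) : ℝ) := by
            exact_mod_cast card_biUnion_le
        _ = ∑ e ∈ q.divisors, ((T e).card : ℝ) := by push_cast; rfl
        _ ≤ ∑ e ∈ q.divisors, 4 * C * (q : ℝ) ^ (203 / 300 : ℝ) := sum_le_sum h2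
        _ = (q.divisors.card : ℝ) * (4 * C * (q : ℝ) ^ (203 / 300 : ℝ)) := by
            rw [sum_const, nsmul_eq_mul]
    calc (S.card : ℝ) ≤ ((q.divisors.biUnion T).card : ℝ) := by exact_mod_cast card_le_card h1
      _ ≤ (q.divisors.card : ℝ) * (4 * C * (q : ℝ) ^ (203 / 300 : ℝ)) := h3
      _ ≤ (C * (q : ℝ) ^ (1 / 100 : ℝ)) * (4 * C * (q : ℝ) ^ (203 / 300 : ℝ)) :=
          mul_le_mul_of_nonneg_right (hC q hq) (by positivity)
      _ = C * (4 * C) * ((q : ℝ) ^ (1 / 100 : ℝ) * (q : ℝ) ^ (203 / 300 : ℝ)) := by ring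
      _ = C * (4 * C) * (q : ℝ) ^ (206 / 300 : ℝ) := by
          rw [← Real.rpow_add hq0]
          norm_num
      _ ≤ C * (4 * C) * (q : ℝ) ^ (7 / 10 : ℝ) := by
          apply mul_le_mul_of_nonneg_left _ (by positivity)
          exact Real.rpow_le_rpow_of_exponent_le hq1 (by norm_num)

theorem root_bound (k : ℕ) (hk : 2 ≤ k) (hk3 : k ≤ 3) : ∃ C : ℝ, 1 ≤ C ∧ ∀ q : ℕ, 1 ≤ q →
    ∀ v : ℤ, (Set.ncard {b : ℤ | 0 ≤ b ∧ b < q ∧ (q : ℤ) ∣ b ^ k - v} : ℝ) ≤
      C * (q : ℝ) ^ (7 / 10 : ℝ) := by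
  interval_cases k
  · exact nu2_two
  · exact nu2_three

end CovHP
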