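import Pool.Agent.Lib.MP_e426f4_ag.K.Crude
import Pool.Agent.Lib.MP_e426f4_ag.K.CardW
import Pool.Agent.Lib.MP_e426f4_ag.K.Psi
import Pool.Agent.Lib.MP_e426f4_ag.C.SumPhi

/-! Cyclic covers: bad pairs of points, `n = 2`. -/

namespace CovHP

open GenHP Finset Filter Topology

private theorem sb2_sum_neg (N : ℕ) :
    ∑ m ∈ Icc 1 N, (m : ℝ) ^ (-(3 / 10) : ℝ) ≤ 10 / 7 * (N : ℝ) ^ (7 / 10 : ℝ) := by
  induction N with
  | zero => simp
  | succ N ih =>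
    rw [Finset.sum_Icc_succ_top (by omega)]
    have h0 : (0 : ℝ) < (N : ℝ) + 1 := by positivity
    have h1 : (1 + (-(1 / ((N : ℝ) + 1)))) ^ (7 / 10 : ℝ) ≤
        1 + (7 / 10) * (-(1 / ((N : ℝ) + 1))) := by
      apply rpow_one_add_le_one_add_mul_self _ (by norm_num) (by norm_num)
      have : 1 / ((N : ℝ) + 1) ≤ 1 := by
        rw [div_le_one h0]
        have : (0 : ℝ) ≤ N := Nat.cast_nonneg _
        linarith
      linarith
    have h2 : (N : ℝ) ^ (7 / 10 : ℝ) = ((N : ℝ) + 1) ^ (7 / 10 : ℝ) *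
        (1 + (-(1 / ((N : ℝ) + 1)))) ^ (7 / 10 : ℝ) := by
      rw [← Real.mul_rpow h0.le]
      · congr 1
        field_simp
        ring
      · have : 1 / ((N : ℝ) + 1) ≤ 1 := by
          rw [div_le_one h0]
          have : (0 : ℝ) ≤ N := Nat.cast_nonneg _
          linarith
        linarith
    have h3 : ((N : ℝ) + 1) ^ (7 / 10 : ℝ) = ((N : ℝ) + 1) * ((N : ℝ) + 1) ^ (-(3 / 10) : ℝ) := by
      rw [← Real.rpow_one_add' h0.le (by norm_num)]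
      norm_num
    have h4 : 0 < ((N : ℝ) + 1) ^ (-(3 / 10) : ℝ) := Real.rpow_pos_of_pos h0 _
    push_cast
    have h5 : (N : ℝ) ^ (7 / 10 : ℝ) ≤ ((N : ℝ) + 1) ^ (7 / 10 : ℝ) -
        7 / 10 * ((N : ℝ) + 1) ^ (-(3 / 10) : ℝ) := by
      rw [h2]
      calc ((N : ℝ) + 1) ^ (7 / 10 : ℝ) * (1 + (-(1 / ((N : ℝ) + 1)))) ^ (7 / 10 : ℝ)
          ≤ ((N : ℝ) + 1) ^ (7 / 10 : ℝ) * (1 + (7 / 10) * (-(1 / ((N : ℝ) + 1)))) :=
            mul_le_mul_of_nonneg_left h1 (Real.rpow_nonneg h0.le _)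
        _ = ((N : ℝ) + 1) ^ (7 / 10 : ℝ) -
            7 / 10 * (((N : ℝ) + 1) ^ (7 / 10 : ℝ) / ((N : ℝ) + 1)) := by ring
        _ = _ := by
            have h6 : ((N : ℝ) + 1) ^ (7 / 10 : ℝ) / ((N : ℝ) + 1) =
                ((N : ℝ) + 1) ^ (-(3 / 10) : ℝ) := by
              rw [div_eq_iff h0.ne', h3]
              ring
            rw [h6]
    linarith

private theorem sb2_summable : Summable fun m : ℕ => (m : ℝ) ^ (-(13 / 10) : ℝ) :=
  Real.summable_nat_rpow.mpr (by norm_num)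

private theorem sb2_bound : ∃ S : ℝ, 0 ≤ S ∧ ∀ N : ℕ,
    ∑ m ∈ Icc 1 N, (m : ℝ) ^ (-(13 / 10) : ℝ) ≤ S :=
  ⟨∑' m : ℕ, (m : ℝ) ^ (-(13 / 10) : ℝ), tsum_nonneg fun m => by positivity, fun N =>
    sb2_summable.sum_le_tsum _ fun m _ => by positivity⟩

private theorem sb2_tail (e : ℝ) (he : 0 < e) : ∃ G : ℕ, 1 ≤ G ∧ ∀ N : ℕ,
    ∑ m ∈ (Icc 1 N).filter (fun m => G < m), (m : ℝ) ^ (-(13 / 10) : ℝ) ≤ e := by
  have h := (summable_iff_vanishing_norm.mp sb2_summable) e he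
  obtain ⟨s, hs⟩ := h
  obtain ⟨G, hG⟩ : ∃ G : ℕ, ∀ m ∈ s, m ≤ G := ⟨s.sup id, fun m hm => Finset.le_sup (f := id) hm⟩
  refine ⟨G + 1, by omega, fun N => ?_⟩
  have h1 := hs ((Icc 1 N).filter (fun m => G + 1 < m)) (by
    rw [Finset.disjoint_left]
    intro m hm hms
    have := hG m hms
    have := (Finset.mem_filter.mp hm).2
    omega)
  exact (le_abs_self _).trans h1.le

open Classical in
/-- bad pairs, numerical part -/
private theorem sb2_sum {d : ℕ} (p : KPar 2 d) {k m w : ℕ} {eps bet : ℝ}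
    (hp : p.Valid k m eps bet w) (K : ℝ) (hK : 1 ≤ K) (Cs : ℝ)
    (hsum : ∀ (K : ℝ), 1 ≤ K → ∀ B : ℕ, 1 ≤ B →
      ∀ x : Fin 3 → ℤ, Prim x → (∀ i, |(x i : ℝ)| ≤ 2 * B) →
      ∀ i0 : Fin 3, (B : ℝ) / 2 ≤ |(x i0 : ℝ)| → Good K B x →
      ∀ tau : ℝ, 0 < tau → tau ≤ 9 → ∀ phi : ℕ → ℝ, (∀ m, 0 ≤ phi m) →
      ∑ y ∈ (boxn 2 (2 * B)).filter (fun y => 0 < dl x y ∧ (dl x y : ℝ) < tau * (B : ℝ) ^ 2),
        phi (mg x y) / dl x y ≤
        Cs * K ^ 2 * tau * B * ∑ m ∈ Icc 1 ⌊Cs * K * (B : ℝ) ^ 2⌋₊, phi m / (m : ℝ) ^ 2)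
    (G : ℕ) (tau : ℝ) (ht : 0 < tau) (ht1 : tau ≤ 1) (B : ℕ) (hB : 1 ≤ B)
    (x : Fin 3 → ℤ) (hx : x ∈ p.GG K B) (phi : ℕ → ℝ) (hphi : ∀ m, 0 ≤ phi m) :
    ∑ y ∈ (GG_finite p K B).toFinset with x ≠ y ∧ BadPr G tau B x y,
      phi (mg x y) / dl x y ≤
      Cs * K ^ 2 * B * (9 * ∑ m ∈ (Icc 1 ⌊Cs * K * (B : ℝ) ^ 2⌋₊).filter (fun m => G < m),
        phi m / (m : ℝ) ^ 2 +
        tau * ∑ m ∈ Icc 1 ⌊Cs * K * (B : ℝ) ^ 2⌋₊, phi m / (m : ℝ) ^ 2) := by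
  have hB0 : (0 : ℝ) < B := by exact_mod_cast hB
  obtain ⟨i0, hi0⟩ := hp.xi_eq
  have hb := fun (z : Fin 3 → ℤ) (hz : z ∈ p.GG K B) => mem_XX_bounds p hp B z hz.1
  have hx2 : ∀ i, |(x i : ℝ)| ≤ 2 * B := fun i => (hb x hx i).1
  have hxi := (hb x hx i0).2 hi0
  have h9 := hsum K hK B hB x hx.2.1 hx2 i0 hxi hx.2.2 9 (by norm_num) le_rfl
    (fun m => if G < m then phi m else 0) (fun m => by
      show 0 ≤ if G < m then phi m else 0
      split_ifs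
      · exact hphi m
      · exact le_rfl)
  have ht9 := hsum K hK B hB x hx.2.1 hx2 i0 hxi hx.2.2 tau ht (by linarith) phi hphi
  have e9 : ∑ m ∈ Icc 1 ⌊Cs * K * (B : ℝ) ^ 2⌋₊, (if G < m then phi m else 0) / (m : ℝ) ^ 2 =
      ∑ m ∈ (Icc 1 ⌊Cs * K * (B : ℝ) ^ 2⌋₊).filter (fun m => G < m), phi m / (m : ℝ) ^ 2 := by
    rw [Finset.sum_filter]
    refine Finset.sum_congr rfl fun m _ => ?_
    split_ifs
    · rfl
    · rw [zero_div]
  rw [e9] at h9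
  have hsub : ∑ y ∈ (GG_finite p K B).toFinset with x ≠ y ∧ BadPr G tau B x y,
      phi (mg x y) / dl x y ≤
      ∑ y ∈ (boxn 2 (2 * B)).filter (fun y => 0 < dl x y ∧ (dl x y : ℝ) < 9 * (B : ℝ) ^ 2),
        (if G < mg x y then phi (mg x y) else 0) / dl x y +
      ∑ y ∈ (boxn 2 (2 * B)).filter (fun y => 0 < dl x y ∧ (dl x y : ℝ) < tau * (B : ℝ) ^ 2),
        phi (mg x y) / dl x y := by
    have e1 : ∑ y ∈ (boxn 2 (2 * B)).filter
        (fun y => 0 < dl x y ∧ (dl x y : ℝ) < 9 * (B : ℝ) ^ 2),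
        (if G < mg x y then phi (mg x y) else 0) / (dl x y : ℝ) =
        ∑ y ∈ (boxn 2 (2 * B)).filter
        (fun y => (0 < dl x y ∧ (dl x y : ℝ) < 9 * (B : ℝ) ^ 2) ∧ G < mg x y),
        phi (mg x y) / (dl x y : ℝ) := by
      rw [← Finset.filter_filter (fun y => 0 < dl x y ∧ (dl x y : ℝ) < 9 * (B : ℝ) ^ 2)
        (fun y => G < mg x y), Finset.sum_filter (p := fun y => G < mg x y)]
      refine Finset.sum_congr rfl fun y _ => ?_
      split_ifs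
      · rfl
      · rw [zero_div]
    rw [e1]
    refine (Finset.sum_le_sum_of_subset_of_nonneg (t := ((boxn 2 (2 * B)).filter
        (fun y => (0 < dl x y ∧ (dl x y : ℝ) < 9 * (B : ℝ) ^ 2) ∧ G < mg x y)) ∪
        ((boxn 2 (2 * B)).filter
          (fun y => 0 < dl x y ∧ (dl x y : ℝ) < tau * (B : ℝ) ^ 2))) ?_ ?_).trans
      ?_
    · intro y hy
      rw [Finset.mem_filter, Set.Finite.mem_toFinset] at hy
      obtain ⟨hyG, hne, hbad⟩ := hy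
      have hyb : y ∈ boxn 2 (2 * B) := by
        rw [mem_boxn]
        intro j
        have := (hb y hyG j).1
        exact_mod_cast this
      have hd0 := dl_pos_of_mem_GG p hp K B hB x y hx hyG hne
      have hd8 := dl_le_of_mem_XX p hp B x y hx.1 hyG.1
      have hd9 : (dl x y : ℝ) < 9 * (B : ℝ) ^ 2 := by
        have : 0 < (B : ℝ) ^ 2 := by positivity
        linarith
      rw [Finset.mem_union, Finset.mem_filter, Finset.mem_filter]
      rcases hbad with h | h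
      · exact Or.inl ⟨hyb, ⟨hd0, hd9⟩, h⟩
      · exact Or.inr ⟨hyb, hd0, h⟩
    · intro y _ _
      exact div_nonneg (hphi _) (Nat.cast_nonneg _)
    · rw [← Finset.sum_union_inter]
      have : 0 ≤ ∑ y ∈ ((boxn 2 (2 * B)).filter
        (fun y => (0 < dl x y ∧ (dl x y : ℝ) < 9 * (B : ℝ) ^ 2) ∧ G < mg x y)) ∩
        ((boxn 2 (2 * B)).filter
          (fun y => 0 < dl x y ∧ (dl x y : ℝ) < tau * (B : ℝ) ^ 2)),
          phi (mg x y) / (dl x y : ℝ) :=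
        Finset.sum_nonneg fun y _ => div_nonneg (hphi _) (Nat.cast_nonneg _)
      linarith
  refine hsub.trans ((add_le_add h9 ht9).trans (le_of_eq ?_))
  ring

open Classical in
theorem S2_bad2 {d : ℕ} (p : KPar 2 d) {k m w : ℕ} {eps bet : ℝ} (hp : p.Valid k m eps bet w)
    (K : ℝ) (hK : 1 ≤ K) :
    ∃ (G : ℕ) (tau : ℝ), 1 ≤ G ∧ 0 < tau ∧ tau ≤ 1 ∧ ∀ᶠ H : ℝ in atTop,
      ∑ x ∈ (GG_finite p K (Bk 2 k m H)).toFinset,
        ∑ y ∈ (GG_finite p K (Bk 2 k m H)).toFinset with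
          x ≠ y ∧ BadPr G tau (Bk 2 k m H) x y, ((p.P2 k p.rho H x y).ncard : ℝ) ≤
        eps * p.TT k m H ^ 2 * p.XR p.rho H := by
  obtain ⟨psi, hpsiB, hpsiOK⟩ := exists_psi 2 k m le_rfl hp.k_ge hp.m_ge hp.fano
  rcases hpsiOK with ⟨h3, _⟩ | ⟨_, C1, hC1, hpsi⟩
  · omega
  obtain ⟨Cc, hCc, hcr⟩ := P2_crude p hp K hK
  have hcw := card_w2 p hp psi hpsiB K
  obtain ⟨Cs, hCs, hsum⟩ := ConicHP.sum_phi
  obtain ⟨S, hS0, hS⟩ := sb2_bound
  have heps := hp.eps_pos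
  have hvi : 0 < p.vi := hp.bet_pos.trans_le hp.vi_ge
  have hkap := hp.kap_pos
  have hrho := hp.rho_pos
  have hQ : (0 : ℝ) < p.Q := by exact_mod_cast hp.Q_pos
  have hP : (0 : ℝ) < p.P := by exact_mod_cast hp.P_pos
  have hk0 : (0 : ℝ) < k := by have := hp.k_ge; exact_mod_cast (by omega : 0 < k)
  have hd : 1 ≤ d := by
    rw [hp.d_eq]
    exact Nat.mul_pos (by have := hp.k_ge; omega) hp.m_ge
  obtain ⟨c3, hc3⟩ : ∃ c3 : ℝ, c3 = (2 * p.kap / p.Q) ^ 6 * (p.Q / (p.P * k)) ^ 2 *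
    (2 * p.rho / p.Q) ^ NN 2 d / p.vi ^ 2 := ⟨_, rfl⟩
  have hc30 : 0 < c3 := by rw [hc3]; positivity
  obtain ⟨X, hX⟩ : ∃ X : ℝ, X = Cc * 125 * Cs * K ^ 2 := ⟨_, rfl⟩
  have hX0 : 0 < X := by rw [hX]; positivity
  obtain ⟨e, he⟩ : ∃ e : ℝ, e = c3 * eps / (144 * X * C1) := ⟨_, rfl⟩
  have he0 : 0 < e := by rw [he]; positivity
  obtain ⟨G, hG, hGt⟩ := sb2_tail e he0
  obtain ⟨tau, htau⟩ : ∃ tau : ℝ, tau = min 1 (c3 * eps / (4 * X * (4 * C1 * S + 1))) := ⟨_, rfl⟩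
  have htau0 : 0 < tau := by rw [htau]; exact lt_min one_pos (by positivity)
  have htau1 : tau ≤ 1 := by rw [htau]; exact min_le_left _ _
  have htau2 : tau * (X * (4 * C1 * S + 1)) ≤ c3 * eps / 4 := by
    have h1 : tau ≤ c3 * eps / (4 * X * (4 * C1 * S + 1)) := by rw [htau]; exact min_le_right _ _
    calc tau * (X * (4 * C1 * S + 1))
        ≤ c3 * eps / (4 * X * (4 * C1 * S + 1)) * (X * (4 * C1 * S + 1)) :=
          mul_le_mul_of_nonneg_right h1 (by positivity)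
      _ = c3 * eps / 4 := by field_simp
  obtain ⟨e2, he2⟩ : ∃ e2 : ℝ, e2 = min 1 (c3 * eps / (36 * X)) := ⟨_, rfl⟩
  have he20 : 0 < e2 := by rw [he2]; exact lt_min one_pos (by positivity)
  have he21 : e2 ≤ 1 := by rw [he2]; exact min_le_left _ _
  have he22 : X * (9 * e2) ≤ c3 * eps / 4 := by
    have h1 : e2 ≤ c3 * eps / (36 * X) := by rw [he2]; exact min_le_right _ _
    calc X * (9 * e2) ≤ X * (9 * (c3 * eps / (36 * X))) := by gcongr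
      _ = c3 * eps / 4 := by field_simp; ring
  refine ⟨G, tau, hG, htau0, htau1, ?_⟩
  have hBt : Tendsto (fun H : ℝ => Bk 2 k m H) atTop atTop :=
    Bk_atTop le_rfl hp.k_ge hp.m_ge hp.fano
  have hroot := root_large p hp (2 * C1 * (10 / 7) * (Cs * K) ^ (7 / 10 : ℝ) / e2)
  filter_upwards [hcr, hcw, hroot, VV_pos p hp, hBt.eventually_ge_atTop 1,
    eventually_ge_atTop (1 : ℝ)] with H hcrH hcwH hrt hVV hB hH
  obtain ⟨B, hBdef⟩ : ∃ B : ℕ, B = Bk 2 k m H := ⟨_, rfl⟩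
  rw [← hBdef] at hcrH hcwH hrt hB ⊢
  obtain ⟨R, hR⟩ : ∃ R : ℝ, R = p.VV k m H ^ (1 / (k : ℝ)) := ⟨_, rfl⟩
  rw [← hR] at hcwH hrt
  have hR0 : 0 < R := by rw [hR]; exact Real.rpow_pos_of_pos hVV _
  have hB0 : (0 : ℝ) < B := by exact_mod_cast hB
  have hB1 : (1 : ℝ) ≤ B := by exact_mod_cast hB
  have hH0 : 0 < H := by linarith
  have hpsi0 := hpsiB.1
  have hpsile : ∀ q : ℕ, 1 ≤ q → psi q ≤ C1 * (q : ℝ) ^ (7 / 10 : ℝ) := by
    intro q hq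
    rw [hpsi q]
    split_ifs with h
    · subst h
      simpa using hC1
    · exact le_rfl
  obtain ⟨phi, hphi⟩ : ∃ phi : ℕ → ℝ, phi = fun q : ℕ => 2 * R * (2 * R + q) * psi q := ⟨_, rfl⟩
  have hphi0 : ∀ q, 0 ≤ phi q := by
    intro q
    rw [hphi]
    have := hpsi0 q
    positivity
  -- the numerical sums
  have hphile : ∀ q : ℕ, 1 ≤ q → phi q / (q : ℝ) ^ 2 ≤
      4 * R ^ 2 * C1 * (q : ℝ) ^ (-(13 / 10) : ℝ) + 2 * R * C1 * (q : ℝ) ^ (-(3 / 10) : ℝ) := by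
    intro q hq
    have hq0 : (0 : ℝ) < q := by exact_mod_cast hq
    have e1 : (q : ℝ) ^ (-(13 / 10) : ℝ) = (q : ℝ) ^ (7 / 10 : ℝ) / (q : ℝ) ^ 2 := by
      rw [← Real.rpow_natCast (q : ℝ) 2, ← Real.rpow_sub hq0]
      norm_num
    have e2 : (q : ℝ) ^ (-(3 / 10) : ℝ) = (q : ℝ) ^ (7 / 10 : ℝ) / q := by
      rw [eq_div_iff hq0.ne', ← Real.rpow_add_one hq0.ne']
      norm_num
    rw [e1, e2, hphi]
    calc 2 * R * (2 * R + q) * psi q / (q : ℝ) ^ 2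
        ≤ 2 * R * (2 * R + q) * (C1 * (q : ℝ) ^ (7 / 10 : ℝ)) / (q : ℝ) ^ 2 := by
          have := hpsile q hq
          gcongr
      _ = _ := by field_simp; ring
  obtain ⟨M, hM⟩ : ∃ M : ℕ, M = ⌊Cs * K * (B : ℝ) ^ 2⌋₊ := ⟨_, rfl⟩
  have hMle : (M : ℝ) ≤ Cs * K * (B : ℝ) ^ 2 := by
    rw [hM]; exact Nat.floor_le (by positivity)
  have hMr : 2 * R * C1 * ∑ q ∈ Icc 1 M, (q : ℝ) ^ (-(3 / 10) : ℝ) ≤ e2 * R ^ 2 := by
    have h1 := sb2_sum_neg M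
    have h2 : (M : ℝ) ^ (7 / 10 : ℝ) ≤ (Cs * K) ^ (7 / 10 : ℝ) * (B : ℝ) ^ (7 / 5 : ℝ) := by
      calc (M : ℝ) ^ (7 / 10 : ℝ) ≤ (Cs * K * (B : ℝ) ^ 2) ^ (7 / 10 : ℝ) :=
            Real.rpow_le_rpow (Nat.cast_nonneg _) hMle (by norm_num)
        _ = _ := by
            rw [Real.mul_rpow (by positivity) (by positivity), ← Real.rpow_natCast (B : ℝ) 2,
              ← Real.rpow_mul hB0.le]
            norm_num
    have h3 : 2 * C1 * (10 / 7) * (Cs * K) ^ (7 / 10 : ℝ) * (B : ℝ) ^ (7 / 5 : ℝ) ≤ e2 * R := by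
      have := hrt
      rw [div_mul_eq_mul_div, div_le_iff₀ he20] at this
      linarith
    calc 2 * R * C1 * ∑ q ∈ Icc 1 M, (q : ℝ) ^ (-(3 / 10) : ℝ)
        ≤ 2 * R * C1 * (10 / 7 * ((Cs * K) ^ (7 / 10 : ℝ) * (B : ℝ) ^ (7 / 5 : ℝ))) := by
          gcongr
          exact h1.trans (by gcongr)
      _ = R * (2 * C1 * (10 / 7) * (Cs * K) ^ (7 / 10 : ℝ) * (B : ℝ) ^ (7 / 5 : ℝ)) := by ring
      _ ≤ R * (e2 * R) := by gcongr
      _ = _ := by ring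
  have hsum1 : ∑ q ∈ Icc 1 M, phi q / (q : ℝ) ^ 2 ≤ (4 * C1 * S + e2) * R ^ 2 := by
    calc ∑ q ∈ Icc 1 M, phi q / (q : ℝ) ^ 2
        ≤ ∑ q ∈ Icc 1 M, (4 * R ^ 2 * C1 * (q : ℝ) ^ (-(13 / 10) : ℝ) +
            2 * R * C1 * (q : ℝ) ^ (-(3 / 10) : ℝ)) :=
          Finset.sum_le_sum fun q hq => hphile q (Finset.mem_Icc.mp hq).1
      _ = 4 * R ^ 2 * C1 * ∑ q ∈ Icc 1 M, (q : ℝ) ^ (-(13 / 10) : ℝ) +
            2 * R * C1 * ∑ q ∈ Icc 1 M, (q : ℝ) ^ (-(3 / 10) : ℝ) := by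
          rw [Finset.sum_add_distrib, Finset.mul_sum, Finset.mul_sum]
      _ ≤ 4 * R ^ 2 * C1 * S + e2 * R ^ 2 := by
          refine add_le_add ?_ hMr
          have := hS M
          gcongr
      _ = _ := by ring
  have hsumG : ∑ q ∈ (Icc 1 M).filter (fun q => G < q), phi q / (q : ℝ) ^ 2 ≤
      (4 * C1 * e + e2) * R ^ 2 := by
    calc ∑ q ∈ (Icc 1 M).filter (fun q => G < q), phi q / (q : ℝ) ^ 2
        ≤ ∑ q ∈ (Icc 1 M).filter (fun q => G < q), (4 * R ^ 2 * C1 * (q : ℝ) ^ (-(13 / 10) : ℝ) +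
            2 * R * C1 * (q : ℝ) ^ (-(3 / 10) : ℝ)) :=
          Finset.sum_le_sum fun q hq =>
            hphile q (Finset.mem_Icc.mp (Finset.mem_filter.mp hq).1).1
      _ = 4 * R ^ 2 * C1 * ∑ q ∈ (Icc 1 M).filter (fun q => G < q), (q : ℝ) ^ (-(13 / 10) : ℝ) +
            2 * R * C1 * ∑ q ∈ (Icc 1 M).filter (fun q => G < q), (q : ℝ) ^ (-(3 / 10) : ℝ) := by
          rw [Finset.sum_add_distrib, Finset.mul_sum, Finset.mul_sum]
      _ ≤ 4 * R ^ 2 * C1 * e + e2 * R ^ 2 := by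
          refine add_le_add ?_ (le_trans ?_ hMr)
          · have := hGt M
            gcongr
          · gcongr
            exact Finset.filter_subset _ _
      _ = _ := by ring
  -- single terms
  have hterm : ∀ x ∈ p.GG K B, ∀ y ∈ p.GG K B, x ≠ y →
      ((p.P2 k p.rho H x y).ncard : ℝ) ≤
        Cc * H ^ NN 2 d / (H ^ 2 * (B : ℝ) ^ (2 * d - 2)) * (phi (mg x y) / dl x y) := by
    intro x hx y hy hxy
    have hd0 := dl_pos_of_mem_GG p hp K B hB x y hx hy hxy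
    have hm0 := mg_pos_of_dl_pos x y hd0
    have hd0' : (0 : ℝ) < dl x y := by exact_mod_cast hd0
    have hm0' : (0 : ℝ) < mg x y := by exact_mod_cast hm0
    calc ((p.P2 k p.rho H x y).ncard : ℝ)
        ≤ ((Prod.snd '' p.P2 k p.rho H x y).ncard : ℝ) *
            (Cc * H ^ NN 2 d * mg x y / (H ^ 2 * (B : ℝ) ^ (2 * d - 2) * dl x y)) :=
          hcrH x hx y hy hxy
      _ ≤ (2 * R * (2 * R / mg x y + 1) * psi (mg x y)) *
            (Cc * H ^ NN 2 d * mg x y / (H ^ 2 * (B : ℝ) ^ (2 * d - 2) * dl x y)) :=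
          mul_le_mul_of_nonneg_right (hcwH x hx y hy hm0) (by positivity)
      _ = _ := by
          rw [hphi]
          field_simp
  -- number of points
  have hcard : (((GG_finite p K B).toFinset).card : ℝ) ≤ 125 * (B : ℝ) ^ 3 := by
    have h1 : (GG_finite p K B).toFinset ⊆ boxn 2 (2 * B) := by
      intro y hy
      rw [Set.Finite.mem_toFinset] at hy
      rw [mem_boxn]
      intro j
      have := (mem_XX_bounds p hp B y hy.1 j).1
      exact_mod_cast this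
    have h2 := Finset.card_le_card h1
    rw [card_boxn] at h2
    have h3 : (((GG_finite p K B).toFinset).card : ℝ) ≤ ((2 * (2 * B) + 1) ^ (2 + 1) : ℕ) := by
      exact_mod_cast h2
    refine h3.trans ?_
    push_cast
    calc (2 * (2 * (B : ℝ)) + 1) ^ (2 + 1) ≤ (5 * (B : ℝ)) ^ (2 + 1) := by
          gcongr
          linarith
      _ = 125 * (B : ℝ) ^ 3 := by ring
  -- inner sums
  have hinner : ∀ x ∈ (GG_finite p K B).toFinset,
      ∑ y ∈ (GG_finite p K B).toFinset with x ≠ y ∧ BadPr G tau B x y,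
        ((p.P2 k p.rho H x y).ncard : ℝ) ≤
      Cc * H ^ NN 2 d / (H ^ 2 * (B : ℝ) ^ (2 * d - 2)) *
        (Cs * K ^ 2 * B * (9 * ((4 * C1 * e + e2) * R ^ 2) +
          tau * ((4 * C1 * S + e2) * R ^ 2))) := by
    intro x hx
    rw [Set.Finite.mem_toFinset] at hx
    have h1 := sb2_sum p hp K hK Cs hsum G tau htau0 htau1 B hB x hx phi hphi0
    rw [← hM] at h1
    calc ∑ y ∈ (GG_finite p K B).toFinset with x ≠ y ∧ BadPr G tau B x y,
        ((p.P2 k p.rho H x y).ncard : ℝ)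
        ≤ ∑ y ∈ (GG_finite p K B).toFinset with x ≠ y ∧ BadPr G tau B x y,
          Cc * H ^ NN 2 d / (H ^ 2 * (B : ℝ) ^ (2 * d - 2)) * (phi (mg x y) / dl x y) := by
          refine Finset.sum_le_sum fun y hy => ?_
          rw [Finset.mem_filter, Set.Finite.mem_toFinset] at hy
          exact hterm x hx y hy.1 hy.2.1
      _ = Cc * H ^ NN 2 d / (H ^ 2 * (B : ℝ) ^ (2 * d - 2)) *
          ∑ y ∈ (GG_finite p K B).toFinset with x ≠ y ∧ BadPr G tau B x y,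
            phi (mg x y) / dl x y := by rw [Finset.mul_sum]
      _ ≤ _ := by
          refine mul_le_mul_of_nonneg_left (h1.trans ?_) (by positivity)
          gcongr
  have hpow : (B : ℝ) ^ (2 * d - 2) * (B : ℝ) ^ 2 = (B : ℝ) ^ (2 * d) := by
    rw [← pow_add]
    congr 1
    omega
  have hTT : p.TT k m H ^ 2 * p.XR p.rho H =
      c3 * (R ^ 2 * (B : ℝ) ^ 6 * H ^ NN 2 d / (H ^ 2 * (B : ℝ) ^ (2 * d))) := by
    unfold KPar.TT KPar.NX KPar.lam KPar.XR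
    rw [← hBdef, ← hR, hc3]
    have hVVeq : p.VV k m H = H * (B : ℝ) ^ d * p.vi := by unfold KPar.VV; rw [← hBdef]
    rw [hVVeq]
    have e1 : (2 * p.rho * H / (p.Q : ℝ)) ^ NN 2 d = (2 * p.rho / p.Q) ^ NN 2 d * H ^ NN 2 d := by
      rw [← mul_pow]
      congr 1
      ring
    have e2 : (B : ℝ) ^ (2 * d) = ((B : ℝ) ^ d) ^ 2 := by rw [← pow_mul, mul_comm]
    rw [e1, e2, show (2 + 1 : ℕ) = 3 from rfl]
    field_simp
  calc ∑ x ∈ (GG_finite p K B).toFinset,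
        ∑ y ∈ (GG_finite p K B).toFinset with x ≠ y ∧ BadPr G tau B x y,
          ((p.P2 k p.rho H x y).ncard : ℝ)
      ≤ ∑ _x ∈ (GG_finite p K B).toFinset,
        Cc * H ^ NN 2 d / (H ^ 2 * (B : ℝ) ^ (2 * d - 2)) *
        (Cs * K ^ 2 * B * (9 * ((4 * C1 * e + e2) * R ^ 2) +
          tau * ((4 * C1 * S + e2) * R ^ 2))) := Finset.sum_le_sum hinner
    _ = (((GG_finite p K B).toFinset).card : ℝ) *
        (Cc * H ^ NN 2 d / (H ^ 2 * (B : ℝ) ^ (2 * d - 2)) *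
        (Cs * K ^ 2 * B * (9 * ((4 * C1 * e + e2) * R ^ 2) +
          tau * ((4 * C1 * S + e2) * R ^ 2)))) := by
        rw [Finset.sum_const, nsmul_eq_mul]
    _ ≤ (125 * (B : ℝ) ^ 3) *
        (Cc * H ^ NN 2 d / (H ^ 2 * (B : ℝ) ^ (2 * d - 2)) *
        (Cs * K ^ 2 * B * (9 * ((4 * C1 * e + e2) * R ^ 2) +
          tau * ((4 * C1 * S + e2) * R ^ 2)))) := by
        apply mul_le_mul_of_nonneg_right hcard
        positivity
    _ = (X * (9 * (4 * C1 * e + e2)) + tau * (X * (4 * C1 * S + e2))) *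
        (R ^ 2 * (B : ℝ) ^ 6 * H ^ NN 2 d / (H ^ 2 * (B : ℝ) ^ (2 * d))) := by
        rw [hX, ← hpow]
        field_simp
    _ ≤ (eps * c3) * (R ^ 2 * (B : ℝ) ^ 6 * H ^ NN 2 d / (H ^ 2 * (B : ℝ) ^ (2 * d))) := by
        apply mul_le_mul_of_nonneg_right _ (by positivity)
        have h1 : X * (9 * (4 * C1 * e)) = c3 * eps / 4 := by
          rw [he]
          field_simp
          ring
        have h2 : tau * (X * (4 * C1 * S + e2)) ≤ tau * (X * (4 * C1 * S + 1)) := by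
          gcongr
        have h3 : 0 < c3 * eps := by positivity
        nlinarith
    _ = eps * p.TT k m H ^ 2 * p.XR p.rho H := by
        rw [mul_assoc eps (p.TT k m H ^ 2), hTT]
        ring

end CovHP
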