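import Pool.Agent.Lib.MP_e426f4_ag.K.Basic
import Pool.Agent.Lib.MP_e426f4_ag.K.Heights
import Pool.Agent.Lib.MP_e426f4_ag.K.Points
import Pool.Agent.Lib.MP_e426f4_ag.K.Crude
import Pool.Agent.Lib.MP_e426f4_ag.K.CardW
import Pool.Agent.Lib.MP_e426f4_ag.G.SumBad

/-! Module K-SB3: bad pairs of points, `n ≥ 3`. -/

namespace CovHP

open GenHP Finset Filter Topology

variable {n d : ℕ}

open Classical in
theorem S2_bad3 (p : KPar n d) {k m w : ℕ} {eps bet : ℝ} (hp : p.Valid k m eps bet w)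
    (hn : 3 ≤ n) (K : ℝ) (hK : 1 ≤ K) :
    ∃ (G : ℕ) (tau : ℝ), 1 ≤ G ∧ 0 < tau ∧ tau ≤ 1 ∧ ∀ᶠ H : ℝ in atTop,
      ∑ x ∈ (GG_finite p K (Bk n k m H)).toFinset,
        ∑ y ∈ (GG_finite p K (Bk n k m H)).toFinset with
          x ≠ y ∧ BadPr G tau (Bk n k m H) x y, ((p.P2 k p.rho H x y).ncard : ℝ) ≤
        eps * p.TT k m H ^ 2 * p.XR p.rho H := by
  have hQ : (0 : ℝ) < p.Q := by exact_mod_cast hp.Q_pos
  have hP : (0 : ℝ) < p.P := by exact_mod_cast hp.P_pos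
  have hk2 := hp.k_ge
  have hm1 := hp.m_ge
  have hkr : (0 : ℝ) < k := by exact_mod_cast (by omega : 0 < k)
  have hvi : 0 < p.vi := lt_of_lt_of_le hp.bet_pos hp.vi_ge
  have hkap := hp.kap_pos
  have hrho := hp.rho_pos
  have heps := hp.eps_pos
  have hd2 : 2 ≤ d := by
    rw [hp.d_eq]
    calc 2 ≤ k * 1 := by omega
      _ ≤ k * m := Nat.mul_le_mul_left k hm1
  obtain ⟨Cs, hCs, hsum⟩ := sum_bad n hn
  obtain ⟨Cc, hCc, hcr⟩ := P2_crude p hp K hK
  have hw3 := card_w3 p hp K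
  -- the constants
  set cA : ℝ := (2 * p.kap / p.Q) ^ (2 * (n + 1)) * (p.Q / (p.P * k)) ^ 2 *
    (2 * p.rho / p.Q) ^ NN n d with hcA
  have hcA0 : 0 < cA := by positivity
  set C1 : ℝ := 4 * Cc * Cs * K ^ n * 5 ^ (n + 1) * p.vi ^ 2 with hC1
  have hC10 : 0 < C1 := by positivity
  set δ : ℝ := eps * cA / (2 * C1) with hδ
  have hδpos : 0 < δ := by positivity
  obtain ⟨G0, hG0⟩ := exists_nat_gt (1 / δ)
  set tau : ℝ := min 1 δ with htau
  have htpos : 0 < tau := lt_min one_pos hδpos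
  have ht1 : tau ≤ 1 := min_le_left _ _
  have hG0pos : (0 : ℝ) < G0 := lt_trans (by positivity) hG0
  have hG1 : 1 ≤ G0 := by
    have : 0 < G0 := by exact_mod_cast hG0pos
    exact this
  refine ⟨G0, tau, hG1, htpos, ht1, ?_⟩
  have hkey : C1 * (1 / G0 + tau) ≤ eps * cA := by
    have e1 : 1 / (G0 : ℝ) ≤ δ := by
      rw [div_le_iff₀ hG0pos]
      rw [div_lt_iff₀ hδpos] at hG0
      linarith
    have e2 : tau ≤ δ := min_le_right _ _
    calc C1 * (1 / G0 + tau) ≤ C1 * (δ + δ) :=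
          mul_le_mul_of_nonneg_left (add_le_add e1 e2) hC10.le
      _ = eps * cA := by rw [hδ]; field_simp; ring
  filter_upwards [hcr, hw3, (Bk_atTop hp.n_ge hk2 hm1 hp.fano).eventually_ge_atTop 1,
    VV_pos p hp, eventually_gt_atTop 0] with H hcr hw3 hB hV hH0
  set B : ℕ := Bk n k m H with hBdef
  have hB1 : (1 : ℝ) ≤ B := by exact_mod_cast hB
  have hB0 : (0 : ℝ) < B := by linarith
  set V : ℝ := p.VV k m H with hVdef
  set R : ℝ := V ^ (1 / (k : ℝ)) with hR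
  have hR0 : 0 < R := Real.rpow_pos_of_pos hV _
  obtain ⟨i0, hi0⟩ := hp.xi_eq
  set GF : Finset (Fin (n + 1) → ℤ) := (GG_finite p K B).toFinset with hGF
  have hmem : ∀ x, x ∈ GF ↔ x ∈ p.GG K B := fun x => by rw [hGF, Set.Finite.mem_toFinset]
  have hxb : ∀ x ∈ p.GG K B, ∀ i, |(x i : ℝ)| ≤ 2 * B := fun x hx i =>
    (mem_XX_bounds p hp B x hx.1 i).1
  have hbox : ∀ x ∈ p.GG K B, x ∈ boxn n (2 * B) := by
    intro x hx
    rw [mem_boxn]
    intro i
    have := hxb x hx i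
    exact_mod_cast this
  set cst : ℝ := 4 * R ^ 2 * (Cc * H ^ NN n d / (H ^ 2 * (B : ℝ) ^ (2 * d - 2))) with hcst
  have hcst0 : 0 ≤ cst := by positivity
  have hGFc : (GF.card : ℝ) ≤ 5 ^ (n + 1) * (B : ℝ) ^ (n + 1) := by
    have h3 : GF ⊆ boxn n (2 * B) := fun x hx => hbox x ((hmem x).mp hx)
    have h4 : GF.card ≤ (4 * B + 1) ^ (n + 1) := by
      refine (Finset.card_le_card h3).trans ?_
      rw [card_boxn]
      apply le_of_eq
      ring
    have h5 : (GF.card : ℝ) ≤ (4 * (B : ℝ) + 1) ^ (n + 1) := by exact_mod_cast h4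
    refine h5.trans ?_
    calc (4 * (B : ℝ) + 1) ^ (n + 1) ≤ (5 * (B : ℝ)) ^ (n + 1) := by
          apply pow_le_pow_left₀ (by positivity); linarith
      _ = 5 ^ (n + 1) * (B : ℝ) ^ (n + 1) := by rw [mul_pow]
  have hterm : ∀ x ∈ GF, ∀ y ∈ GF, x ≠ y → ((p.P2 k p.rho H x y).ncard : ℝ) ≤
      cst * ((mg x y : ℝ) / dl x y) := by
    intro x hx y hy hxy
    have h1 := hcr x ((hmem x).mp hx) y ((hmem y).mp hy) hxy
    have h2 := hw3 x ((hmem x).mp hx) y ((hmem y).mp hy)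
    refine h1.trans ?_
    calc ((Prod.snd '' p.P2 k p.rho H x y).ncard : ℝ) *
          (Cc * H ^ NN n d * mg x y / (H ^ 2 * (B : ℝ) ^ (2 * d - 2) * dl x y))
        ≤ (4 * R ^ 2) *
          (Cc * H ^ NN n d * mg x y / (H ^ 2 * (B : ℝ) ^ (2 * d - 2) * dl x y)) :=
          mul_le_mul_of_nonneg_right h2 (by positivity)
      _ = cst * ((mg x y : ℝ) / dl x y) := by
          rw [hcst]
          have hBd : (B : ℝ) ^ (2 * d - 2) ≠ 0 := by positivity
          by_cases hdl : (dl x y : ℝ) = 0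
          · rw [hdl]; simp
          · field_simp
  have hin : ∀ x ∈ GF, ∑ y ∈ GF with x ≠ y ∧ BadPr G0 tau B x y,
      ((p.P2 k p.rho H x y).ncard : ℝ) ≤
      cst * (Cs * K ^ n * (1 / G0 + tau) * (B : ℝ) ^ (n - 1)) := by
    intro x hx
    have hx' := (hmem x).mp hx
    have hsb := hsum K hK B hB x hx'.2.1 (hxb _ hx') i0
      ((mem_XX_bounds p hp B _ hx'.1 i0).2 hi0) hx'.2.2 G0 hG1 tau htpos ht1
    calc ∑ y ∈ GF with x ≠ y ∧ BadPr G0 tau B x y, ((p.P2 k p.rho H x y).ncard : ℝ)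
        ≤ ∑ y ∈ GF with x ≠ y ∧ BadPr G0 tau B x y, cst * ((mg x y : ℝ) / dl x y) := by
          refine Finset.sum_le_sum fun y hy => ?_
          rw [Finset.mem_filter] at hy
          exact hterm x hx y hy.1 hy.2.1
      _ ≤ ∑ y ∈ (boxn n (2 * B)).filter
          (fun y => 0 < dl x y ∧ (G0 < mg x y ∨ (dl x y : ℝ) < tau * (B : ℝ) ^ 2)),
          cst * ((mg x y : ℝ) / dl x y) := by
          refine Finset.sum_le_sum_of_subset_of_nonneg ?_ fun _ _ _ => by positivity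
          intro y hy
          rw [Finset.mem_filter] at hy ⊢
          have hy' := (hmem y).mp hy.1
          exact ⟨hbox y hy', dl_pos_of_mem_GG p hp K B hB x y hx' hy' hy.2.1, hy.2.2⟩
      _ = cst * ∑ y ∈ (boxn n (2 * B)).filter
          (fun y => 0 < dl x y ∧ (G0 < mg x y ∨ (dl x y : ℝ) < tau * (B : ℝ) ^ 2)),
          ((mg x y : ℝ) / dl x y) := by rw [Finset.mul_sum]
      _ ≤ _ := mul_le_mul_of_nonneg_left hsb hcst0
  calc ∑ x ∈ GF, ∑ y ∈ GF with x ≠ y ∧ BadPr G0 tau B x y, ((p.P2 k p.rho H x y).ncard : ℝ)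
      ≤ ∑ _x ∈ GF, cst * (Cs * K ^ n * (1 / G0 + tau) * (B : ℝ) ^ (n - 1)) :=
        Finset.sum_le_sum hin
    _ = (GF.card : ℝ) * (cst * (Cs * K ^ n * (1 / G0 + tau) * (B : ℝ) ^ (n - 1))) := by
        rw [Finset.sum_const, nsmul_eq_mul]
    _ ≤ (5 ^ (n + 1) * (B : ℝ) ^ (n + 1)) *
          (cst * (Cs * K ^ n * (1 / G0 + tau) * (B : ℝ) ^ (n - 1))) :=
        mul_le_mul_of_nonneg_right hGFc (by positivity)
    _ = C1 * (1 / G0 + tau) * (H ^ NN n d * (R / V) ^ 2 * (B : ℝ) ^ (2 * (n + 1))) := by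
        have hVe : V = H * (B : ℝ) ^ d * p.vi := rfl
        have e1 : (B : ℝ) ^ (n + 1) * (B : ℝ) ^ (n - 1) * (B : ℝ) ^ 2 =
            (B : ℝ) ^ (2 * (n + 1)) := by
          rw [← pow_add, ← pow_add]
          congr 1
          omega
        have e2 : (B : ℝ) ^ (2 * d - 2) * (B : ℝ) ^ 2 = ((B : ℝ) ^ d) ^ 2 := by
          rw [← pow_add, ← pow_mul]
          congr 1
          omega
        have e3 : (B : ℝ) ^ (2 * d - 2) = ((B : ℝ) ^ d) ^ 2 / (B : ℝ) ^ 2 := by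
          rw [← e2]
          field_simp
        rw [hcst, hC1, hVe, ← e1, e3]
        field_simp
    _ ≤ (eps * cA) * (H ^ NN n d * (R / V) ^ 2 * (B : ℝ) ^ (2 * (n + 1))) :=
        mul_le_mul_of_nonneg_right hkey (by positivity)
    _ = eps * p.TT k m H ^ 2 * p.XR p.rho H := by
        have e1 : p.TT k m H = (2 * p.kap / p.Q) ^ (n + 1) * (B : ℝ) ^ (n + 1) *
            ((p.Q / (p.P * k)) * (R / V)) := by
          rw [KPar.TT, KPar.NX, KPar.lam, ← hVdef, ← hBdef, ← mul_pow]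
          congr 2
          ring
        have e2 : p.XR p.rho H = (2 * p.rho / p.Q) ^ NN n d * H ^ NN n d := by
          rw [KPar.XR, ← mul_pow]
          congr 1
          ring
        rw [hcA, e1, e2, pow_mul' _ 2 (n + 1), pow_mul' _ 2 (n + 1)]
        ring

end CovHP
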