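import Pool.Agent.Lib.MP_e426f4_ag.K.Basic
import Pool.Agent.Lib.MP_e426f4_ag.K.Heights
import Pool.Agent.Lib.MP_e426f4_ag.K.CardCl
import Pool.Agent.Lib.MP_e426f4_ag.K.CountX
import Pool.Agent.Lib.MP_e426f4_ag.K.First
import Pool.Agent.Lib.MP_e426f4_ag.K.PairMain
import Pool.Agent.Lib.MP_e426f4_ag.G.Minors

/-! Second moment, main pairs, for cyclic covers. -/

namespace CovHP

open GenHP Finset Filter Topology

/-- `q = 1` or `q > w` -/
private theorem K2_coprime {n d : ℕ} (p : KPar n d) {k m w : ℕ} {eps bet : ℝ}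
    (hp : p.Valid k m eps bet w) (q : ℕ) (hq0 : 0 < q) (hq : Nat.Coprime q p.W) (h1 : q ≠ 1) :
    w + 1 ≤ q := by
  have hqp := Nat.minFac_prime h1
  have hdv := Nat.minFac_dvd q
  have h2 : ¬ (q.minFac ∣ p.W) := fun h => by
    have := Nat.dvd_gcd hdv h
    rw [hq] at this
    exact hqp.one_lt.ne' (Nat.dvd_one.1 this)
  rw [hp.W_primes _ hqp] at h2
  have := Nat.le_of_dvd hq0 hdv
  omega

private theorem K2_sum {n d : ℕ} (p : KPar n d) {k m w : ℕ} {eps bet : ℝ}
    (hp : p.Valid k m eps bet w) (psi : ℕ → ℝ) (hpsi : PsiBound k psi) (E : ℝ)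
    (hE : ∀ N : ℕ, ∑ q ∈ Icc (w + 1) N, psi q / (q : ℝ) ^ n ≤ E) (G : ℕ) :
    ∑ q ∈ (Icc 1 G).filter (fun q => Nat.Coprime q p.W), psi q / (q : ℝ) ^ n ≤ 1 + E := by
  have hw := hp.w_two
  have hsub : (Icc 1 G).filter (fun q => Nat.Coprime q p.W) ⊆ insert 1 (Icc (w + 1) G) := by
    intro q hq
    rw [Finset.mem_filter, Finset.mem_Icc] at hq
    rw [Finset.mem_insert, Finset.mem_Icc]
    by_cases h1 : q = 1
    · exact Or.inl h1
    · exact Or.inr ⟨K2_coprime p hp q (by omega) hq.2 h1, hq.1.2⟩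
  refine (Finset.sum_le_sum_of_subset_of_nonneg hsub fun q _ _ =>
    div_nonneg (hpsi.1 q) (by positivity)).trans ?_
  rw [Finset.sum_insert (by rw [Finset.mem_Icc]; omega)]
  have h1 := hE G
  have h2 : psi 1 / ((1 : ℕ) : ℝ) ^ n ≤ 1 := by
    simpa using hpsi.2.1
  linarith

private theorem K2_num (e v : ℝ) (he : 0 < e) (he1 : e ≤ 1 / 10) (hv : 0 ≤ v) :
    (1 + 4 * e) * (1 + e) * (1 + v) * (1 + 8 * e) * (1 + e) ≤ 1 + 40 * e + 5 * v := by
  have h1 : (1 + 4 * e) * (1 + e) * (1 + 8 * e) * (1 + e) ≤ 1 + 40 * e := by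
    have e2 : e ^ 2 ≤ 1 / 10 * e := by nlinarith
    have e3 : e ^ 3 ≤ 1 / 100 * e := by nlinarith
    have e4 : e ^ 4 ≤ 1 / 1000 * e := by nlinarith
    nlinarith
  have h2 : 1 + 40 * e ≤ 5 := by linarith
  calc (1 + 4 * e) * (1 + e) * (1 + v) * (1 + 8 * e) * (1 + e) =
      (1 + 4 * e) * (1 + e) * (1 + 8 * e) * (1 + e) +
        ((1 + 4 * e) * (1 + e) * (1 + 8 * e) * (1 + e)) * v := by ring
    _ ≤ (1 + 40 * e) + 5 * v := by
        refine add_le_add h1 (mul_le_mul_of_nonneg_right (h1.trans h2) hv)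

open Classical in
theorem S2_main {n d : ℕ} (p : KPar n d) {k m w : ℕ} {eps bet : ℝ} (hp : p.Valid k m eps bet w)
    (psi : ℕ → ℝ) (hpsi : PsiBound k psi) (E : ℝ)
    (hE : ∀ N : ℕ, ∑ q ∈ Icc (w + 1) N, psi q / (q : ℝ) ^ n ≤ E)
    (K : ℝ) (hK : 1 ≤ K) (G : ℕ) (hG : 1 ≤ G) (tau : ℝ) (ht : 0 < tau) (ht1 : tau ≤ 1) :
    ∀ᶠ H : ℝ in atTop,
      ∑ x ∈ (GG_finite p K (Bk n k m H)).toFinset,
        ∑ y ∈ (GG_finite p K (Bk n k m H)).toFinset with
          ¬ BadPr G tau (Bk n k m H) x y, ((p.P2 k p.rho H x y).ncard : ℝ) ≤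
        (1 + 40 * eps + 5 * E) * p.TT k m H ^ 2 * p.XR p.rho H := by
  have he := hp.eps_pos
  have he1 := hp.eps_le
  have hrho := hp.rho_pos
  have hvi : 0 < p.vi := hp.bet_pos.trans_le hp.vi_ge
  have hcP : 0 < p.cP := by
    unfold KPar.cP
    positivity
  have hE0 : 0 ≤ E := by
    have := hE 0
    simpa using this
  obtain ⟨e0, he0, he0h, hup, hlo⟩ := exists_radius (NN n d) eps he (by linarith)
  obtain ⟨th, hth, hth1, hth2⟩ : ∃ th : ℝ, 0 < th ∧ th ≤ eps / 8 ∧
      p.cP * (th / tau) ≤ e0 * p.rho := by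
    refine ⟨min (eps / 8) (e0 * p.rho * tau / p.cP), lt_min (by positivity) (by positivity),
      min_le_left _ _, ?_⟩
    have := min_le_right (eps / 8) (e0 * p.rho * tau / p.cP)
    calc p.cP * (min (eps / 8) (e0 * p.rho * tau / p.cP) / tau) ≤
          p.cP * ((e0 * p.rho * tau / p.cP) / tau) := by
          gcongr
      _ = e0 * p.rho := by field_simp
  set r1 : ℝ := p.rho + p.cP * (th / tau) with hr1
  have hr1a : p.rho ≤ r1 := by
    have : 0 ≤ p.cP * (th / tau) := by positivity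
    linarith
  have hr1b : r1 ≤ (1 + e0) * p.rho := by linarith
  have hr1c : r1 ≤ 3 / 2 * p.rho := by
    have := mul_le_mul_of_nonneg_right he0h hrho.le
    linarith
  have hr1p : 0 < r1 := hrho.trans_le hr1a
  set QQ : Finset ℕ := (Icc 1 G).filter (fun q => Nat.Coprime q p.W) with hQQ
  obtain ⟨B0, hB0⟩ : ∃ B0 : ℕ, ∀ q ∈ QQ, ∀ B : ℕ, B0 ≤ B → ∀ c : Fin (n + 1) → ℤ,
      (Set.ncard {x : Fin (n + 1) → ℤ | x ∈ p.XX B ∧ ∀ i, (q : ℤ) ∣ x i - c i} : ℝ) ≤
        (1 + eps) * (p.NX B / (q : ℝ) ^ (n + 1)) := by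
    have h1 : ∀ q : ℕ, ∃ B0 : ℕ, q ∈ QQ → ∀ B : ℕ, B0 ≤ B → ∀ c : Fin (n + 1) → ℤ,
      (Set.ncard {x : Fin (n + 1) → ℤ | x ∈ p.XX B ∧ ∀ i, (q : ℤ) ∣ x i - c i} : ℝ) ≤
        (1 + eps) * (p.NX B / (q : ℝ) ^ (n + 1)) := by
      intro q
      by_cases hq : q ∈ QQ
      · have hq' := hq
        rw [hQQ, Finset.mem_filter, Finset.mem_Icc] at hq'
        obtain ⟨B0, h⟩ := XX_upper p hp q (by omega) hq'.2 eps he
        exact ⟨B0, fun _ => h⟩
      · exact ⟨0, fun h => absurd h hq⟩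
    choose f hf using h1
    exact ⟨QQ.sup f, fun q hq B hB => hf q hq B ((Finset.le_sup hq).trans hB)⟩
  filter_upwards [pair_main p hp psi hpsi K hK G hG tau ht ht1 th hth hth1 p.rho hrho.le
      (by linarith), S1_upper p hp K hK r1 hr1a hr1c, VV_pos p hp,
    (Bk_atTop hp.n_ge hp.k_ge hp.m_ge hp.fano).eventually_ge_atTop (max B0 1),
    eventually_ge_atTop (1 : ℝ)] with H hPM hS1 hVV hB hH1
  have hH : 0 ≤ H := by linarith
  have hBB0 : B0 ≤ Bk n k m H := (le_max_left _ _).trans hB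
  have hBB1 : 1 ≤ Bk n k m H := (le_max_right _ _).trans hB
  set B := Bk n k m H with hBdef
  have hBpos : (0 : ℝ) < B := by exact_mod_cast hBB1
  have hlam : 0 ≤ p.lam k m H := by
    unfold KPar.lam
    positivity
  have hNX : 0 ≤ p.NX B := by
    have := hp.kap_pos
    unfold KPar.NX
    positivity
  set GF := (GG_finite p K B).toFinset with hGF
  -- count of `y` for one `q`
  have hcount : ∀ x ∈ GF, ∀ q ∈ QQ, ((GF.filter (fun y => q ∣ mg x y)).card : ℝ) ≤
      (1 + eps) * (p.NX B / (q : ℝ) ^ n) := by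
    intro x hx q hq
    rw [hGF, Set.Finite.mem_toFinset] at hx
    have hq' := hq
    rw [hQQ, Finset.mem_filter, Finset.mem_Icc] at hq'
    have hq0 : 0 < q := by omega
    set Sl : ℕ → Finset (Fin (n + 1) → ℤ) := fun l => (XX_finite p B).toFinset.filter
      (fun y => ∀ i, (q : ℤ) ∣ y i - (l : ℤ) * x i) with hSl
    have hcov : GF.filter (fun y => q ∣ mg x y) ⊆ (Finset.range q).biUnion Sl := by
      intro y hy
      rw [Finset.mem_filter, hGF, Set.Finite.mem_toFinset] at hy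
      obtain ⟨l, hl⟩ := exists_mod_of_dvd_mg x y hx.2.1 q hy.2
      rw [Finset.mem_biUnion]
      have hq0' : (0 : ℤ) < q := by exact_mod_cast hq0
      have h1 := Int.emod_nonneg l hq0'.ne'
      have h2 := Int.emod_lt_of_pos l hq0'
      refine ⟨(l % q).toNat, ?_, ?_⟩
      · rw [Finset.mem_range]
        omega
      · rw [hSl]
        simp only [Finset.mem_filter, Set.Finite.mem_toFinset]
        refine ⟨hy.1.1, fun i => ?_⟩
        rw [Int.toNat_of_nonneg h1]
        have h3 : (q : ℤ) ∣ l - l % q := Int.dvd_self_sub_emod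
        have h4 : y i - l % q * x i = (y i - l * x i) + (l - l % q) * x i := by ring
        rw [h4]
        exact dvd_add (hl i) (h3.mul_right _)
    have hcard : ∀ l ∈ Finset.range q, ((Sl l).card : ℝ) ≤
        (1 + eps) * (p.NX B / (q : ℝ) ^ (n + 1)) := by
      intro l _
      have h1 := hB0 q hq B hBB0 (fun i => (l : ℤ) * x i)
      refine le_trans (le_of_eq ?_) h1
      rw [← Set.ncard_coe_finset]
      congr 2
      ext y
      simp only [hSl, Finset.coe_filter, Set.mem_ofPred_eq, Set.Finite.mem_toFinset]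
    calc ((GF.filter (fun y => q ∣ mg x y)).card : ℝ) ≤
        (((Finset.range q).biUnion Sl).card : ℝ) := by exact_mod_cast Finset.card_le_card hcov
      _ ≤ ∑ l ∈ Finset.range q, ((Sl l).card : ℝ) := by
        have := Finset.card_biUnion_le (s := Finset.range q) (t := Sl)
        exact_mod_cast this
      _ ≤ ∑ l ∈ Finset.range q, (1 + eps) * (p.NX B / (q : ℝ) ^ (n + 1)) :=
        Finset.sum_le_sum hcard
      _ = (1 + eps) * (p.NX B / (q : ℝ) ^ n) := by
        rw [Finset.sum_const, Finset.card_range, nsmul_eq_mul, pow_succ]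
        have : (0 : ℝ) < q := by exact_mod_cast hq0
        field_simp
  -- one point
  have hone : ∀ x ∈ GF, ∑ y ∈ GF with ¬ BadPr G tau B x y, ((p.P2 k p.rho H x y).ncard : ℝ) ≤
      (1 + 4 * eps) * p.lam k m H * ((1 + eps) * p.NX B * (1 + E)) *
        ((p.P1 k r1 H x).ncard : ℝ) := by
    intro x hx
    have hx' := hx
    rw [hGF, Set.Finite.mem_toFinset] at hx'
    have hP1 : (0 : ℝ) ≤ ((p.P1 k r1 H x).ncard : ℝ) := Nat.cast_nonneg _
    set c : ℝ := (1 + 4 * eps) * p.lam k m H * ((p.P1 k r1 H x).ncard : ℝ) with hc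
    have hc0 : 0 ≤ c := by positivity
    have hterm : ∀ y ∈ GF.filter (fun y => ¬ BadPr G tau B x y),
        ((p.P2 k p.rho H x y).ncard : ℝ) ≤
          ∑ q ∈ QQ, c * psi q * (if q ∣ mg x y then 1 else 0) := by
      intro y hy
      rw [Finset.mem_filter] at hy
      obtain ⟨hyG, hgood⟩ := hy
      rw [hGF, Set.Finite.mem_toFinset] at hyG
      unfold BadPr at hgood
      push Not at hgood
      obtain ⟨q, hq0, hqm, hqW, hle⟩ := hPM x hx' y hyG hgood.1 hgood.2
      have hdl : 0 < dl x y := by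
        have h1 : (0 : ℝ) < tau * (B : ℝ) ^ 2 := by positivity
        have h2 := h1.trans_le hgood.2
        exact_mod_cast h2
      have hmg : 0 < mg x y := mg_pos_of_dl_pos x y hdl
      have hqG : q ≤ G := (Nat.le_of_dvd hmg hqm).trans hgood.1
      have hqQ : q ∈ QQ := by
        rw [hQQ, Finset.mem_filter, Finset.mem_Icc]
        exact ⟨⟨hq0, hqG⟩, hqW⟩
      have hnn : ∀ q ∈ QQ, 0 ≤ c * psi q * (if q ∣ mg x y then 1 else 0) := by
        intro q _
        refine mul_nonneg (mul_nonneg hc0 (hpsi.1 q)) ?_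
        split_ifs <;> norm_num
      refine le_trans ?_ (Finset.single_le_sum hnn hqQ)
      rw [if_pos hqm, mul_one]
      refine hle.trans (le_of_eq ?_)
      rw [hc]
      ring
    refine (Finset.sum_le_sum hterm).trans ?_
    rw [Finset.sum_comm]
    have h5 : ∀ q ∈ QQ, ∑ y ∈ GF with ¬ BadPr G tau B x y,
        c * psi q * (if q ∣ mg x y then (1 : ℝ) else 0) ≤
        c * ((1 + eps) * p.NX B) * (psi q / (q : ℝ) ^ n) := by
      intro q hq
      rw [← Finset.mul_sum, Finset.sum_ite, Finset.sum_const_zero, add_zero, Finset.sum_const,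
        nsmul_eq_mul, mul_one]
      have h6 : (((GF.filter (fun y => ¬ BadPr G tau B x y)).filter
          (fun y => q ∣ mg x y)).card : ℝ) ≤ (1 + eps) * (p.NX B / (q : ℝ) ^ n) := by
        refine le_trans ?_ (hcount x hx q hq)
        exact_mod_cast Finset.card_le_card
          (Finset.filter_subset_filter _ (Finset.filter_subset _ _))
      refine (mul_le_mul_of_nonneg_left h6 (mul_nonneg hc0 (hpsi.1 q))).trans (le_of_eq ?_)
      ring
    refine (Finset.sum_le_sum h5).trans ?_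
    rw [← Finset.mul_sum]
    have h7 := K2_sum p hp psi hpsi E hE G
    refine (mul_le_mul_of_nonneg_left h7 (by positivity)).trans (le_of_eq ?_)
    rw [hc]
    ring
  refine (Finset.sum_le_sum hone).trans ?_
  rw [← Finset.mul_sum]
  have hTT0 : 0 ≤ p.TT k m H := by
    unfold KPar.TT
    positivity
  have hXR : 0 ≤ p.XR p.rho H := by
    unfold KPar.XR
    positivity
  have hX : p.XR r1 H ≤ (1 + eps) * p.XR p.rho H := by
    have h1 : p.XR r1 H ≤ (1 + e0) ^ NN n d * p.XR p.rho H := by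
      unfold KPar.XR
      rw [← mul_pow]
      refine pow_le_pow_left₀ (by positivity) ?_ _
      have hQ : (0 : ℝ) < p.Q := by exact_mod_cast hp.Q_pos
      rw [mul_div_assoc', div_le_div_iff_of_pos_right hQ]
      nlinarith
    exact h1.trans (mul_le_mul_of_nonneg_right hup hXR)
  have hP1b : ∑ x ∈ GF, ((p.P1 k r1 H x).ncard : ℝ) ≤
      (1 + 8 * eps) * p.TT k m H * ((1 + eps) * p.XR p.rho H) :=
    hS1.trans (mul_le_mul_of_nonneg_left hX (by positivity))
  calc (1 + 4 * eps) * p.lam k m H * ((1 + eps) * p.NX B * (1 + E)) *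
        ∑ x ∈ GF, ((p.P1 k r1 H x).ncard : ℝ) ≤
      (1 + 4 * eps) * p.lam k m H * ((1 + eps) * p.NX B * (1 + E)) *
        ((1 + 8 * eps) * p.TT k m H * ((1 + eps) * p.XR p.rho H)) :=
        mul_le_mul_of_nonneg_left hP1b (by positivity)
    _ = ((1 + 4 * eps) * (1 + eps) * (1 + E) * (1 + 8 * eps) * (1 + eps)) *
        (p.TT k m H ^ 2 * p.XR p.rho H) := by
        simp only [KPar.TT, ← hBdef]
        ring
    _ ≤ (1 + 40 * eps + 5 * E) * (p.TT k m H ^ 2 * p.XR p.rho H) :=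
        mul_le_mul_of_nonneg_right (K2_num eps E he he1 hE0) (by positivity)
    _ = _ := by ring

end CovHP
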