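import Pool.Agent.Lib.MP_e426f4_ag.K.First
import Pool.Agent.Lib.MP_e426f4_ag.K.SecondMain
import Pool.Agent.Lib.MP_e426f4_ag.K.SecondBad2
import Pool.Agent.Lib.MP_e426f4_ag.K.SecondBad3

/-! Second moment and Cauchy-Schwarz for cyclic covers. -/

namespace CovHP

open GenHP Finset Filter Topology

private theorem ct_algebra (u v S N X Y : ℝ) (hu : 0 ≤ u) (hv : 0 ≤ v) (hu1 : u ≤ 1) (hX : 0 ≤ X)
    (hS : (1 - u) * X ≤ S) (hN : N ≤ (1 + v) * X) (hCS : S ^ 2 ≤ Y * N) (hY : 0 ≤ Y) :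
    (1 - 2 * u - v) * X ≤ Y := by
  rcases hX.eq_or_lt with rfl | hXp
  · simpa using hY
  have h1 : ((1 - u) * X) ^ 2 ≤ S ^ 2 := pow_le_pow_left₀ (mul_nonneg (by linarith) hX) hS 2
  have h2 : Y * N ≤ Y * ((1 + v) * X) := mul_le_mul_of_nonneg_left hN hY
  have h3 : (1 - u) ^ 2 * X ≤ Y * (1 + v) := by
    have h4 : (1 - u) ^ 2 * X * X ≤ Y * (1 + v) * X := by nlinarith
    exact le_of_mul_le_mul_right h4 hXp
  have h5 : (1 - 2 * u - v) * (1 + v) ≤ (1 - u) ^ 2 := by nlinarith [mul_nonneg hu hv]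
  have h6 : (1 - 2 * u - v) * X * (1 + v) ≤ Y * (1 + v) := by
    calc (1 - 2 * u - v) * X * (1 + v) = (1 - 2 * u - v) * (1 + v) * X := by ring
      _ ≤ (1 - u) ^ 2 * X := mul_le_mul_of_nonneg_right h5 hX
      _ ≤ Y * (1 + v) := h3
  exact le_of_mul_le_mul_right h6 (by linarith)

open Classical in
private theorem ct_bad {n d : ℕ} (p : KPar n d) {k m w : ℕ} {eps bet : ℝ}
    (hp : p.Valid k m eps bet w) (K : ℝ) (hK : 1 ≤ K) :
    ∃ (G : ℕ) (tau : ℝ), 1 ≤ G ∧ 0 < tau ∧ tau ≤ 1 ∧ ∀ᶠ H : ℝ in atTop,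
      ∑ x ∈ (GG_finite p K (Bk n k m H)).toFinset,
        ∑ y ∈ (GG_finite p K (Bk n k m H)).toFinset with
          x ≠ y ∧ BadPr G tau (Bk n k m H) x y, ((p.P2 k p.rho H x y).ncard : ℝ) ≤
        eps * p.TT k m H ^ 2 * p.XR p.rho H := by
  rcases (Nat.lt_or_ge 2 n) with h | h
  · exact S2_bad3 p hp h K hK
  · have hn : n = 2 := le_antisymm h hp.n_ge
    subst hn
    exact S2_bad2 p hp K hK

theorem second_moment {n d : ℕ} (p : KPar n d) {k m w : ℕ} {eps bet : ℝ}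
    (hp : p.Valid k m eps bet w)
    (psi : ℕ → ℝ) (hpsi : PsiBound k psi) (E : ℝ)
    (hE : ∀ N : ℕ, ∑ q ∈ Icc (w + 1) N, psi q / (q : ℝ) ^ n ≤ E) :
    ∀ᶠ H : ℝ in atTop,
      (Set.ncard {A | A ∈ p.Cl p.rho H ∧ ¬ KSol k A} : ℝ) ≤
        (100 * eps + 10 * E + 10 / w) * p.XR p.rho H := by
  classical
  have heps := hp.eps_pos
  have hk1 : 1 ≤ k := by have := hp.k_ge; omega
  have hw0 : (0 : ℝ) < w := by
    have := hp.w_two
    have : 0 < w := by omega
    exact_mod_cast this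
  have hE0 : 0 ≤ E := by
    have := hE 0
    simpa using this
  obtain ⟨K0, hK0, hlow⟩ := S1_lower p hp
  have hlow' := hlow K0 le_rfl
  have hup := S1_upper p hp K0 hK0 p.rho le_rfl (by linarith [hp.rho_pos])
  obtain ⟨G, tau, hG, htau, htau1, hbad⟩ := ct_bad p hp K0 hK0
  have hmain := S2_main p hp psi hpsi E hE K0 hK0 G hG tau htau htau1
  have hcl := card_Cl p hp.Q_pos p.rho eps hp.rho_pos heps
  have hTT' := (TT_atTop p hp).eventually_ge_atTop ((1 + 8 * eps) / eps)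
  filter_upwards [hlow', hup, hbad, hmain, hcl, hTT', Filter.eventually_ge_atTop 0] with H hlow hup
    hbad hmain hcl hTT hH0
  obtain ⟨-, hcl2⟩ := hcl
  have hX0 : 0 ≤ p.XR p.rho H := by
    unfold KPar.XR
    have := hp.rho_pos
    positivity
  set X : ℝ := p.XR p.rho H with hX
  set T : ℝ := p.TT k m H with hT
  have hT0 : 0 < T := lt_of_lt_of_le (by positivity) hTT
  set B := Bk n k m H with hB
  set CL : Finset (Idx n d → ℤ) := (Cl_finite p p.rho H).toFinset with hCL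
  set GF : Finset (Fin (n + 1) → ℤ) := (GG_finite p K0 B).toFinset with hGF
  set N : (Idx n d → ℤ) → ℕ := fun A => p.NA k K0 B A with hN
  have hS1 : ((∑ A ∈ CL, N A : ℕ) : ℝ) = ∑ x ∈ GF, ((p.P1 k p.rho H x).ncard : ℝ) := by
    rw [hCL, hGF, hN]
    have := sum_NA p hk1 p.rho H K0 B
    exact_mod_cast this
  have hS2 : ((∑ A ∈ CL, (N A) ^ 2 : ℕ) : ℝ) =
      ∑ x ∈ GF, ∑ y ∈ GF, ((p.P2 k p.rho H x y).ncard : ℝ) := by
    rw [hCL, hGF, hN]
    have := sum_NA_sq p hk1 p.rho H K0 B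
    exact_mod_cast this
  have hsplit : ∑ x ∈ GF, ∑ y ∈ GF, ((p.P2 k p.rho H x y).ncard : ℝ) ≤
      ∑ x ∈ GF, ((p.P1 k p.rho H x).ncard : ℝ) +
      ∑ x ∈ GF, ∑ y ∈ GF with x ≠ y ∧ BadPr G tau B x y, ((p.P2 k p.rho H x y).ncard : ℝ) +
      ∑ x ∈ GF, ∑ y ∈ GF with ¬ BadPr G tau B x y, ((p.P2 k p.rho H x y).ncard : ℝ) := by
    rw [← Finset.sum_add_distrib, ← Finset.sum_add_distrib]
    refine Finset.sum_le_sum fun x hx => ?_
    have h1 : ∑ y ∈ GF, ((p.P2 k p.rho H x y).ncard : ℝ) =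
        ∑ y ∈ GF with ¬ BadPr G tau B x y, ((p.P2 k p.rho H x y).ncard : ℝ) +
        ∑ y ∈ GF with ¬ ¬ BadPr G tau B x y, ((p.P2 k p.rho H x y).ncard : ℝ) :=
      (Finset.sum_filter_add_sum_filter_not GF _ _).symm
    have h2 : ∑ y ∈ GF with ¬ ¬ BadPr G tau B x y, ((p.P2 k p.rho H x y).ncard : ℝ) ≤
        ((p.P1 k p.rho H x).ncard : ℝ) +
        ∑ y ∈ GF with x ≠ y ∧ BadPr G tau B x y, ((p.P2 k p.rho H x y).ncard : ℝ) := by
      have h3 : GF.filter (fun y => ¬ ¬ BadPr G tau B x y) ⊆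
          insert x (GF.filter (fun y => x ≠ y ∧ BadPr G tau B x y)) := by
        intro y hy
        rw [Finset.mem_filter, not_not] at hy
        rw [Finset.mem_insert, Finset.mem_filter]
        by_cases hxy : y = x
        · exact Or.inl hxy
        · exact Or.inr ⟨hy.1, fun h => hxy h.symm, hy.2⟩
      refine (Finset.sum_le_sum_of_subset_of_nonneg h3
        (fun _ _ _ => Nat.cast_nonneg _)).trans ?_
      rw [Finset.sum_insert (by
        rw [Finset.mem_filter]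
        rintro ⟨-, h, -⟩
        exact h rfl), P2_self p hk1]
    linarith
  -- positive part
  set CP : Finset (Idx n d → ℤ) := CL.filter (fun A => 0 < N A) with hCP
  have hCS : (∑ A ∈ CL, (N A : ℝ)) ^ 2 ≤ (CP.card : ℝ) * ∑ A ∈ CL, (N A : ℝ) ^ 2 := by
    have e1 : ∑ A ∈ CL, (N A : ℝ) = ∑ A ∈ CP, (N A : ℝ) := by
      symm
      refine Finset.sum_subset (Finset.filter_subset _ _) fun A hA hA' => ?_
      have : ¬ 0 < N A := fun h => hA' (Finset.mem_filter.mpr ⟨hA, h⟩)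
      have h0 : N A = 0 := by omega
      rw [h0]
      simp
    rw [e1]
    refine (sq_sum_le_card_mul_sum_sq).trans (mul_le_mul_of_nonneg_left ?_ (by positivity))
    exact Finset.sum_le_sum_of_subset_of_nonneg (Finset.filter_subset _ _) fun _ _ _ => by positivity
  -- nonsoluble forms
  have hns : (Set.ncard {A | A ∈ p.Cl p.rho H ∧ ¬ KSol k A} : ℝ) ≤
      (p.Cl p.rho H).ncard - CP.card := by
    have e1 : (p.Cl p.rho H).ncard = CL.card := Set.ncard_eq_toFinset_card _ (Cl_finite p p.rho H)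
    have hsub : {A | A ∈ p.Cl p.rho H ∧ ¬ KSol k A} ⊆
        ((CL \ CP : Finset (Idx n d → ℤ)) : Set (Idx n d → ℤ)) := by
      intro A hA
      have hA1 : A ∈ CL := by
        rw [hCL, Set.Finite.mem_toFinset]
        exact hA.1
      rw [Finset.mem_coe, Finset.mem_sdiff]
      refine ⟨hA1, fun hAP => hA.2 ?_⟩
      have hpos := (Finset.mem_filter.mp hAP).2
      exact KSol_of_NA p K0 B A (by
        rw [hN] at hpos
        exact hpos.ne')
    have h3 : Set.ncard {A | A ∈ p.Cl p.rho H ∧ ¬ KSol k A} ≤ (CL \ CP).card := by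
      rw [← Set.ncard_coe_finset]
      exact Set.ncard_le_ncard hsub (Finset.finite_toSet _)
    have h4 : (CL \ CP).card + CP.card = CL.card :=
      Finset.card_sdiff_add_card_eq_card (Finset.filter_subset _ _)
    rw [e1]
    have h5 : Set.ncard {A | A ∈ p.Cl p.rho H ∧ ¬ KSol k A} + CP.card ≤ CL.card := by omega
    have h6 : ((Set.ncard {A | A ∈ p.Cl p.rho H ∧ ¬ KSol k A} : ℕ) : ℝ) + (CP.card : ℝ) ≤
        CL.card := by
      exact_mod_cast h5
    linarith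
  refine hns.trans ?_
  set u : ℝ := 8 * eps + 2 / w with hu
  set v : ℝ := 42 * eps + 5 * E with hv
  have hu0 : 0 ≤ u := by positivity
  have hv0 : 0 ≤ v := by positivity
  have hw' : 0 < 1 / (w : ℝ) := by positivity
  have e2 : 2 / (w : ℝ) = 2 * (1 / w) := by ring
  have e10 : 10 / (w : ℝ) = 10 * (1 / w) := by ring
  by_cases hu1 : u ≤ 1
  · have hS : (1 - u) * (T * X) ≤ ∑ A ∈ CL, (N A : ℝ) := by
      have : ((∑ A ∈ CL, N A : ℕ) : ℝ) = ∑ A ∈ CL, (N A : ℝ) := by push_cast; rfl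
      rw [← this, hS1]
      refine le_trans (le_of_eq ?_) hlow
      rw [hu]; ring
    have hN2 : ∑ A ∈ CL, (N A : ℝ) ^ 2 ≤ (1 + v) * (T ^ 2 * X) := by
      have h2 : ((∑ A ∈ CL, (N A) ^ 2 : ℕ) : ℝ) = ∑ A ∈ CL, (N A : ℝ) ^ 2 := by push_cast; rfl
      have h1 := hsplit
      rw [← hS2, h2] at h1
      have h3 : (1 + 8 * eps) * T ≤ eps * T ^ 2 := by
        rw [div_le_iff₀ heps] at hTT
        nlinarith
      have h4 : (1 + 8 * eps) * T * X ≤ eps * T ^ 2 * X := mul_le_mul_of_nonneg_right h3 hX0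
      rw [hv]
      nlinarith
    -- scale out T
    have hCP0 : (0 : ℝ) ≤ CP.card := by positivity
    have hkey := ct_algebra u v ((∑ A ∈ CL, (N A : ℝ)) / T) ((∑ A ∈ CL, (N A : ℝ) ^ 2) / T ^ 2)
      X CP.card hu0 hv0 hu1 hX0 ?_ ?_ ?_ hCP0
    · have h5 : ((p.Cl p.rho H).ncard : ℝ) - CP.card ≤ (1 + eps) * X - (1 - 2 * u - v) * X := by
        linarith
      refine h5.trans ?_
      have h6 : (1 + eps) * X - (1 - 2 * u - v) * X = (eps + 2 * u + v) * X := by ring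
      rw [h6]
      refine mul_le_mul_of_nonneg_right ?_ hX0
      rw [hu, hv, e2, e10]
      linarith
    · rw [le_div_iff₀ hT0]
      linarith
    · rw [div_le_iff₀ (by positivity)]
      linarith
    · rw [div_pow, ← mul_div_assoc]
      exact div_le_div_of_nonneg_right hCS (by positivity)
  · push Not at hu1
    have h7 : ((p.Cl p.rho H).ncard : ℝ) - CP.card ≤ (1 + eps) * X := by
      have : (0 : ℝ) ≤ CP.card := by positivity
      linarith
    refine h7.trans (mul_le_mul_of_nonneg_right ?_ hX0)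
    have := hp.eps_le
    rw [hu, e2] at hu1
    rw [e10]
    linarith

end CovHP
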